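import Mathlib
import Pool.Agent.ROP.Defs

set_option autoImplicit false

/-!
# NP ∩ coNP, circuits and a random oracle: definitions

As in `Pool.Agent.RO.Defs`, `Pool.Agent.ROA.Defs` and `Pool.Agent.ROP.Defs`, with many windows at each level, and with
advice strings for the reductions.  A window of the level with words of length `s` in the phase `l` has as its name a
word `i` of length `gg s l`; its cells are the words `w` of length `s`, and the cell `w` is a mark of the window `i` if
`i ++ w` is a mark (`RO.Mark`) of the oracle.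
-/

namespace Pool.Agent.RC

open Function N68a2faeb N793a5b8e N487b59b3 Pool.Agent.Helper22
open Pool.Agent.Helper20.Cons (join Po cRun)
open Pool.Agent.RO (Mark wx vx Vp pads pe lev qs)

/-! ## The parameters -/

/-- `4 ^ cc s` is at most `s / 16` and more than `s / 64` -/
def cc (s : ℕ) : ℕ := Nat.log 2 s / 2 - 2

/-- the expected number of marks of a window -/
def mu (s : ℕ) : ℕ := 64 ^ cc s

/-- the admitted deviation of the number of marks of a window -/
def dd (s : ℕ) : ℕ := 16 ^ cc s

/-- the number of the words of an instance -/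
def jj (s : ℕ) : ℕ := 2 * 16 ^ cc s

/-- a cell is a mark with probability `2 ^ (- kap s)` -/
def kap (s : ℕ) : ℕ := s - 6 * cc s

/-- one step of the computation of `lq`: multiplication by `1 + k / 64 ^ c`, then halving if possible -/
def stp (c k : ℕ) (p : ℕ × ℕ) : ℕ × ℕ :=
  if 16 * 16 ^ c ≤ p.1 + p.1 * k / 64 ^ c then ((p.1 + p.1 * k / 64 ^ c) / 2, p.2 + 1)
  else (p.1 + p.1 * k / 64 ^ c, p.2)

/-- the steps of the computation of `lq` -/
def run (c : ℕ) : ℕ → ℕ × ℕ
  | 0 => (8 * 16 ^ c, 0)
  | k + 1 => stp c (k + 1) (run c k)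

/-- `2 ^ lq c` is the product of the numbers `1 + k / 64 ^ c`, `k ≤ 16 ^ c`, up to a factor 3 -/
def lq (c : ℕ) : ℕ := (run c (16 ^ c)).2

/-- the length of the names of the windows -/
def gg (s l : ℕ) : ℕ := cc s + lq (cc s) - (l + 13)

/-- the bound for the length of the advice strings -/
def al (s : ℕ) : ℕ := 2 ^ (2 ^ (cc s + 3))

/-! ## The gadget -/

/-- `u` codes the name of a window and `jj s` different words of length `s` -/
def IsInst (s l : ℕ) (u : List Bool) : Prop :=
  cd (cf u) (lc (ld (cs u))) = u ∧ (cf u).length = gg s l ∧ (ld (cs u)).length = jj s ∧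
    (ld (cs u)).Nodup ∧ ∀ x ∈ ld (cs u), x.length = s

/-- all words of some translate of the instance `u` are marks of its window -/
def Sat (R : Oracle) (s : ℕ) (u : List Bool) : Prop :=
  ∃ y : List Bool, y.length = s ∧ ∀ x ∈ ld (cs u), Mark R (kap s) (cf u ++ wx y x)

/-- the marks of the window `i` -/
noncomputable def wmk (R : Oracle) (s : ℕ) (i : List Bool) : Finset (List.Vector Bool s) := by
  classical
  exact Finset.univ.filter fun w => Mark R (kap s) (i ++ w.1)

/-- the number of marks is as expected for all windows -/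
def Win (R : Oracle) (s l : ℕ) : Prop :=
  ∀ i : List Bool, i.length = gg s l →
    mu s - dd s ≤ (wmk R s i).card ∧ (wmk R s i).card < mu s + dd s

/-- four different marks of a window with sum zero -/
def Quad (R : Oracle) (s l : ℕ) : Prop :=
  ∃ i : List Bool, i.length = gg s l ∧ ∃ a b c d : List.Vector Bool s,
    ((a ≠ b ∧ a ≠ c ∧ a ≠ d) ∧ (b ≠ c ∧ b ≠ d ∧ c ≠ d)) ∧
    (a ∈ wmk R s i ∧ b ∈ wmk R s i ∧ c ∈ wmk R s i ∧ d ∈ wmk R s i) ∧ vx a b = vx c d

/-! ## The reductions -/

/-- the inputs of the trivial reduction number `l` -/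
def Dom (s l : ℕ) (x : List Bool) : Prop :=
  ∃ u v : List Bool, IsInst s l u ∧ v.length ≤ al s ∧ x = cd u v

/-- the reduction number `l` with the advice `v` to the language of the verifiers `V` is not correct
for some instance -/
def Wrong (V : Vp) (A R : Oracle) (s l : ℕ) (v : List Bool) : Prop :=
  ∃ u, IsInst s l u ∧ (¬ (ROA.acc V true A R l (cd u v) ↔ Sat R s u) ∨
    ¬ (ROA.acc V false A R l (cd u v) ↔ ¬ Sat R s u))

/-- the verifiers are not complementary on the image of some instance -/
def Inv (V : Vp) (A R : Oracle) (s l : ℕ) : Prop :=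
  ∃ v : List Bool, v.length ≤ al s ∧ ∃ u, IsInst s l u ∧
    (ROA.acc V true A R l (cd u v) ↔ ROA.acc V false A R l (cd u v))

/-- the reduction number `l` to the language of the verifiers `V` fails for all advice strings, or the
verifiers are not complementary -/
def Fail (V : Vp) (A R : Oracle) (s l : ℕ) : Prop :=
  Inv V A R s l ∨ ∀ v : List Bool, v.length ≤ al s → Wrong V A R s l v

/-! ## The levels -/

open Classical in
/-- the number of the levels less than `i` with a failure -/
noncomputable def cnt (V : Vp) (S : ℕ) (A R : Oracle) : ℕ → ℕ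
  | 0 => 0
  | i + 1 => cnt V S A R i + if Fail V A R (lev S i) (cnt V S A R i) then 1 else 0

/-- the new language: instances of the levels from `i₀` on -/
def Lng (V : Vp) (S i₀ : ℕ) (A R : Oracle) (z : List Bool) : Prop :=
  ∃ i, i₀ ≤ i ∧ IsInst (lev S i) (cnt V S A R i) z ∧ Sat R (lev S i) z

/-! ## Bounds -/

/-- everything which occurs for the level with words of length `s` and the number `l` is bounded by
`h` -/
structure HB (V : Vp) (s l h : ℕ) : Prop where
  two : 2 * (gg s l + s) ≤ h
  inst : ∀ u, IsInst s l u → u.length ≤ h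
  adv : al s ≤ h
  pad : ∀ x, Dom s l x → (pads l x).length ≤ h
  wit : ∀ x, Dom s l x → ∀ b, (V b).2.eval (pads l x).length ≤ h
  num : ∀ x, Dom s l x → ∀ (b : Bool) (R : Oracle) (w : List Bool),
    w.length ≤ (V b).2.eval (pads l x).length → (qs (V b).1 R (pads l x, w)).length ≤ h
  len : ∀ x, Dom s l x → ∀ (b : Bool) (R : Oracle) (w : List Bool),
    w.length ≤ (V b).2.eval (pads l x).length → ∀ q ∈ qs (V b).1 R (pads l x, w), q.length ≤ h

/-- the levels are large enough -/
def Big (V : Vp) (S : ℕ) : Prop :=
  ∀ i l, l ≤ i → 5 ≤ cc (lev S i) ∧ ∃ h, HB V (lev S i) l h ∧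
    4000 * (h + 9) ^ 2 ≤ 2 ^ gg (lev S i) l

/-! ## Polynomial size and subexponential size -/

/-- `L` is decided by a procedure of polynomial time with the oracle `X` and advice strings of length
at most `2 ^ (n ^ (1 / 6))` for almost all lengths `n`: the binary logarithm of the length of the
advice for the words of length `n`, rounded down, has a sixth power of at most `n` -/
def SubExp (X : Oracle) (L : DecisionProblem) : Prop :=
  ∃ (M : OracleProc (List Bool × List Bool) Bool) (v : ℕ → List Bool) (n₀ : ℕ),
    (∀ n, n₀ ≤ n → Nat.log 2 (v n).length ^ 6 ≤ n) ∧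
    ∀ x : List Bool, n₀ ≤ x.length → M.run X (x, v x.length) = L x

/-- `L` is in P/poly relative to the oracle `X` -/
def PPoly (X : Oracle) (L : DecisionProblem) : Prop :=
  ∃ (M : OracleProc (List Bool × List Bool) Bool) (p : Polynomial ℕ) (v : ℕ → List Bool),
    (∀ n, (v n).length ≤ p.eval n) ∧ ∀ x : List Bool, M.run X (x, v x.length) = L x

end Pool.Agent.RC
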