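import Mathlib
import Pool.Agent.RC.Defs

set_option autoImplicit false

/-!
# RC-Lq (job): the computation of `lq` is correct

`run c k = (x_k, e_k)`: start `x_0 = A := 8 * 16^c`, `e_0 = 0`; step: `x' = x + ⌊x k / 64^c⌋`, then halving (rounded down) and `e + 1` if `x' ≥ 2 A`.
Write `q_k = ∏_{i < k} (1 + (i+1) / 64^c)`.

PLAN. Induction on `k ≤ 16^c`: `A ≤ x_k < 2 A` (since `k / 64^c ≤ 1 / 4^c ≤ 1` we have `x' < 4 A`), `x_k 2^(e_k) ≤ A q_k`, and
`x_k 2^(e_k) ≥ A q_k (1 - 2 k / A)` (each step loses at most the factor `(1 - 1/A)(1 - 1/(2A)) ≥ 1 - 2/A`: the floor loses less than `1 ≤ x'/A`, the halving at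
most `1/2`, relative to a result `≥ A`; and `(1 - u)(1 - v) ≥ 1 - u - v`).  At `k = 16^c = A / 8`: `1 - 2k/A = 3/4`.  So
`2^lq ≤ q` (`A ≤ x`) and `q ≤ (4/3) x 2^lq / A < (8/3) 2^lq ≤ 3 * 2^lq`.
`lq_lower`: let `t = 4^c`, `t ≥ 4`.  The factors with `k > 16^c / 2` (there are `t²/2`) are at least `1 + 1/(2t)`, and `(1 + 1/(2t))^(2t) ≥ 2` (Bernoulli), so
`q ≥ 2^(t/4)`; with `q ≤ 3 * 2^lq ≤ 2^(lq + 2)`: `t / 4 ≤ lq + 2`.
`lq_upper`: all factors are at most `1 + 1/t` and `(1 + 1/t)^t ≤ 4` (e.g. `exp 1 < 3`), so `q ≤ 4^t`, and `2^lq ≤ q`.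
-/

namespace Pool.Agent.RC

open Finset

/-- the product of the first `k` factors -/
private noncomputable def lqQ (c k : ℕ) : ℝ :=
  ∏ i ∈ range k, (1 + ((i : ℝ) + 1) / ((64 ^ c : ℕ) : ℝ))

private theorem lqQ_succ (c k : ℕ) :
    lqQ c (k + 1) = lqQ c k * (1 + ((k : ℝ) + 1) / ((64 ^ c : ℕ) : ℝ)) := prod_range_succ _ _

private theorem lqQ_one (c k : ℕ) : 1 ≤ lqQ c k := by
  induction k with
  | zero => simp [lqQ]
  | succ k ih =>
    rw [lqQ_succ]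
    have h : (0 : ℝ) ≤ ((k : ℝ) + 1) / ((64 ^ c : ℕ) : ℝ) := by positivity
    nlinarith only [ih, h]

private theorem lq_inv (c k : ℕ) (hk : k ≤ 16 ^ c) :
    8 * 16 ^ c ≤ (run c k).1 ∧ (run c k).1 < 16 * 16 ^ c ∧ (run c k).2 ≤ k ∧
      ((run c k).1 : ℝ) * 2 ^ (run c k).2 ≤ ((8 * 16 ^ c : ℕ) : ℝ) * lqQ c k ∧
      lqQ c k * (((8 * 16 ^ c : ℕ) : ℝ) - k) ≤ ((run c k).1 : ℝ) * 2 ^ (run c k).2 := by
  induction k with
  | zero =>
    have h : (0 : ℕ) < 16 ^ c := by positivity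
    refine ⟨le_rfl, ?_, le_rfl, ?_, ?_⟩
    · show 8 * 16 ^ c < 16 * 16 ^ c
      omega
    · simp [run, lqQ]
    · simp [run, lqQ]
  | succ k ih =>
    obtain ⟨h1, h2, h3, h4, h5⟩ := ih (by omega)
    obtain ⟨x, hx⟩ : ∃ x, x = (run c k).1 := ⟨_, rfl⟩
    obtain ⟨e, he⟩ : ∃ e, e = (run c k).2 := ⟨_, rfl⟩
    obtain ⟨A, hA⟩ : ∃ A, A = 8 * 16 ^ c := ⟨_, rfl⟩
    obtain ⟨D, hD⟩ : ∃ D, D = 64 ^ c := ⟨_, rfl⟩
    obtain ⟨r, hr⟩ : ∃ r, r = x * (k + 1) / D := ⟨_, rfl⟩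
    have h2' : (run c k).1 < 2 * (8 * 16 ^ c) := by omega
    rw [← hx, ← hA] at h1 h2'
    rw [← he] at h3
    rw [← hx, ← he, ← hA] at h4 h5
    have hA2 : 16 * 16 ^ c = 2 * A := by omega
    have hDpos : 0 < D := by rw [hD]; positivity
    have hApos : 0 < A := by rw [hA]; positivity
    have hmD : k + 1 ≤ D := by
      rw [hD]
      exact hk.trans (Nat.pow_le_pow_left (by norm_num) c)
    have hrx : r ≤ x := by
      rw [hr]
      exact Nat.div_le_of_le_mul (by rw [mul_comm D]; exact Nat.mul_le_mul_left _ hmD)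
    have hr1 : r * D ≤ x * (k + 1) := by
      rw [hr]
      exact Nat.div_mul_le_self _ _
    have hr2 : x * (k + 1) < (r + 1) * D := by
      rw [hr, mul_comm _ D]
      exact Nat.lt_mul_div_succ _ hDpos
    have hDr : (0 : ℝ) < (D : ℝ) := by exact_mod_cast hDpos
    have hAr : (0 : ℝ) < (A : ℝ) := by exact_mod_cast hApos
    have hy1 : ((x + r : ℕ) : ℝ) ≤ x * (1 + ((k : ℝ) + 1) / (D : ℝ)) := by
      have e1 : (r : ℝ) * D ≤ x * (k + 1) := by exact_mod_cast hr1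
      have e2 : (r : ℝ) ≤ x * (k + 1) / D := (le_div_iff₀ hDr).2 e1
      push_cast
      rw [mul_add, mul_one, ← mul_div_assoc]
      linarith only [e2]
    have hy2 : x * (1 + ((k : ℝ) + 1) / (D : ℝ)) ≤ ((x + r : ℕ) : ℝ) + 1 := by
      have e1 : (x : ℝ) * (k + 1) ≤ (r + 1) * D := by exact_mod_cast hr2.le
      have e2 : (x : ℝ) * (k + 1) / D ≤ r + 1 := (div_le_iff₀ hDr).2 e1
      push_cast
      rw [mul_add, mul_one, ← mul_div_assoc]
      linarith only [e2]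
    have hf : (0 : ℝ) < 1 + ((k : ℝ) + 1) / (D : ℝ) := by positivity
    have h2e : (0 : ℝ) < 2 ^ e := by positivity
    have hq := lqQ_one c k
    have hkA : ((k : ℝ) + 1) ≤ A := by
      have : k + 1 ≤ A := by omega
      exact_mod_cast this
    -- the general step
    have gen : ∀ (y f : ℕ), A ≤ y → ((y : ℝ) * 2 ^ f ≤ ((x + r : ℕ) : ℝ) * 2 ^ e) →
        (((x + r : ℕ) : ℝ) + 1) * 2 ^ e ≤ ((y : ℝ) + 1) * 2 ^ f →
        ((y : ℝ) * 2 ^ f ≤ (A : ℝ) * lqQ c (k + 1) ∧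
          lqQ c (k + 1) * ((A : ℝ) - ((k + 1 : ℕ) : ℝ)) ≤ (y : ℝ) * 2 ^ f) := by
      intro y f hy ha hb
      rw [lqQ_succ, ← hD]
      constructor
      · calc (y : ℝ) * 2 ^ f ≤ ((x + r : ℕ) : ℝ) * 2 ^ e := ha
          _ ≤ (x * (1 + ((k : ℝ) + 1) / (D : ℝ))) * 2 ^ e := mul_le_mul_of_nonneg_right hy1 h2e.le
          _ = (x * 2 ^ e) * (1 + ((k : ℝ) + 1) / (D : ℝ)) := by ring
          _ ≤ (A * lqQ c k) * (1 + ((k : ℝ) + 1) / (D : ℝ)) := mul_le_mul_of_nonneg_right h4 hf.le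
          _ = _ := by ring
      · have hyr : (A : ℝ) ≤ y := by exact_mod_cast hy
        have hyp : (0 : ℝ) < y := hAr.trans_le hyr
        -- `(y + 1) (A - 1) ≤ y A`
        have e1 : ((y : ℝ) + 1) * (A - 1) ≤ y * A := by nlinarith only [hyr]
        have hA1 : (0 : ℝ) ≤ (A : ℝ) - 1 := by
          have : (1 : ℕ) ≤ A := hApos
          have h : (1 : ℝ) ≤ A := by exact_mod_cast this
          linarith only [h]
        have h2f : (0 : ℝ) < 2 ^ f := by positivity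
        have e2 : (lqQ c k * (A - k)) * (1 + ((k : ℝ) + 1) / (D : ℝ)) ≤ ((y : ℝ) + 1) * 2 ^ f := by
          calc (lqQ c k * (A - k)) * (1 + ((k : ℝ) + 1) / (D : ℝ))
              ≤ (x * 2 ^ e) * (1 + ((k : ℝ) + 1) / (D : ℝ)) := mul_le_mul_of_nonneg_right h5 hf.le
            _ = (x * (1 + ((k : ℝ) + 1) / (D : ℝ))) * 2 ^ e := by ring
            _ ≤ (((x + r : ℕ) : ℝ) + 1) * 2 ^ e := mul_le_mul_of_nonneg_right hy2 h2e.le
            _ ≤ _ := hb
        have e3 : (lqQ c k * (A - k)) * (1 + ((k : ℝ) + 1) / (D : ℝ)) * (A - 1) ≤ (y * 2 ^ f) * A := by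
          calc (lqQ c k * (A - k)) * (1 + ((k : ℝ) + 1) / (D : ℝ)) * (A - 1)
              ≤ (((y : ℝ) + 1) * 2 ^ f) * (A - 1) := mul_le_mul_of_nonneg_right e2 hA1
            _ = (((y : ℝ) + 1) * (A - 1)) * 2 ^ f := by ring
            _ ≤ (y * A) * 2 ^ f := mul_le_mul_of_nonneg_right e1 h2f.le
            _ = _ := by ring
        have e4 : ((A : ℝ) - ((k + 1 : ℕ) : ℝ)) * A ≤ (A - k) * (A - 1) := by
          push_cast
          have hk0 : (0 : ℝ) ≤ k := Nat.cast_nonneg k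
          nlinarith only [hk0]
        have hqf : (0 : ℝ) ≤ lqQ c k * (1 + ((k : ℝ) + 1) / (D : ℝ)) := by positivity
        have e5 := mul_le_mul_of_nonneg_left e4 hqf
        have e6 : (lqQ c k * (1 + ((k : ℝ) + 1) / (D : ℝ)) * ((A : ℝ) - ((k + 1 : ℕ) : ℝ))) * A ≤
            (y * 2 ^ f) * A := by
          calc (lqQ c k * (1 + ((k : ℝ) + 1) / (D : ℝ)) * ((A : ℝ) - ((k + 1 : ℕ) : ℝ))) * A
              = lqQ c k * (1 + ((k : ℝ) + 1) / (D : ℝ)) * (((A : ℝ) - ((k + 1 : ℕ) : ℝ)) * A) := by ring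
            _ ≤ lqQ c k * (1 + ((k : ℝ) + 1) / (D : ℝ)) * ((A - k) * (A - 1)) := e5
            _ = (lqQ c k * (A - k)) * (1 + ((k : ℝ) + 1) / (D : ℝ)) * (A - 1) := by ring
            _ ≤ _ := e3
        exact le_of_mul_le_mul_right e6 hAr
    have hrun : run c (k + 1) = if 2 * A ≤ x + r then ((x + r) / 2, e + 1) else (x + r, e) := by
      show stp c (k + 1) (run c k) = _
      unfold stp
      rw [← hx, ← he, ← hD, ← hr, hA2]
    rw [hrun, ← hA]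
    by_cases hc : 2 * A ≤ x + r
    · rw [if_pos hc]
      have hdiv1 : (x + r) / 2 * 2 ≤ x + r := Nat.div_mul_le_self _ _
      have hdiv2 : x + r + 1 ≤ ((x + r) / 2 + 1) * 2 := by omega
      obtain ⟨g1, g2⟩ := gen ((x + r) / 2) (e + 1) (by omega) (by
        have e1 : (((x + r) / 2 : ℕ) : ℝ) * 2 ≤ ((x + r : ℕ) : ℝ) := by exact_mod_cast hdiv1
        have e2 := mul_le_mul_of_nonneg_right e1 h2e.le
        rw [pow_succ]
        linarith only [e2]) (by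
        have e1 : ((x + r : ℕ) : ℝ) + 1 ≤ ((((x + r) / 2 : ℕ) : ℝ) + 1) * 2 := by exact_mod_cast hdiv2
        have e2 := mul_le_mul_of_nonneg_right e1 h2e.le
        rw [pow_succ]
        linarith only [e2])
      refine ⟨?_, ?_, ?_, g1, g2⟩
      · show A ≤ (x + r) / 2
        omega
      · show (x + r) / 2 < 16 * 16 ^ c
        omega
      · show e + 1 ≤ k + 1
        omega
    · rw [if_neg hc]
      obtain ⟨g1, g2⟩ := gen (x + r) e (by omega) le_rfl le_rfl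
      refine ⟨?_, ?_, ?_, g1, g2⟩
      · show A ≤ x + r
        omega
      · show x + r < 16 * 16 ^ c
        omega
      · show e ≤ k + 1
        omega

theorem lq_le (c : ℕ) :
    (2 : ℝ) ^ lq c ≤ ∏ k ∈ range (16 ^ c), (1 + ((k : ℝ) + 1) / ((64 ^ c : ℕ) : ℝ)) := by
  obtain ⟨h1, h2, h3, h4, h5⟩ := lq_inv c (16 ^ c) le_rfl
  show (2 : ℝ) ^ (run c (16 ^ c)).2 ≤ lqQ c (16 ^ c)
  have hA : (0 : ℝ) < ((8 * 16 ^ c : ℕ) : ℝ) := by
    have : 0 < 8 * 16 ^ c := by positivity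
    exact_mod_cast this
  have h6 : ((8 * 16 ^ c : ℕ) : ℝ) ≤ ((run c (16 ^ c)).1 : ℝ) := by exact_mod_cast h1
  have h7 : (0 : ℝ) < 2 ^ (run c (16 ^ c)).2 := by positivity
  have h8 := (mul_le_mul_of_nonneg_right h6 h7.le).trans h4
  exact le_of_mul_le_mul_left h8 hA

theorem lq_ge (c : ℕ) :
    ∏ k ∈ range (16 ^ c), (1 + ((k : ℝ) + 1) / ((64 ^ c : ℕ) : ℝ)) ≤ 3 * (2 : ℝ) ^ lq c := by
  obtain ⟨h1, h2, h3, h4, h5⟩ := lq_inv c (16 ^ c) le_rfl
  show lqQ c (16 ^ c) ≤ 3 * (2 : ℝ) ^ (run c (16 ^ c)).2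
  have hB : (0 : ℝ) < ((16 ^ c : ℕ) : ℝ) := by
    have : 0 < 16 ^ c := by positivity
    exact_mod_cast this
  have h6 : ((run c (16 ^ c)).1 : ℝ) ≤ 16 * ((16 ^ c : ℕ) : ℝ) := by exact_mod_cast h2.le
  have h7 : (0 : ℝ) < 2 ^ (run c (16 ^ c)).2 := by positivity
  have h8 := h5.trans (mul_le_mul_of_nonneg_right h6 h7.le)
  have h9 : ((8 * 16 ^ c : ℕ) : ℝ) = 8 * ((16 ^ c : ℕ) : ℝ) := by push_cast; ring
  rw [h9] at h8
  have h10 : (7 * lqQ c (16 ^ c)) * ((16 ^ c : ℕ) : ℝ) ≤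
      (16 * 2 ^ (run c (16 ^ c)).2) * ((16 ^ c : ℕ) : ℝ) := by linarith only [h8]
  have h11 := le_of_mul_le_mul_right h10 hB
  linarith only [h11, h7]

theorem lq_lower {c : ℕ} (hc : 1 ≤ c) : 4 ^ c ≤ 4 * (lq c + 2) := by
  obtain ⟨b, rfl⟩ : ∃ b, c = b + 1 := ⟨c - 1, by omega⟩
  obtain ⟨t, ht⟩ : ∃ t, t = 4 ^ b := ⟨_, rfl⟩
  have htpos : 0 < t := by rw [ht]; positivity
  have e4 : 4 ^ (b + 1) = 4 * t := by rw [ht, pow_succ]; ring
  have e16 : 16 ^ (b + 1) = 8 * t * t + 8 * t * t := by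
    have : (16 : ℕ) ^ (b + 1) = (4 ^ (b + 1)) ^ 2 := by rw [← pow_mul, mul_comm, pow_mul]; norm_num
    rw [this, e4]
    ring
  have e64 : 64 ^ (b + 1) = 64 * t * t * t := by
    have : (64 : ℕ) ^ (b + 1) = (4 ^ (b + 1)) ^ 3 := by rw [← pow_mul, mul_comm, pow_mul]; norm_num
    rw [this, e4]
    ring
  have htr : (0 : ℝ) < (t : ℝ) := by exact_mod_cast htpos
  have h1 := lq_ge (b + 1)
  have h2 : (2 : ℝ) ^ t ≤ ∏ k ∈ range (16 ^ (b + 1)), (1 + ((k : ℝ) + 1) / ((64 ^ (b + 1) : ℕ) : ℝ)) := by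
    rw [e16, e64, prod_range_add]
    have h3 : (1 : ℝ) ≤ ∏ k ∈ range (8 * t * t), (1 + ((k : ℝ) + 1) / ((64 * t * t * t : ℕ) : ℝ)) := by
      have h6 := Finset.prod_le_prod (s := range (8 * t * t)) (f := fun _ : ℕ => (1 : ℝ))
        (g := fun k : ℕ => 1 + ((k : ℝ) + 1) / ((64 * t * t * t : ℕ) : ℝ)) (fun _ _ => zero_le_one)
        (fun k _ => by
          have : (0 : ℝ) ≤ ((k : ℝ) + 1) / ((64 * t * t * t : ℕ) : ℝ) := by positivity
          linarith only [this])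
      rwa [prod_const_one] at h6
    have h4 : (2 : ℝ) ^ t ≤ ∏ k ∈ range (8 * t * t), (1 + (((8 * t * t + k : ℕ) : ℝ) + 1) /
        ((64 * t * t * t : ℕ) : ℝ)) := by
      have h5 : ∏ _k ∈ range (8 * t * t), (1 + 1 / (8 * (t : ℝ))) ≤
          ∏ k ∈ range (8 * t * t), (1 + (((8 * t * t + k : ℕ) : ℝ) + 1) / ((64 * t * t * t : ℕ) : ℝ)) := by
        refine prod_le_prod (fun k _ => by positivity) (fun k _ => ?_)
        have h6 : 1 / (8 * (t : ℝ)) ≤ (((8 * t * t + k : ℕ) : ℝ) + 1) / ((64 * t * t * t : ℕ) : ℝ) := by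
          rw [div_le_div_iff₀ (by positivity) (by positivity)]
          push_cast
          have hk : (0 : ℝ) ≤ k := Nat.cast_nonneg k
          have e1 : (0 : ℝ) ≤ (k + 1) * (8 * t) := by positivity
          linarith only [e1]
        linarith only [h6]
      rw [prod_const, card_range] at h5
      refine le_trans ?_ h5
      have h6 : (2 : ℝ) ≤ (1 + 1 / (8 * (t : ℝ))) ^ (8 * t) := by
        have h7 := one_add_mul_le_pow (a := 1 / (8 * (t : ℝ))) (by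
          have : (0 : ℝ) ≤ 1 / (8 * (t : ℝ)) := by positivity
          linarith only [this]) (8 * t)
        have h8 : ((8 * t : ℕ) : ℝ) * (1 / (8 * (t : ℝ))) = 1 := by
          push_cast
          field_simp
        rw [h8] at h7
        linarith only [h7]
      rw [pow_mul]
      exact pow_le_pow_left₀ two_pos.le h6 t
    have h9 : (0 : ℝ) ≤ ∏ k ∈ range (8 * t * t), (1 + (((8 * t * t + k : ℕ) : ℝ) + 1) /
        ((64 * t * t * t : ℕ) : ℝ)) := prod_nonneg fun k _ => by positivity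
    calc (2 : ℝ) ^ t ≤ 1 * ∏ k ∈ range (8 * t * t), (1 + (((8 * t * t + k : ℕ) : ℝ) + 1) /
        ((64 * t * t * t : ℕ) : ℝ)) := by rw [one_mul]; exact h4
      _ ≤ _ := mul_le_mul_of_nonneg_right h3 h9
  have h3 : (2 : ℝ) ^ t ≤ 2 ^ (lq (b + 1) + 2) := by
    have h4 : (0 : ℝ) < 2 ^ lq (b + 1) := by positivity
    rw [pow_add]
    linarith only [h1, h2, h4]
  have h4 : t ≤ lq (b + 1) + 2 := (pow_le_pow_iff_right₀ one_lt_two).1 h3
  rw [e4]
  exact Nat.mul_le_mul_left 4 h4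

theorem lq_upper (c : ℕ) : lq c ≤ 2 * 4 ^ c := by
  obtain ⟨t, ht⟩ : ∃ t, t = 4 ^ c := ⟨_, rfl⟩
  have htpos : 0 < t := by rw [ht]; positivity
  have htr : (0 : ℝ) < (t : ℝ) := by exact_mod_cast htpos
  have e16 : 16 ^ c = t * t := by
    have : (16 : ℕ) ^ c = (4 ^ c) ^ 2 := by rw [← pow_mul, mul_comm, pow_mul]; norm_num
    rw [this, ← ht]
    ring
  have e64 : 64 ^ c = t * t * t := by
    have : (64 : ℕ) ^ c = (4 ^ c) ^ 3 := by rw [← pow_mul, mul_comm, pow_mul]; norm_num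
    rw [this, ← ht]
    ring
  have h1 := lq_le c
  rw [e16, e64] at h1
  have h2 : ∏ k ∈ range (t * t), (1 + ((k : ℝ) + 1) / ((t * t * t : ℕ) : ℝ)) ≤
      ∏ _k ∈ range (t * t), (1 + 1 / (t : ℝ)) := by
    refine prod_le_prod (fun k _ => by positivity) (fun k hk => ?_)
    have hk' : ((k : ℝ) + 1) ≤ t * t := by
      have : k + 1 ≤ t * t := mem_range.1 hk
      exact_mod_cast this
    have h3 : ((k : ℝ) + 1) / ((t * t * t : ℕ) : ℝ) ≤ 1 / (t : ℝ) := by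
      rw [div_le_div_iff₀ (by positivity) htr]
      push_cast
      have := mul_le_mul_of_nonneg_right hk' htr.le
      linarith only [this]
    linarith only [h3]
  rw [prod_const, card_range, pow_mul] at h2
  have h3 : (1 + 1 / (t : ℝ)) ^ t ≤ 4 := by
    have h4 : 1 + 1 / (t : ℝ) ≤ Real.exp (1 / (t : ℝ)) := by
      rw [add_comm]
      exact Real.add_one_le_exp _
    have h5 := pow_le_pow_left₀ (by positivity : (0 : ℝ) ≤ 1 + 1 / (t : ℝ)) h4 t
    rw [← Real.exp_nat_mul, mul_one_div_cancel htr.ne'] at h5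
    have h6 := Real.exp_one_lt_d9
    linarith only [h5, h6]
  have h4 : ((1 + 1 / (t : ℝ)) ^ t) ^ t ≤ (4 : ℝ) ^ t := pow_le_pow_left₀ (by positivity) h3 t
  have h5 : (4 : ℝ) ^ t = 2 ^ (2 * t) := by rw [pow_mul]; norm_num
  rw [h5] at h4
  have h6 := (h1.trans h2).trans h4
  rw [← ht]
  exact (pow_le_pow_iff_right₀ one_lt_two).1 h6

/-- all steps: the first number stays below `16 * 16 ^ c`, the second is at most the number of the
steps -/
theorem run_bound (c k : ℕ) (hk : k ≤ 16 ^ c) :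
    (run c k).1 < 16 * 16 ^ c ∧ (run c k).2 ≤ k :=
  ⟨(lq_inv c k hk).2.1, (lq_inv c k hk).2.2.1⟩

end Pool.Agent.RC
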