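import Mathlib
import Pool.Agent.RC.Lq

set_option autoImplicit false

/-!
# RC-Par (job): elementary facts about the parameters

`cc s = Nat.log 2 s / 2 - 2`.  If `1 ≤ cc s` then `2 * cc s + 4 ≤ Nat.log 2 s`, so `16 * 4^(cc s) = 2^(2 cc s + 4) ≤ s` (`Nat.pow_log_le_self`); always
`Nat.log 2 s ≤ 2 * cc s + 5`, so `s < 2^(2 cc s + 6) = 64 * 4^(cc s)` (`Nat.lt_pow_succ_log_self`; `s = 0` is trivial).
`gg_le`: `gg s l ≤ cc s + lq (cc s) ≤ cc s + 2 * 4^(cc s)` (`lq_upper`).  `par_s`: `13 c + 2 * 4^c + .. ≤ 16 * 4^c` for `c ≥ 5` (`c < 4^c`, better: `100 c ≤ 4^c`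
for `c ≥ 5`).
`inst_length`: `u = cd (cf u) (lc (ld (cs u)))`, `cd_length` (`|cd a b| = 2 |a| + 1 + |b|`), and `|lc L| = L.length * (2 s + 1)` if all words of `L` have
length `s` (induction; see `lc_len` in `Pool/Agent/RO/CCrt.lean`).
`inst_le`: `2 gg + 1 + 2 * 16^c (2 s + 1) ≤ 2 (c + 2 * 4^c) + 1 + 2 * 16^c * 128 * 4^c ≤ 512 * 64^c`.
`adv_bound`: `L := Nat.log 2 |v|`, `L^6 ≤ |u| ≤ 2^(10 + 6 c) < (2^(c+2))^6`, so `L < 2^(c+2)` and `|v| < 2^(L+1) ≤ 2^(2^(c+2)) ≤ al s`.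
`par_big`: `4000 (h+9)² ≤ 2^gg` gives `gg > 0`, so `l + 13 < cc s + lq (cc s)`, and
`1024 (h + 9)(h + 1) 4096^c ≤ 2^gg * 2^(12 c) ≤ 2^(13 c + 2 * 4^c) ≤ 2^s`.
-/

namespace Pool.Agent.RC

open N68a2faeb N793a5b8e N487b59b3 Pool.Agent.Helper22

private theorem pr_four (c : ℕ) : 4 ^ c = 2 ^ (2 * c) := by
  rw [pow_mul]
  norm_num

theorem cc_le {s : ℕ} (h : 1 ≤ cc s) : 16 * 4 ^ cc s ≤ s := by
  have h1 : 2 * cc s + 4 ≤ Nat.log 2 s := by
    unfold cc at *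
    omega
  have h0 : s ≠ 0 := by
    rintro rfl
    simp at h1
  have h2 : 2 ^ (2 * cc s + 4) ≤ 2 ^ Nat.log 2 s := Nat.pow_le_pow_right (by norm_num) h1
  have h3 := Nat.pow_log_le_self 2 h0
  rw [pr_four]
  calc 16 * 2 ^ (2 * cc s) = 2 ^ (2 * cc s + 4) := by rw [pow_add]; ring
    _ ≤ s := h2.trans h3

theorem lt_cc (s : ℕ) : s < 64 * 4 ^ cc s := by
  have h1 : Nat.log 2 s + 1 ≤ 2 * cc s + 6 := by
    unfold cc
    omega
  have h2 : s < 2 ^ (Nat.log 2 s + 1) := Nat.lt_pow_succ_log_self (by norm_num) s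
  have h3 : 2 ^ (Nat.log 2 s + 1) ≤ 2 ^ (2 * cc s + 6) := Nat.pow_le_pow_right (by norm_num) h1
  rw [pr_four]
  calc s < 2 ^ (2 * cc s + 6) := lt_of_lt_of_le h2 h3
    _ = 64 * 2 ^ (2 * cc s) := by rw [pow_add]; ring

theorem jj_pos (s : ℕ) : 0 < jj s := by
  unfold jj
  positivity

private theorem pr_lt (c : ℕ) : c < 4 ^ c := Nat.lt_pow_self (by norm_num)

private theorem pr_big {c : ℕ} (h : 5 ≤ c) : 100 * c ≤ 4 ^ c := by
  induction c, h using Nat.le_induction with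
  | base => norm_num
  | succ c hc ih =>
    rw [pow_succ]
    omega

theorem kap_eq {s : ℕ} (h : 1 ≤ cc s) : kap s + 6 * cc s = s ∧ 1 ≤ kap s := by
  have h1 := cc_le h
  have h2 := pr_lt (cc s)
  unfold kap
  constructor <;> omega

theorem two_pow_kap {s : ℕ} (h : 1 ≤ cc s) : 2 ^ s = 64 ^ cc s * 2 ^ kap s := by
  have h1 := (kap_eq h).1
  have h2 : 64 ^ cc s = 2 ^ (6 * cc s) := by
    rw [pow_mul]
    norm_num
  rw [h2, ← pow_add, add_comm, h1]

theorem gg_le (s l : ℕ) : gg s l ≤ cc s + 2 * 4 ^ cc s := by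
  have h := lq_upper (cc s)
  unfold gg
  omega

theorem par_s {s : ℕ} (h : 5 ≤ cc s) (l : ℕ) : gg s l + 40 * cc s + 4 ^ cc s ≤ s := by
  have h1 := gg_le s l
  have h2 := pr_big h
  have h3 := cc_le (s := s) (by omega)
  omega

theorem gg_lower {s : ℕ} (h : 5 ≤ cc s) (l : ℕ) : 4 ^ cc s ≤ 4 * (gg s l + l + 15) := by
  have h1 := lq_lower (c := cc s) (by omega)
  unfold gg
  omega

private theorem pr_lc (s : ℕ) (L : List (List Bool)) (h : ∀ w ∈ L, w.length = s) :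
    (lc L).length = L.length * (2 * s + 1) := by
  induction L with
  | nil => simp [lc]
  | cons a L ih =>
    rw [lc, cd_length, h a List.mem_cons_self, ih fun w hw => h w (List.mem_cons_of_mem _ hw),
      List.length_cons]
    ring

theorem inst_length {s l : ℕ} {u : List Bool} (h : IsInst s l u) :
    u.length = 2 * gg s l + 1 + jj s * (2 * s + 1) := by
  obtain ⟨h1, h2, h3, -, h5⟩ := h
  rw [← h1, cd_length, h2, pr_lc s _ h5, h3]

private theorem pr_c {c : ℕ} : 4 ^ c ≤ 16 ^ c := Nat.pow_le_pow_left (by norm_num) c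

theorem inst_le {s : ℕ} (h : 5 ≤ cc s) (l : ℕ) :
    2 * gg s l + 1 + jj s * (2 * s + 1) ≤ 512 * 64 ^ cc s := by
  have h1 := gg_le s l
  have h2 := pr_big h
  have h3 := lt_cc s
  unfold jj
  generalize cc s = c at *
  have h4 : 64 ^ c = 16 ^ c * 4 ^ c := by
    rw [← mul_pow]
    norm_num
  have h5 : 2 * s + 1 ≤ 128 * 4 ^ c := by omega
  have h6 : 2 * 16 ^ c * (2 * s + 1) ≤ 2 * 16 ^ c * (128 * 4 ^ c) := Nat.mul_le_mul_left _ h5
  have h7 : 2 * 16 ^ c * (128 * 4 ^ c) = 256 * 64 ^ c := by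
    rw [h4]
    ring
  have h8 : 4 ^ c ≤ 64 ^ c := Nat.pow_le_pow_left (by norm_num) c
  omega

theorem le_inst {s l : ℕ} {u : List Bool} (h : IsInst s l u) : s ≤ u.length := by
  rw [inst_length h]
  have h1 := jj_pos s
  have h2 : 1 * (2 * s + 1) ≤ jj s * (2 * s + 1) := Nat.mul_le_mul_right _ h1
  omega

theorem adv_bound {s l : ℕ} {u v : List Bool} (hc : 5 ≤ cc s) (h : IsInst s l u)
    (hv : Nat.log 2 v.length ^ 6 ≤ u.length) : v.length ≤ al s := by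
  have h1 : u.length ≤ 512 * 64 ^ cc s := by
    rw [inst_length h]
    exact inst_le hc l
  unfold al
  generalize cc s = c at *
  have h2 : Nat.log 2 v.length < 2 ^ (c + 2) := by
    by_contra hcon
    push Not at hcon
    have h3 := Nat.pow_le_pow_left hcon 6
    have h4 : (2 ^ (c + 2)) ^ 6 = 4096 * 64 ^ c := by
      rw [← pow_mul, show (c + 2) * 6 = 12 + 6 * c by ring, pow_add, pow_mul]
      norm_num
    rw [h4] at h3
    have h5 : 0 < 64 ^ c := by positivity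
    omega
  have h3 : v.length < 2 ^ (Nat.log 2 v.length + 1) :=
    Nat.lt_pow_succ_log_self (by norm_num) _
  have h4 : 2 ^ (Nat.log 2 v.length + 1) ≤ 2 ^ (2 ^ (c + 3)) := by
    apply Nat.pow_le_pow_right (by norm_num)
    have h5 : 2 ^ (c + 3) = 2 * 2 ^ (c + 2) := by
      rw [show c + 3 = (c + 2) + 1 by ring, pow_succ]
      ring
    omega
  omega

theorem par_big {s l h : ℕ} (hc : 5 ≤ cc s) (hb : 4000 * (h + 9) ^ 2 ≤ 2 ^ gg s l) :
    l + 13 ≤ cc s + lq (cc s) ∧ 1024 * ((h + 9) * (h + 1)) * 4096 ^ cc s ≤ 2 ^ s := by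
  have hh : 1 ≤ (h + 9) ^ 2 := Nat.one_le_pow _ _ (by omega)
  constructor
  · by_contra hcon
    have h1 : gg s l = 0 := by
      unfold gg
      omega
    rw [h1, pow_zero] at hb
    omega
  · have h1 : gg s l + 12 * cc s ≤ s := by
      have h0 := par_s hc l
      generalize 4 ^ cc s = f at h0
      omega
    have h2 : (h + 9) * (h + 1) ≤ (h + 9) ^ 2 := by
      rw [sq]
      exact Nat.mul_le_mul_left _ (by omega)
    have h3 : 1024 * ((h + 9) * (h + 1)) ≤ 2 ^ gg s l := by omega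
    have h4 : 4096 ^ cc s = 2 ^ (12 * cc s) := by
      rw [pow_mul]
      norm_num
    calc 1024 * ((h + 9) * (h + 1)) * 4096 ^ cc s ≤ 2 ^ gg s l * 2 ^ (12 * cc s) := by
          rw [h4]
          exact Nat.mul_le_mul_right _ h3
      _ = 2 ^ (gg s l + 12 * cc s) := by rw [pow_add]
      _ ≤ 2 ^ s := Nat.pow_le_pow_right (by norm_num) h1

end Pool.Agent.RC
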