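import Mathlib
import Pool.Agent.RO.CWx
import Pool.Agent.RC.Par

set_option autoImplicit false

/-!
# RC-Cg (job): the notions of a level depend only on words of bounded length

ADAPT `Pool/Agent/ROP/Cg.lean` (see also `ROA.join_congr` in `Pool/Agent/ROA/Defs.lean`).  The words in `Sat`, `Win` are `i ++ w ++ un a` with `|i| = gg s l`,
`|w| = s`, `a < kap s ≤ s`, of length at most `gg s l + 2 s ≤ h` (`HB.two`).  `Wrong`, `Inv`, `Fail` ask for instances `u` and advices `v` with `|v| ≤ al s`, so
`cd u v` is in `Dom s l` and `acc_congr` applies.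
-/

namespace Pool.Agent.RC

open Pool.Agent.Helper22 N487b59b3
open Pool.Agent.Helper20.Cons (join Po cRun)
open Pool.Agent.RO (Vp pads lev qs run_congr)

private theorem mark_congr {κ g n h : ℕ} (h2 : g + 2 * n ≤ h) (hκ : κ ≤ n) {R R' : Oracle}
    (hR : ∀ u : List Bool, u.length ≤ h → R u = R' u) {w : List Bool} (hw : w.length ≤ g + n) :
    RO.Mark R κ w ↔ RO.Mark R' κ w := by
  unfold RO.Mark
  refine forall_congr' fun a => forall_congr' fun ha => ?_
  rw [hR (w ++ un a)]
  rw [List.length_append]
  simp only [un, List.length_replicate]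
  omega

private theorem kap_le (s : ℕ) : kap s ≤ s := by
  unfold kap
  omega

private theorem two_le {V : Vp} {s l h : ℕ} (H : HB V s l h) : gg s l + 2 * s ≤ h := by
  have := H.two
  omega

private theorem acc_imp {V : Vp} {s l h : ℕ} (H : HB V s l h) {A R R' : Oracle}
    (hR : ∀ u : List Bool, u.length ≤ h → R u = R' u) {x : List Bool} (hx : Dom s l x)
    (b : Bool) : ROA.acc V b A R l x → ROA.acc V b A R' l x := by
  rintro ⟨w, hw, hrun⟩
  refine ⟨w, hw, ?_⟩
  rw [← hrun]
  symm
  apply RO.run_congr
  intro q hq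
  exact ROA.join_congr hR q (H.len x hx b (join A R) w hw q hq)

theorem sat_congr {V : Vp} {s l h : ℕ} (H : HB V s l h) {R R' : Oracle}
    (hR : ∀ u : List Bool, u.length ≤ h → R u = R' u) {u : List Bool} (hu : IsInst s l u) :
    Sat R s u ↔ Sat R' s u := by
  unfold Sat
  refine exists_congr fun y => and_congr_right fun hy => ?_
  refine forall_congr' fun x => forall_congr' fun hx => ?_
  refine mark_congr (two_le H) (kap_le s) hR ?_
  rw [List.length_append, hu.2.1]
  unfold RO.wx
  rw [List.length_zipWith, hy]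
  exact Nat.add_le_add_left (min_le_left _ _) _

theorem acc_congr {V : Vp} {s l h : ℕ} (H : HB V s l h) {A R R' : Oracle}
    (hR : ∀ u : List Bool, u.length ≤ h → R u = R' u) {x : List Bool} (hx : Dom s l x)
    (b : Bool) : ROA.acc V b A R l x ↔ ROA.acc V b A R' l x :=
  ⟨acc_imp H hR hx b, acc_imp H (fun v hv => (hR v hv).symm) hx b⟩

private theorem wrong_congr {V : Vp} {s l h : ℕ} (H : HB V s l h) {A R R' : Oracle}
    (hR : ∀ u : List Bool, u.length ≤ h → R u = R' u) {v : List Bool} (hv : v.length ≤ al s) :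
    Wrong V A R s l v ↔ Wrong V A R' s l v := by
  unfold Wrong
  refine exists_congr fun u => and_congr_right fun hu => ?_
  have hx : Dom s l (cd u v) := ⟨u, v, hu, hv, rfl⟩
  rw [acc_congr H hR hx true, acc_congr H hR hx false, sat_congr H hR hu]

theorem inv_congr {V : Vp} {s l h : ℕ} (H : HB V s l h) {A R R' : Oracle}
    (hR : ∀ u : List Bool, u.length ≤ h → R u = R' u) : Inv V A R s l ↔ Inv V A R' s l := by
  unfold Inv
  refine exists_congr fun v => and_congr_right fun hv => exists_congr fun u =>
    and_congr_right fun hu => ?_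
  have hx : Dom s l (cd u v) := ⟨u, v, hu, hv, rfl⟩
  rw [acc_congr H hR hx true, acc_congr H hR hx false]

theorem fail_congr {V : Vp} {s l h : ℕ} (H : HB V s l h) {A R R' : Oracle}
    (hR : ∀ u : List Bool, u.length ≤ h → R u = R' u) : Fail V A R s l ↔ Fail V A R' s l := by
  unfold Fail
  rw [inv_congr H hR]
  refine or_congr Iff.rfl (forall_congr' fun v => forall_congr' fun hv => ?_)
  exact wrong_congr H hR hv

theorem win_congr {V : Vp} {s l h : ℕ} (H : HB V s l h) {R R' : Oracle}
    (hR : ∀ u : List Bool, u.length ≤ h → R u = R' u) : Win R s l ↔ Win R' s l := by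
  unfold Win
  refine forall_congr' fun i => forall_congr' fun hi => ?_
  have h1 : wmk R s i = wmk R' s i := by
    classical
    rw [wmk, wmk]
    refine Finset.filter_congr fun w _ => ?_
    refine mark_congr (two_le H) (kap_le s) hR ?_
    rw [List.length_append, hi]
    exact Nat.add_le_add_left (le_of_eq w.2) _
  rw [h1]

end Pool.Agent.RC
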