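import Mathlib
import Pool.Agent.RO.Defs
import Pool.Agent.RC.Defs

set_option autoImplicit false

/-!
# RC: definitions for the core lemma

`I` is the type of the windows, `Λ` the type of the cells of a window (with the operation `op`), `V` the type of the
advices.  A state `G : I → Finset Λ` consists of the sets of the marks of the windows.
-/

namespace Pool.Agent.RC

open Pool.Agent.RO (pr fr bw AA pre Cert)

/-! ## Expectations -/

open Classical in
/-- the indicator -/
noncomputable def ind (p : Prop) : ℝ := if p then 1 else 0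

/-- the expectation of `f` for independent coordinates, each with the distribution `w` -/
noncomputable def EI {I Ξ : Type} [Fintype I] [DecidableEq I] [Fintype Ξ] (w : Ξ → ℝ)
    (f : (I → Ξ) → ℝ) : ℝ :=
  ∑ x : I → Ξ, (∏ i, w (x i)) * f x

/-! ## The space for one window -/

/-- `(h, (π, y))`: the number of the marks, a random order of all cells, a random cell -/
abbrev Xi (Λ : Type) [Fintype Λ] : Type :=
  Fin (Fintype.card Λ + 1) × ((Fin (Fintype.card Λ) ↪ Λ) × Λ)

section one

variable {Λ : Type} [Fintype Λ] [DecidableEq Λ]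

/-- the probability of an element of `Xi Λ` -/
noncomputable def wX (q : ℝ) (ξ : Xi Λ) : ℝ :=
  bw (Fintype.card Λ) q (ξ.1 : ℕ) / (Fintype.card ((Fin (Fintype.card Λ) ↪ Λ) × Λ) : ℝ)

/-- the marks: the first `h` cells -/
def Hs (ξ : Xi Λ) : Finset Λ := pre (ξ.1 : ℕ) ξ.2.1

/-- the values of the sequence `v` with the numbers `a, ..., b - 1` -/
def seg (a b : ℕ) {n : ℕ} (v : Fin n ↪ Λ) : Finset Λ := pre b v \ pre a v

/-- the translate by `y` of the first `j` values of a sequence -/
def xi {op : Λ → Λ → Λ} (hop2 : ∀ x y, op x (op x y) = y) {j n : ℕ} (hj : j ≤ n)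
    (ω : (Fin n ↪ Λ) × Λ) : Fin j ↪ Λ where
  toFun := fun i => op ω.2 (ω.1 (Fin.castLE hj i))
  inj' := by
    intro i i' h
    have h1 : op ω.2 (op ω.2 (ω.1 (Fin.castLE hj i))) =
        op ω.2 (op ω.2 (ω.1 (Fin.castLE hj i'))) := congrArg (op ω.2) h
    rw [hop2, hop2] at h1
    exact Fin.castLE_injective hj (ω.1.injective h1)

/-- the weight of the set `H` if each element is in the random set with probability `q` -/
noncomputable def w0 (q : ℝ) (H : Finset Λ) : ℝ :=
  q ^ H.card * (1 - q) ^ (Fintype.card Λ - H.card)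

/-- what shall not happen in one window: `x` is the translate by `y` of the first `j` cells -/
def Tst {op : Λ → Λ → Λ} (hop2 : ∀ x y, op x (op x y) = y) {j n : ℕ} (hj : j ≤ n)
    (α β : (Fin j ↪ Λ) → Finset Λ → Prop) (h k : ℕ) (ω : (Fin n ↪ Λ) × Λ) : Prop :=
  (α (xi hop2 hj ω) (pre h ω.1) ∧ ¬ α (xi hop2 hj ω) (pre k ω.1)) ∨
    α (xi hop2 hj ω) (seg j k ω.1) ∨
    (β (xi hop2 hj ω) (seg j k ω.1) ∧ ¬ β (xi hop2 hj ω) (pre k ω.1))

end one

/-! ## States -/

section core

variable {I Λ V : Type} [Fintype I] [DecidableEq I] [Fintype Λ] [DecidableEq Λ] [Fintype V]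

/-- certificates of size `P` -/
def Cer {j : ℕ} (P : ℕ) (a : V → I → (Fin j ↪ Λ) → (I → Finset Λ) → Prop) : Prop :=
  ∀ v i x G, a v i x G → ∃ C : Finset (I × Λ), C.card ≤ P ∧
    ∀ G' : I → Finset Λ, (∀ c ∈ C, c.2 ∈ G' c.1 ↔ c.2 ∈ G c.1) → a v i x G'

/-- `a` and `b` with the advice `v` decide correctly whether a translate of `x` is contained in the
set of marks of the window `i`, for all `i`, `x` -/
def Corr (op : Λ → Λ → Λ) {j : ℕ} (a b : V → I → (Fin j ↪ Λ) → (I → Finset Λ) → Prop) (v : V)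
    (G : I → Finset Λ) : Prop :=
  ∀ i x, (a v i x G ↔ AA op x (G i)) ∧ (b v i x G ↔ ¬ AA op x (G i))

/-- no advice is good -/
def FlA (op : Λ → Λ → Λ) {j : ℕ} (a b : V → I → (Fin j ↪ Λ) → (I → Finset Λ) → Prop)
    (G : I → Finset Λ) : Prop :=
  ∀ v, ¬ Corr op a b v G

/-- `a` and `b` are not complementary -/
def Iv {j : ℕ} (a b : V → I → (Fin j ↪ Λ) → (I → Finset Λ) → Prop) (G : I → Finset Λ) : Prop :=
  ∃ v i x, (a v i x G ↔ b v i x G)

/-- `a v i x (update G i K)` has a certificate without cells of the windows of `T` other than `i` -/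
def oc {j : ℕ} (P : ℕ) (a : V → I → (Fin j ↪ Λ) → (I → Finset Λ) → Prop) (T : Finset I) (v : V)
    (i : I) (G : I → Finset Λ) (x : Fin j ↪ Λ) (K : Finset Λ) : Prop :=
  ∃ C : Finset (I × Λ), C.card ≤ P ∧ (∀ c ∈ C, c.1 ∈ T → c.1 = i) ∧
    ∀ G' : I → Finset Λ, (∀ c ∈ C, c.2 ∈ G' c.1 ↔ c.2 ∈ Function.update G i K c.1) → a v i x G'

/-- the state of a point -/
def Gx (x : I → Xi Λ) : I → Finset Λ := fun i => Hs (x i)

open Classical in
/-- the windows of `T` with a typical number of marks (in `h₁, ..., h₂`) where something happens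
which shall not happen -/
noncomputable def Dt {op : Λ → Λ → Λ} (hop2 : ∀ x y, op x (op x y) = y) {j : ℕ}
    (hj : j ≤ Fintype.card Λ) (P : ℕ) (a b : V → I → (Fin j ↪ Λ) → (I → Finset Λ) → Prop)
    (h₁ h₂ k : ℕ) (v : V) (T : Finset I) (x : I → Xi Λ) : Finset I :=
  T.filter fun i => (h₁ ≤ ((x i).1 : ℕ) ∧ ((x i).1 : ℕ) ≤ h₂) ∧
    Tst hop2 hj (oc P a T v i (Gx x)) (oc P b T v i (Gx x)) ((x i).1 : ℕ) k (x i).2

/-- the probability of `Φ` if the window `i` has exactly `k` marks -/
noncomputable def rk (q : ℝ) (Φ : (I → Finset Λ) → Prop) (i : I) (k : ℕ) : ℝ :=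
  EI (wX q) fun x : I → Xi Λ => fr k fun H => Φ (Function.update (Gx x) i H)

end core

end Pool.Agent.RC
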