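import Mathlib
import Pool.Agent.RC.CoDefs

set_option autoImplicit false

/-!
# RC-Cut (job): certificates which avoid the other tested windows

PLAN. `oc P a T v i G x K`: there is a certificate `C` (a set of at most `P` pairs (window, cell)) for `a v i x (update G i K)` without cells of windows
of `T` other than `i`.  `oc_upd`: take `G' = update G i K`.
`cert_oc` (`RO.Cert P α`: if `α x K` there is `W : Finset Λ` with at most `P` elements such that `α x K'` for all `K'` which agree with `K` on `W`): take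
`W = {w | (i, w) ∈ C}` (`(C.filter fun c => c.1 = i).image Prod.snd`), and the same `C` for `K'`: for `c ∈ C` with `c.1 = i` the sets `K'` and `K` agree at
`c.2`, for `c.1 ≠ i` both updates are `G c.1`.
`oc_congr`: the same `C`: for `c ∈ C`: `c.1 = i` or `c.1 ∉ T`, in both cases `update G i K c.1 = update G' i K c.1`.
`exists_touch`: by classical choice: if `a v i x G` holds choose a certificate `C v i x G` (`Cer`), otherwise `∅`;
`Q v i x G = (C.image Prod.fst).erase i`.
-/

namespace Pool.Agent.RC

open Pool.Agent.RO (Cert)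

variable {I Λ V : Type} [Fintype I] [DecidableEq I] [Fintype Λ] [DecidableEq Λ] [Fintype V]

theorem oc_upd {j P : ℕ} {a : V → I → (Fin j ↪ Λ) → (I → Finset Λ) → Prop} {T : Finset I} {v : V}
    {i : I} {G : I → Finset Λ} {x : Fin j ↪ Λ} {K : Finset Λ} (h : oc P a T v i G x K) :
    a v i x (Function.update G i K) := by
  obtain ⟨C, -, -, h3⟩ := h
  exact h3 _ fun c _ => Iff.rfl

theorem cert_oc {j : ℕ} (P : ℕ) (a : V → I → (Fin j ↪ Λ) → (I → Finset Λ) → Prop) (T : Finset I)
    (v : V) (i : I) (G : I → Finset Λ) : Cert P (oc P a T v i G) := by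
  classical
  intro x K hx
  obtain ⟨C, h1, h2, h3⟩ := hx
  refine ⟨(C.filter fun c => c.1 = i).image Prod.snd, ?_, fun K' hK' => ?_⟩
  · exact (Finset.card_image_le.trans (Finset.card_filter_le _ _)).trans h1
  · refine ⟨C, h1, h2, fun G' hG' => h3 G' fun c hc => ?_⟩
    rw [hG' c hc]
    by_cases hci : c.1 = i
    · have h4 : c.2 ∈ (C.filter fun c => c.1 = i).image Prod.snd :=
        Finset.mem_image.2 ⟨c, Finset.mem_filter.2 ⟨hc, hci⟩, rfl⟩
      rw [hci, Function.update_self, Function.update_self]
      exact hK' c.2 h4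
    · rw [Function.update_of_ne hci, Function.update_of_ne hci]

theorem oc_congr {j : ℕ} (P : ℕ) (a : V → I → (Fin j ↪ Λ) → (I → Finset Λ) → Prop)
    {T : Finset I} (v : V) {i : I} {G G' : I → Finset Λ}
    (h : ∀ i' ∉ T, G i' = G' i') : oc P a T v i G = oc P a T v i G' := by
  funext x K
  unfold oc
  refine propext (exists_congr fun C => and_congr_right fun _ => and_congr_right fun h2 => ?_)
  have h4 : ∀ c ∈ C, Function.update G i K c.1 = Function.update G' i K c.1 := by
    intro c hc
    by_cases hci : c.1 = i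
    · rw [hci, Function.update_self, Function.update_self]
    · rw [Function.update_of_ne hci, Function.update_of_ne hci]
      exact h c.1 fun hT => hci (h2 c hc hT)
  refine forall_congr' fun G'' => imp_congr_left ⟨fun h5 c hc => ?_, fun h5 c hc => ?_⟩
  · rw [← h4 c hc]; exact h5 c hc
  · rw [h4 c hc]; exact h5 c hc

theorem exists_touch {j P : ℕ} {a : V → I → (Fin j ↪ Λ) → (I → Finset Λ) → Prop}
    (ha : Cer P a) : ∃ Q : V → I → (Fin j ↪ Λ) → (I → Finset Λ) → Finset I,
      (∀ v i x G, (Q v i x G).card ≤ P ∧ i ∉ Q v i x G) ∧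
      ∀ v i x G (T : Finset I) K, a v i x (Function.update G i K) →
        (∀ i' ∈ Q v i x (Function.update G i K), i' ∉ T) → oc P a T v i G x K := by
  classical
  have h0 : ∀ v i x G, ∃ C : Finset (I × Λ), C.card ≤ P ∧ (a v i x G →
      ∀ G' : I → Finset Λ, (∀ c ∈ C, c.2 ∈ G' c.1 ↔ c.2 ∈ G c.1) → a v i x G') := by
    intro v i x G
    by_cases h : a v i x G
    · obtain ⟨C, h1, h2⟩ := ha v i x G h
      exact ⟨C, h1, fun _ => h2⟩
    · exact ⟨∅, by simp, fun h' => absurd h' h⟩
  choose C hC1 hC2 using h0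
  refine ⟨fun v i x G => ((C v i x G).image Prod.fst).erase i, fun v i x G => ⟨?_, ?_⟩, ?_⟩
  · exact ((Finset.card_erase_le).trans Finset.card_image_le).trans (hC1 v i x G)
  · exact Finset.notMem_erase _ _
  · intro v i x G T K h1 h2
    refine ⟨C v i x (Function.update G i K), hC1 _ _ _ _, fun c hc hcT => ?_,
      hC2 v i x _ h1⟩
    by_contra hci
    exact h2 c.1 (Finset.mem_erase.2 ⟨hci, Finset.mem_image.2 ⟨c, hc, rfl⟩⟩) hcT

end Pool.Agent.RC
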