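import Mathlib
import Pool.Agent.RC.CoDefs

set_option autoImplicit false

/-!
# RC-Ex (job): expectations for independent coordinates

`EI w f = ∑_x (∏_i w (x i)) * f x` (finite sums only).

PLAN. `EI_add`, `EI_mul`, `EI_sum`, `EI_mono`, `EI_nonneg`: directly (`Finset.prod_nonneg`).
`EI_upd`: exchange the sums; for fixed `i` the map `(x, ξ) ↦ (update x i ξ, x i)` is an involution of `(I → Ξ) × Ξ`, and
`(∏_i' w (x i')) * w ξ` is invariant under it (`∏ = w (x i) * ∏_{i' ≠ i}`, `Finset.mul_prod_erase`/`Finset.prod_update_of_mem`); sum over the other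
coordinate with `hw1`.  (Alternatively `Fintype.sum_prod_type`, `Equiv.funSplitAt`.)
`EI_const`: `∑_x ∏_i w (x i) = ∏_i ∑_ξ w ξ = 1` (`Finset.prod_univ_sum`, `Fintype.piFinset_univ`).
`EI_coord`, `EI_two`: `EI_upd` at `i` (and then at `i'`) and `EI_const`.
`EI_map`: `∏_i w' (z i) = ∏_i ∑_{ξ, φ ξ = z i} w ξ = ∑_{x ∈ piFinset ..} ∏_i w (x i)` (`Finset.prod_univ_sum`), i.e. the sum over the fibre of
`x ↦ (fun i => φ (x i))` (`Finset.sum_fiberwise`).
-/

namespace Pool.Agent.RC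

variable {I Ξ : Type} [Fintype I] [DecidableEq I] [Fintype Ξ]

theorem EI_add (w : Ξ → ℝ) (f g : (I → Ξ) → ℝ) :
    EI w (fun x => f x + g x) = EI w f + EI w g := by
  unfold EI
  rw [← Finset.sum_add_distrib]
  exact Finset.sum_congr rfl fun x _ => mul_add _ _ _

theorem EI_mul (w : Ξ → ℝ) (c : ℝ) (f : (I → Ξ) → ℝ) :
    EI w (fun x => c * f x) = c * EI w f := by
  unfold EI
  rw [Finset.mul_sum]
  exact Finset.sum_congr rfl fun x _ => mul_left_comm _ _ _

theorem EI_sum {ι : Type} (s : Finset ι) (w : Ξ → ℝ) (f : ι → (I → Ξ) → ℝ) :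
    EI w (fun x => ∑ a ∈ s, f a x) = ∑ a ∈ s, EI w (f a) := by
  unfold EI
  rw [Finset.sum_comm]
  exact Finset.sum_congr rfl fun x _ => Finset.mul_sum _ _ _

theorem EI_mono {w : Ξ → ℝ} (hw : ∀ ξ, 0 ≤ w ξ) {f g : (I → Ξ) → ℝ} (h : ∀ x, f x ≤ g x) :
    EI w f ≤ EI w g := by
  unfold EI
  exact Finset.sum_le_sum fun x _ =>
    mul_le_mul_of_nonneg_left (h x) (Finset.prod_nonneg fun i _ => hw _)

theorem EI_nonneg {w : Ξ → ℝ} (hw : ∀ ξ, 0 ≤ w ξ) {f : (I → Ξ) → ℝ} (h : ∀ x, 0 ≤ f x) :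
    0 ≤ EI w f := by
  unfold EI
  exact Finset.sum_nonneg fun x _ => mul_nonneg (Finset.prod_nonneg fun i _ => hw _) (h x)

omit [Fintype Ξ] in
private lemma prod_upd (w : Ξ → ℝ) (x : I → Ξ) (i : I) (ξ : Ξ) :
    (∏ i', w (Function.update x i ξ i')) * w (x i) = (∏ i', w (x i')) * w ξ := by
  rw [← Finset.mul_prod_erase Finset.univ (fun i' => w (Function.update x i ξ i'))
      (Finset.mem_univ i),
    ← Finset.mul_prod_erase Finset.univ (fun i' => w (x i')) (Finset.mem_univ i)]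
  have h : ∏ i' ∈ Finset.univ.erase i, w (Function.update x i ξ i') =
      ∏ i' ∈ Finset.univ.erase i, w (x i') := by
    refine Finset.prod_congr rfl fun i' hi' => ?_
    rw [Function.update_of_ne (Finset.ne_of_mem_erase hi')]
  rw [h]
  simp only [Function.update_self]
  ring

/-- one coordinate can be replaced by an independent copy -/
theorem EI_upd {w : Ξ → ℝ} (hw1 : ∑ ξ, w ξ = 1) (i : I) (f : (I → Ξ) → ℝ) :
    EI w f = EI w (fun x => ∑ ξ, w ξ * f (Function.update x i ξ)) := by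
  have h1 : EI w (fun x => ∑ ξ, w ξ * f (Function.update x i ξ)) =
      ∑ p : (I → Ξ) × Ξ, ((∏ i', w (p.1 i')) * w p.2) * f (Function.update p.1 i p.2) := by
    rw [Fintype.sum_prod_type]
    unfold EI
    refine Finset.sum_congr rfl fun x _ => ?_
    rw [Finset.mul_sum]
    exact Finset.sum_congr rfl fun ξ _ => (mul_assoc _ _ _).symm
  have h2 : EI w f = ∑ p : (I → Ξ) × Ξ, ((∏ i', w (p.1 i')) * w p.2) * f p.1 := by
    rw [Fintype.sum_prod_type]
    unfold EI
    refine Finset.sum_congr rfl fun x _ => ?_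
    simp only
    rw [← Finset.sum_mul, ← Finset.mul_sum, hw1, mul_one]
  rw [h1, h2]
  have hinv : Function.Involutive
      (fun p : (I → Ξ) × Ξ => ((Function.update p.1 i p.2, p.1 i) : (I → Ξ) × Ξ)) := by
    intro p
    simp only [Function.update_idem, Function.update_eq_self, Function.update_self]
  refine Fintype.sum_equiv (hinv.toPerm _) _ _ fun p => ?_
  have h3 : hinv.toPerm _ p = (Function.update p.1 i p.2, p.1 i) := rfl
  rw [h3]
  simp only [Function.update_idem, Function.update_eq_self]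
  rw [prod_upd]

theorem EI_const {w : Ξ → ℝ} (hw1 : ∑ ξ, w ξ = 1) (c : ℝ) :
    EI w (fun _ : I → Ξ => c) = c := by
  unfold EI
  rw [← Finset.sum_mul]
  have h : ∑ x : I → Ξ, ∏ i, w (x i) = 1 := by
    rw [← Fintype.piFinset_univ,
      ← Finset.prod_univ_sum (fun _ : I => (Finset.univ : Finset Ξ)) (fun _ ξ => w ξ)]
    simp [hw1]
  rw [h, one_mul]

theorem EI_coord {w : Ξ → ℝ} (hw1 : ∑ ξ, w ξ = 1) (i : I) (g : Ξ → ℝ) :
    EI w (fun x : I → Ξ => g (x i)) = ∑ ξ, w ξ * g ξ := by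
  rw [EI_upd hw1 i]
  simp only [Function.update_self]
  exact EI_const hw1 _

theorem EI_two {w : Ξ → ℝ} (hw1 : ∑ ξ, w ξ = 1) {i i' : I} (h : i ≠ i') (g g' : Ξ → ℝ) :
    EI w (fun x : I → Ξ => g (x i) * g' (x i')) = (∑ ξ, w ξ * g ξ) * ∑ ξ, w ξ * g' ξ := by
  rw [EI_upd hw1 i]
  have h1 : (fun x : I → Ξ => ∑ ξ, w ξ * (g (Function.update x i ξ i) *
      g' (Function.update x i ξ i'))) = fun x : I → Ξ => (∑ ξ, w ξ * g ξ) * g' (x i') := by
    funext x
    rw [Finset.sum_mul]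
    refine Finset.sum_congr rfl fun ξ _ => ?_
    rw [Function.update_self, Function.update_of_ne h.symm, mul_assoc]
  rw [h1, EI_mul, EI_coord hw1]

open Classical in
theorem EI_map {Ξ' : Type} [Fintype Ξ'] (w : Ξ → ℝ) (w' : Ξ' → ℝ) (φ : Ξ → Ξ')
    (h : ∀ ξ', ∑ ξ ∈ Finset.univ.filter (fun ξ => φ ξ = ξ'), w ξ = w' ξ') (f : (I → Ξ') → ℝ) :
    EI w (fun x : I → Ξ => f (fun i => φ (x i))) = EI w' f := by
  unfold EI
  rw [← Finset.sum_fiberwise Finset.univ (fun x : I → Ξ => fun i => φ (x i))]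
  refine Finset.sum_congr rfl fun z _ => ?_
  have h1 : ∏ i, w' (z i) =
      ∑ x ∈ Finset.univ.filter (fun x : I → Ξ => (fun i => φ (x i)) = z), ∏ i, w (x i) := by
    have h2 : ∏ i, w' (z i) =
        ∏ i, ∑ ξ ∈ Finset.univ.filter (fun ξ => φ ξ = z i), w ξ :=
      Finset.prod_congr rfl fun i _ => (h (z i)).symm
    rw [h2, Finset.prod_univ_sum]
    refine Finset.sum_congr ?_ fun x _ => rfl
    ext x
    simp only [Fintype.mem_piFinset, Finset.mem_filter, Finset.mem_univ, true_and,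
      funext_iff]
  rw [h1, Finset.sum_mul]
  refine Finset.sum_congr rfl fun x hx => ?_
  have h3 : (fun i => φ (x i)) = z := (Finset.mem_filter.1 hx).2
  simp only [h3]

end Pool.Agent.RC
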