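import Mathlib
import Pool.Agent.RC.Ex

set_option autoImplicit false

/-!
# RC-ExT (job): independent tests
-/

namespace Pool.Agent.RC

variable {I Ξ : Type} [Fintype I] [DecidableEq I] [Fintype Ξ]

theorem EI_tests {w : Ξ → ℝ} (hw : ∀ ξ, 0 ≤ w ξ) (hw1 : ∑ ξ, w ξ = 1) (T : Finset I)
    (F : I → (I → Ξ) → Ξ → ℝ) (h0 : ∀ i x ξ, 0 ≤ F i x ξ)
    (hF : ∀ i ∈ T, ∀ x x' : I → Ξ, (∀ i' ∉ T, x i' = x' i') → F i x = F i x') {B : ℝ}
    (hB : ∀ i ∈ T, ∀ x, ∑ ξ, w ξ * F i x ξ ≤ B) :
    EI w (fun x => ∏ i ∈ T, F i x (x i)) ≤ B ^ T.card := by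
  obtain ⟨ξ₀, -⟩ : ∃ ξ : Ξ, w ξ ≠ 0 := by
    by_contra hcon
    push Not at hcon
    rw [Finset.sum_eq_zero fun ξ _ => hcon ξ] at hw1
    exact zero_ne_one hw1
  have key : ∀ T₁ : Finset I, T₁ ⊆ T →
      EI w (fun x => ∏ i ∈ T₁, F i x (x i)) ≤ B ^ T₁.card := by
    intro T₁
    induction T₁ using Finset.induction_on with
    | empty =>
      intro _
      have h1 : (fun x : I → Ξ => ∏ i ∈ (∅ : Finset I), F i x (x i)) = fun _ => (1 : ℝ) := by
        funext x
        rw [Finset.prod_empty]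
      rw [h1, EI_const hw1, Finset.card_empty, pow_zero]
    | insert i T₁ hi ih =>
      intro hsub
      have hiT : i ∈ T := hsub (Finset.mem_insert_self i T₁)
      have hsub1 : T₁ ⊆ T := fun a ha => hsub (Finset.mem_insert_of_mem ha)
      have hB0 : 0 ≤ B := by
        refine le_trans ?_ (hB i hiT fun _ => ξ₀)
        exact Finset.sum_nonneg fun ξ _ => mul_nonneg (hw ξ) (h0 _ _ _)
      have hFu : ∀ i' ∈ T, ∀ (x : I → Ξ) (ξ : Ξ), F i' (Function.update x i ξ) = F i' x := by
        intro i' hi' x ξ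
        refine hF i' hi' _ _ fun a ha => ?_
        rw [Function.update_of_ne]
        intro hai
        exact ha (hai ▸ hiT)
      rw [EI_upd hw1 i]
      have hpt : ∀ x : I → Ξ, ∑ ξ, w ξ * ∏ i' ∈ insert i T₁, F i' (Function.update x i ξ)
          ((Function.update x i ξ) i') ≤ B * ∏ i' ∈ T₁, F i' x (x i') := by
        intro x
        have h1 : ∀ ξ, w ξ * ∏ i' ∈ insert i T₁, F i' (Function.update x i ξ)
            ((Function.update x i ξ) i') = (w ξ * F i x ξ) * ∏ i' ∈ T₁, F i' x (x i') := by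
          intro ξ
          rw [Finset.prod_insert hi, hFu i hiT, Function.update_self, ← mul_assoc]
          congr 1
          refine Finset.prod_congr rfl fun i' hi' => ?_
          rw [hFu i' (hsub1 hi'), Function.update_of_ne]
          intro h
          exact hi (h ▸ hi')
        rw [Finset.sum_congr rfl fun ξ _ => h1 ξ, ← Finset.sum_mul]
        exact mul_le_mul_of_nonneg_right (hB i hiT x) (Finset.prod_nonneg fun i' _ => h0 _ _ _)
      refine (EI_mono hw hpt).trans ?_
      rw [EI_mul, Finset.card_insert_of_notMem hi, pow_succ']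
      exact mul_le_mul_of_nonneg_left (ih hsub1) hB0
  exact key T (Finset.Subset.refl T)

end Pool.Agent.RC
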