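import Mathlib
import Pool.Agent.RO.Pr
import Pool.Agent.RO.Emb
import Pool.Agent.RC.CoDefs

set_option autoImplicit false

/-!
# RC-Fresh (job): a small set which depends only on the first `a` values (and on `y`) is not touched by the later ones
-/

namespace Pool.Agent.RC

open Pool.Agent.RO (pr fr pre)

variable {Λ : Type} [Fintype Λ] [DecidableEq Λ]

private theorem card_swap {a n : ℕ} (v₀ : Fin n ↪ Λ) {z z' : Λ} (hz : z ∉ pre a v₀)
    (hz' : z' ∉ pre a v₀) (i : Fin n) :
    (Finset.univ.filter fun v : Fin n ↪ Λ =>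
        (∀ l : Fin n, (l : ℕ) < a → v l = v₀ l) ∧ v i = z).card ≤
      (Finset.univ.filter fun v : Fin n ↪ Λ =>
        (∀ l : Fin n, (l : ℕ) < a → v l = v₀ l) ∧ v i = z').card := by
  classical
  refine Finset.card_le_card_of_injOn (fun v => v.trans (Equiv.swap z z').toEmbedding) ?_ ?_
  · intro v hv
    rw [Finset.mem_coe, Finset.mem_filter] at hv
    obtain ⟨-, h1, h2⟩ := hv
    rw [Finset.mem_coe, Finset.mem_filter]
    refine ⟨Finset.mem_univ _, fun l hl => ?_, ?_⟩
    · have hm : v₀ l ∈ pre a v₀ := by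
        unfold pre
        exact Finset.mem_image.2 ⟨l, Finset.mem_filter.2 ⟨Finset.mem_univ l, hl⟩, rfl⟩
      change Equiv.swap z z' (v l) = v₀ l
      rw [h1 l hl, Equiv.swap_apply_of_ne_of_ne]
      · intro h
        rw [h] at hm
        exact hz hm
      · intro h
        rw [h] at hm
        exact hz' hm
    · change Equiv.swap z z' (v i) = z'
      rw [h2, Equiv.swap_apply_left]
  · intro v _ w _ hvw
    ext j
    have := congrArg (fun u : Fin n ↪ Λ => u j) hvw
    simpa using this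

private theorem card_one {a n P : ℕ} (ha : a ≤ n) (haN : a < Fintype.card Λ)
    (W : Finset Λ) (hW : W.card ≤ P) {i : Fin n} (hi : a ≤ (i : ℕ)) (v₀ : Fin n ↪ Λ) :
    (Fintype.card Λ - a) *
      (Finset.univ.filter fun v : Fin n ↪ Λ =>
        (∀ l : Fin n, (l : ℕ) < a → v l = v₀ l) ∧ v i ∈ W).card ≤
      P * (Finset.univ.filter fun v : Fin n ↪ Λ =>
        ∀ l : Fin n, (l : ℕ) < a → v l = v₀ l).card := by
  classical
  have hG : (pre a v₀).card = a := Pool.Agent.RO.card_pre ha v₀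
  have hz : ∃ z, z ∉ pre a v₀ := by
    by_contra hcon
    push Not at hcon
    have : pre a v₀ = Finset.univ := Finset.eq_univ_iff_forall.2 hcon
    rw [this, Finset.card_univ] at hG
    omega
  obtain ⟨z, hz⟩ := hz
  set D := (Finset.univ.filter fun v : Fin n ↪ Λ =>
    (∀ l : Fin n, (l : ℕ) < a → v l = v₀ l) ∧ v i = z).card with hD
  have hd : ∀ z' ∉ pre a v₀, (Finset.univ.filter fun v : Fin n ↪ Λ =>
      (∀ l : Fin n, (l : ℕ) < a → v l = v₀ l) ∧ v i = z').card = D :=
    fun z' hz' => le_antisymm (card_swap v₀ hz' hz i) (card_swap v₀ hz hz' i)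
  have h0 : ∀ z' ∈ pre a v₀, (Finset.univ.filter fun v : Fin n ↪ Λ =>
      (∀ l : Fin n, (l : ℕ) < a → v l = v₀ l) ∧ v i = z').card = 0 := by
    intro z' hz'
    rw [Finset.card_eq_zero, Finset.filter_eq_empty_iff]
    rintro v - ⟨h1, h2⟩
    unfold pre at hz'
    obtain ⟨l, hl, hlz⟩ := Finset.mem_image.1 hz'
    have hl' := (Finset.mem_filter.1 hl).2
    rw [← h1 l hl', ← h2] at hlz
    have h3 := v.injective hlz
    rw [h3] at hl'
    omega
  have e1 : (Finset.univ.filter fun v : Fin n ↪ Λ =>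
      ∀ l : Fin n, (l : ℕ) < a → v l = v₀ l).card = (Fintype.card Λ - a) * D := by
    rw [Finset.card_eq_sum_card_fiberwise (f := fun v : Fin n ↪ Λ => v i)
      (t := (Finset.univ : Finset Λ)) (fun v _ => by simp)]
    have : ∀ z' ∈ (Finset.univ : Finset Λ),
        ((Finset.univ.filter fun v : Fin n ↪ Λ =>
          ∀ l : Fin n, (l : ℕ) < a → v l = v₀ l).filter fun v => v i = z').card =
          if z' ∈ pre a v₀ then 0 else D := by
      intro z' _
      rw [Finset.filter_filter]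
      split_ifs with h
      · exact h0 z' h
      · exact hd z' h
    rw [Finset.sum_congr rfl this, Finset.sum_ite, Finset.sum_const_zero, zero_add,
      Finset.sum_const, smul_eq_mul]
    congr 1
    have : (Finset.univ.filter fun x => x ∉ pre a v₀) = (pre a v₀)ᶜ := by ext x; simp
    rw [this, Finset.card_compl, hG]
  have e2 : (Finset.univ.filter fun v : Fin n ↪ Λ =>
      (∀ l : Fin n, (l : ℕ) < a → v l = v₀ l) ∧ v i ∈ W).card ≤ P * D := by
    rw [Finset.card_eq_sum_card_fiberwise (f := fun v : Fin n ↪ Λ => v i) (t := W)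
      (fun v hv => by
        rw [Finset.mem_coe, Finset.mem_filter] at hv
        exact hv.2.2)]
    calc _ ≤ ∑ z' ∈ W, D := by
          apply Finset.sum_le_sum
          intro z' _
          rw [Finset.filter_filter]
          have : (Finset.univ.filter fun v : Fin n ↪ Λ =>
              ((∀ l : Fin n, (l : ℕ) < a → v l = v₀ l) ∧ v i ∈ W) ∧ v i = z').card ≤
              (Finset.univ.filter fun v : Fin n ↪ Λ =>
                (∀ l : Fin n, (l : ℕ) < a → v l = v₀ l) ∧ v i = z').card := by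
            apply Finset.card_le_card
            intro v hv
            rw [Finset.mem_filter] at hv ⊢
            exact ⟨hv.1, hv.2.1.1, hv.2.2⟩
          refine this.trans ?_
          by_cases h : z' ∈ pre a v₀
          · rw [h0 z' h]; exact Nat.zero_le _
          · exact (hd z' h).le
      _ = W.card * D := by rw [Finset.sum_const, smul_eq_mul]
      _ ≤ P * D := Nat.mul_le_mul_right _ hW
  rw [e1]
  calc _ ≤ (Fintype.card Λ - a) * (P * D) := Nat.mul_le_mul_left _ e2
    _ = P * ((Fintype.card Λ - a) * D) := by ring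

private theorem pr_one {a n P : ℕ} (ha : a ≤ n) (haN : a < Fintype.card Λ)
    (Q : (Fin n ↪ Λ) → Finset Λ) (hQ : ∀ v, (Q v).card ≤ P)
    (hdep : ∀ v v' : Fin n ↪ Λ, (∀ l : Fin n, (l : ℕ) < a → v l = v' l) → Q v = Q v')
    {i : Fin n} (hi : a ≤ (i : ℕ)) :
    pr (fun v : Fin n ↪ Λ => v i ∈ Q v) ≤ P / ((Fintype.card Λ : ℝ) - a) := by
  classical
  have hN : (0 : ℝ) < (Fintype.card Λ : ℝ) - a := by
    have : (a : ℝ) < Fintype.card Λ := by exact_mod_cast haN
    linarith
  have key : (Fintype.card Λ - a) *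
      (Finset.univ.filter fun v : Fin n ↪ Λ => v i ∈ Q v).card ≤
      P * (Finset.univ : Finset (Fin n ↪ Λ)).card := by
    rw [Finset.card_eq_sum_card_fiberwise
      (f := fun (v : Fin n ↪ Λ) (l : Fin a) => v (Fin.castLE ha l))
      (s := Finset.univ.filter fun v : Fin n ↪ Λ => v i ∈ Q v)
      (t := (Finset.univ : Finset (Fin a → Λ))) (fun v _ => Finset.mem_coe.2 (Finset.mem_univ _)),
      Finset.card_eq_sum_card_fiberwise
      (f := fun (v : Fin n ↪ Λ) (l : Fin a) => v (Fin.castLE ha l))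
      (s := (Finset.univ : Finset (Fin n ↪ Λ)))
      (t := (Finset.univ : Finset (Fin a → Λ))) (fun v _ => Finset.mem_coe.2 (Finset.mem_univ _)),
      Finset.mul_sum, Finset.mul_sum]
    apply Finset.sum_le_sum
    intro u _
    by_cases hu : ∃ v₀ : Fin n ↪ Λ, (fun l : Fin a => v₀ (Fin.castLE ha l)) = u
    · obtain ⟨v₀, hv₀⟩ := hu
      have hiff : ∀ v : Fin n ↪ Λ, (fun l : Fin a => v (Fin.castLE ha l)) = u ↔
          ∀ l : Fin n, (l : ℕ) < a → v l = v₀ l := by
        intro v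
        rw [← hv₀]
        constructor
        · intro h l hl
          exact congrFun h ⟨l, hl⟩
        · intro h
          funext l
          exact h (Fin.castLE ha l) l.2
      have h := card_one ha haN (Q v₀) (hQ v₀) hi v₀
      have e : ((Finset.univ.filter fun v : Fin n ↪ Λ => v i ∈ Q v).filter
          fun v => (fun l : Fin a => v (Fin.castLE ha l)) = u) =
          Finset.univ.filter fun v : Fin n ↪ Λ =>
            (∀ l : Fin n, (l : ℕ) < a → v l = v₀ l) ∧ v i ∈ Q v₀ := by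
        ext v
        rw [Finset.mem_filter, Finset.mem_filter, Finset.mem_filter, hiff]
        constructor
        · rintro ⟨⟨_, h1⟩, h2⟩
          exact ⟨Finset.mem_univ _, h2, hdep v v₀ h2 ▸ h1⟩
        · rintro ⟨_, h1, h2⟩
          exact ⟨⟨Finset.mem_univ _, (hdep v v₀ h1).symm ▸ h2⟩, h1⟩
      have e' : ((Finset.univ : Finset (Fin n ↪ Λ)).filter
          fun v => (fun l : Fin a => v (Fin.castLE ha l)) = u) =
          Finset.univ.filter fun v : Fin n ↪ Λ => ∀ l : Fin n, (l : ℕ) < a → v l = v₀ l := by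
        ext v
        rw [Finset.mem_filter, Finset.mem_filter, hiff]
      rw [e, e']
      exact h
    · have e : ((Finset.univ.filter fun v : Fin n ↪ Λ => v i ∈ Q v).filter
          fun v => (fun l : Fin a => v (Fin.castLE ha l)) = u) = ∅ := by
        rw [Finset.filter_eq_empty_iff]
        intro v _ h
        exact hu ⟨v, h⟩
      rw [e, Finset.card_empty, Nat.mul_zero]
      exact Nat.zero_le _
  have key' : ((Fintype.card Λ : ℝ) - a) *
      ((Finset.univ.filter fun v : Fin n ↪ Λ => v i ∈ Q v).card : ℝ) ≤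
      P * (Fintype.card (Fin n ↪ Λ) : ℝ) := by
    have h := key
    rw [Finset.card_univ] at h
    have h2 : (((Fintype.card Λ - a) *
      (Finset.univ.filter fun v : Fin n ↪ Λ => v i ∈ Q v).card : ℕ) : ℝ) ≤
      ((P * Fintype.card (Fin n ↪ Λ) : ℕ) : ℝ) := by exact_mod_cast h
    rw [Nat.cast_mul, Nat.cast_mul, Nat.cast_sub haN.le] at h2
    exact h2
  unfold pr
  rcases Nat.eq_zero_or_pos (Fintype.card (Fin n ↪ Λ)) with h | h
  · rw [h, Nat.cast_zero, div_zero]
    positivity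
  · rw [div_le_div_iff₀ (by exact_mod_cast h) hN]
    have h3 : ∀ inst : DecidablePred fun v : Fin n ↪ Λ => v i ∈ Q v,
        ((@Finset.filter _ (fun v : Fin n ↪ Λ => v i ∈ Q v) inst Finset.univ).card : ℝ) *
          ((Fintype.card Λ : ℝ) - a) ≤ P * (Fintype.card (Fin n ↪ Λ) : ℝ) := by
      intro inst
      rw [Subsingleton.elim inst (fun v => Finset.decidableMem (v i) (Q v))]
      linarith [key']
    exact h3 _

private def idx {a b n : ℕ} (hb : b ≤ n) (k : Fin (b - a)) : Fin n :=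
  ⟨a + k, by have := k.2; omega⟩

private theorem pr_seg {a b n P : ℕ} (hab : a ≤ b) (hb : b ≤ n) (haN : a < Fintype.card Λ)
    (Q : (Fin n ↪ Λ) → Finset Λ) (hQ : ∀ v, (Q v).card ≤ P)
    (hdep : ∀ v v' : Fin n ↪ Λ, (∀ l : Fin n, (l : ℕ) < a → v l = v' l) → Q v = Q v') :
    pr (fun v : Fin n ↪ Λ => ∃ k : Fin (b - a), v (idx hb k) ∈ Q v) ≤
      ((b - a : ℕ) : ℝ) * (P / ((Fintype.card Λ : ℝ) - a)) := by
  have h2 := Pool.Agent.RO.pr_exists_le (n := b - a)
    (p := fun (k : Fin (b - a)) (v : Fin n ↪ Λ) => v (idx hb k) ∈ Q v)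
    (ε := P / ((Fintype.card Λ : ℝ) - a))
    (fun k => pr_one (hab.trans hb) haN Q hQ hdep (show a ≤ a + (k : ℕ) by omega))
  exact h2

omit [Fintype Λ] in
private theorem seg_idx {a b n : ℕ} (hb : b ≤ n) (S : Finset Λ) (v : Fin n ↪ Λ)
    (h : ∃ w ∈ S, w ∈ seg a b v) : ∃ k : Fin (b - a), v (idx hb k) ∈ S := by
  obtain ⟨w, hw, hwseg⟩ := h
  unfold seg at hwseg
  obtain ⟨hwb, hwa⟩ := Finset.mem_sdiff.1 hwseg
  unfold pre at hwb
  obtain ⟨i, hi, hiw⟩ := Finset.mem_image.1 hwb
  have hib := (Finset.mem_filter.1 hi).2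
  have hia : a ≤ (i : ℕ) := by
    by_contra hcon
    apply hwa
    unfold pre
    exact Finset.mem_image.2 ⟨i, Finset.mem_filter.2 ⟨Finset.mem_univ _, by omega⟩, hiw⟩
  refine ⟨⟨i - a, by omega⟩, ?_⟩
  have h2 : idx hb (⟨i - a, by omega⟩ : Fin (b - a)) = i := by
    apply Fin.ext
    show a + ((i : ℕ) - a) = (i : ℕ)
    omega
  rw [h2, hiw]
  exact hw

theorem pr_fresh {a b n P : ℕ} (hab : a ≤ b) (hb : b ≤ n) (hn : n ≤ Fintype.card Λ)
    (haN : a < Fintype.card Λ) (Q : (Fin n ↪ Λ) × Λ → Finset Λ) (hQ : ∀ ω, (Q ω).card ≤ P)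
    (hdep : ∀ (v v' : Fin n ↪ Λ) (y : Λ), (∀ l : Fin n, (l : ℕ) < a → v l = v' l) →
      Q (v, y) = Q (v', y)) :
    pr (fun ω : (Fin n ↪ Λ) × Λ => ∃ w ∈ Q ω, w ∈ seg a b ω.1) ≤
      ((b - a : ℕ) : ℝ) * (P / ((Fintype.card Λ : ℝ) - a)) := by
  have hN : (0 : ℝ) < (Fintype.card Λ : ℝ) - a := by
    have : (a : ℝ) < Fintype.card Λ := by exact_mod_cast haN
    linarith
  have hnn : (0 : ℝ) ≤ ((b - a : ℕ) : ℝ) * (P / ((Fintype.card Λ : ℝ) - a)) :=
    mul_nonneg (Nat.cast_nonneg _) (div_nonneg (Nat.cast_nonneg _) hN.le)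
  refine Pool.Agent.RO.pr_prod_le'
    (p := fun ω : (Fin n ↪ Λ) × Λ => ∃ w ∈ Q ω, w ∈ seg a b ω.1) hnn fun y => ?_
  have h1 : pr (fun v : Fin n ↪ Λ => ∃ w ∈ Q (v, y), w ∈ seg a b v) ≤
      pr (fun v : Fin n ↪ Λ => ∃ k : Fin (b - a), v (idx hb k) ∈ Q (v, y)) :=
    Pool.Agent.RO.pr_mono fun v hv => seg_idx hb (Q (v, y)) v hv
  exact h1.trans (pr_seg hab hb haN (fun v => Q (v, y)) (fun v => hQ _)
    (fun v v' h => hdep v v' y h))

end Pool.Agent.RC
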