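import Mathlib
import Pool.Agent.RO.Emb
import Pool.Agent.RC.CoDefs

set_option autoImplicit false

/-!
# RC-Seg (job): segments of a random sequence

`seg a b v = pre b v \ pre a v`, `pre a v` the set of the first `a` values of the injective sequence `v` (`RO.pre`; lemmas `RO.card_pre`, `RO.pre_mono` in
`Pool/Agent/RO/Emb.lean`).

PLAN. `mem_seg`: by injectivity (`w = v l` with `l < b`, and not `l < a`).  `card_seg`: `Finset.card_sdiff_of_subset`, `card_pre`.
`pr_seg`: there is a permutation `σ` of `Fin n` with `σ l ∈ [a, b)` iff `l < b - a` (both sets have `b - a` elements; `Equiv.extendSubtype`, or explicitly the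
rotation by `a` if `n > 0`: `l ↦ l + a mod n` with `b ≤ n`).  Then `pre (b - a) (σ.toEmbedding.trans v) = seg a b v`; `v ↦ σ.toEmbedding.trans v` is a
bijection of `Fin n ↪ Λ` (`Equiv.embeddingCongr` or by hand), so `RO.pr_equiv` and `RO.pr_pre`.
-/

namespace Pool.Agent.RC

open Pool.Agent.RO (pr fr pre)

variable {Λ : Type} [Fintype Λ] [DecidableEq Λ]

omit [Fintype Λ] in
private theorem seg_mem_pre {a n : ℕ} (v : Fin n ↪ Λ) {w : Λ} :
    w ∈ pre a v ↔ ∃ l : Fin n, (l : ℕ) < a ∧ v l = w := by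
  unfold Pool.Agent.RO.pre
  simp only [Finset.mem_image, Finset.mem_filter, Finset.mem_univ, true_and]

omit [Fintype Λ] in
theorem mem_seg {a b n : ℕ} (v : Fin n ↪ Λ) {w : Λ} :
    w ∈ seg a b v ↔ ∃ l : Fin n, a ≤ (l : ℕ) ∧ (l : ℕ) < b ∧ v l = w := by
  unfold seg
  rw [Finset.mem_sdiff, seg_mem_pre, seg_mem_pre]
  constructor
  · rintro ⟨⟨l, hl, rfl⟩, h⟩
    refine ⟨l, ?_, hl, rfl⟩
    by_contra hl2
    exact h ⟨l, by omega, rfl⟩
  · rintro ⟨l, h1, h2, rfl⟩
    refine ⟨⟨l, h2, rfl⟩, ?_⟩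
    rintro ⟨l', h3, h4⟩
    have : l' = l := v.injective h4
    rw [this] at h3
    omega

omit [Fintype Λ] in
theorem card_seg {a b n : ℕ} (hab : a ≤ b) (hb : b ≤ n) (v : Fin n ↪ Λ) :
    (seg a b v).card = b - a := by
  unfold seg
  rw [Finset.card_sdiff_of_subset (Pool.Agent.RO.pre_mono hab v), Pool.Agent.RO.card_pre hb,
    Pool.Agent.RO.card_pre (hab.trans hb)]

theorem pr_seg {a b n : ℕ} (hab : a ≤ b) (hb : b ≤ n) (hn : n ≤ Fintype.card Λ)
    (Φ : Finset Λ → Prop) : pr (fun v : Fin n ↪ Λ => Φ (seg a b v)) = fr (b - a) Φ := by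
  classical
  set v₀ : Fin n ↪ Fin n := Function.Embedding.refl (Fin n) with hv₀
  have hc : (pre (b - a) v₀).card = (seg a b v₀).card := by
    rw [Pool.Agent.RO.card_pre (by omega), card_seg hab hb]
  let e : {x // x ∈ pre (b - a) v₀} ≃ {x // x ∈ seg a b v₀} := Finset.equivOfCardEq hc
  set σ : Equiv.Perm (Fin n) := Equiv.extendSubtype e with hσ
  have h1 : ∀ l : Fin n, (l : ℕ) < b - a ↔ (a ≤ (σ l : ℕ) ∧ (σ l : ℕ) < b) := by
    intro l
    have hA : ∀ x : Fin n, x ∈ pre (b - a) v₀ ↔ (x : ℕ) < b - a := by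
      intro x
      rw [seg_mem_pre]
      constructor
      · rintro ⟨l', h, rfl⟩
        exact h
      · intro h
        exact ⟨x, h, rfl⟩
    have hB : ∀ x : Fin n, x ∈ seg a b v₀ ↔ (a ≤ (x : ℕ) ∧ (x : ℕ) < b) := by
      intro x
      rw [mem_seg]
      constructor
      · rintro ⟨l', h, h', rfl⟩
        exact ⟨h, h'⟩
      · rintro ⟨h, h'⟩
        exact ⟨x, h, h', rfl⟩
    rw [← hA, ← hB]
    constructor
    · intro h
      exact Equiv.extendSubtype_mem e l h
    · intro h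
      by_contra hn
      exact Equiv.extendSubtype_not_mem e l hn h
  have h2 : ∀ v : Fin n ↪ Λ, pre (b - a) (Equiv.embeddingCongr σ.symm (Equiv.refl Λ) v) = seg a b v := by
    intro v
    ext w
    rw [seg_mem_pre, mem_seg]
    constructor
    · rintro ⟨l, hl, h⟩
      obtain ⟨h3, h4⟩ := (h1 l).1 hl
      exact ⟨σ l, h3, h4, h⟩
    · rintro ⟨l, h3, h4, h⟩
      refine ⟨σ.symm l, ?_, ?_⟩
      · rw [h1, Equiv.apply_symm_apply]
        exact ⟨h3, h4⟩
      · show v (σ (σ.symm l)) = w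
        rw [Equiv.apply_symm_apply]
        exact h
  rw [← Pool.Agent.RO.pr_pre (a := b - a) (n := n) (by omega) hn Φ,
    ← Pool.Agent.RO.pr_equiv (Equiv.embeddingCongr σ.symm (Equiv.refl Λ))
      (fun v : Fin n ↪ Λ => Φ (pre (b - a) v))]
  apply Pool.Agent.RO.pr_congr
  intro v
  rw [h2]

end Pool.Agent.RC
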