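import Mathlib
import Pool.Agent.RO.EmbB
import Pool.Agent.RC.Seg

set_option autoImplicit false

/-!
# RC-Split (job): the first `j` cells, their translate, and the following cells

`xi hop2 hj (v, y)` is the sequence `op y (v 0), ..., op y (v (j-1))`.

PLAN. `pr_split`.  First replace `Fin n ↪ Λ` by `Fin k ↪ Λ`: the left event depends only on the first `k` values of `v`, and the restriction map
`(Fin n ↪ Λ) → (Fin k ↪ Λ)` (`(Fin.castLEEmb hkn).trans v`) has fibres of constant size `c > 0` (`RO.pr_fibre`; the fibres over two sequences are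
in bijection by composition with a permutation of `Λ`; or compare with `Equiv.sumEmbeddingEquivProdEmbeddingDisjoint`).
Then the map `(v, y) ↦ (tail, (xi .., y))` from `(Fin k ↪ Λ) × Λ` to `Y := (Fin (k - j) ↪ Λ) × ((Fin j ↪ Λ) × Λ)`, `tail l = v (j + l)`, is injective
(`v l = op y (xi l)` for `l < j` by `hop2`), `seg j k v = pre (k - j) tail`, and its image is the set of the `(κ, (x, y))` with
`Disjoint (pre (k - j) κ) {op y (x l)}`.  So `#{left event} ≤ #{right event}` and it is enough to see `card Y ≤ 2 * card ((Fin k ↪ Λ) × Λ)`: the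
complement of the image has proportion at most `j * ((k - j) / N) ≤ 1/2` by `RO.pr_tr_mem` (`W κ x = pre (k - j) κ`).
`pr_split_mem`: `pr_split` with `Ψ x K y = ∃ w ∈ Q x K, ∃ i, op y (x i) = w` (an element `w` of `pre j v` is `v l = op y (op y (v l))`), then
`RO.pr_tr_mem`.  `pr_split_AA`: `pr_split` with `Ψ x K _ = AA op x K`, then `RO.pr_prod_le`, `RO.pr_fst`, `RO.pr_AA_le`, `RO.card_pre`.
-/

namespace Pool.Agent.RC

open Pool.Agent.RO (pr fr pre AA)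

variable {Λ : Type} [Fintype Λ] [DecidableEq Λ]

/-- restriction to the first `k` values -/
private def spR {k n : ℕ} (hkn : k ≤ n) (v : Fin n ↪ Λ) : Fin k ↪ Λ := (Fin.castLEEmb hkn).trans v

omit [Fintype Λ] [DecidableEq Λ] in
private theorem spR_apply {k n : ℕ} (hkn : k ≤ n) (v : Fin n ↪ Λ) (i : Fin k) :
    spR hkn v i = v (Fin.castLE hkn i) := rfl

private theorem sp_perm {k : ℕ} (u u' : Fin k ↪ Λ) : ∃ σ : Equiv.Perm Λ, u.trans σ.toEmbedding = u' := by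
  classical
  let e : {z // z ∈ Set.range u} ≃ {z // z ∈ Set.range u'} :=
    (Equiv.ofInjective u u.injective).symm.trans (Equiv.ofInjective u' u'.injective)
  refine ⟨e.extendSubtype, ?_⟩
  ext i
  have h1 : u i ∈ Set.range u := ⟨i, rfl⟩
  show e.extendSubtype (u i) = u' i
  rw [Equiv.extendSubtype_apply_of_mem _ _ h1]
  have h2 : (Equiv.ofInjective u u.injective).symm ⟨u i, h1⟩ = i :=
    (Equiv.ofInjective u u.injective).symm_apply_apply i
  show ((Equiv.ofInjective u' u'.injective) ((Equiv.ofInjective u u.injective).symm ⟨u i, h1⟩) : Λ) = _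
  rw [h2]
  rfl

private theorem sp_fib {k n : ℕ} (hkn : k ≤ n) (u u' : Fin k ↪ Λ) :
    Nat.card {v : Fin n ↪ Λ // spR hkn v = u} ≤ Nat.card {v : Fin n ↪ Λ // spR hkn v = u'} := by
  obtain ⟨σ, rfl⟩ := sp_perm u u'
  refine Nat.card_le_card_of_injective
    (fun v => ⟨v.1.trans σ.toEmbedding, (congrArg (fun z : Fin k ↪ Λ => z.trans σ.toEmbedding) v.2 :)⟩) ?_
  intro v v' h
  have h1 : v.1.trans σ.toEmbedding = v'.1.trans σ.toEmbedding := congrArg Subtype.val h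
  apply Subtype.ext
  ext i
  have h2 := DFunLike.congr_fun h1 i
  exact σ.injective h2

private theorem sp_first {k n : ℕ} (hkn : k ≤ n) (hn : n ≤ Fintype.card Λ)
    (p : (Fin k ↪ Λ) × Λ → Prop) :
    pr (fun ω : (Fin n ↪ Λ) × Λ => p (spR hkn ω.1, ω.2)) = pr p := by
  have hne : Nonempty (Fin n ↪ Λ) := by
    apply Function.Embedding.nonempty_of_card_le
    simpa using hn
  obtain ⟨v0⟩ := hne
  have hc : 0 < Nat.card {v : Fin n ↪ Λ // spR hkn v = spR hkn v0} :=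
    Nat.card_pos_iff.2 ⟨⟨⟨v0, rfl⟩⟩, inferInstance⟩
  have h1 : ∀ ω' : (Fin k ↪ Λ) × Λ,
      Nat.card {ω : (Fin n ↪ Λ) × Λ // (spR hkn ω.1, ω.2) = ω'} =
        Nat.card {v : Fin n ↪ Λ // spR hkn v = spR hkn v0} := by
    rintro ⟨u, y⟩
    have h2 : Nat.card {ω : (Fin n ↪ Λ) × Λ // (spR hkn ω.1, ω.2) = (u, y)} =
        Nat.card {v : Fin n ↪ Λ // spR hkn v = u} := by
      apply Nat.card_congr
      refine ⟨fun ω => ⟨ω.1.1, (Prod.ext_iff.1 ω.2).1⟩, fun v => ⟨(v.1, y), by rw [v.2]⟩, ?_, ?_⟩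
      · rintro ⟨⟨v, y'⟩, h⟩
        have h3 : y' = y := (Prod.ext_iff.1 h).2
        subst h3
        rfl
      · intro v
        rfl
    rw [h2]
    exact le_antisymm (sp_fib hkn _ _) (sp_fib hkn _ _)
  exact Pool.Agent.RO.pr_fibre (f := fun ω : (Fin n ↪ Λ) × Λ => (spR hkn ω.1, ω.2)) hc h1 p

/-- the last values -/
private def spT {j k : ℕ} (hjk : j ≤ k) (u : Fin k ↪ Λ) : Fin (k - j) ↪ Λ where
  toFun l := u ⟨j + l, by omega⟩
  inj' := by
    intro l l' h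
    have h1 := u.injective h
    rw [Fin.mk.injEq] at h1
    exact Fin.ext (by omega)

omit [Fintype Λ] in
private theorem sp_pre {j k : ℕ} (hjk : j ≤ k) (u : Fin k ↪ Λ) :
    pre (k - j) (spT hjk u) = seg j k u := by
  ext w
  rw [mem_seg]
  unfold pre
  rw [Finset.mem_image]
  constructor
  · rintro ⟨l, -, rfl⟩
    exact ⟨⟨j + l, by omega⟩, by simp, by simp; omega, rfl⟩
  · rintro ⟨l, h1, h2, rfl⟩
    refine ⟨⟨(l : ℕ) - j, by omega⟩, ?_, ?_⟩
    · rw [Finset.mem_filter]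
      refine ⟨Finset.mem_univ _, ?_⟩
      show (l : ℕ) - j < k - j
      omega
    · show u ⟨j + ((l : ℕ) - j), _⟩ = u l
      congr 1
      apply Fin.ext
      show j + ((l : ℕ) - j) = l
      omega

/-- a sequence from its parts -/
private def spM {op : Λ → Λ → Λ} (hop2 : ∀ x y, op x (op x y) = y) {j k : ℕ}
    (ω : (Fin (k - j) ↪ Λ) × ((Fin j ↪ Λ) × Λ))
    (h : ¬ ∃ i, op ω.2.2 (ω.2.1 i) ∈ pre (k - j) ω.1) : Fin k ↪ Λ where
  toFun l := if h : (l : ℕ) < j then op ω.2.2 (ω.2.1 ⟨l, h⟩) else ω.1 ⟨l - j, by omega⟩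
  inj' := by
    have h0 : ∀ i l, op ω.2.2 (ω.2.1 i) ≠ ω.1 l := by
      intro i l h1
      apply h
      refine ⟨i, ?_⟩
      unfold pre
      rw [Finset.mem_image]
      exact ⟨l, Finset.mem_filter.2 ⟨Finset.mem_univ _, l.2⟩, h1.symm⟩
    have h4 : ∀ a b, op ω.2.2 a = op ω.2.2 b → a = b := by
      intro a b h5
      have h6 := congrArg (op ω.2.2) h5
      rwa [hop2, hop2] at h6
    intro l l' hl
    simp only at hl
    by_cases h1 : (l : ℕ) < j <;> by_cases h2 : (l' : ℕ) < j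
    · rw [dif_pos h1, dif_pos h2] at hl
      have h3 := ω.2.1.injective (h4 _ _ hl)
      rw [Fin.mk.injEq] at h3
      exact Fin.ext h3
    · rw [dif_pos h1, dif_neg h2] at hl
      exact absurd hl (h0 _ _)
    · rw [dif_neg h1, dif_pos h2] at hl
      exact absurd hl.symm (h0 _ _)
    · rw [dif_neg h1, dif_neg h2] at hl
      have h3 := ω.1.injective hl
      rw [Fin.mk.injEq] at h3
      exact Fin.ext (by omega)

/-- the map -/
private def spF {op : Λ → Λ → Λ} (hop2 : ∀ x y, op x (op x y) = y) {j k : ℕ} (hjk : j ≤ k)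
    (ω : (Fin k ↪ Λ) × Λ) : (Fin (k - j) ↪ Λ) × ((Fin j ↪ Λ) × Λ) :=
  (spT hjk ω.1, (xi hop2 hjk ω, ω.2))

omit [Fintype Λ] [DecidableEq Λ] in
private theorem spF_inj {op : Λ → Λ → Λ} (hop2 : ∀ x y, op x (op x y) = y) {j k : ℕ} (hjk : j ≤ k) :
    Function.Injective (spF (Λ := Λ) hop2 hjk) := by
  rintro ⟨u, y⟩ ⟨u', y'⟩ h
  unfold spF at h
  rw [Prod.mk.injEq, Prod.mk.injEq] at h
  obtain ⟨h1, h2, h3⟩ := h
  simp only at h1 h3
  subst h3
  have h4 : u = u' := by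
    ext l
    by_cases hl : (l : ℕ) < j
    · have h5 := DFunLike.congr_fun h2 ⟨l, hl⟩
      have h6 : op y (u l) = op y (u' l) := h5
      have h7 := congrArg (op y) h6
      rwa [hop2, hop2] at h7
    · have h5 := DFunLike.congr_fun h1 ⟨(l : ℕ) - j, by omega⟩
      have h6 : (⟨j + ((l : ℕ) - j), by omega⟩ : Fin k) = l := Fin.ext (by simp; omega)
      have h7 : u ⟨j + ((l : ℕ) - j), by omega⟩ = u' ⟨j + ((l : ℕ) - j), by omega⟩ := h5
      rwa [h6] at h7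
  rw [h4]

omit [Fintype Λ] in
private theorem spF_spM {op : Λ → Λ → Λ} (hop2 : ∀ x y, op x (op x y) = y) {j k : ℕ} (hjk : j ≤ k)
    (ω : (Fin (k - j) ↪ Λ) × ((Fin j ↪ Λ) × Λ))
    (h : ¬ ∃ i, op ω.2.2 (ω.2.1 i) ∈ pre (k - j) ω.1) :
    spF hop2 hjk (spM hop2 ω h, ω.2.2) = ω := by
  obtain ⟨κ, x, y⟩ := ω
  unfold spF
  rw [Prod.mk.injEq, Prod.mk.injEq]
  refine ⟨?_, ?_, rfl⟩
  · ext l
    show (if h : j + (l : ℕ) < j then op y (x ⟨j + l, h⟩) else κ ⟨j + l - j, _⟩) = κ l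
    rw [dif_neg (by omega)]
    congr 1
    apply Fin.ext
    show j + (l : ℕ) - j = l
    omega
  · ext i
    show op y (if h : (i : ℕ) < j then op y (x ⟨i, h⟩) else κ ⟨i - j, _⟩) = x i
    rw [dif_pos i.2, hop2]

private theorem sp_card {op : Λ → Λ → Λ} (hop1 : ∀ x y, op x y = op y x)
    (hop2 : ∀ x y, op x (op x y) = y) {j k : ℕ} (hjk : j ≤ k) (h4 : 2 * (j * k) ≤ Fintype.card Λ) :
    (Fintype.card ((Fin (k - j) ↪ Λ) × ((Fin j ↪ Λ) × Λ)) : ℝ) ≤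
      2 * (Fintype.card ((Fin k ↪ Λ) × Λ) : ℝ) := by
  classical
  rcases Nat.eq_zero_or_pos (Fintype.card Λ) with h0 | h0
  · have h1 : Fintype.card ((Fin (k - j) ↪ Λ) × ((Fin j ↪ Λ) × Λ)) = 0 := by
      rw [Fintype.card_prod, Fintype.card_prod, h0]
      simp
    rw [h1, Nat.cast_zero]
    positivity
  have hN : (0 : ℝ) < (Fintype.card Λ : ℝ) := by exact_mod_cast h0
  have h1 := Pool.Agent.RO.pr_tr_mem hop1 hop2 (n := k - j) (j := j) (P := k - j)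
    (fun κ _ => pre (k - j) κ) (fun κ _ => (Pool.Agent.RO.card_pre le_rfl κ).le)
  have h2 : (j : ℝ) * (((k - j : ℕ) : ℝ) / (Fintype.card Λ : ℝ)) ≤ 1 / 2 := by
    rw [← mul_div_assoc, div_le_div_iff₀ hN two_pos]
    have h5 : j * (k - j) ≤ j * k := Nat.mul_le_mul_left _ (Nat.sub_le _ _)
    have h6 : j * (k - j) * 2 ≤ 1 * Fintype.card Λ := by omega
    exact_mod_cast h6
  set E : Finset ((Fin (k - j) ↪ Λ) × ((Fin j ↪ Λ) × Λ)) := Finset.univ.filter fun ω =>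
    ∃ i, op ω.2.2 (ω.2.1 i) ∈ pre (k - j) ω.1 with hE
  have h3 : pr (fun ω : (Fin (k - j) ↪ Λ) × ((Fin j ↪ Λ) × Λ) =>
      ∃ i, op ω.2.2 (ω.2.1 i) ∈ pre (k - j) ω.1) =
      (E.card : ℝ) / (Fintype.card ((Fin (k - j) ↪ Λ) × ((Fin j ↪ Λ) × Λ)) : ℝ) := by
    unfold pr
    congr!
  rw [h3] at h1
  have h7 : (E.card : ℝ) ≤ (Fintype.card ((Fin (k - j) ↪ Λ) × ((Fin j ↪ Λ) × Λ)) : ℝ) / 2 := by
    rcases Nat.eq_zero_or_pos (Fintype.card ((Fin (k - j) ↪ Λ) × ((Fin j ↪ Λ) × Λ))) with h8 | h8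
    · have h9 : E.card ≤ 0 := by
        rw [← h8]
        exact Finset.card_le_univ E
      have h10 : (E.card : ℝ) = 0 := by exact_mod_cast Nat.le_zero.1 h9
      rw [h10]
      positivity
    · have h8' : (0 : ℝ) < (Fintype.card ((Fin (k - j) ↪ Λ) × ((Fin j ↪ Λ) × Λ)) : ℝ) := by
        exact_mod_cast h8
      have h9 := h1.trans h2
      rw [div_le_div_iff₀ h8' two_pos] at h9
      linarith only [h9]
  have h8 : Eᶜ.card ≤ Fintype.card ((Fin k ↪ Λ) × Λ) := by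
    rw [← Finset.card_univ]
    have hmem : ∀ ω ∈ Eᶜ, ¬ ∃ i, op ω.2.2 (ω.2.1 i) ∈ pre (k - j) ω.1 := by
      intro ω hω hc
      rw [Finset.mem_compl] at hω
      exact hω (Finset.mem_filter.2 ⟨Finset.mem_univ _, hc⟩)
    refine Finset.card_le_card_of_surjOn (spF hop2 hjk) ?_
    intro ω hω
    exact ⟨_, Finset.mem_coe.2 (Finset.mem_univ _), spF_spM hop2 hjk ω (hmem ω (Finset.mem_coe.1 hω))⟩
  have h9 : (Eᶜ.card : ℝ) = (Fintype.card ((Fin (k - j) ↪ Λ) × ((Fin j ↪ Λ) × Λ)) : ℝ) - E.card := by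
    have h10 := Finset.card_add_card_compl E
    rw [← h10]
    push_cast
    ring
  have h10 : (Eᶜ.card : ℝ) ≤ (Fintype.card ((Fin k ↪ Λ) × Λ) : ℝ) := by exact_mod_cast h8
  linarith only [h7, h9, h10]

theorem pr_split {op : Λ → Λ → Λ} (hop1 : ∀ x y, op x y = op y x)
    (hop2 : ∀ x y, op x (op x y) = y) {j k n : ℕ} (hjk : j ≤ k) (hkn : k ≤ n)
    (hn : n ≤ Fintype.card Λ) (hj : j ≤ n) (h4 : 2 * (j * k) ≤ Fintype.card Λ)
    (Ψ : (Fin j ↪ Λ) → Finset Λ → Λ → Prop) :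
    pr (fun ω : (Fin n ↪ Λ) × Λ => Ψ (xi hop2 hj ω) (seg j k ω.1) ω.2) ≤
      2 * pr (fun ω : (Fin (k - j) ↪ Λ) × ((Fin j ↪ Λ) × Λ) =>
        Ψ ω.2.1 (pre (k - j) ω.1) ω.2.2) := by
  classical
  have h1 : pr (fun ω : (Fin n ↪ Λ) × Λ => Ψ (xi hop2 hj ω) (seg j k ω.1) ω.2) =
      pr (fun ω : (Fin k ↪ Λ) × Λ => Ψ (xi hop2 hjk ω) (seg j k ω.1) ω.2) := by
    rw [← sp_first hkn hn]
    apply Pool.Agent.RO.pr_congr
    rintro ⟨v, y⟩
    have e1 : xi hop2 hjk (spR hkn v, y) = xi hop2 hj (v, y) := by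
      ext i
      rfl
    have e2 : seg j k (spR hkn v) = seg j k v := by
      ext w
      rw [mem_seg, mem_seg]
      constructor
      · rintro ⟨l, a1, a2, rfl⟩
        exact ⟨Fin.castLE hkn l, a1, a2, rfl⟩
      · rintro ⟨l, a1, a2, rfl⟩
        exact ⟨⟨l, a2⟩, a1, a2, rfl⟩
    show Ψ (xi hop2 hj (v, y)) (seg j k v) y ↔ Ψ (xi hop2 hjk (spR hkn v, y)) (seg j k (spR hkn v)) y
    rw [e1, e2]
  rw [h1]
  set A : Finset ((Fin k ↪ Λ) × Λ) := Finset.univ.filter fun ω => Ψ (xi hop2 hjk ω) (seg j k ω.1) ω.2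
    with hA
  set B : Finset ((Fin (k - j) ↪ Λ) × ((Fin j ↪ Λ) × Λ)) := Finset.univ.filter fun ω =>
    Ψ ω.2.1 (pre (k - j) ω.1) ω.2.2 with hB
  have e1 : pr (fun ω : (Fin k ↪ Λ) × Λ => Ψ (xi hop2 hjk ω) (seg j k ω.1) ω.2) =
      (A.card : ℝ) / (Fintype.card ((Fin k ↪ Λ) × Λ) : ℝ) := by
    unfold pr
    congr!
  have e2 : pr (fun ω : (Fin (k - j) ↪ Λ) × ((Fin j ↪ Λ) × Λ) =>
      Ψ ω.2.1 (pre (k - j) ω.1) ω.2.2) =
      (B.card : ℝ) / (Fintype.card ((Fin (k - j) ↪ Λ) × ((Fin j ↪ Λ) × Λ)) : ℝ) := by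
    unfold pr
    congr!
  rw [e1, e2]
  have hAB : A.card ≤ B.card := by
    refine Finset.card_le_card_of_injOn (spF hop2 hjk) ?_ (fun _ _ _ _ h => spF_inj hop2 hjk h)
    intro ω hω
    have hω' := (Finset.mem_filter.1 (Finset.mem_coe.1 hω)).2
    refine Finset.mem_coe.2 (Finset.mem_filter.2 ⟨Finset.mem_univ _, ?_⟩)
    show Ψ (xi hop2 hjk ω) (pre (k - j) (spT hjk ω.1)) ω.2
    rw [sp_pre]
    exact hω'
  have hAB' : (A.card : ℝ) ≤ B.card := by exact_mod_cast hAB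
  have hc := sp_card hop1 hop2 hjk h4
  rcases Nat.eq_zero_or_pos (Fintype.card ((Fin k ↪ Λ) × Λ)) with h0 | h0
  · rw [h0]
    simp only [Nat.cast_zero, div_zero]
    positivity
  have hZ : (0 : ℝ) < (Fintype.card ((Fin k ↪ Λ) × Λ) : ℝ) := by exact_mod_cast h0
  rcases Nat.eq_zero_or_pos (Fintype.card ((Fin (k - j) ↪ Λ) × ((Fin j ↪ Λ) × Λ))) with h5 | h5
  · have h6 : B.card ≤ 0 := by
      rw [← h5]
      exact Finset.card_le_univ B
    have h7 : (A.card : ℝ) = 0 := by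
      have h8 : A.card = 0 := by omega
      exact_mod_cast h8
    rw [h7, zero_div]
    positivity
  have hY : (0 : ℝ) < (Fintype.card ((Fin (k - j) ↪ Λ) × ((Fin j ↪ Λ) × Λ)) : ℝ) := by
    exact_mod_cast h5
  rw [← mul_div_assoc, div_le_div_iff₀ hZ hY]
  have hB0 : (0 : ℝ) ≤ B.card := Nat.cast_nonneg _
  calc (A.card : ℝ) * (Fintype.card ((Fin (k - j) ↪ Λ) × ((Fin j ↪ Λ) × Λ)) : ℝ)
      ≤ B.card * (2 * (Fintype.card ((Fin k ↪ Λ) × Λ) : ℝ)) :=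
        mul_le_mul hAB' hc hY.le hB0
    _ = 2 * B.card * (Fintype.card ((Fin k ↪ Λ) × Λ) : ℝ) := by ring

theorem pr_split_mem {op : Λ → Λ → Λ} (hop1 : ∀ x y, op x y = op y x)
    (hop2 : ∀ x y, op x (op x y) = y) {j k n P : ℕ} (hjk : j ≤ k) (hkn : k ≤ n)
    (hn : n ≤ Fintype.card Λ) (hj : j ≤ n) (h4 : 2 * (j * k) ≤ Fintype.card Λ)
    (Q : (Fin j ↪ Λ) → Finset Λ → Finset Λ) (hQ : ∀ x K, (Q x K).card ≤ P) :
    pr (fun ω : (Fin n ↪ Λ) × Λ => ∃ w ∈ Q (xi hop2 hj ω) (seg j k ω.1), w ∈ pre j ω.1) ≤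
      2 * (j * (P / (Fintype.card Λ : ℝ))) := by
  have h1 := pr_split hop1 hop2 hjk hkn hn hj h4 (fun x K y => ∃ i, op y (x i) ∈ Q x K)
  have h2 := Pool.Agent.RO.pr_tr_mem hop1 hop2 (n := k - j) (j := j) (P := P)
    (fun κ x => Q x (pre (k - j) κ)) (fun κ x => hQ x _)
  refine (Pool.Agent.RO.pr_mono ?_).trans (h1.trans (mul_le_mul_of_nonneg_left h2 two_pos.le))
  rintro ⟨v, y⟩ ⟨w, hw, hwp⟩
  unfold pre at hwp
  rw [Finset.mem_image] at hwp
  obtain ⟨l, hl, rfl⟩ := hwp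
  rw [Finset.mem_filter] at hl
  refine ⟨⟨l, hl.2⟩, ?_⟩
  have h3 : op y (xi hop2 hj (v, y) ⟨l, hl.2⟩) = v l := by
    show op y (op y (v (Fin.castLE hj ⟨l, hl.2⟩))) = v l
    rw [hop2]
    rfl
  show op y (xi hop2 hj (v, y) ⟨l, hl.2⟩) ∈ _
  rw [h3]
  exact hw

theorem pr_split_AA {op : Λ → Λ → Λ} (hop1 : ∀ x y, op x y = op y x)
    (hop2 : ∀ x y, op x (op x y) = y) {j h n : ℕ} (hj2 : 2 ≤ j) (hkn : j + h ≤ n)
    (hn : n ≤ Fintype.card Λ) (hj : j ≤ n) (h4 : 2 * (j * (j + h)) ≤ Fintype.card Λ) :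
    pr (fun ω : (Fin n ↪ Λ) × Λ => AA op (xi hop2 hj ω) (seg j (j + h) ω.1)) ≤
      2 * ((h : ℝ) ^ 2 / ((Fintype.card Λ : ℝ) - 1)) := by
  have h1 := pr_split hop1 hop2 (Nat.le_add_right j h) hkn hn hj h4 (fun x K _ => AA op x K)
  refine h1.trans (mul_le_mul_of_nonneg_left ?_ two_pos.le)
  have hjN : j ≤ Fintype.card Λ := hj.trans hn
  have hN1 : (0 : ℝ) ≤ (Fintype.card Λ : ℝ) - 1 := by
    have : (2 : ℝ) ≤ (Fintype.card Λ : ℝ) := by exact_mod_cast hj2.trans hjN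
    linarith only [this]
  have hne : Nonempty Λ := Fintype.card_pos_iff.1 (by omega)
  apply Pool.Agent.RO.pr_prod_le (by positivity)
  intro κ
  show pr (fun b : (Fin j ↪ Λ) × Λ => AA op b.1 (pre (j + h - j) κ)) ≤ _
  rw [Pool.Agent.RO.pr_fst (fun x : Fin j ↪ Λ => AA op x (pre (j + h - j) κ))]
  refine Pool.Agent.RO.pr_AA_le hop1 hop2 hj2 hjN _ ?_
  rw [Pool.Agent.RO.card_pre le_rfl κ]
  omega

end Pool.Agent.RC
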