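import Mathlib
import Pool.Agent.RC.Fresh
import Pool.Agent.RC.Split

set_option autoImplicit false

/-!
# RC-One (job): one window

Compare `Pool/Agent/RO/StepI.lean`, `StepII.lean`, `Step.lean` (chosen certificates `Wc`, `Wd` there; copy them privately).

PLAN. `N = card Λ`, `x = xi hop2 hj ω`, `v = ω.1`.  `Tst` is a disjunction of three cases.
(1) `α x (pre h v) ∧ ¬ α x (pre k v)`: the chosen certificate `Q ω = W x (pre h v)` (at most `P` cells, determined by `y` and the first `h` values because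
`j ≤ h`) meets `pre k v \ pre h v = seg h k v`: `pr_fresh` with `a = h`, `b = k`, `n`: probability `≤ (k - h) * P / (N - h) ≤ 2 j P / N`.
(2) `α x (seg j k v)`.  `k ≤ j + h`, so `seg j k v ⊆ seg j (j + h) v` with difference `seg k (j + h) v`.  Either the chosen certificate of
`α x (seg j k v)` meets `seg k (j + h) v` (`pr_fresh` with `a = k`, `b = j + h`: `≤ (j + h - k) P / (N - k) ≤ 2 j P / N`), or `α x K₁`, `K₁ = seg j (j + h) v`; then
`AA op x K₁` (`pr_split_AA`: `≤ 2 h² / (N - 1) ≤ 4 h² / N`) or `∃ x, α x K₁ ∧ ¬ AA op x K₁`, an event for `K₁`, of probability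
`fr h (..)` (`pr_seg`, `j + h - j = h`, `RO.pr_fst`).
(3) `β x (seg j k v) ∧ ¬ β x (pre k v)`: the chosen certificate meets `pre k v \ seg j k v = pre j v`: `pr_split_mem`: `≤ 2 j P / N`.
Sum: `fr h (..) + (6 j P + 4 h²) / N`.  (`RO.pr_or_le`, `RO.pr_mono`; `4 (j + h)² ≤ N` gives `h, k ≤ j + h ≤ N / 4` and `2 j (j + h) ≤ N`.)
-/

namespace Pool.Agent.RC

open Pool.Agent.RO (pr fr pre AA Cert)

variable {Λ : Type} [Fintype Λ] [DecidableEq Λ]

open Classical in
/-- a chosen certificate -/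
private noncomputable def one_Wc {j P : ℕ} {a : (Fin j ↪ Λ) → Finset Λ → Prop} (ha : Cert P a)
    (x : Fin j ↪ Λ) (G : Finset Λ) : Finset Λ :=
  if h : a x G then Classical.choose (ha x G h) else ∅

omit [Fintype Λ] [DecidableEq Λ] in
private theorem one_Wc_card {j P : ℕ} {a : (Fin j ↪ Λ) → Finset Λ → Prop} (ha : Cert P a)
    (x : Fin j ↪ Λ) (G : Finset Λ) : (one_Wc ha x G).card ≤ P := by
  unfold one_Wc
  split_ifs with h
  · exact (Classical.choose_spec (ha x G h)).1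
  · simp

omit [Fintype Λ] [DecidableEq Λ] in
private theorem one_Wc_spec {j P : ℕ} {a : (Fin j ↪ Λ) → Finset Λ → Prop} (ha : Cert P a)
    (x : Fin j ↪ Λ) (G : Finset Λ) (h : a x G) (G' : Finset Λ)
    (hG : ∀ w ∈ one_Wc ha x G, w ∈ G' ↔ w ∈ G) : a x G' := by
  have h1 := (Classical.choose_spec (ha x G h)).2 G'
  apply h1
  intro w hw
  apply hG w
  unfold one_Wc
  rw [dif_pos h]
  exact hw

omit [Fintype Λ] in
private theorem one_pre {a n : ℕ} {v v' : Fin n ↪ Λ} (h : ∀ l : Fin n, (l : ℕ) < a → v l = v' l) :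
    pre a v = pre a v' := by
  unfold Pool.Agent.RO.pre
  apply Finset.image_congr
  intro l hl
  apply h
  have : l ∈ Finset.univ.filter (fun i : Fin n => (i : ℕ) < a) := hl
  exact (Finset.mem_filter.1 this).2

omit [Fintype Λ] [DecidableEq Λ] in
private theorem one_xi {op : Λ → Λ → Λ} (hop2 : ∀ x y, op x (op x y) = y) {j n a : ℕ} (hj : j ≤ n)
    (hja : j ≤ a) {v v' : Fin n ↪ Λ} (y : Λ) (h : ∀ l : Fin n, (l : ℕ) < a → v l = v' l) :
    xi hop2 hj (v, y) = xi hop2 hj (v', y) := by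
  apply Function.Embedding.ext
  intro i
  show op y (v (Fin.castLE hj i)) = op y (v' (Fin.castLE hj i))
  rw [h (Fin.castLE hj i) (lt_of_lt_of_le i.2 hja)]

theorem one_window {op : Λ → Λ → Λ} (hop1 : ∀ x y, op x y = op y x)
    (hop2 : ∀ x y, op x (op x y) = y) {j h k n P : ℕ} (hj2 : 2 ≤ j) (hjh : j ≤ h) (hhk : h ≤ k)
    (hkj : k ≤ h + j) (hj : j ≤ n) (hhn : j + h ≤ n) (hn : n ≤ Fintype.card Λ)
    (hN : 4 * (j + h) ^ 2 ≤ Fintype.card Λ) {α β : (Fin j ↪ Λ) → Finset Λ → Prop}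
    (hα : Cert P α) (hβ : Cert P β) :
    pr (fun ω : (Fin n ↪ Λ) × Λ => Tst hop2 hj α β h k ω) ≤
      fr h (fun H => ∃ x, α x H ∧ ¬ AA op x H) +
        8 * ((j : ℝ) * P + (h : ℝ) ^ 2) / (Fintype.card Λ : ℝ) := by
  classical
  set N : ℝ := (Fintype.card Λ : ℝ) with hNdef
  have hs1 : j + h ≤ (j + h) ^ 2 := Nat.le_self_pow two_ne_zero _
  have hs : 4 * (j + h) ≤ Fintype.card Λ := by omega
  have hjj : 2 * (j * (j + h)) ≤ Fintype.card Λ := by
    refine le_trans ?_ hN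
    nlinarith [Nat.zero_le j, Nat.zero_le h]
  have hjk : 2 * (j * k) ≤ Fintype.card Λ := by
    refine le_trans ?_ hjj
    have : j * k ≤ j * (j + h) := Nat.mul_le_mul_left _ (by omega)
    omega
  have hsR : 4 * ((j : ℝ) + h) ≤ N := by
    rw [hNdef]
    exact_mod_cast hs
  have hj2R : (2 : ℝ) ≤ j := by exact_mod_cast hj2
  have hjhR : (j : ℝ) ≤ h := by exact_mod_cast hjh
  have hkR : (k : ℝ) ≤ h + j := by exact_mod_cast hkj
  have hN0 : 0 < N := by linarith
  have hj0 : (0 : ℝ) ≤ j := by linarith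
  have hP0 : (0 : ℝ) ≤ P := Nat.cast_nonneg P
  have hjP : 0 ≤ (j : ℝ) * P := mul_nonneg hj0 hP0
  -- a bound for the terms of the form `c * (P / (N - a))`
  have hterm : ∀ c a : ℝ, 0 ≤ c → c ≤ j → a ≤ j + h → c * (P / (N - a)) ≤ 2 * ((j : ℝ) * P) / N := by
    intro c a hc hcj ha
    have h1 : N / 2 ≤ N - a := by linarith
    have h2 : 0 < N / 2 := by linarith
    have h3 : (P : ℝ) / (N - a) ≤ P / (N / 2) := div_le_div_of_nonneg_left hP0 h2 h1
    have h4 : (P : ℝ) / (N / 2) = 2 * P / N := by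
      rw [div_div_eq_mul_div, mul_comm]
    have h5 : 0 ≤ 2 * (P : ℝ) / N := div_nonneg (by linarith) hN0.le
    calc c * (P / (N - a)) ≤ c * (2 * P / N) := mul_le_mul_of_nonneg_left (h3.trans_eq h4) hc
      _ ≤ j * (2 * P / N) := mul_le_mul_of_nonneg_right hcj h5
      _ = 2 * ((j : ℝ) * P) / N := by ring
  have hcard : h < Fintype.card Λ := by omega
  have hcard' : k < Fintype.card Λ := by omega
  have hE1 : pr (fun ω : (Fin n ↪ Λ) × Λ =>
      ∃ w ∈ one_Wc hα (xi hop2 hj ω) (pre h ω.1), w ∈ seg h k ω.1) ≤ 2 * ((j : ℝ) * P) / N := by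
    refine le_trans (pr_fresh (P := P) hhk (by omega) hn hcard
      (fun ω => one_Wc hα (xi hop2 hj ω) (pre h ω.1)) (fun ω => one_Wc_card hα _ _) ?_) ?_
    · intro v v' y hv
      show one_Wc hα (xi hop2 hj (v, y)) (pre h v) = one_Wc hα (xi hop2 hj (v', y)) (pre h v')
      rw [one_xi hop2 hj hjh y hv, one_pre hv]
    · refine hterm _ _ (Nat.cast_nonneg _) ?_ (by linarith)
      exact_mod_cast (by omega : k - h ≤ j)
  have hE2 : pr (fun ω : (Fin n ↪ Λ) × Λ =>
      ∃ w ∈ one_Wc hα (xi hop2 hj ω) (seg j k ω.1), w ∈ seg k (j + h) ω.1) ≤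
        2 * ((j : ℝ) * P) / N := by
    refine le_trans (pr_fresh (P := P) (by omega) hhn hn hcard'
      (fun ω => one_Wc hα (xi hop2 hj ω) (seg j k ω.1)) (fun ω => one_Wc_card hα _ _) ?_) ?_
    · intro v v' y hv
      show one_Wc hα (xi hop2 hj (v, y)) (pre k v \ pre j v) =
        one_Wc hα (xi hop2 hj (v', y)) (pre k v' \ pre j v')
      rw [one_xi hop2 hj (hjh.trans hhk) y hv, one_pre hv,
        one_pre (a := j) (fun l hl => hv l (lt_of_lt_of_le hl (hjh.trans hhk)))]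
    · refine hterm _ _ (Nat.cast_nonneg _) ?_ (by linarith)
      exact_mod_cast (by omega : j + h - k ≤ j)
  have hE3 : pr (fun ω : (Fin n ↪ Λ) × Λ => AA op (xi hop2 hj ω) (seg j (j + h) ω.1)) ≤
      4 * (h : ℝ) ^ 2 / N := by
    refine le_trans (pr_split_AA hop1 hop2 hj2 hhn hn hj hjj) ?_
    have h1 : N / 2 ≤ N - 1 := by linarith
    have h2 : 0 < N / 2 := by linarith
    have h3 : (h : ℝ) ^ 2 / (N - 1) ≤ (h : ℝ) ^ 2 / (N / 2) :=
      div_le_div_of_nonneg_left (sq_nonneg _) h2 h1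
    calc 2 * ((h : ℝ) ^ 2 / (N - 1)) ≤ 2 * ((h : ℝ) ^ 2 / (N / 2)) := by linarith
      _ = 4 * (h : ℝ) ^ 2 / N := by
        rw [div_div_eq_mul_div]
        ring
  have hne : Nonempty Λ := Fintype.card_pos_iff.1 (by omega)
  have hE4 : pr (fun ω : (Fin n ↪ Λ) × Λ => ∃ x, α x (seg j (j + h) ω.1) ∧
      ¬ AA op x (seg j (j + h) ω.1)) = fr h (fun H => ∃ x, α x H ∧ ¬ AA op x H) := by
    rw [Pool.Agent.RO.pr_fst (α := Fin n ↪ Λ) (β := Λ) (fun v : Fin n ↪ Λ => ∃ x, α x (seg j (j + h) v) ∧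
      ¬ AA op x (seg j (j + h) v)), pr_seg (Nat.le_add_right j h) hhn hn
      (fun H => ∃ x, α x H ∧ ¬ AA op x H), Nat.add_sub_cancel_left]
  have hE5 : pr (fun ω : (Fin n ↪ Λ) × Λ =>
      ∃ w ∈ one_Wc hβ (xi hop2 hj ω) (seg j k ω.1), w ∈ pre j ω.1) ≤ 2 * ((j : ℝ) * P) / N := by
    refine le_trans (pr_split_mem hop1 hop2 (P := P) (hjh.trans hhk) (by omega) hn hj hjk
      (one_Wc hβ) (one_Wc_card hβ)) ?_
    apply le_of_eq
    ring
  have key : ∀ ω : (Fin n ↪ Λ) × Λ, Tst hop2 hj α β h k ω →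
      (∃ w ∈ one_Wc hα (xi hop2 hj ω) (pre h ω.1), w ∈ seg h k ω.1) ∨
      ((∃ w ∈ one_Wc hα (xi hop2 hj ω) (seg j k ω.1), w ∈ seg k (j + h) ω.1) ∨
      (AA op (xi hop2 hj ω) (seg j (j + h) ω.1) ∨
      ((∃ x, α x (seg j (j + h) ω.1) ∧ ¬ AA op x (seg j (j + h) ω.1)) ∨
      (∃ w ∈ one_Wc hβ (xi hop2 hj ω) (seg j k ω.1), w ∈ pre j ω.1)))) := by
    intro ω hω
    rcases hω with ⟨h1, h2⟩ | h1 | ⟨h1, h2⟩
    · left
      by_contra hcon
      apply h2
      apply one_Wc_spec hα _ _ h1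
      intro w hw
      constructor
      · intro hk
        by_contra hh
        exact hcon ⟨w, hw, Finset.mem_sdiff.2 ⟨hk, hh⟩⟩
      · intro hh
        exact Pool.Agent.RO.pre_mono hhk _ hh
    · right
      by_cases hc : ∃ w ∈ one_Wc hα (xi hop2 hj ω) (seg j k ω.1), w ∈ seg k (j + h) ω.1
      · exact Or.inl hc
      · right
        by_cases hA : AA op (xi hop2 hj ω) (seg j (j + h) ω.1)
        · exact Or.inl hA
        · right
          left
          refine ⟨xi hop2 hj ω, ?_, hA⟩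
          apply one_Wc_spec hα _ _ h1
          intro w hw
          constructor
          · intro hk
            obtain ⟨hk1, hk2⟩ := Finset.mem_sdiff.1 hk
            refine Finset.mem_sdiff.2 ⟨?_, hk2⟩
            by_contra hh
            exact hc ⟨w, hw, Finset.mem_sdiff.2 ⟨hk1, hh⟩⟩
          · intro hh
            obtain ⟨hk1, hk2⟩ := Finset.mem_sdiff.1 hh
            exact Finset.mem_sdiff.2 ⟨Pool.Agent.RO.pre_mono (by omega) _ hk1, hk2⟩
    · right
      right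
      right
      right
      by_contra hcon
      apply h2
      apply one_Wc_spec hβ _ _ h1
      intro w hw
      constructor
      · intro hk
        refine Finset.mem_sdiff.2 ⟨hk, fun hh => hcon ⟨w, hw, hh⟩⟩
      · intro hh
        exact (Finset.mem_sdiff.1 hh).1
  have hfin := Pool.Agent.RO.pr_mono key
  refine le_trans hfin ?_
  refine le_trans (Pool.Agent.RO.pr_or_le _ _) ?_
  refine le_trans (add_le_add_right (Pool.Agent.RO.pr_or_le _ _) _) ?_
  refine le_trans (add_le_add_right (add_le_add_right (Pool.Agent.RO.pr_or_le _ _) _) _) ?_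
  refine le_trans (add_le_add_right (add_le_add_right (add_le_add_right
    (Pool.Agent.RO.pr_or_le _ _) _) _) _) ?_
  rw [hE4]
  have hh2 : 0 ≤ (h : ℝ) ^ 2 := sq_nonneg _
  have hlast : 8 * ((j : ℝ) * P + (h : ℝ) ^ 2) / N =
      2 * ((j : ℝ) * P) / N + 2 * ((j : ℝ) * P) / N + 4 * (h : ℝ) ^ 2 / N + 2 * ((j : ℝ) * P) / N +
        (2 * ((j : ℝ) * P) / N + 4 * (h : ℝ) ^ 2 / N) := by ring
  have hp1 : 0 ≤ 2 * ((j : ℝ) * P) / N := div_nonneg (by linarith) hN0.le
  have hp2 : 0 ≤ 4 * (h : ℝ) ^ 2 / N := div_nonneg (by linarith) hN0.le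
  rw [hlast]
  linarith

end Pool.Agent.RC
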