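import Mathlib
import Pool.Agent.RO.Binom
import Pool.Agent.RC.One

set_option autoImplicit false

/-!
# RC-OneE (job): one window, with a random number of marks

PLAN. The weight `wX q (h, ω) = bw N q h / card Ω`, `Ω = (Fin N ↪ Λ) × Λ`, `N = card Λ`; so
`∑_ξ wX q ξ * f ξ.1 ξ.2 = ∑_{h : Fin (N+1)} bw N q h * ((∑_ω f h ω) / card Ω)` (`Fintype.sum_prod_type`), and `∑_h bw N q h = 1` (`RO.sum_bw`,
`Fin.sum_univ_eq_sum_range`); `wX_sum`, `wX_nonneg` (`RO.bw_nonneg`).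
`wX_fr`: `∑_ξ wX q ξ * (g ξ.1 * ind (Φ (Hs ξ))) = ∑_{h ≤ N} bw N q h * g h * fr h Φ`: `Hs ξ = pre h π`, `RO.pr_fst`, `RO.pr_pre` (`n = N`).
`one_exp`: for fixed `h` not in `[h₁, h₂]` the average of the factor over `ω` is at most 1; for `h ∈ [h₁, h₂]` the factor is at most
`ind (¬ ∃ x, ..) + ind (Tst ..)`, whose average is `1 - fr h (∃ x, ..) + pr (Tst ..) ≤ 1 + ε` by `RO.pr_not`, `RO.pr_pre`, `one_window` (`n = N`; `h ≤ h₂`, so
`8 (j P + h²) / N ≤ ε`).  `pr p = (∑_ω ind (p ω)) / card Ω` (`RO.pr`).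
-/

namespace Pool.Agent.RC

open Pool.Agent.RO (pr fr pre AA Cert bw)

variable {Λ : Type} [Fintype Λ] [DecidableEq Λ]

omit [DecidableEq Λ] in
private theorem onee_avg (q : ℝ) (F : ℕ → (Fin (Fintype.card Λ) ↪ Λ) × Λ → ℝ) :
    ∑ ξ : Xi Λ, wX q ξ * F (ξ.1 : ℕ) ξ.2 =
      ∑ h ∈ Finset.range (Fintype.card Λ + 1), bw (Fintype.card Λ) q h *
        ((∑ ω, F h ω) / (Fintype.card ((Fin (Fintype.card Λ) ↪ Λ) × Λ) : ℝ)) := by
  rw [Finset.sum_range, Fintype.sum_prod_type]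
  refine Finset.sum_congr rfl fun h _ => ?_
  rw [Finset.sum_div, Finset.mul_sum]
  refine Finset.sum_congr rfl fun ω _ => ?_
  show bw (Fintype.card Λ) q (h : ℕ) / (Fintype.card ((Fin (Fintype.card Λ) ↪ Λ) × Λ) : ℝ) *
    F (h : ℕ) ω = _
  ring

private theorem onee_ind {Ω : Type} [Fintype Ω] (p : Ω → Prop) :
    (∑ ω, ind (p ω)) / (Fintype.card Ω : ℝ) = pr p := by
  classical
  unfold pr ind
  congr 1
  rw [Finset.card_filter]
  push_cast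
  refine Finset.sum_congr rfl fun ω _ => ?_
  by_cases h : p ω <;> simp [h]

private theorem onee_ind_nonneg (p : Prop) : 0 ≤ ind p := by
  unfold ind
  split_ifs <;> norm_num

private theorem onee_ind_le (p : Prop) : ind p ≤ 1 := by
  unfold ind
  split_ifs <;> norm_num

omit [DecidableEq Λ] in
private theorem onee_ne [Nonempty Λ] : Nonempty ((Fin (Fintype.card Λ) ↪ Λ) × Λ) :=
  ⟨((Fintype.equivFin Λ).symm.toEmbedding, Classical.arbitrary Λ)⟩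

omit [DecidableEq Λ] in
private theorem onee_card [Nonempty Λ] :
    (0 : ℝ) < (Fintype.card ((Fin (Fintype.card Λ) ↪ Λ) × Λ) : ℝ) := by
  have h : Nonempty ((Fin (Fintype.card Λ) ↪ Λ) × Λ) := onee_ne
  exact_mod_cast Fintype.card_pos

theorem wX_nonneg {q : ℝ} (hq0 : 0 ≤ q) (hq1 : q ≤ 1) (ξ : Xi Λ) : 0 ≤ wX q ξ := by
  unfold wX
  exact div_nonneg (Pool.Agent.RO.bw_nonneg hq0 hq1 _) (Nat.cast_nonneg _)

theorem wX_sum [Nonempty Λ] (q : ℝ) : ∑ ξ : Xi Λ, wX q ξ = 1 := by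
  have h := onee_avg (Λ := Λ) q (fun _ _ => 1)
  simp only [mul_one] at h
  rw [h]
  refine Eq.trans (Finset.sum_congr rfl fun k _ => ?_) (Pool.Agent.RO.sum_bw (Fintype.card Λ) q)
  have h0 := onee_card (Λ := Λ)
  rw [Finset.sum_const, Finset.card_univ, nsmul_eq_mul, mul_one, div_self h0.ne', mul_one]

theorem wX_fr [Nonempty Λ] (q : ℝ) (g : ℕ → ℝ) (Φ : Finset Λ → Prop) :
    ∑ ξ : Xi Λ, wX q ξ * (g (ξ.1 : ℕ) * ind (Φ (Hs ξ))) =
      ∑ h ∈ Finset.range (Fintype.card Λ + 1), bw (Fintype.card Λ) q h * (g h * fr h Φ) := by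
  refine Eq.trans (onee_avg (Λ := Λ) q (fun (h : ℕ) (ω : (Fin (Fintype.card Λ) ↪ Λ) × Λ) =>
      g h * ind (Φ (pre h ω.1)))) ?_
  refine Finset.sum_congr rfl fun h hh => ?_
  congr 1
  have hle : h ≤ Fintype.card Λ := Nat.lt_succ_iff.1 (Finset.mem_range.1 hh)
  show (∑ ω : (Fin (Fintype.card Λ) ↪ Λ) × Λ, g h * ind (Φ (pre h ω.1))) / _ = _
  rw [← Finset.mul_sum, mul_div_assoc, onee_ind,
    Pool.Agent.RO.pr_fst (α := Fin (Fintype.card Λ) ↪ Λ) (β := Λ) (fun v => Φ (pre h v)),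
    Pool.Agent.RO.pr_pre hle le_rfl Φ]

open Classical in
theorem one_exp {op : Λ → Λ → Λ} (hop1 : ∀ x y, op x y = op y x)
    (hop2 : ∀ x y, op x (op x y) = y) {q : ℝ} (hq0 : 0 ≤ q) (hq1 : q ≤ 1) {j h₁ h₂ k P : ℕ}
    (hj2 : 2 ≤ j) (hjh : j ≤ h₁) (hhk : h₂ ≤ k) (hkj : k ≤ h₁ + j) (hj : j ≤ Fintype.card Λ)
    (hN : 4 * (j + h₂) ^ 2 ≤ Fintype.card Λ) {α β : (Fin j ↪ Λ) → Finset Λ → Prop}
    (hα : Cert P α) (hβ : Cert P β) :
    ∑ ξ : Xi Λ, wX q ξ * (ind (¬ ∃ x, α x (Hs ξ) ∧ ¬ AA op x (Hs ξ)) *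
      (if (h₁ ≤ (ξ.1 : ℕ) ∧ (ξ.1 : ℕ) ≤ h₂) ∧ Tst hop2 hj α β (ξ.1 : ℕ) k ξ.2 then 2 else 1)) ≤
      1 + 8 * ((j : ℝ) * P + (h₂ : ℝ) ^ 2) / (Fintype.card Λ : ℝ) := by
  have hcard : 0 < Fintype.card Λ := by omega
  have hne : Nonempty Λ := Fintype.card_pos_iff.1 hcard
  have hΩ : Nonempty ((Fin (Fintype.card Λ) ↪ Λ) × Λ) := onee_ne
  have hN0 : (0 : ℝ) < (Fintype.card Λ : ℝ) := by exact_mod_cast hcard
  have hC := onee_card (Λ := Λ)
  set ε : ℝ := 8 * ((j : ℝ) * P + (h₂ : ℝ) ^ 2) / (Fintype.card Λ : ℝ) with hε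
  have hε0 : 0 ≤ ε := by
    rw [hε]
    positivity
  refine le_trans (le_of_eq (onee_avg (Λ := Λ) q
    (fun (h : ℕ) (ω : (Fin (Fintype.card Λ) ↪ Λ) × Λ) =>
      ind (¬ ∃ x, α x (pre h ω.1) ∧ ¬ AA op x (pre h ω.1)) *
      (if (h₁ ≤ h ∧ h ≤ h₂) ∧ Tst hop2 hj α β h k ω then (2 : ℝ) else 1)))) ?_
  have key : ∀ h ∈ Finset.range (Fintype.card Λ + 1),
      bw (Fintype.card Λ) q h * ((∑ ω : (Fin (Fintype.card Λ) ↪ Λ) × Λ,
        ind (¬ ∃ x, α x (pre h ω.1) ∧ ¬ AA op x (pre h ω.1)) *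
        (if (h₁ ≤ h ∧ h ≤ h₂) ∧ Tst hop2 hj α β h k ω then (2 : ℝ) else 1)) /
          (Fintype.card ((Fin (Fintype.card Λ) ↪ Λ) × Λ) : ℝ)) ≤
      bw (Fintype.card Λ) q h * (1 + ε) := by
    intro h _
    apply mul_le_mul_of_nonneg_left _ (Pool.Agent.RO.bw_nonneg hq0 hq1 _)
    by_cases hh : h₁ ≤ h ∧ h ≤ h₂
    · have h1 : ∀ ω : (Fin (Fintype.card Λ) ↪ Λ) × Λ,
          ind (¬ ∃ x, α x (pre h ω.1) ∧ ¬ AA op x (pre h ω.1)) *
            (if (h₁ ≤ h ∧ h ≤ h₂) ∧ Tst hop2 hj α β h k ω then (2 : ℝ) else 1) ≤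
          ind (¬ ∃ x, α x (pre h ω.1) ∧ ¬ AA op x (pre h ω.1)) + ind (Tst hop2 hj α β h k ω) := by
        intro ω
        have ha := onee_ind_nonneg (¬ ∃ x, α x (pre h ω.1) ∧ ¬ AA op x (pre h ω.1))
        have hb := onee_ind_le (¬ ∃ x, α x (pre h ω.1) ∧ ¬ AA op x (pre h ω.1))
        by_cases ht : Tst hop2 hj α β h k ω
        · rw [if_pos ⟨hh, ht⟩]
          have : ind (Tst hop2 hj α β h k ω) = 1 := if_pos ht
          rw [this]
          linarith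
        · rw [if_neg (fun hc => ht hc.2)]
          have := onee_ind_nonneg (Tst hop2 hj α β h k ω)
          linarith
      have h2 : 4 * (j + h) ^ 2 ≤ Fintype.card Λ := by
        refine le_trans ?_ hN
        have : (j + h) ^ 2 ≤ (j + h₂) ^ 2 := Nat.pow_le_pow_left (by omega) 2
        omega
      have h3 : j + h ≤ (j + h) ^ 2 := Nat.le_self_pow two_ne_zero _
      have h4 := one_window hop1 hop2 (j := j) (h := h) (k := k) (n := Fintype.card Λ) (P := P)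
        hj2 (by omega) (by omega) (by omega) hj (by omega) le_rfl h2 hα hβ
      have h5 : h ≤ Fintype.card Λ := by omega
      refine le_trans (div_le_div_of_nonneg_right (Finset.sum_le_sum fun ω _ => h1 ω) hC.le) ?_
      rw [Finset.sum_add_distrib, add_div, onee_ind, onee_ind,
        Pool.Agent.RO.pr_fst (α := Fin (Fintype.card Λ) ↪ Λ) (β := Λ)
          (fun v => ¬ ∃ x, α x (pre h v) ∧ ¬ AA op x (pre h v))]
      have hE : Nonempty (Fin (Fintype.card Λ) ↪ Λ) :=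
        ⟨(Fintype.equivFin Λ).symm.toEmbedding⟩
      rw [Pool.Agent.RO.pr_not (Ω := Fin (Fintype.card Λ) ↪ Λ)
          (fun v => ∃ x, α x (pre h v) ∧ ¬ AA op x (pre h v)),
        Pool.Agent.RO.pr_pre h5 le_rfl (fun H => ∃ x, α x H ∧ ¬ AA op x H)]
      have h6 : 8 * ((j : ℝ) * P + (h : ℝ) ^ 2) / (Fintype.card Λ : ℝ) ≤ ε := by
        rw [hε]
        apply div_le_div_of_nonneg_right _ hN0.le
        have h7 : (h : ℝ) ≤ h₂ := by exact_mod_cast hh.2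
        have h8 : (h : ℝ) ^ 2 ≤ (h₂ : ℝ) ^ 2 := pow_le_pow_left₀ (Nat.cast_nonneg _) h7 2
        linarith
      linarith
    · have h1 : ∀ ω : (Fin (Fintype.card Λ) ↪ Λ) × Λ,
          ind (¬ ∃ x, α x (pre h ω.1) ∧ ¬ AA op x (pre h ω.1)) *
            (if (h₁ ≤ h ∧ h ≤ h₂) ∧ Tst hop2 hj α β h k ω then (2 : ℝ) else 1) ≤ 1 := by
        intro ω
        rw [if_neg (fun hc => hh hc.1), mul_one]
        exact onee_ind_le _
      refine le_trans (div_le_div_of_nonneg_right (Finset.sum_le_sum fun ω _ => h1 ω) hC.le) ?_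
      rw [Finset.sum_const, Finset.card_univ, nsmul_eq_mul, mul_one, div_self hC.ne']
      linarith
  refine le_trans (Finset.sum_le_sum key) ?_
  rw [← Finset.sum_mul, Pool.Agent.RO.sum_bw, one_mul]

end Pool.Agent.RC
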