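import Mathlib
import Pool.Agent.RC.ExT
import Pool.Agent.RC.OneE
import Pool.Agent.RC.Cut

set_option autoImplicit false

/-!
# RC-AdvT (job): a fixed advice, a fixed set of tested windows

PLAN. `adv_T`.  Let `α_i x = oc P a T v i (Gx x)`, `β_i x = oc P b T v i (Gx x)`; they depend only on the coordinates of `x` outside of `T` (`oc_congr`).  With
`F i x ξ = ind (¬ ∃ X, α_i x X (Hs ξ) ∧ ¬ AA op X (Hs ξ)) * (if typical ∧ Tst .. then 2 else 1)` we have pointwise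
`ind (Corr op a b v (Gx x)) * 2 ^ (Dt ..).card ≤ ∏ i ∈ T, F i x (x i)`: if `Corr` holds then no `i` has such an `X`, because
`oc .. X (Gx x i)` gives `a v i X (update (Gx x) i (Gx x i)) = a v i X (Gx x)` (`oc_upd`, `Function.update_eq_self`), hence `AA op X (Gx x i)`;
and `∏ i ∈ T, (if .. then 2 else 1) = 2 ^ (T.filter ..).card` (`Finset.prod_ite`, `Finset.prod_const`).  Then `EI_tests` with
`B = 1 + ε` and `one_exp` (`cert_oc`).
`adv_V`: `ind (∃ v, Corr ∧ m ≤ card) ≤ ∑ v, ind (Corr ..) * 2 ^ card / 2 ^ m` pointwise, `EI_mono`, `EI_sum`, `EI_mul`, `adv_T`.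
-/

namespace Pool.Agent.RC

open Pool.Agent.RO (pr fr pre AA Cert bw)

variable {I Λ V : Type} [Fintype I] [DecidableEq I] [Fintype Λ] [DecidableEq Λ] [Fintype V]

theorem adv_T {op : Λ → Λ → Λ} (hop1 : ∀ x y, op x y = op y x)
    (hop2 : ∀ x y, op x (op x y) = y) {q : ℝ} (hq0 : 0 ≤ q) (hq1 : q ≤ 1) {j h₁ h₂ k P : ℕ}
    (hj2 : 2 ≤ j) (hjh : j ≤ h₁) (hhk : h₂ ≤ k) (hkj : k ≤ h₁ + j) (hj : j ≤ Fintype.card Λ)
    (hN : 4 * (j + h₂) ^ 2 ≤ Fintype.card Λ)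
    (a b : V → I → (Fin j ↪ Λ) → (I → Finset Λ) → Prop) (v : V) (T : Finset I) :
    EI (wX q) (fun x : I → Xi Λ => ind (Corr op a b v (Gx x)) *
      2 ^ (Dt hop2 hj P a b h₁ h₂ k v T x).card) ≤
      (1 + 8 * ((j : ℝ) * P + (h₂ : ℝ) ^ 2) / (Fintype.card Λ : ℝ)) ^ T.card := by
  classical
  have : Nonempty Λ := Fintype.card_pos_iff.1 (by omega)
  let F : I → (I → Xi Λ) → Xi Λ → ℝ := fun i x ξ =>
    ind (¬ ∃ X, oc P a T v i (Gx x) X (Hs ξ) ∧ ¬ AA op X (Hs ξ)) *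
      (if (h₁ ≤ (ξ.1 : ℕ) ∧ (ξ.1 : ℕ) ≤ h₂) ∧
        Tst hop2 hj (oc P a T v i (Gx x)) (oc P b T v i (Gx x)) (ξ.1 : ℕ) k ξ.2 then 2 else 1)
  have hind : ∀ p : Prop, 0 ≤ ind p := by
    intro p
    unfold ind
    split_ifs <;> norm_num
  have hF0 : ∀ i x ξ, 0 ≤ F i x ξ := by
    intro i x ξ
    refine mul_nonneg (hind _) ?_
    split_ifs <;> norm_num
  have hpt : ∀ x : I → Xi Λ, ind (Corr op a b v (Gx x)) *
      2 ^ (Dt hop2 hj P a b h₁ h₂ k v T x).card ≤ ∏ i ∈ T, F i x (x i) := by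
    intro x
    by_cases hC : Corr op a b v (Gx x)
    · have h1 : ∀ i ∈ T, F i x (x i) = if (h₁ ≤ ((x i).1 : ℕ) ∧ ((x i).1 : ℕ) ≤ h₂) ∧
          Tst hop2 hj (oc P a T v i (Gx x)) (oc P b T v i (Gx x)) ((x i).1 : ℕ) k (x i).2
          then (2 : ℝ) else 1 := by
        intro i _
        have h2 : ¬ ∃ X, oc P a T v i (Gx x) X (Hs (x i)) ∧ ¬ AA op X (Hs (x i)) := by
          rintro ⟨X, hX, hA⟩
          have h3 := oc_upd hX
          have h4 : Function.update (Gx x) i (Hs (x i)) = Gx x :=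
            Function.update_eq_self i (Gx x)
          rw [h4] at h3
          exact hA (((hC i X).1).1 h3)
        show ind _ * _ = _
        rw [ind, if_pos h2, one_mul]
      rw [Finset.prod_congr rfl h1, Finset.prod_ite, Finset.prod_const, Finset.prod_const_one,
        mul_one, ind, if_pos hC, one_mul]
      unfold Dt
      exact le_of_eq (by congr!)
    · rw [ind, if_neg hC, zero_mul]
      exact Finset.prod_nonneg fun i _ => hF0 _ _ _
  refine (EI_mono (wX_nonneg hq0 hq1) hpt).trans ?_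
  refine EI_tests (wX_nonneg hq0 hq1) (wX_sum q) T F hF0 ?_ ?_
  · intro i _ x x' hxx
    have hG : ∀ i' ∉ T, Gx x i' = Gx x' i' := by
      intro i' hi'
      show Hs (x i') = Hs (x' i')
      rw [hxx i' hi']
    have ha : oc P a T v i (Gx x) = oc P a T v i (Gx x') := oc_congr P a v hG
    have hb : oc P b T v i (Gx x) = oc P b T v i (Gx x') := oc_congr P b v hG
    funext ξ
    show ind _ * _ = ind _ * _
    rw [ha, hb]
  · intro i _ x
    have h1 := one_exp hop1 hop2 hq0 hq1 hj2 hjh hhk hkj hj hN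
      (cert_oc P a T v i (Gx x)) (cert_oc P b T v i (Gx x))
    refine le_trans (le_of_eq ?_) h1
    refine Finset.sum_congr rfl fun ξ _ => ?_
    show wX q ξ * (ind _ * _) = _
    congr!

theorem adv_V {op : Λ → Λ → Λ} (hop1 : ∀ x y, op x y = op y x)
    (hop2 : ∀ x y, op x (op x y) = y) {q : ℝ} (hq0 : 0 ≤ q) (hq1 : q ≤ 1) {j h₁ h₂ k P : ℕ}
    (hj2 : 2 ≤ j) (hjh : j ≤ h₁) (hhk : h₂ ≤ k) (hkj : k ≤ h₁ + j) (hj : j ≤ Fintype.card Λ)
    (hN : 4 * (j + h₂) ^ 2 ≤ Fintype.card Λ)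
    (a b : V → I → (Fin j ↪ Λ) → (I → Finset Λ) → Prop) (m : ℕ) (T : Finset I) :
    EI (wX q) (fun x : I → Xi Λ => ind (∃ v, Corr op a b v (Gx x) ∧
      m ≤ (Dt hop2 hj P a b h₁ h₂ k v T x).card)) ≤
      (Fintype.card V : ℝ) * (1 + 8 * ((j : ℝ) * P + (h₂ : ℝ) ^ 2) /
        (Fintype.card Λ : ℝ)) ^ T.card / 2 ^ m := by
  classical
  have hind : ∀ p : Prop, 0 ≤ ind p := by
    intro p
    unfold ind
    split_ifs <;> norm_num
  have h2m : (0 : ℝ) < 2 ^ m := by positivity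
  have hpt : ∀ x : I → Xi Λ, ind (∃ v, Corr op a b v (Gx x) ∧
      m ≤ (Dt hop2 hj P a b h₁ h₂ k v T x).card) ≤
      ∑ v : V, (1 / 2 ^ m) * (ind (Corr op a b v (Gx x)) *
        2 ^ (Dt hop2 hj P a b h₁ h₂ k v T x).card) := by
    intro x
    have hn : ∀ v ∈ (Finset.univ : Finset V), (0 : ℝ) ≤ (1 / 2 ^ m) *
        (ind (Corr op a b v (Gx x)) * 2 ^ (Dt hop2 hj P a b h₁ h₂ k v T x).card) :=
      fun v _ => mul_nonneg (by positivity) (mul_nonneg (hind _) (by positivity))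
    by_cases h : ∃ v, Corr op a b v (Gx x) ∧ m ≤ (Dt hop2 hj P a b h₁ h₂ k v T x).card
    · obtain ⟨v, hv, hm⟩ := h
      have h1 : ind (∃ v, Corr op a b v (Gx x) ∧
          m ≤ (Dt hop2 hj P a b h₁ h₂ k v T x).card) ≤ 1 := by
        unfold ind
        split_ifs <;> norm_num
      refine h1.trans (le_trans ?_ (Finset.single_le_sum hn (Finset.mem_univ v)))
      rw [ind, if_pos hv, one_mul, one_div, ← div_eq_inv_mul, le_div_iff₀ h2m, one_mul]
      exact pow_le_pow_right₀ (by norm_num) hm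
    · rw [ind, if_neg h]
      exact Finset.sum_nonneg hn
  refine (EI_mono (wX_nonneg hq0 hq1) hpt).trans ?_
  rw [EI_sum]
  refine (Finset.sum_le_sum fun v _ => ?_).trans (le_of_eq ?_) (b := ∑ _v : V, (1 / 2 ^ m) *
    (1 + 8 * ((j : ℝ) * P + (h₂ : ℝ) ^ 2) / (Fintype.card Λ : ℝ)) ^ T.card)
  · rw [EI_mul]
    exact mul_le_mul_of_nonneg_left
      (adv_T hop1 hop2 hq0 hq1 hj2 hjh hhk hkj hj hN a b v T) (by positivity)
  · rw [Finset.sum_const, Finset.card_univ, nsmul_eq_mul]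
    ring

end Pool.Agent.RC
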