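import Mathlib
import Pool.Agent.RC.Seg
import Pool.Agent.RC.Cut

set_option autoImplicit false

/-!
# RC-Good (job): a good window (no probabilities)

For a state with a correct advice, a window with a typical number of marks where nothing bad happens gives invalidity: for the set of the first
`k` cells, or for the set of the cells number `j, ..., k - 1` of the window.

PLAN. `exists_touch` for `a` and for `b` gives `Qa`, `Qb`.  For a point `x` and a window `i` let `X = xi hop2 hj (x i).2` (`π = (x i).2.1`, `y = (x i).2.2`), `G = Gx x`,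
`h = (x i).1`, `K = seg j k π`, and `Q v x i = Qa v i X G ∪ Qa v i X (update G i K) ∪ Qb v i X (update G i K)` (at most `3 P` elements, none is
`i`).  Let `Corr op a b v G`, `h₁ ≤ h ≤ h₂`, `i ∈ T`, no element of `Q v x i` in `T`, and `i ∉ Dt ..`, i.e. not `Tst` (with `oc P a T v i G`, `oc P b T v i G`).
* `AA op X (G i)` holds with the witness `y`: `op y (X l) = π l ∈ pre h π = G i` for `l < j ≤ h₁ ≤ h` (`hop2`), so `a v i X G`; as `update G i (G i) = G` and
  `G i = pre h π`, `exists_touch` gives `oc P a T v i G X (pre h π)`; not `Tst`, so `oc P a T v i G X (pre k π)`, and `oc_upd`: `a v i X (update G i (pre k π))`.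
* not `a v i X (update G i K)`: otherwise `oc P a T v i G X K` (`exists_touch`), which is excluded by not `Tst`.
* if `b v i X (update G i K)` then `oc P b T v i G X K`, so (not `Tst`) `oc P b T v i G X (pre k π)`, so `b v i X (update G i (pre k π))`: then
  `Iv a b (update G i (pre k π))`.  Otherwise `Iv a b (update G i K)`.
-/

namespace Pool.Agent.RC

open Pool.Agent.RO (pre AA Cert)

variable {I Λ V : Type} [Fintype I] [DecidableEq I] [Fintype Λ] [DecidableEq Λ] [Fintype V]

theorem exists_good {op : Λ → Λ → Λ} (hop2 : ∀ x y, op x (op x y) = y) {j h₁ h₂ k P : ℕ}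
    (hjh : j ≤ h₁) (hj : j ≤ Fintype.card Λ)
    {a b : V → I → (Fin j ↪ Λ) → (I → Finset Λ) → Prop} (ha : Cer P a) (hb : Cer P b) :
    ∃ Q : V → (I → Xi Λ) → I → Finset I,
      (∀ v x i, (Q v x i).card ≤ 3 * P ∧ i ∉ Q v x i) ∧
      ∀ v x (T : Finset I) i, Corr op a b v (Gx x) → i ∈ T →
        (h₁ ≤ ((x i).1 : ℕ) ∧ ((x i).1 : ℕ) ≤ h₂) → (∀ i' ∈ Q v x i, i' ∉ T) →
        i ∉ Dt hop2 hj P a b h₁ h₂ k v T x →
        Iv a b (Function.update (Gx x) i (pre k (x i).2.1)) ∨
          Iv a b (Function.update (Gx x) i (seg j k (x i).2.1)) := by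
  classical
  obtain ⟨Qa, hQa, hQa'⟩ := exists_touch ha
  obtain ⟨Qb, hQb, hQb'⟩ := exists_touch hb
  refine ⟨fun v x i => (Qa v i (xi hop2 hj (x i).2) (Gx x) ∪
    Qa v i (xi hop2 hj (x i).2) (Function.update (Gx x) i (seg j k (x i).2.1))) ∪
    Qb v i (xi hop2 hj (x i).2) (Function.update (Gx x) i (seg j k (x i).2.1)), ?_, ?_⟩
  · intro v x i
    constructor
    · refine (Finset.card_union_le _ _).trans ?_
      have h1 := Finset.card_union_le (Qa v i (xi hop2 hj (x i).2) (Gx x))
        (Qa v i (xi hop2 hj (x i).2) (Function.update (Gx x) i (seg j k (x i).2.1)))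
      have h2 := (hQa v i (xi hop2 hj (x i).2) (Gx x)).1
      have h3 := (hQa v i (xi hop2 hj (x i).2)
        (Function.update (Gx x) i (seg j k (x i).2.1))).1
      have h4 := (hQb v i (xi hop2 hj (x i).2)
        (Function.update (Gx x) i (seg j k (x i).2.1))).1
      omega
    · rw [Finset.mem_union, Finset.mem_union]
      rintro ((h | h) | h)
      · exact (hQa _ _ _ _).2 h
      · exact (hQa _ _ _ _).2 h
      · exact (hQb _ _ _ _).2 h
  · intro v x T i hC hiT hh hQT hD
    have hnT : ¬ Tst hop2 hj (oc P a T v i (Gx x)) (oc P b T v i (Gx x)) ((x i).1 : ℕ) k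
        (x i).2 := by
      intro hT
      apply hD
      unfold Dt
      rw [Finset.mem_filter]
      exact ⟨hiT, hh, hT⟩
    unfold Tst at hnT
    rw [not_or, not_or, not_and_not_right, not_and_not_right] at hnT
    obtain ⟨h1, h2, h3⟩ := hnT
    have hG : Gx x i = pre ((x i).1 : ℕ) (x i).2.1 := rfl
    have hup : Function.update (Gx x) i (pre ((x i).1 : ℕ) (x i).2.1) = Gx x := by
      rw [← hG]
      exact Function.update_eq_self i (Gx x)
    have hAA : AA op (xi hop2 hj (x i).2) (Gx x i) := by
      refine ⟨(x i).2.2, fun l => ?_⟩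
      have h4 : op (x i).2.2 (xi hop2 hj (x i).2 l) = (x i).2.1 (Fin.castLE hj l) :=
        hop2 _ _
      rw [h4, hG]
      unfold pre
      refine Finset.mem_image_of_mem _ ?_
      rw [Finset.mem_filter]
      refine ⟨Finset.mem_univ _, ?_⟩
      have h5 : ((Fin.castLE hj l : Fin (Fintype.card Λ)) : ℕ) = (l : ℕ) := rfl
      rw [h5]
      exact lt_of_lt_of_le l.2 (hjh.trans hh.1)
    have haX : a v i (xi hop2 hj (x i).2) (Gx x) := ((hC i _).1).2 hAA
    have hoc1 : oc P a T v i (Gx x) (xi hop2 hj (x i).2) (pre ((x i).1 : ℕ) (x i).2.1) := by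
      refine hQa' v i _ (Gx x) T _ ?_ ?_
      · rw [hup]
        exact haX
      · intro i' hi'
        rw [hup] at hi'
        exact hQT i' (Finset.mem_union_left _ (Finset.mem_union_left _ hi'))
    have hak := oc_upd (h1 hoc1)
    have hna : ¬ a v i (xi hop2 hj (x i).2)
        (Function.update (Gx x) i (seg j k (x i).2.1)) := by
      intro h
      exact h2 (hQa' v i _ (Gx x) T _ h fun i' hi' =>
        hQT i' (Finset.mem_union_left _ (Finset.mem_union_right _ hi')))
    by_cases hb1 : b v i (xi hop2 hj (x i).2)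
        (Function.update (Gx x) i (seg j k (x i).2.1))
    · left
      have hbk := oc_upd (h3 (hQb' v i _ (Gx x) T _ hb1 fun i' hi' =>
        hQT i' (Finset.mem_union_right _ hi')))
      exact ⟨v, i, _, ⟨fun _ => hbk, fun _ => hak⟩⟩
    · right
      exact ⟨v, i, _, ⟨fun h => absurd h hna, fun h => absurd h hb1⟩⟩

end Pool.Agent.RC
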