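import Mathlib
import Pool.Agent.RC.Ex
import Pool.Agent.RC.Seg
import Pool.Agent.RC.OneE

set_option autoImplicit false

/-!
# RC-Rk (job): the probability `rk` of an event if one window has exactly `k` marks

PLAN. `rk q Φ i k = EI (wX q) (fun x => fr k (fun H => Φ (update (Gx x) i H)))`.
`rk_pre`: `EI_upd` at `i`; `Gx (update x i ξ)` updated at `i` by `K` is `update (Gx x) i K` (`Function.update_idem`, ext), so the inner sum is
`∑_ξ wX q ξ * ind (Ψ (pre k ξ.2.1))`, `Ψ H = Φ (update (Gx x) i H)`, which is `fr k Ψ` (the average over `(π, y)` is `fr k Ψ` for every `h`: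
`RO.pr_fst`, `RO.pr_pre` with `n = card Λ`; and `∑_h bw = 1`).  `rk_seg`: the same with `pr_seg`.
`rk_ind`: `EI_upd` at `i`; the inner sum is `∑_ξ wX q ξ * (g ξ.1 * ind (Φ (update (Gx x) i (Hs ξ))))` (`Gx (update x i ξ) = update (Gx x) i (Hs ξ)`), use
`wX_fr`; then `EI_sum`, `EI_mul`.
`rk_nonneg`: `RO.fr_nonneg`.
-/

namespace Pool.Agent.RC

open Pool.Agent.RO (pr fr pre bw)

variable {I Λ : Type} [Fintype I] [DecidableEq I] [Fintype Λ] [DecidableEq Λ] [Nonempty Λ]

omit [Nonempty Λ] [Fintype I] in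
private theorem rk_Gx (x : I → Xi Λ) (i : I) (ξ : Xi Λ) :
    Gx (Function.update x i ξ) = Function.update (Gx x) i (Hs ξ) := by
  funext i'
  unfold Gx
  by_cases h : i' = i
  · subst h
    rw [Function.update_self, Function.update_self]
  · rw [Function.update_of_ne h, Function.update_of_ne h]

omit [DecidableEq Λ] [Nonempty Λ] in
private theorem rk_pr (p : (Fin (Fintype.card Λ) ↪ Λ) × Λ → Prop) :
    (∑ ω, ind (p ω)) / (Fintype.card ((Fin (Fintype.card Λ) ↪ Λ) × Λ) : ℝ) = pr p := by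
  classical
  unfold pr ind
  rw [Finset.sum_ite, Finset.sum_const_zero, add_zero, Finset.sum_const, nsmul_eq_mul, mul_one]

/-- the average over all numbers of marks -/
private theorem rk_avg (q : ℝ) (p : (Fin (Fintype.card Λ) ↪ Λ) × Λ → Prop) :
    ∑ ξ : Xi Λ, wX q ξ * ind (p ξ.2) = pr p := by
  have h0 : (∑ ξ : Xi Λ, wX q ξ * ind (p ξ.2)) =
      (∑ h : Fin (Fintype.card Λ + 1), bw (Fintype.card Λ) q (h : ℕ)) *
        ((∑ ω, ind (p ω)) / (Fintype.card ((Fin (Fintype.card Λ) ↪ Λ) × Λ) : ℝ)) := by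
    rw [Finset.sum_mul, Fintype.sum_prod_type]
    refine Finset.sum_congr rfl fun h _ => ?_
    rw [Finset.sum_div, Finset.mul_sum]
    refine Finset.sum_congr rfl fun ω _ => ?_
    show bw (Fintype.card Λ) q (h : ℕ) / _ * ind (p ω) = _
    ring
  have h1 : ∑ h : Fin (Fintype.card Λ + 1), bw (Fintype.card Λ) q (h : ℕ) = 1 := by
    have h2 := wX_sum (Λ := Λ) q
    rw [Fintype.sum_prod_type] at h2
    rw [← h2]
    refine Finset.sum_congr rfl fun h _ => ?_
    show _ = ∑ ω : (Fin (Fintype.card Λ) ↪ Λ) × Λ, bw (Fintype.card Λ) q (h : ℕ) /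
      (Fintype.card ((Fin (Fintype.card Λ) ↪ Λ) × Λ) : ℝ)
    have hne : Nonempty (Fin (Fintype.card Λ) ↪ Λ) :=
      Function.Embedding.nonempty_iff_card_le.2 (by simp)
    have hc : (Fintype.card ((Fin (Fintype.card Λ) ↪ Λ) × Λ) : ℝ) ≠ 0 := by
      have : 0 < Fintype.card ((Fin (Fintype.card Λ) ↪ Λ) × Λ) := Fintype.card_pos
      exact_mod_cast this.ne'
    rw [Finset.sum_const, Finset.card_univ, nsmul_eq_mul, mul_div_cancel₀ _ hc]
  rw [h0, h1, one_mul, rk_pr]

theorem rk_pre (q : ℝ) (Φ : (I → Finset Λ) → Prop) (i : I) {k : ℕ} (hk : k ≤ Fintype.card Λ) :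
    EI (wX q) (fun x : I → Xi Λ => ind (Φ (Function.update (Gx x) i (pre k (x i).2.1)))) =
      rk q Φ i k := by
  rw [EI_upd (wX_sum q) i]
  unfold rk
  congr 1
  funext x
  have h1 : ∀ ξ : Xi Λ, wX q ξ * ind (Φ (Function.update (Gx (Function.update x i ξ)) i
      (pre k ((Function.update x i ξ) i).2.1))) =
      wX q ξ * ind (Φ (Function.update (Gx x) i (pre k ξ.2.1))) := by
    intro ξ
    rw [rk_Gx, Function.update_idem, Function.update_self]
  rw [Finset.sum_congr rfl fun ξ _ => h1 ξ,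
    rk_avg q (fun ω : (Fin (Fintype.card Λ) ↪ Λ) × Λ => Φ (Function.update (Gx x) i (pre k ω.1))),
    Pool.Agent.RO.pr_fst (α := Fin (Fintype.card Λ) ↪ Λ) (β := Λ)
      (fun v => Φ (Function.update (Gx x) i (pre k v)))]
  exact Pool.Agent.RO.pr_pre hk le_rfl (fun H => Φ (Function.update (Gx x) i H))

theorem rk_seg (q : ℝ) (Φ : (I → Finset Λ) → Prop) (i : I) {j k : ℕ} (hjk : j ≤ k)
    (hk : k ≤ Fintype.card Λ) :
    EI (wX q) (fun x : I → Xi Λ => ind (Φ (Function.update (Gx x) i (seg j k (x i).2.1)))) =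
      rk q Φ i (k - j) := by
  rw [EI_upd (wX_sum q) i]
  unfold rk
  congr 1
  funext x
  have h1 : ∀ ξ : Xi Λ, wX q ξ * ind (Φ (Function.update (Gx (Function.update x i ξ)) i
      (seg j k ((Function.update x i ξ) i).2.1))) =
      wX q ξ * ind (Φ (Function.update (Gx x) i (seg j k ξ.2.1))) := by
    intro ξ
    rw [rk_Gx, Function.update_idem, Function.update_self]
  rw [Finset.sum_congr rfl fun ξ _ => h1 ξ,
    rk_avg q (fun ω : (Fin (Fintype.card Λ) ↪ Λ) × Λ => Φ (Function.update (Gx x) i (seg j k ω.1))),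
    Pool.Agent.RO.pr_fst (α := Fin (Fintype.card Λ) ↪ Λ) (β := Λ)
      (fun v => Φ (Function.update (Gx x) i (seg j k v)))]
  exact pr_seg hjk hk le_rfl (fun H => Φ (Function.update (Gx x) i H))

theorem rk_ind (q : ℝ) (Φ : (I → Finset Λ) → Prop) (i : I) (g : ℕ → ℝ) :
    EI (wX q) (fun x : I → Xi Λ => g ((x i).1 : ℕ) * ind (Φ (Gx x))) =
      ∑ h ∈ Finset.range (Fintype.card Λ + 1), bw (Fintype.card Λ) q h * (g h * rk q Φ i h) := by
  rw [EI_upd (wX_sum q) i]
  have h1 : (fun x : I → Xi Λ => ∑ ξ, wX q ξ * (g (((Function.update x i ξ) i).1 : ℕ) *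
      ind (Φ (Gx (Function.update x i ξ))))) = fun x : I → Xi Λ =>
      ∑ h ∈ Finset.range (Fintype.card Λ + 1), (bw (Fintype.card Λ) q h * g h) *
        fr h (fun H => Φ (Function.update (Gx x) i H)) := by
    funext x
    have h2 : ∀ ξ : Xi Λ, wX q ξ * (g (((Function.update x i ξ) i).1 : ℕ) *
        ind (Φ (Gx (Function.update x i ξ)))) =
        wX q ξ * (g (ξ.1 : ℕ) * ind (Φ (Function.update (Gx x) i (Hs ξ)))) := by
      intro ξ
      rw [rk_Gx, Function.update_self]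
    rw [Finset.sum_congr rfl fun ξ _ => h2 ξ,
      wX_fr q g (fun H => Φ (Function.update (Gx x) i H))]
    exact Finset.sum_congr rfl fun h _ => (mul_assoc _ _ _).symm
  rw [h1, EI_sum]
  refine Finset.sum_congr rfl fun h _ => ?_
  rw [EI_mul, mul_assoc]
  rfl

theorem rk_nonneg {q : ℝ} (hq0 : 0 ≤ q) (hq1 : q ≤ 1) (Φ : (I → Finset Λ) → Prop) (i : I)
    (k : ℕ) : 0 ≤ rk q Φ i k := by
  unfold rk
  refine EI_nonneg (fun ξ => wX_nonneg hq0 hq1 ξ) fun x => ?_
  unfold fr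
  positivity

end Pool.Agent.RC
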