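import Mathlib

set_option autoImplicit false

/-!
# RC-Sub (job): random subsets with `r` elements (Mathlib only)
-/

namespace Pool.Agent.RC

variable {I : Type} [Fintype I] [DecidableEq I]

private theorem cnt_sup (A : Finset I) (r : ℕ) (h : A.card ≤ r) :
    (((Finset.univ : Finset I).powersetCard r).filter fun T => A ⊆ T).card =
      (Fintype.card I - A.card).choose (r - A.card) := by
  rw [← Finset.card_compl, ← Finset.card_powersetCard (r - A.card) Aᶜ]
  refine Finset.card_nbij' (fun T => T \ A) (fun S => S ∪ A) ?_ ?_ ?_ ?_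
  · intro T hT
    have hT' := Finset.mem_coe.1 hT
    rw [Finset.mem_filter, Finset.mem_powersetCard] at hT'
    rw [Finset.mem_coe, Finset.mem_powersetCard]
    refine ⟨fun x hx => ?_, ?_⟩
    · rw [Finset.mem_compl]
      exact (Finset.mem_sdiff.1 hx).2
    · show (T \ A).card = r - A.card
      rw [Finset.card_sdiff_of_subset hT'.2, hT'.1.2]
  · intro S hS
    have hS' := Finset.mem_coe.1 hS
    rw [Finset.mem_powersetCard] at hS'
    have hd : Disjoint S A := by
      rw [Finset.disjoint_left]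
      intro x hx hxA
      exact (Finset.mem_compl.1 (hS'.1 hx)) hxA
    rw [Finset.mem_coe, Finset.mem_filter, Finset.mem_powersetCard]
    refine ⟨⟨Finset.subset_univ _, ?_⟩, Finset.subset_union_right⟩
    show (S ∪ A).card = r
    rw [Finset.card_union_of_disjoint hd, hS'.2]
    omega
  · intro T hT
    have hT' := Finset.mem_coe.1 hT
    rw [Finset.mem_filter] at hT'
    exact Finset.sdiff_union_of_subset hT'.2
  · intro S hS
    have hS' := Finset.mem_coe.1 hS
    rw [Finset.mem_powersetCard] at hS'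
    have hd : Disjoint S A := by
      rw [Finset.disjoint_left]
      intro x hx hxA
      exact (Finset.mem_compl.1 (hS'.1 hx)) hxA
    exact Finset.union_sdiff_cancel_right hd

private theorem c_one (r : ℕ) (i : I) :
    (∑ T ∈ (Finset.univ : Finset I).powersetCard r, if i ∈ T then (1 : ℝ) else 0) *
      (Fintype.card I : ℝ) = r * ((Fintype.card I).choose r : ℝ) := by
  rcases Nat.eq_zero_or_pos r with hr | hr
  · rw [hr, Nat.cast_zero, zero_mul, Finset.sum_eq_zero, zero_mul]
    intro T hT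
    rw [Finset.mem_powersetCard] at hT
    have h1 : T = ∅ := Finset.card_eq_zero.1 hT.2
    rw [h1, if_neg (Finset.notMem_empty i)]
  · have h1 := cnt_sup ({i} : Finset I) r (by
      rw [Finset.card_singleton]
      exact hr)
    rw [Finset.card_singleton] at h1
    have h2 : (((Finset.univ : Finset I).powersetCard r).filter fun T => i ∈ T).card =
        (Fintype.card I - 1).choose (r - 1) := by
      rw [← h1]
      congr 1
      refine Finset.filter_congr fun T _ => ?_
      rw [Finset.singleton_subset_iff]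
    rw [Finset.sum_boole, h2]
    obtain ⟨w, hw⟩ : ∃ w, Fintype.card I = w + 1 :=
      Nat.exists_eq_succ_of_ne_zero (Fintype.card_pos_iff.2 ⟨i⟩).ne'
    obtain ⟨k, hk⟩ : ∃ k, r = k + 1 := Nat.exists_eq_succ_of_ne_zero hr.ne'
    rw [hw, hk, Nat.add_sub_cancel, Nat.add_sub_cancel]
    have h3 := Nat.add_one_mul_choose_eq w k
    have h4 : ((w.choose k * (w + 1) : ℕ) : ℝ) = (((k + 1) * (w + 1).choose (k + 1) : ℕ) : ℝ) := by
      congr 1
      rw [mul_comm, mul_comm (k + 1)]
      exact h3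
    push_cast at h4 ⊢
    exact h4

private theorem c_two (r : ℕ) {i i' : I} (hii : i ≠ i') :
    (∑ T ∈ (Finset.univ : Finset I).powersetCard r, if i ∈ T ∧ i' ∈ T then (1 : ℝ) else 0) *
      ((Fintype.card I : ℝ) * ((Fintype.card I : ℝ) - 1)) =
        r * (r - 1) * ((Fintype.card I).choose r : ℝ) := by
  by_cases hr : 2 ≤ r
  · have hc : ({i, i'} : Finset I).card = 2 := Finset.card_pair hii
    have h1 := cnt_sup ({i, i'} : Finset I) r (by
      rw [hc]
      exact hr)
    rw [hc] at h1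
    have h2 : (((Finset.univ : Finset I).powersetCard r).filter fun T => i ∈ T ∧ i' ∈ T).card =
        (Fintype.card I - 2).choose (r - 2) := by
      rw [← h1]
      congr 1
      refine Finset.filter_congr fun T _ => ?_
      rw [Finset.insert_subset_iff, Finset.singleton_subset_iff]
    rw [Finset.sum_boole, h2]
    have hcard : 2 ≤ Fintype.card I := by
      rw [← hc]
      exact Finset.card_le_univ _
    obtain ⟨w, hw⟩ := Nat.exists_eq_add_of_le' hcard
    obtain ⟨k, hk⟩ := Nat.exists_eq_add_of_le' hr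
    rw [hw, hk, Nat.add_sub_cancel, Nat.add_sub_cancel]
    have h3 : ((w + 1 : ℕ) : ℝ) * ((w.choose k : ℕ) : ℝ) =
        (((w + 1).choose (k + 1) : ℕ) : ℝ) * ((k + 1 : ℕ) : ℝ) := by
      exact_mod_cast Nat.add_one_mul_choose_eq w k
    have h4 : ((w + 2 : ℕ) : ℝ) * (((w + 1).choose (k + 1) : ℕ) : ℝ) =
        (((w + 2).choose (k + 2) : ℕ) : ℝ) * ((k + 2 : ℕ) : ℝ) := by
      exact_mod_cast Nat.add_one_mul_choose_eq (w + 1) (k + 1)
    push_cast at h3 h4 ⊢
    calc (w.choose k : ℝ) * (((w : ℝ) + 2) * ((w : ℝ) + 2 - 1)) =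
        ((w : ℝ) + 2) * (((w : ℝ) + 1) * (w.choose k : ℝ)) := by ring
      _ = ((w : ℝ) + 2) * (((w + 1).choose (k + 1) : ℝ) * ((k : ℝ) + 1)) := by rw [h3]
      _ = (((w : ℝ) + 2) * ((w + 1).choose (k + 1) : ℝ)) * ((k : ℝ) + 1) := by ring
      _ = (((w + 2).choose (k + 2) : ℝ) * ((k : ℝ) + 2)) * ((k : ℝ) + 1) := by rw [h4]
      _ = ((k : ℝ) + 2) * ((k : ℝ) + 2 - 1) * ((w + 2).choose (k + 2) : ℝ) := by ring
  · have h0 : (r : ℝ) * (r - 1) = 0 := by
      have h1 : r = 0 ∨ r = 1 := by omega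
      rcases h1 with h1 | h1
      · rw [h1, Nat.cast_zero, zero_mul]
      · rw [h1, Nat.cast_one, sub_self, mul_zero]
    rw [h0, zero_mul, Finset.sum_eq_zero, zero_mul]
    intro T hT
    rw [Finset.mem_powersetCard] at hT
    rw [if_neg]
    rintro ⟨h1, h2⟩
    have h3 : 2 ≤ T.card := by
      rw [← Finset.card_pair hii]
      exact Finset.card_le_card (Finset.insert_subset_iff.2 ⟨h1, Finset.singleton_subset_iff.2 h2⟩)
    omega

theorem sub_avg (r : ℕ) (B : Finset I) :
    (∑ T ∈ (Finset.univ : Finset I).powersetCard r, ((T ∩ B).card : ℝ)) * (Fintype.card I : ℝ) =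
      r * B.card * ((Fintype.card I).choose r : ℝ) := by
  have h1 : ∑ T ∈ (Finset.univ : Finset I).powersetCard r, ((T ∩ B).card : ℝ) =
      ∑ i ∈ B, ∑ T ∈ (Finset.univ : Finset I).powersetCard r, if i ∈ T then (1 : ℝ) else 0 := by
    rw [Finset.sum_comm]
    refine Finset.sum_congr rfl fun T _ => ?_
    rw [Finset.sum_boole, Finset.filter_mem_eq_inter, Finset.inter_comm]
  rw [h1, Finset.sum_mul, Finset.sum_congr rfl fun i _ => c_one r i, Finset.sum_const, nsmul_eq_mul]
  ring

theorem sub_touch (r : ℕ) {P : ℕ} (Q : I → Finset I) (hQ : ∀ i, (Q i).card ≤ P)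
    (hQi : ∀ i, i ∉ Q i) :
    (∑ T ∈ (Finset.univ : Finset I).powersetCard r,
      ((T.filter fun i => ∃ i' ∈ Q i, i' ∈ T).card : ℝ)) * ((Fintype.card I : ℝ) - 1) ≤
      P * r ^ 2 * ((Fintype.card I).choose r : ℝ) := by
  rcases Nat.eq_zero_or_pos (Fintype.card I) with hW | hW
  · have hemp : IsEmpty I := Fintype.card_eq_zero_iff.1 hW
    have h0 : ∑ T ∈ (Finset.univ : Finset I).powersetCard r,
        ((T.filter fun i => ∃ i' ∈ Q i, i' ∈ T).card : ℝ) = 0 := by
      refine Finset.sum_eq_zero fun T _ => ?_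
      have h1 : T.filter (fun i => ∃ i' ∈ Q i, i' ∈ T) = ∅ :=
        Finset.eq_empty_of_forall_notMem fun i _ => hemp.false i
      rw [h1, Finset.card_empty, Nat.cast_zero]
    rw [h0, zero_mul]
    positivity
  · have hW1 : (1 : ℝ) ≤ (Fintype.card I : ℝ) := by exact_mod_cast hW
    have h1 : ∑ T ∈ (Finset.univ : Finset I).powersetCard r,
        ((T.filter fun i => ∃ i' ∈ Q i, i' ∈ T).card : ℝ) ≤
        ∑ i : I, ∑ i' ∈ Q i, ∑ T ∈ (Finset.univ : Finset I).powersetCard r,
          if i ∈ T ∧ i' ∈ T then (1 : ℝ) else 0 := by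
      have h2 : ∑ i : I, ∑ i' ∈ Q i, ∑ T ∈ (Finset.univ : Finset I).powersetCard r,
          (if i ∈ T ∧ i' ∈ T then (1 : ℝ) else 0) =
          ∑ T ∈ (Finset.univ : Finset I).powersetCard r, ∑ i : I, ∑ i' ∈ Q i,
            if i ∈ T ∧ i' ∈ T then (1 : ℝ) else 0 := by
        rw [eq_comm, Finset.sum_comm]
        refine Finset.sum_congr rfl fun i _ => ?_
        rw [Finset.sum_comm]
      rw [h2]
      refine Finset.sum_le_sum fun T _ => ?_
      have h3 : ((T.filter fun i => ∃ i' ∈ Q i, i' ∈ T).card : ℝ) =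
          ∑ i : I, if i ∈ T ∧ ∃ i' ∈ Q i, i' ∈ T then (1 : ℝ) else 0 := by
        rw [Finset.sum_boole]
        congr 2
        ext i
        rw [Finset.mem_filter, Finset.mem_filter]
        exact ⟨fun h => ⟨Finset.mem_univ i, h⟩, fun h => h.2⟩
      rw [h3]
      refine Finset.sum_le_sum fun i _ => ?_
      by_cases h4 : i ∈ T ∧ ∃ i' ∈ Q i, i' ∈ T
      · rw [if_pos h4]
        obtain ⟨h5, i', h6, h7⟩ := h4
        refine le_trans ?_ (Finset.single_le_sum (f := fun i' => if i ∈ T ∧ i' ∈ T then (1 : ℝ)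
          else 0) (fun a _ => ?_) h6)
        · show (1 : ℝ) ≤ if i ∈ T ∧ i' ∈ T then (1 : ℝ) else 0
          rw [if_pos ⟨h5, h7⟩]
        · show (0 : ℝ) ≤ if i ∈ T ∧ a ∈ T then (1 : ℝ) else 0
          split_ifs
          · exact zero_le_one
          · exact le_rfl
      · rw [if_neg h4]
        refine Finset.sum_nonneg fun a _ => ?_
        split_ifs
        · exact zero_le_one
        · exact le_rfl
    refine (mul_le_mul_of_nonneg_right h1 (sub_nonneg.2 hW1)).trans ?_
    have hW0 : (0 : ℝ) < (Fintype.card I : ℝ) := by linarith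
    rw [← mul_le_mul_iff_of_pos_left hW0]
    have h5 : ∀ i : I, ∀ i' ∈ Q i, (∑ T ∈ (Finset.univ : Finset I).powersetCard r,
        if i ∈ T ∧ i' ∈ T then (1 : ℝ) else 0) *
        ((Fintype.card I : ℝ) * ((Fintype.card I : ℝ) - 1)) ≤
        r ^ 2 * ((Fintype.card I).choose r : ℝ) := by
      intro i i' hi'
      have hne : i ≠ i' := by
        intro h
        rw [← h] at hi'
        exact hQi i hi'
      rw [c_two r hne]
      refine mul_le_mul_of_nonneg_right ?_ (Nat.cast_nonneg _)
      have h6 : (0 : ℝ) ≤ r := Nat.cast_nonneg r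
      nlinarith
    have h6 : (Fintype.card I : ℝ) * ((∑ i : I, ∑ i' ∈ Q i,
        ∑ T ∈ (Finset.univ : Finset I).powersetCard r,
          if i ∈ T ∧ i' ∈ T then (1 : ℝ) else 0) * ((Fintype.card I : ℝ) - 1)) =
        ∑ i : I, ∑ i' ∈ Q i, (∑ T ∈ (Finset.univ : Finset I).powersetCard r,
          if i ∈ T ∧ i' ∈ T then (1 : ℝ) else 0) *
            ((Fintype.card I : ℝ) * ((Fintype.card I : ℝ) - 1)) := by
      have h7 : ∀ S : ℝ, (Fintype.card I : ℝ) * (S * ((Fintype.card I : ℝ) - 1)) =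
          S * ((Fintype.card I : ℝ) * ((Fintype.card I : ℝ) - 1)) := fun S => by ring
      rw [h7, Finset.sum_mul]
      refine Finset.sum_congr rfl fun i _ => ?_
      rw [Finset.sum_mul]
    rw [h6]
    have h8 : ∀ i : I, ∑ i' ∈ Q i, (∑ T ∈ (Finset.univ : Finset I).powersetCard r,
          if i ∈ T ∧ i' ∈ T then (1 : ℝ) else 0) *
            ((Fintype.card I : ℝ) * ((Fintype.card I : ℝ) - 1)) ≤
        P * (r ^ 2 * ((Fintype.card I).choose r : ℝ)) := by
      intro i
      refine (Finset.sum_le_sum fun i' hi' => h5 i i' hi').trans ?_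
      rw [Finset.sum_const, nsmul_eq_mul]
      refine mul_le_mul_of_nonneg_right ?_ (by positivity)
      exact_mod_cast hQ i
    refine (Finset.sum_le_sum fun i _ => h8 i).trans (le_of_eq ?_)
    rw [Finset.sum_const, Finset.card_univ, nsmul_eq_mul]
    ring

end Pool.Agent.RC
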