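import Mathlib
import Pool.Agent.RC.AdvT
import Pool.Agent.RC.Good
import Pool.Agent.RC.Rk
import Pool.Agent.RC.Sub

set_option autoImplicit false

/-!
# RC-AdvM: the main inequality for states with a good advice
-/

namespace Pool.Agent.RC

open Pool.Agent.RO (pr fr pre AA Cert bw)

variable {I Λ V : Type} [Fintype I] [DecidableEq I] [Fintype Λ] [DecidableEq Λ] [Fintype V]

private theorem am_nn (p : Prop) : 0 ≤ ind p := by
  unfold ind
  split_ifs <;> norm_num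

private theorem am_t {p : Prop} (h : p) : ind p = 1 := by
  unfold ind
  rw [if_pos h]

private theorem am_f {p : Prop} (h : ¬ p) : ind p = 0 := by
  unfold ind
  rw [if_neg h]

private theorem am_or (p q : Prop) : ind (p ∨ q) ≤ ind p + ind q := by
  by_cases hp : p
  · rw [am_t (Or.inl hp), am_t hp]
    linarith [am_nn q]
  · by_cases hq : q
    · rw [am_t (Or.inr hq), am_t hq]
      linarith [am_nn p]
    · rw [am_f (not_or.mpr ⟨hp, hq⟩)]
      linarith [am_nn p, am_nn q]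

private theorem am_fr {Λ : Type} [Fintype Λ] [DecidableEq Λ] {h : ℕ}
    (hh : h ≤ Fintype.card Λ) : fr h (fun _ : Finset Λ => True) = 1 := by
  have h2 : ∀ c : ℕ, c = ((Finset.univ : Finset Λ).powersetCard h).card →
      (c : ℝ) / ((Fintype.card Λ).choose h : ℝ) = 1 := by
    intro c hc
    rw [hc, Finset.card_powersetCard, Finset.card_univ]
    exact div_self (by exact_mod_cast (Nat.choose_pos hh).ne')
  unfold fr
  exact h2 _ (congrArg Finset.card
    (@Finset.filter_true_of_mem _ _ (fun _ => Classical.propDecidable _) _ fun _ _ => trivial))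

private theorem am_typ {I Λ : Type} [Fintype I] [DecidableEq I] [Fintype Λ] [DecidableEq Λ]
    [Nonempty Λ] (q : ℝ) (h₁ h₂ : ℕ) (i : I) :
    EI (wX q) (fun x : I → Xi Λ => ind (¬ (h₁ ≤ ((x i).1 : ℕ) ∧ ((x i).1 : ℕ) ≤ h₂))) =
      ∑ h ∈ (Finset.range (Fintype.card Λ + 1)).filter (fun h => ¬ (h₁ ≤ h ∧ h ≤ h₂)),
        bw (Fintype.card Λ) q h := by
  rw [EI_coord (wX_sum q) i (fun ξ : Xi Λ => ind (¬ (h₁ ≤ (ξ.1 : ℕ) ∧ (ξ.1 : ℕ) ≤ h₂)))]
  have h1 := wX_fr (Λ := Λ) q (fun h => ind (¬ (h₁ ≤ h ∧ h ≤ h₂))) (fun _ => True)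
  have h2 : ∑ ξ : Xi Λ, wX q ξ * ind (¬ (h₁ ≤ (ξ.1 : ℕ) ∧ (ξ.1 : ℕ) ≤ h₂)) =
      ∑ ξ : Xi Λ, wX q ξ * (ind (¬ (h₁ ≤ (ξ.1 : ℕ) ∧ (ξ.1 : ℕ) ≤ h₂)) * ind True) := by
    refine Finset.sum_congr rfl fun ξ _ => ?_
    rw [am_t trivial, mul_one]
  rw [h2, h1, Finset.sum_filter]
  refine Finset.sum_congr rfl fun h hh => ?_
  have hh' := Finset.mem_range.1 hh
  rw [am_fr (by omega), mul_one]
  by_cases hp : ¬ (h₁ ≤ h ∧ h ≤ h₂)
  · rw [am_t hp, if_pos hp, mul_one]
  · rw [am_f hp, if_neg hp, mul_zero]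

private theorem am_pt {I Λ V : Type} [Fintype I] [DecidableEq I] [Fintype Λ] [DecidableEq Λ]
    [Fintype V] {op : Λ → Λ → Λ} (hop2 : ∀ x y, op x (op x y) = y)
    {j h₁ h₂ k P m r : ℕ} (hj : j ≤ Fintype.card Λ)
    {a b : V → I → (Fin j ↪ Λ) → (I → Finset Λ) → Prop}
    (Q : V → (I → Xi Λ) → I → Finset I)
    (hQ1 : ∀ v x i, (Q v x i).card ≤ 3 * P ∧ i ∉ Q v x i)
    (hQ2 : ∀ v x (T : Finset I) i, Corr op a b v (Gx x) → i ∈ T →
        (h₁ ≤ ((x i).1 : ℕ) ∧ ((x i).1 : ℕ) ≤ h₂) → (∀ i' ∈ Q v x i, i' ∉ T) →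
        i ∉ Dt hop2 hj P a b h₁ h₂ k v T x →
        Iv a b (Function.update (Gx x) i (pre k (x i).2.1)) ∨
          Iv a b (Function.update (Gx x) i (seg j k (x i).2.1)))
    (hW : 2 ≤ Fintype.card I) (x : I → Xi Λ) (B : Finset I)
    (hB : ∀ i ∈ B, (h₁ ≤ ((x i).1 : ℕ) ∧ ((x i).1 : ℕ) ≤ h₂) ∧
      ¬ (Iv a b (Function.update (Gx x) i (pre k (x i).2.1)) ∨
          Iv a b (Function.update (Gx x) i (seg j k (x i).2.1)))) :
    ind (∃ v, Corr op a b v (Gx x)) * (r * B.card * ((Fintype.card I).choose r : ℝ)) ≤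
      (Fintype.card I : ℝ) * (m * ((Fintype.card I).choose r : ℝ) +
        r * ∑ T ∈ (Finset.univ : Finset I).powersetCard r,
          ind (∃ v, Corr op a b v (Gx x) ∧ m ≤ (Dt hop2 hj P a b h₁ h₂ k v T x).card) +
        3 * P * r ^ 2 * ((Fintype.card I).choose r : ℝ) / ((Fintype.card I : ℝ) - 1)) := by
  have hW1 : (0 : ℝ) < (Fintype.card I : ℝ) - 1 := by
    have : (2 : ℝ) ≤ Fintype.card I := by exact_mod_cast hW
    linarith
  have hW0 : (0 : ℝ) ≤ (Fintype.card I : ℝ) := Nat.cast_nonneg _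
  by_cases hC : ∃ v, Corr op a b v (Gx x)
  · rw [am_t hC, one_mul]
    obtain ⟨v, hv⟩ := hC
    have key : ∀ T ∈ (Finset.univ : Finset I).powersetCard r, ((T ∩ B).card : ℝ) ≤
        m + r * ind (∃ v, Corr op a b v (Gx x) ∧ m ≤ (Dt hop2 hj P a b h₁ h₂ k v T x).card) +
          ((T.filter fun i => ∃ i' ∈ Q v x i, i' ∈ T).card : ℝ) := by
      intro T hT
      have hTc : T.card = r := (Finset.mem_powersetCard.1 hT).2
      have hsub : T ∩ B ⊆ Dt hop2 hj P a b h₁ h₂ k v T x ∪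
          T.filter fun i => ∃ i' ∈ Q v x i, i' ∈ T := by
        intro i hi
        rw [Finset.mem_inter] at hi
        by_contra hn
        rw [Finset.mem_union, not_or] at hn
        obtain ⟨hn1, hn2⟩ := hn
        have h3 : ∀ i' ∈ Q v x i, i' ∉ T := fun i' hi' hT' =>
          hn2 (Finset.mem_filter.2 ⟨hi.1, i', hi', hT'⟩)
        exact (hB i hi.2).2 (hQ2 v x T i hv hi.1 (hB i hi.2).1 h3 hn1)
      have hcard : ((T ∩ B).card : ℝ) ≤ ((Dt hop2 hj P a b h₁ h₂ k v T x).card : ℝ) +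
          ((T.filter fun i => ∃ i' ∈ Q v x i, i' ∈ T).card : ℝ) := by
        exact_mod_cast (Finset.card_le_card hsub).trans (Finset.card_union_le _ _)
      have hD : ((Dt hop2 hj P a b h₁ h₂ k v T x).card : ℝ) ≤ m + r *
          ind (∃ v, Corr op a b v (Gx x) ∧ m ≤ (Dt hop2 hj P a b h₁ h₂ k v T x).card) := by
        by_cases hm : m ≤ (Dt hop2 hj P a b h₁ h₂ k v T x).card
        · rw [am_t ⟨v, hv, hm⟩, mul_one]
          have h4 : (Dt hop2 hj P a b h₁ h₂ k v T x).card ≤ r := by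
            rw [← hTc]
            unfold Dt
            classical exact Finset.card_filter_le _ _
          have h5 : ((Dt hop2 hj P a b h₁ h₂ k v T x).card : ℝ) ≤ r := by exact_mod_cast h4
          have h6 : (0 : ℝ) ≤ m := Nat.cast_nonneg _
          linarith
        · have h5 : ((Dt hop2 hj P a b h₁ h₂ k v T x).card : ℝ) ≤ m := by
            exact_mod_cast (not_le.mp hm).le
          have h6 : (0 : ℝ) ≤ r * ind (∃ v, Corr op a b v (Gx x) ∧
              m ≤ (Dt hop2 hj P a b h₁ h₂ k v T x).card) := mul_nonneg (Nat.cast_nonneg _) (am_nn _)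
          linarith
      linarith
    have h1 := sub_avg (I := I) r B
    have h2 := sub_touch (I := I) r (P := 3 * P) (Q v x) (fun i => (hQ1 v x i).1)
      (fun i => (hQ1 v x i).2)
    rw [← h1, mul_comm]
    refine mul_le_mul_of_nonneg_left ?_ hW0
    refine (Finset.sum_le_sum key).trans ?_
    rw [Finset.sum_add_distrib, Finset.sum_add_distrib, Finset.sum_const,
      Finset.card_powersetCard, Finset.card_univ, nsmul_eq_mul, ← Finset.mul_sum]
    have h3 : ∑ T ∈ (Finset.univ : Finset I).powersetCard r,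
        ((T.filter fun i => ∃ i' ∈ Q v x i, i' ∈ T).card : ℝ) ≤
        3 * P * r ^ 2 * ((Fintype.card I).choose r : ℝ) / ((Fintype.card I : ℝ) - 1) := by
      rw [le_div_iff₀ hW1]
      refine h2.trans (le_of_eq ?_)
      push_cast
      ring
    have h4 : ((Fintype.card I).choose r : ℝ) * (m : ℝ) = m * ((Fintype.card I).choose r : ℝ) :=
      mul_comm _ _
    rw [h4]
    linarith
  · rw [am_f hC, zero_mul]
    have h1 : (0 : ℝ) ≤ ∑ T ∈ (Finset.univ : Finset I).powersetCard r,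
          ind (∃ v, Corr op a b v (Gx x) ∧ m ≤ (Dt hop2 hj P a b h₁ h₂ k v T x).card) :=
      Finset.sum_nonneg fun T _ => am_nn _
    have h2 : (0 : ℝ) ≤ 3 * P * r ^ 2 * ((Fintype.card I).choose r : ℝ) /
        ((Fintype.card I : ℝ) - 1) := div_nonneg (by positivity) hW1.le
    have h3 : (0 : ℝ) ≤ r * ∑ T ∈ (Finset.univ : Finset I).powersetCard r,
          ind (∃ v, Corr op a b v (Gx x) ∧ m ≤ (Dt hop2 hj P a b h₁ h₂ k v T x).card) :=
      mul_nonneg (Nat.cast_nonneg _) h1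
    have h4 : (0 : ℝ) ≤ (m : ℝ) * ((Fintype.card I).choose r : ℝ) := by positivity
    exact mul_nonneg hW0 (by linarith)

theorem adv_main {op : Λ → Λ → Λ} (hop1 : ∀ x y, op x y = op y x)
    (hop2 : ∀ x y, op x (op x y) = y) {q : ℝ} (hq0 : 0 ≤ q) (hq1 : q ≤ 1)
    {j h₁ h₂ k P m r : ℕ} (hj2 : 2 ≤ j) (hjh : j ≤ h₁) (hhk : h₂ ≤ k) (hkj : k ≤ h₁ + j)
    (hkN : k ≤ Fintype.card Λ) (hN : 4 * (j + h₂) ^ 2 ≤ Fintype.card Λ)
    {a b : V → I → (Fin j ↪ Λ) → (I → Finset Λ) → Prop} (ha : Cer P a) (hb : Cer P b)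
    (hm : 16 * m ≤ r) (hr : 1 ≤ r) (hW : 192 * P * r + 2 ≤ Fintype.card I)
    (hrW : r ≤ Fintype.card I)
    (hV : (Fintype.card V : ℝ) * (1 + 8 * ((j : ℝ) * P + (h₂ : ℝ) ^ 2) /
      (Fintype.card Λ : ℝ)) ^ r / 2 ^ m ≤ 1 / 64)
    (htyp : ∑ h ∈ (Finset.range (Fintype.card Λ + 1)).filter (fun h => ¬ (h₁ ≤ h ∧ h ≤ h₂)),
      bw (Fintype.card Λ) q h ≤ 1 / 16)
    (hFl : EI (wX q) (fun x : I → Xi Λ => ind (FlA op a b (Gx x))) ≤ 1 / 4) :
    (Fintype.card I : ℝ) / 2 ≤ ∑ i : I, (rk q (Iv a b) i k + rk q (Iv a b) i (k - j)) := by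
  classical
  have hN1 : j + h₂ ≤ Fintype.card Λ := by nlinarith [hN]
  have hj : j ≤ Fintype.card Λ := by omega
  have hΛ : Nonempty Λ := by
    rw [← Fintype.card_pos_iff]
    omega
  have h12 : h₁ ≤ h₂ := by
    by_contra hlt
    have h1 : (Finset.range (Fintype.card Λ + 1)).filter (fun h => ¬ (h₁ ≤ h ∧ h ≤ h₂)) =
        Finset.range (Fintype.card Λ + 1) := Finset.filter_true_of_mem fun h _ => by omega
    rw [h1, Pool.Agent.RO.sum_bw] at htyp
    norm_num at htyp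
  have hjk : j ≤ k := by omega
  have hW2 : 2 ≤ Fintype.card I := by omega
  obtain ⟨Q, hQ1, hQ2⟩ := exists_good (h₂ := h₂) (k := k) hop2 hjh hj ha hb
  have hwn := fun ξ : Xi Λ => wX_nonneg hq0 hq1 ξ
  have hws := wX_sum (Λ := Λ) q
  -- numbers
  obtain ⟨W, hWd⟩ : ∃ W : ℝ, W = (Fintype.card I : ℝ) := ⟨_, rfl⟩
  obtain ⟨C, hCd⟩ : ∃ C : ℝ, C = ((Fintype.card I).choose r : ℝ) := ⟨_, rfl⟩
  have hC0 : 0 < C := by
    rw [hCd]
    exact_mod_cast Nat.choose_pos hrW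
  have hWr : 192 * (P : ℝ) * r + 2 ≤ W := by
    rw [hWd]
    exact_mod_cast hW
  have hr0 : (1 : ℝ) ≤ r := by exact_mod_cast hr
  have hP0 : (0 : ℝ) ≤ P := Nat.cast_nonneg _
  have hPr : 0 ≤ (P : ℝ) * r := mul_nonneg hP0 (by linarith)
  have hW1 : 0 < W - 1 := by nlinarith
  have hW0 : 0 ≤ W := by linarith
  have hmr : 16 * (m : ℝ) ≤ r := by exact_mod_cast hm
  -- the bad windows
  obtain ⟨Bd, hBd⟩ : ∃ Bd : (I → Xi Λ) → Finset I, ∀ x i, i ∈ Bd x ↔
      ((h₁ ≤ ((x i).1 : ℕ) ∧ ((x i).1 : ℕ) ≤ h₂) ∧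
      ¬ (Iv a b (Function.update (Gx x) i (pre k (x i).2.1)) ∨
          Iv a b (Function.update (Gx x) i (seg j k (x i).2.1)))) :=
    ⟨fun x => Finset.univ.filter fun i => ((h₁ ≤ ((x i).1 : ℕ) ∧ ((x i).1 : ℕ) ≤ h₂) ∧
      ¬ (Iv a b (Function.update (Gx x) i (pre k (x i).2.1)) ∨
          Iv a b (Function.update (Gx x) i (seg j k (x i).2.1)))), fun x i => by
        rw [Finset.mem_filter]
        exact ⟨fun h => h.2, fun h => ⟨Finset.mem_univ _, h⟩⟩⟩
  obtain ⟨E, hE⟩ : ∃ E : ℝ, E = EI (wX q) (fun x : I → Xi Λ =>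
      ind (∃ v, Corr op a b v (Gx x)) * ((Bd x).card : ℝ)) := ⟨_, rfl⟩
  have hE1 : r * C * E ≤ W * (m * C + 3 * P * r ^ 2 * C / (W - 1)) + W * r * (C * (1 / 64)) := by
    have h1 : ∀ x : I → Xi Λ, r * C * (ind (∃ v, Corr op a b v (Gx x)) * ((Bd x).card : ℝ)) ≤
        W * (m * C + 3 * P * r ^ 2 * C / (W - 1)) +
          W * r * ∑ T ∈ (Finset.univ : Finset I).powersetCard r,
            ind (∃ v, Corr op a b v (Gx x) ∧ m ≤ (Dt hop2 hj P a b h₁ h₂ k v T x).card) := by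
      intro x
      have h2 := am_pt (m := m) (r := r) hop2 hj Q hQ1 hQ2 hW2 x (Bd x)
        (fun i hi => (hBd x i).1 hi)
      rw [← hWd, ← hCd] at h2
      calc r * C * (ind (∃ v, Corr op a b v (Gx x)) * ((Bd x).card : ℝ))
          = ind (∃ v, Corr op a b v (Gx x)) * (r * ((Bd x).card : ℝ) * C) := by ring
        _ ≤ _ := h2
        _ = _ := by ring
    have h2 := EI_mono hwn h1
    rw [EI_mul, EI_add, EI_const hws, EI_mul, EI_sum, ← hE] at h2
    refine h2.trans (add_le_add le_rfl (mul_le_mul_of_nonneg_left ?_ (by positivity)))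
    have h3 : ∀ T ∈ (Finset.univ : Finset I).powersetCard r, EI (wX q) (fun x : I → Xi Λ =>
        ind (∃ v, Corr op a b v (Gx x) ∧ m ≤ (Dt hop2 hj P a b h₁ h₂ k v T x).card)) ≤ 1 / 64 := by
      intro T hT
      have h4 := adv_V hop1 hop2 hq0 hq1 hj2 hjh hhk hkj hj hN a b m T (P := P)
      rw [(Finset.mem_powersetCard.1 hT).2] at h4
      exact h4.trans hV
    refine (Finset.sum_le_sum h3).trans (le_of_eq ?_)
    rw [Finset.sum_const, Finset.card_powersetCard, Finset.card_univ, nsmul_eq_mul, hCd]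
  have hE2 : E ≤ 3 / 32 * W := by
    have h1 : 3 * (P : ℝ) * r ^ 2 / (W - 1) ≤ r / 64 := by
      rw [div_le_div_iff₀ hW1 (by norm_num)]
      nlinarith [mul_le_mul_of_nonneg_left (show 192 * (P : ℝ) * r ≤ W - 1 by linarith)
        (show (0 : ℝ) ≤ r by linarith)]
    have h2 : C * (r * E) ≤ C * (W * (m + 3 * P * r ^ 2 / (W - 1) + r / 64)) := by
      calc C * (r * E) = r * C * E := by ring
        _ ≤ _ := hE1
        _ = _ := by ring
    have h3 := le_of_mul_le_mul_left h2 hC0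
    have h4 : r * E ≤ r * (3 / 32 * W) := by
      calc r * E ≤ W * (m + 3 * P * r ^ 2 / (W - 1) + r / 64) := h3
        _ ≤ W * (r / 16 + r / 64 + r / 64) :=
          mul_le_mul_of_nonneg_left (by linarith) hW0
        _ = r * (3 / 32 * W) := by ring
    exact le_of_mul_le_mul_left h4 (by linarith)
  -- the probability that there is a good advice
  have hCE : 3 / 4 ≤ EI (wX q) (fun x : I → Xi Λ => ind (∃ v, Corr op a b v (Gx x))) := by
    have h1 : EI (wX q) (fun x : I → Xi Λ => ind (∃ v, Corr op a b v (Gx x)) +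
        ind (FlA op a b (Gx x))) = 1 := by
      have h2 : (fun x : I → Xi Λ => ind (∃ v, Corr op a b v (Gx x)) +
          ind (FlA op a b (Gx x))) = fun _ => 1 := by
        funext x
        by_cases h3 : ∃ v, Corr op a b v (Gx x)
        · have h4 : ¬ FlA op a b (Gx x) := fun h5 => by
            obtain ⟨v, hv⟩ := h3
            exact h5 v hv
          rw [am_t h3, am_f h4, add_zero]
        · have h4 : FlA op a b (Gx x) := fun v hv => h3 ⟨v, hv⟩
          rw [am_f h3, am_t h4, zero_add]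
      rw [h2]
      exact EI_const hws 1
    rw [EI_add] at h1
    linarith
  -- the good windows
  have hpt : ∀ x : I → Xi Λ, W * ind (∃ v, Corr op a b v (Gx x)) ≤
      ind (∃ v, Corr op a b v (Gx x)) * ((Bd x).card : ℝ) +
        (∑ i : I, ind (¬ (h₁ ≤ ((x i).1 : ℕ) ∧ ((x i).1 : ℕ) ≤ h₂)) +
        ∑ i : I, ind (Iv a b (Function.update (Gx x) i (pre k (x i).2.1)) ∨
          Iv a b (Function.update (Gx x) i (seg j k (x i).2.1)))) := by
    intro x
    have h1 : ((Bd x).card : ℝ) = ∑ i : I, ind (i ∈ Bd x) := by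
      rw [Finset.card_eq_sum_ones, Nat.cast_sum, ← Finset.sum_filter_add_sum_filter_not
        (Finset.univ : Finset I) (fun i => i ∈ Bd x) (fun i => ind (i ∈ Bd x))]
      have h2 : ∑ i ∈ Finset.univ.filter (fun i => ¬ i ∈ Bd x), ind (i ∈ Bd x) = 0 :=
        Finset.sum_eq_zero fun i hi => am_f (Finset.mem_filter.1 hi).2
      have h3 : Finset.univ.filter (fun i => i ∈ Bd x) = Bd x := by
        ext i
        rw [Finset.mem_filter]
        exact ⟨fun h => h.2, fun h => ⟨Finset.mem_univ _, h⟩⟩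
      rw [h2, h3, add_zero]
      refine Finset.sum_congr rfl fun i hi => ?_
      rw [am_t hi, Nat.cast_one]
    have h4 : W * ind (∃ v, Corr op a b v (Gx x)) =
        ∑ _i : I, ind (∃ v, Corr op a b v (Gx x)) := by
      rw [Finset.sum_const, Finset.card_univ, nsmul_eq_mul, hWd]
    rw [h4, h1, Finset.mul_sum, ← Finset.sum_add_distrib, ← Finset.sum_add_distrib]
    refine Finset.sum_le_sum fun i _ => ?_
    by_cases hC : ∃ v, Corr op a b v (Gx x)
    · rw [am_t hC, one_mul]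
      by_cases hg : Iv a b (Function.update (Gx x) i (pre k (x i).2.1)) ∨
          Iv a b (Function.update (Gx x) i (seg j k (x i).2.1))
      · rw [am_t hg]
        linarith [am_nn (i ∈ Bd x), am_nn (¬ (h₁ ≤ ((x i).1 : ℕ) ∧ ((x i).1 : ℕ) ≤ h₂))]
      · by_cases ht : h₁ ≤ ((x i).1 : ℕ) ∧ ((x i).1 : ℕ) ≤ h₂
        · rw [am_t ((hBd x i).2 ⟨ht, hg⟩)]
          linarith [am_nn (Iv a b (Function.update (Gx x) i (pre k (x i).2.1)) ∨
            Iv a b (Function.update (Gx x) i (seg j k (x i).2.1))),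
            am_nn (¬ (h₁ ≤ ((x i).1 : ℕ) ∧ ((x i).1 : ℕ) ≤ h₂))]
        · rw [am_t ht]
          linarith [am_nn (Iv a b (Function.update (Gx x) i (pre k (x i).2.1)) ∨
            Iv a b (Function.update (Gx x) i (seg j k (x i).2.1))), am_nn (i ∈ Bd x)]
    · rw [am_f hC, zero_mul]
      linarith [am_nn (Iv a b (Function.update (Gx x) i (pre k (x i).2.1)) ∨
            Iv a b (Function.update (Gx x) i (seg j k (x i).2.1))),
            am_nn (¬ (h₁ ≤ ((x i).1 : ℕ) ∧ ((x i).1 : ℕ) ≤ h₂))]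
  have h5 := EI_mono hwn hpt
  rw [EI_mul, EI_add, EI_add, EI_sum, EI_sum, ← hE] at h5
  have h6 : ∑ i : I, EI (wX q) (fun x : I → Xi Λ =>
      ind (¬ (h₁ ≤ ((x i).1 : ℕ) ∧ ((x i).1 : ℕ) ≤ h₂))) ≤ W * (1 / 16) := by
    have h7 : ∀ i ∈ (Finset.univ : Finset I), EI (wX q) (fun x : I → Xi Λ =>
        ind (¬ (h₁ ≤ ((x i).1 : ℕ) ∧ ((x i).1 : ℕ) ≤ h₂))) ≤ 1 / 16 := fun i _ => by
      rw [am_typ]
      exact htyp
    refine (Finset.sum_le_sum h7).trans (le_of_eq ?_)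
    rw [Finset.sum_const, Finset.card_univ, nsmul_eq_mul, hWd]
  have h8 : ∑ i : I, EI (wX q) (fun x : I → Xi Λ =>
      ind (Iv a b (Function.update (Gx x) i (pre k (x i).2.1)) ∨
          Iv a b (Function.update (Gx x) i (seg j k (x i).2.1)))) ≤
      ∑ i : I, (rk q (Iv a b) i k + rk q (Iv a b) i (k - j)) := by
    refine Finset.sum_le_sum fun i _ => ?_
    rw [← rk_pre q (Iv a b) i hkN, ← rk_seg q (Iv a b) i hjk hkN, ← EI_add]
    exact EI_mono hwn fun x => am_or _ _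
  have h9 : W * (3 / 4) ≤ W * EI (wX q) (fun x : I → Xi Λ => ind (∃ v, Corr op a b v (Gx x))) :=
    mul_le_mul_of_nonneg_left hCE hW0
  rw [← hWd]
  linarith

end Pool.Agent.RC
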