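import Mathlib
import Pool.Agent.RO.Binom
import Pool.Agent.RO.BinomB
import Pool.Agent.RO.BinomC

set_option autoImplicit false

/-!
# RC-BnA (job): the two tails of the binomial distribution

Notation: `μ = t³`, `d = t²`, `q = μ / N`, `π k = bw N q k`; `π (k+1) / π k = (μ / (k+1)) ((N - k) / (N - μ))` for `k < N` (see the private lemmas `step_le`,
`step_ge` in `Pool/Agent/RO/BinomB.lean`, copy them).

PLAN. Upper tail: for `k ≥ μ + d`: `π (k+1) ≤ (μ / (μ + d)) π k = (t / (t + 1)) π k`, so `∑_{k ≥ μ+d} π k ≤ (t + 1) π (μ + d)` (geometric series).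
Lower tail: for `k + 1 ≤ μ - d`: `π k ≤ ((k + 1) / μ) π (k+1) ≤ (1 - 1 / t) π (k+1)`, so `∑_{k < μ-d} π k ≤ t π (μ - d) ≤ 3 t π (μ + d)` (`RO.bw_ratio`).
Sum `≤ (4 t + 1) π (μ + d)`.
`bn_typ`: Chebyshev: the variance is at most `t³`, and `|h - μ| ≥ t² / 2` (see `cheb` and `bw_out` in `Pool/Agent/RO/Binom.lean`): `≤ 4 / t ≤ 1 / 16`.
-/

namespace Pool.Agent.RC

open Pool.Agent.RO (bw)
open Finset

private theorem var_bw (N : ℕ) (q : ℝ) :
    ∑ k ∈ range (N + 1), ((N : ℝ) * q - k) ^ 2 * bw N q k = N * q * (1 - q) := by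
  have h := congrArg (Polynomial.eval q) (bernsteinPolynomial.variance ℝ N)
  rw [Polynomial.eval_finsetSum] at h
  simp only [Polynomial.eval_mul, Polynomial.eval_pow, Polynomial.eval_sub,
    Polynomial.eval_X, Polynomial.eval_natCast, Polynomial.eval_one, bernsteinPolynomial,
    nsmul_eq_mul] at h
  rw [← h]
  refine Finset.sum_congr rfl fun k _ => ?_
  unfold bw
  ring

private theorem cheb {N : ℕ} {q δ : ℝ} (hq0 : 0 ≤ q) (hq1 : q ≤ 1) (hδ : 0 < δ)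
    (S : Finset ℕ) (hS : S ⊆ range (N + 1)) (hd : ∀ k ∈ S, δ ^ 2 ≤ ((N : ℝ) * q - k) ^ 2) :
    ∑ k ∈ S, bw N q k ≤ N * q / δ ^ 2 := by
  have hq2 : 0 ≤ 1 - q := by linarith
  rw [le_div_iff₀ (by positivity), Finset.sum_mul]
  calc ∑ k ∈ S, bw N q k * δ ^ 2
      ≤ ∑ k ∈ S, ((N : ℝ) * q - k) ^ 2 * bw N q k := by
        refine Finset.sum_le_sum fun k hk => ?_
        rw [mul_comm]
        exact mul_le_mul_of_nonneg_right (hd k hk) (Pool.Agent.RO.bw_nonneg hq0 hq1 k)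
    _ ≤ ∑ k ∈ range (N + 1), ((N : ℝ) * q - k) ^ 2 * bw N q k := by
        refine Finset.sum_le_sum_of_subset_of_nonneg hS fun k _ _ => ?_
        exact mul_nonneg (sq_nonneg _) (Pool.Agent.RO.bw_nonneg hq0 hq1 k)
    _ = N * q * (1 - q) := var_bw N q
    _ ≤ N * q := by
        have : 0 ≤ (N : ℝ) * q := by positivity
        nlinarith

private theorem q_facts {N t : ℕ} (ht : 8 ≤ t) (hN : 2 * t ^ 3 ≤ N) :
    (0 : ℝ) ≤ (t : ℝ) ^ 3 / N ∧ (t : ℝ) ^ 3 / N ≤ 1 ∧ (N : ℝ) * ((t : ℝ) ^ 3 / N) = (t : ℝ) ^ 3 := by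
  have h0 : 0 < t ^ 3 := by positivity
  have h1 : (0 : ℝ) < N := by
    have : 0 < N := by omega
    exact_mod_cast this
  refine ⟨by positivity, ?_, ?_⟩
  · rw [div_le_one h1]
    have : t ^ 3 ≤ N := by omega
    exact_mod_cast this
  · field_simp

private lemma bw_nn {N : ℕ} {q : ℝ} (hq0 : 0 ≤ q) (hq1 : q ≤ 1) (k : ℕ) : 0 ≤ bw N q k := by
  unfold bw
  have : 0 ≤ 1 - q := by linarith
  positivity

private lemma bw_big {N : ℕ} {q : ℝ} {k : ℕ} (h : N < k) : bw N q k = 0 := by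
  unfold bw
  rw [Nat.choose_eq_zero_of_lt h]; simp

private lemma bw_rec {N k : ℕ} {m : ℝ} (hk : k < N) :
    bw N (m / N) (k + 1) * (((k : ℝ) + 1) * (N - m)) = bw N (m / N) k * (m * (N - k)) := by
  have hN : (N : ℝ) ≠ 0 := by
    have : 0 < N := by omega
    exact_mod_cast this.ne'
  unfold bw
  have h1 : (N.choose (k + 1) : ℝ) * ((k : ℝ) + 1) = (N.choose k : ℝ) * ((N : ℝ) - k) := by
    have h := Nat.choose_succ_right_eq N k
    have h' : ((N.choose (k + 1) * (k + 1) : ℕ) : ℝ) = ((N.choose k * (N - k) : ℕ) : ℝ) := by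
      exact_mod_cast h
    push_cast [Nat.cast_sub hk.le] at h'
    exact h'
  have h2 : N - k = (N - (k + 1)) + 1 := by omega
  rw [h2, pow_succ, pow_succ]
  have h3 : (m / N) * N = m := by field_simp
  have h4 : (N : ℝ) - m = N * (1 - m / N) := by field_simp
  rw [h4]
  calc (N.choose (k + 1) : ℝ) * ((m / N) ^ k * (m / N)) * (1 - m / N) ^ (N - (k + 1)) *
        (((k : ℝ) + 1) * (N * (1 - m / N)))
      = ((N.choose (k + 1) : ℝ) * ((k : ℝ) + 1)) * (m / N) ^ k * ((m / N) * N) *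
        ((1 - m / N) ^ (N - (k + 1)) * (1 - m / N)) := by ring
    _ = _ := by rw [h1, h3]; ring

private lemma step_le {N k : ℕ} {m c : ℝ} (hm : 0 < m) (hN : m < N) (hc : 0 ≤ c)
    (h : k < N → m * (N - k) ≤ c * (((k : ℝ) + 1) * (N - m))) :
    bw N (m / N) (k + 1) ≤ c * bw N (m / N) k := by
  have hN0 : (0 : ℝ) < N := by linarith
  have hq0 : 0 ≤ m / N := by positivity
  have hq1 : m / N ≤ 1 := by rw [div_le_one hN0]; linarith
  rcases lt_or_ge k N with hk | hk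
  · have hr := bw_rec (m := m) hk
    have hD : 0 < ((k : ℝ) + 1) * (N - m) := by
      have : (0 : ℝ) < N - m := by linarith
      positivity
    have hb := bw_nn (N := N) hq0 hq1 k
    have h1 := h hk
    by_contra hcon
    push Not at hcon
    have h2 : c * bw N (m / N) k * (((k : ℝ) + 1) * (N - m)) <
        bw N (m / N) (k + 1) * (((k : ℝ) + 1) * (N - m)) := mul_lt_mul_of_pos_right hcon hD
    have h3 : bw N (m / N) k * (m * (N - k)) ≤
        bw N (m / N) k * (c * (((k : ℝ) + 1) * (N - m))) := mul_le_mul_of_nonneg_left h1 hb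
    rw [hr] at h2
    nlinarith
  · rw [bw_big (by omega : N < k + 1)]
    exact mul_nonneg hc (bw_nn hq0 hq1 k)

private lemma step_ge {N k : ℕ} {m c : ℝ} (hm : 0 < m) (hN : m < N) (hk : k < N)
    (h : ((k : ℝ) + 1) * (N - m) ≤ c * (m * (N - k))) :
    bw N (m / N) k ≤ c * bw N (m / N) (k + 1) := by
  have hN0 : (0 : ℝ) < N := by linarith
  have hq0 : 0 ≤ m / N := by positivity
  have hq1 : m / N ≤ 1 := by rw [div_le_one hN0]; linarith
  have hr := bw_rec (m := m) hk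
  have hE : 0 < m * ((N : ℝ) - k) := by
    have : (0 : ℝ) < (N : ℝ) - k := by
      have : (k : ℝ) < N := by exact_mod_cast hk
      linarith
    positivity
  have hb := bw_nn (N := N) hq0 hq1 (k + 1)
  by_contra hcon
  push Not at hcon
  have h2 : c * bw N (m / N) (k + 1) * (m * ((N : ℝ) - k)) <
      bw N (m / N) k * (m * ((N : ℝ) - k)) := mul_lt_mul_of_pos_right hcon hE
  have h3 : bw N (m / N) (k + 1) * (((k : ℝ) + 1) * (N - m)) ≤
      bw N (m / N) (k + 1) * (c * (m * (N - k))) := mul_le_mul_of_nonneg_left h hb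
  rw [← hr] at h2
  nlinarith


private lemma up_sum {N t : ℕ} (ht : 1 ≤ t) (hN : 2 * t ^ 3 ≤ N) (n : ℕ) :
    ∑ i ∈ range n, bw N ((t : ℝ) ^ 3 / N) (t ^ 3 + t ^ 2 + i) +
      (t + 1) * bw N ((t : ℝ) ^ 3 / N) (t ^ 3 + t ^ 2 + n) ≤
      (t + 1) * bw N ((t : ℝ) ^ 3 / N) (t ^ 3 + t ^ 2) := by
  have ht0 : (0 : ℝ) < t := by
    have : 0 < t := by omega
    exact_mod_cast this
  have hm : (0 : ℝ) < (t : ℝ) ^ 3 := by positivity
  have hNr : 2 * (t : ℝ) ^ 3 ≤ N := by exact_mod_cast hN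
  induction n with
  | zero => simp
  | succ n ih =>
    have h1 : bw N ((t : ℝ) ^ 3 / N) (t ^ 3 + t ^ 2 + n + 1) ≤
        (t / (t + 1)) * bw N ((t : ℝ) ^ 3 / N) (t ^ 3 + t ^ 2 + n) := by
      refine step_le hm (by linarith) (by positivity) fun _ => ?_
      have h2 : (t : ℝ) ^ 3 ≤ (t / (t + 1)) * (((t ^ 3 + t ^ 2 + n : ℕ) : ℝ) + 1) := by
        rw [div_mul_eq_mul_div, le_div_iff₀ (by positivity)]
        push_cast
        have h5 : (0 : ℝ) ≤ (t : ℝ) * n := by positivity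
        nlinarith
      have h3 : (N : ℝ) - ((t ^ 3 + t ^ 2 + n : ℕ) : ℝ) ≤ N - (t : ℝ) ^ 3 := by
        push_cast
        have h5 : (0 : ℝ) ≤ (t : ℝ) ^ 2 := by positivity
        have h6 : (0 : ℝ) ≤ (n : ℝ) := by positivity
        linarith
      have h4 : (0 : ℝ) ≤ N - (t : ℝ) ^ 3 := by linarith
      calc (t : ℝ) ^ 3 * ((N : ℝ) - ((t ^ 3 + t ^ 2 + n : ℕ) : ℝ))
          ≤ (t : ℝ) ^ 3 * (N - (t : ℝ) ^ 3) := mul_le_mul_of_nonneg_left h3 hm.le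
        _ ≤ ((t / (t + 1)) * (((t ^ 3 + t ^ 2 + n : ℕ) : ℝ) + 1)) * (N - (t : ℝ) ^ 3) :=
            mul_le_mul_of_nonneg_right h2 h4
        _ = (t / (t + 1)) * ((((t ^ 3 + t ^ 2 + n : ℕ) : ℝ) + 1) * (N - (t : ℝ) ^ 3)) := by ring
    have h2 : (t + 1) * bw N ((t : ℝ) ^ 3 / N) (t ^ 3 + t ^ 2 + n + 1) ≤
        t * bw N ((t : ℝ) ^ 3 / N) (t ^ 3 + t ^ 2 + n) := by
      calc (t + 1) * bw N ((t : ℝ) ^ 3 / N) (t ^ 3 + t ^ 2 + n + 1)
          ≤ (t + 1) * ((t / (t + 1)) * bw N ((t : ℝ) ^ 3 / N) (t ^ 3 + t ^ 2 + n)) :=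
            mul_le_mul_of_nonneg_left h1 (by positivity)
        _ = t * bw N ((t : ℝ) ^ 3 / N) (t ^ 3 + t ^ 2 + n) := by field_simp
    rw [Finset.sum_range_succ, show t ^ 3 + t ^ 2 + (n + 1) = t ^ 3 + t ^ 2 + n + 1 by ring]
    linarith

private lemma down_sum {N t : ℕ} (ht : 1 ≤ t) (hN : 2 * t ^ 3 ≤ N) (n : ℕ)
    (hn : n ≤ t ^ 3 - t ^ 2) :
    ∑ i ∈ range n, bw N ((t : ℝ) ^ 3 / N) i ≤ (t - 1) * bw N ((t : ℝ) ^ 3 / N) n := by
  have ht0 : (0 : ℝ) < t := by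
    have : 0 < t := by omega
    exact_mod_cast this
  have ht1 : (1 : ℝ) ≤ t := by exact_mod_cast ht
  have hm : (0 : ℝ) < (t : ℝ) ^ 3 := by positivity
  have hNr : 2 * (t : ℝ) ^ 3 ≤ N := by exact_mod_cast hN
  have hN0 : (0 : ℝ) < N := by linarith
  have hq0 : 0 ≤ (t : ℝ) ^ 3 / N := by positivity
  have hq1 : (t : ℝ) ^ 3 / N ≤ 1 := by rw [div_le_one hN0]; linarith
  induction n with
  | zero =>
    rw [Finset.range_zero, Finset.sum_empty]
    exact mul_nonneg (by linarith) (bw_nn hq0 hq1 _)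
  | succ n ih =>
    have ih' := ih (by omega)
    have hle : t ^ 2 ≤ t ^ 3 := Nat.pow_le_pow_right (by omega) (by omega)
    have hn2 : n + 1 + t ^ 2 ≤ t ^ 3 := by omega
    have hn3 : (n : ℝ) + 1 + (t : ℝ) ^ 2 ≤ (t : ℝ) ^ 3 := by exact_mod_cast hn2
    have h1 : bw N ((t : ℝ) ^ 3 / N) n ≤
        ((t - 1) / t) * bw N ((t : ℝ) ^ 3 / N) (n + 1) := by
      refine step_ge hm (by linarith) (by
        have : t ^ 3 ≤ 2 * t ^ 3 := by omega
        have h7 : 0 < t ^ 2 := by positivity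
        omega) ?_
      have h2 : (n : ℝ) + 1 ≤ ((t - 1) / t) * (t : ℝ) ^ 3 := by
        have h5 : ((t - 1) / t) * (t : ℝ) ^ 3 = (t : ℝ) ^ 3 - (t : ℝ) ^ 2 := by
          field_simp
        rw [h5]; linarith
      have h3 : (N : ℝ) - (t : ℝ) ^ 3 ≤ N - n := by
        have h5 : (0 : ℝ) ≤ (t : ℝ) ^ 2 := by positivity
        linarith
      have h4 : (0 : ℝ) ≤ N - (t : ℝ) ^ 3 := by linarith
      have h6 : (0 : ℝ) ≤ ((t - 1) / t) * (t : ℝ) ^ 3 := by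
        have : (0 : ℝ) ≤ (t : ℝ) - 1 := by linarith
        positivity
      calc ((n : ℝ) + 1) * (N - (t : ℝ) ^ 3)
          ≤ (((t - 1) / t) * (t : ℝ) ^ 3) * (N - (t : ℝ) ^ 3) :=
            mul_le_mul_of_nonneg_right h2 h4
        _ ≤ (((t - 1) / t) * (t : ℝ) ^ 3) * (N - n) := mul_le_mul_of_nonneg_left h3 h6
        _ = ((t - 1) / t) * ((t : ℝ) ^ 3 * (N - n)) := by ring
    rw [Finset.sum_range_succ]
    calc ∑ i ∈ range n, bw N ((t : ℝ) ^ 3 / N) i + bw N ((t : ℝ) ^ 3 / N) n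
        ≤ (t - 1) * bw N ((t : ℝ) ^ 3 / N) n + bw N ((t : ℝ) ^ 3 / N) n := by linarith
      _ = t * bw N ((t : ℝ) ^ 3 / N) n := by ring
      _ ≤ t * (((t - 1) / t) * bw N ((t : ℝ) ^ 3 / N) (n + 1)) :=
          mul_le_mul_of_nonneg_left h1 ht0.le
      _ = (t - 1) * bw N ((t : ℝ) ^ 3 / N) (n + 1) := by field_simp

private lemma hN_aux {N t : ℕ} (ht : 64 ≤ t) (hN : 100 * t ^ 6 ≤ N) : 2 * t ^ 3 ≤ N := by
  have h : t ^ 3 ≤ t ^ 6 := Nat.pow_le_pow_right (by omega) (by omega)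
  omega

theorem bn_out {N t : ℕ} (ht : 64 ≤ t) (h2 : Even t) (hN : 100 * t ^ 6 ≤ N) :
    ∑ k ∈ (range (N + 1)).filter (fun k => ¬ (t ^ 3 - t ^ 2 ≤ k ∧ k < t ^ 3 + t ^ 2)),
      bw N ((t : ℝ) ^ 3 / N) k ≤ 5 * (t * bw N ((t : ℝ) ^ 3 / N) (t ^ 3 + t ^ 2)) := by
  have hN2 := hN_aux ht hN
  have hNr : 2 * (t : ℝ) ^ 3 ≤ N := by exact_mod_cast hN2
  have ht0 : (0 : ℝ) < t := by
    have : 0 < t := by omega
    exact_mod_cast this
  have ht1 : (1 : ℝ) ≤ t := by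
    have : 1 ≤ t := by omega
    exact_mod_cast this
  have hm : (0 : ℝ) < (t : ℝ) ^ 3 := by positivity
  have hN0 : (0 : ℝ) < N := by linarith
  have hq0 : 0 ≤ (t : ℝ) ^ 3 / N := by positivity
  have hq1 : (t : ℝ) ^ 3 / N ≤ 1 := by rw [div_le_one hN0]; linarith
  have hd : t ^ 2 ≤ t ^ 3 := Nat.pow_le_pow_right (by omega) (by omega)
  have hset : (range (N + 1)).filter (fun k => ¬ (t ^ 3 - t ^ 2 ≤ k ∧ k < t ^ 3 + t ^ 2)) =
      range (t ^ 3 - t ^ 2) ∪ Ico (t ^ 3 + t ^ 2) (N + 1) := by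
    ext k
    simp only [Finset.mem_filter, Finset.mem_union, Finset.mem_range, Finset.mem_Ico, not_and,
      not_lt]
    constructor
    · rintro ⟨h3, h4⟩
      by_cases h5 : t ^ 3 - t ^ 2 ≤ k
      · exact Or.inr ⟨h4 h5, h3⟩
      · exact Or.inl (by omega)
    · rintro (h3 | ⟨h3, h4⟩)
      · exact ⟨by omega, fun h5 => by omega⟩
      · exact ⟨h4, fun _ => h3⟩
  have hdis : Disjoint (range (t ^ 3 - t ^ 2)) (Ico (t ^ 3 + t ^ 2) (N + 1)) := by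
    rw [Finset.disjoint_left]
    intro k hk hk'
    rw [Finset.mem_range] at hk
    rw [Finset.mem_Ico] at hk'
    omega
  rw [hset, Finset.sum_union hdis, Finset.sum_Ico_eq_sum_range]
  have hu := up_sum (N := N) (t := t) (by omega) hN2 (N + 1 - (t ^ 3 + t ^ 2))
  have hdn := down_sum (N := N) (t := t) (by omega) hN2 (t ^ 3 - t ^ 2) le_rfl
  have hr := (Pool.Agent.RO.bw_ratio (N := N) (t := t) (by omega) hN2).2
  have hb := bw_nn (N := N) hq0 hq1 (t ^ 3 + t ^ 2 + (N + 1 - (t ^ 3 + t ^ 2)))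
  have hb2 := bw_nn (N := N) hq0 hq1 (t ^ 3 + t ^ 2)
  have hr2 := mul_le_mul_of_nonneg_left hr (by linarith : (0 : ℝ) ≤ (t : ℝ) - 1)
  have hb3 : 0 ≤ ((t : ℝ) + 1) * bw N ((t : ℝ) ^ 3 / N)
      (t ^ 3 + t ^ 2 + (N + 1 - (t ^ 3 + t ^ 2))) := mul_nonneg (by linarith) hb
  have hb4 : 0 ≤ (t : ℝ) * bw N ((t : ℝ) ^ 3 / N) (t ^ 3 + t ^ 2) := mul_nonneg ht0.le hb2
  linarith

theorem bn_typ {N t : ℕ} (ht : 64 ≤ t) (h2 : Even t) (hN : 100 * t ^ 6 ≤ N) :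
    ∑ h ∈ (range (N + 1)).filter
      (fun h => ¬ (t ^ 3 - t ^ 2 / 2 ≤ h ∧ h ≤ t ^ 3 + t ^ 2 / 2)),
      bw N ((t : ℝ) ^ 3 / N) h ≤ 1 / 16 := by
  have hN2 := hN_aux ht hN
  obtain ⟨hq0, hq1, hq⟩ := q_facts (by omega) hN2
  have ht0 : (0 : ℝ) < t := by
    have : 0 < t := by omega
    exact_mod_cast this
  obtain ⟨r, hr⟩ := h2
  have hsq : t ^ 2 / 2 = 2 * r ^ 2 := by
    have : t ^ 2 = 2 * (2 * r ^ 2) := by rw [hr]; ring
    omega
  have hsqR : (t : ℝ) ^ 2 / 2 = ((t ^ 2 / 2 : ℕ) : ℝ) := by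
    rw [hsq, hr]; push_cast; ring
  refine le_trans (cheb (δ := (t : ℝ) ^ 2 / 2) hq0 hq1 (by positivity) _
    (Finset.filter_subset _ _) ?_) ?_
  · intro k hk
    rw [hq]
    have hk2 := (Finset.mem_filter.1 hk).2
    have h4 : (0 : ℝ) ≤ (t : ℝ) ^ 2 / 2 := by positivity
    rcases lt_or_ge k (t ^ 3 - t ^ 2 / 2) with h | h
    · have h2 : k + t ^ 2 / 2 ≤ t ^ 3 := by omega
      have h3 : (k : ℝ) + (t : ℝ) ^ 2 / 2 ≤ (t : ℝ) ^ 3 := by
        rw [hsqR]; exact_mod_cast h2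
      nlinarith
    · have h2 : t ^ 3 + t ^ 2 / 2 ≤ k := by
        by_contra hc
        exact hk2 ⟨h, by omega⟩
      have h3 : (t : ℝ) ^ 3 + (t : ℝ) ^ 2 / 2 ≤ (k : ℝ) := by
        rw [hsqR]; exact_mod_cast h2
      nlinarith
  · rw [hq, div_le_iff₀ (by positivity)]
    have h8 : (64 : ℝ) ≤ t := by exact_mod_cast ht
    have h9 : (0 : ℝ) < (t : ℝ) ^ 3 := by positivity
    have h10 : 1 / 16 * ((t : ℝ) ^ 2 / 2) ^ 2 = (t : ℝ) ^ 3 * (t / 64) := by ring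
    rw [h10]
    have h11 : (1 : ℝ) ≤ t / 64 := by linarith
    nlinarith

end Pool.Agent.RC
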