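import Mathlib
import Pool.Agent.RO.Binom
import Pool.Agent.RO.BinomB
import Pool.Agent.RO.BinomC

set_option autoImplicit false

/-!
# RC-BnB (job): the binomial distribution near the two edges

Notation: `μ = t³`, `d = t²`, `q = μ / N`, `π k = bw N q k`; `π (k+1) / π k = (μ / (k+1)) ((N - k) / (N - μ))` for `k < N` (see the private lemmas `step_le`,
`step_ge` in `Pool/Agent/RO/BinomB.lean`, copy them).

Both follow from the ratio bounds `bnb_up`, `bnb_lo` and `RO.bw_ratio`.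
-/

namespace Pool.Agent.RC

open Pool.Agent.RO (bw)
open Finset

private lemma bw_nn {N : ℕ} {q : ℝ} (hq0 : 0 ≤ q) (hq1 : q ≤ 1) (k : ℕ) : 0 ≤ bw N q k := by
  unfold bw
  have : 0 ≤ 1 - q := by linarith
  positivity

private lemma bw_big {N : ℕ} {q : ℝ} {k : ℕ} (h : N < k) : bw N q k = 0 := by
  unfold bw
  rw [Nat.choose_eq_zero_of_lt h]; simp

private lemma bw_rec {N k : ℕ} {m : ℝ} (hk : k < N) :
    bw N (m / N) (k + 1) * (((k : ℝ) + 1) * (N - m)) = bw N (m / N) k * (m * (N - k)) := by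
  have hN : (N : ℝ) ≠ 0 := by
    have : 0 < N := by omega
    exact_mod_cast this.ne'
  unfold bw
  have h1 : (N.choose (k + 1) : ℝ) * ((k : ℝ) + 1) = (N.choose k : ℝ) * ((N : ℝ) - k) := by
    have h := Nat.choose_succ_right_eq N k
    have h' : ((N.choose (k + 1) * (k + 1) : ℕ) : ℝ) = ((N.choose k * (N - k) : ℕ) : ℝ) := by
      exact_mod_cast h
    push_cast [Nat.cast_sub hk.le] at h'
    exact h'
  have h2 : N - k = (N - (k + 1)) + 1 := by omega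
  rw [h2, pow_succ, pow_succ]
  have h3 : (m / N) * N = m := by field_simp
  have h4 : (N : ℝ) - m = N * (1 - m / N) := by field_simp
  rw [h4]
  calc (N.choose (k + 1) : ℝ) * ((m / N) ^ k * (m / N)) * (1 - m / N) ^ (N - (k + 1)) *
        (((k : ℝ) + 1) * (N * (1 - m / N)))
      = ((N.choose (k + 1) : ℝ) * ((k : ℝ) + 1)) * (m / N) ^ k * ((m / N) * N) *
        ((1 - m / N) ^ (N - (k + 1)) * (1 - m / N)) := by ring
    _ = _ := by rw [h1, h3]; ring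

private lemma step_le {N k : ℕ} {m c : ℝ} (hm : 0 < m) (hN : m < N) (hc : 0 ≤ c)
    (h : k < N → m * (N - k) ≤ c * (((k : ℝ) + 1) * (N - m))) :
    bw N (m / N) (k + 1) ≤ c * bw N (m / N) k := by
  have hN0 : (0 : ℝ) < N := by linarith
  have hq0 : 0 ≤ m / N := by positivity
  have hq1 : m / N ≤ 1 := by rw [div_le_one hN0]; linarith
  rcases lt_or_ge k N with hk | hk
  · have hr := bw_rec (m := m) hk
    have hD : 0 < ((k : ℝ) + 1) * (N - m) := by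
      have : (0 : ℝ) < N - m := by linarith
      positivity
    have hb := bw_nn (N := N) hq0 hq1 k
    have h1 := h hk
    by_contra hcon
    push Not at hcon
    have h2 : c * bw N (m / N) k * (((k : ℝ) + 1) * (N - m)) <
        bw N (m / N) (k + 1) * (((k : ℝ) + 1) * (N - m)) := mul_lt_mul_of_pos_right hcon hD
    have h3 : bw N (m / N) k * (m * (N - k)) ≤
        bw N (m / N) k * (c * (((k : ℝ) + 1) * (N - m))) := mul_le_mul_of_nonneg_left h1 hb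
    rw [hr] at h2
    nlinarith
  · rw [bw_big (by omega : N < k + 1)]
    exact mul_nonneg hc (bw_nn hq0 hq1 k)

private lemma step_ge {N k : ℕ} {m c : ℝ} (hm : 0 < m) (hN : m < N) (hk : k < N)
    (h : ((k : ℝ) + 1) * (N - m) ≤ c * (m * (N - k))) :
    bw N (m / N) k ≤ c * bw N (m / N) (k + 1) := by
  have hN0 : (0 : ℝ) < N := by linarith
  have hq0 : 0 ≤ m / N := by positivity
  have hq1 : m / N ≤ 1 := by rw [div_le_one hN0]; linarith
  have hr := bw_rec (m := m) hk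
  have hE : 0 < m * ((N : ℝ) - k) := by
    have : (0 : ℝ) < (N : ℝ) - k := by
      have : (k : ℝ) < N := by exact_mod_cast hk
      linarith
    positivity
  have hb := bw_nn (N := N) hq0 hq1 (k + 1)
  by_contra hcon
  push Not at hcon
  have h2 : c * bw N (m / N) (k + 1) * (m * ((N : ℝ) - k)) <
      bw N (m / N) k * (m * ((N : ℝ) - k)) := mul_lt_mul_of_pos_right hcon hE
  have h3 : bw N (m / N) (k + 1) * (((k : ℝ) + 1) * (N - m)) ≤
      bw N (m / N) (k + 1) * (c * (m * (N - k))) := mul_le_mul_of_nonneg_left h hb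
  rw [← hr] at h2
  nlinarith

private lemma exp_small {x : ℝ} (hx : x ≤ 1 / 31) : Real.exp (1 + x) ≤ 4 := by
  have h1 : Real.exp (1 + x) ≤ Real.exp 1 * Real.exp (1 / 31) := by
    rw [← Real.exp_add]
    exact Real.exp_le_exp.2 (by linarith)
  have h2 : Real.exp 1 < 2.7182818286 := Real.exp_one_lt_d9
  have h3 : Real.exp (1 / 31) ≤ 31 / 30 := by
    have h4 := Real.one_sub_le_exp_neg (1 / 31)
    rw [Real.exp_neg] at h4
    have h5 : 0 < Real.exp (1 / 31) := Real.exp_pos _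
    have h6 : (1 - 1 / 31) * Real.exp (1 / 31) ≤ 1 := by
      calc (1 - 1 / 31) * Real.exp (1 / 31) ≤ (Real.exp (1 / 31))⁻¹ * Real.exp (1 / 31) :=
            mul_le_mul_of_nonneg_right h4 h5.le
        _ = 1 := inv_mul_cancel₀ h5.ne'
    linarith
  have h7 : 0 < Real.exp 1 := Real.exp_pos _
  have h8 : Real.exp 1 * Real.exp (1 / 31) ≤ 2.7182818286 * (31 / 30) :=
    mul_le_mul h2.le h3 (Real.exp_pos _).le (by norm_num)
  refine h1.trans (h8.trans ?_)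
  norm_num

private lemma seq_ge {f : ℕ → ℝ} (hf : ∀ k, 0 ≤ f k) {c : ℝ} (hc : 1 ≤ c) {a t : ℕ}
    (h : ∀ k, a ≤ k → k + 1 ≤ a + t → f k ≤ c * f (k + 1)) (i : ℕ) (hi : i ≤ t) :
    f a ≤ c ^ t * f (a + i) := by
  have h0 : f a ≤ c ^ i * f (a + i) := by
    induction i with
    | zero => simp
    | succ i ih =>
      have h1 := ih (by omega)
      have h2 := h (a + i) (by omega) (by omega)
      calc f a ≤ c ^ i * f (a + i) := h1
        _ ≤ c ^ i * (c * f (a + i + 1)) := mul_le_mul_of_nonneg_left h2 (by positivity)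
        _ = c ^ (i + 1) * f (a + (i + 1)) := by ring_nf
  exact h0.trans (mul_le_mul_of_nonneg_right (pow_le_pow_right₀ hc hi) (hf _))

private lemma seq_le {f : ℕ → ℝ} (hf : ∀ k, 0 ≤ f k) {c : ℝ} (hc : 1 ≤ c) {a t : ℕ}
    (h : ∀ k, a ≤ k → k + 1 ≤ a + t → f (k + 1) ≤ c * f k) (i : ℕ) (hi : i ≤ t) :
    f (a + i) ≤ c ^ t * f a := by
  have h0 : f (a + i) ≤ c ^ i * f a := by
    induction i with
    | zero => simp
    | succ i ih =>
      have h1 := ih (by omega)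
      have h2 := h (a + i) (by omega) (by omega)
      calc f (a + (i + 1)) ≤ c * f (a + i) := h2
        _ ≤ c * (c ^ i * f a) := mul_le_mul_of_nonneg_left h1 (by positivity)
        _ = c ^ (i + 1) * f a := by ring
  exact h0.trans (mul_le_mul_of_nonneg_right (pow_le_pow_right₀ hc hi) (hf _))

private lemma size {N t : ℕ} (ht : 64 ≤ t) (hN : 100 * t ^ 6 ≤ N) :
    2 * (t : ℝ) ^ 3 ≤ N ∧ (t : ℝ) ^ 3 + (t : ℝ) ^ 2 + t + (t : ℝ) ^ 4 + (t : ℝ) ^ 3 ≤ N := by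
  have ht1 : (64 : ℝ) ≤ t := by exact_mod_cast ht
  have hNr : 100 * (t : ℝ) ^ 6 ≤ N := by exact_mod_cast hN
  have h0 : (1 : ℝ) ≤ t := by linarith
  have e1 : (t : ℝ) ≤ (t : ℝ) ^ 6 := by simpa using pow_le_pow_right₀ h0 (show 1 ≤ 6 by norm_num)
  have e2 : (t : ℝ) ^ 2 ≤ (t : ℝ) ^ 6 := pow_le_pow_right₀ h0 (by norm_num)
  have e3 : (t : ℝ) ^ 3 ≤ (t : ℝ) ^ 6 := pow_le_pow_right₀ h0 (by norm_num)
  have e4 : (t : ℝ) ^ 4 ≤ (t : ℝ) ^ 6 := pow_le_pow_right₀ h0 (by norm_num)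
  have e6 : (0 : ℝ) ≤ (t : ℝ) ^ 6 := by positivity
  constructor <;> linarith

/-- above the window the weight does not drop by more than a factor 4 in `t` steps -/
private lemma bnb_up {N t : ℕ} (ht : 64 ≤ t) (hN : 100 * t ^ 6 ≤ N) (i : ℕ) (hi : i ≤ t) :
    bw N ((t : ℝ) ^ 3 / N) (t ^ 3 + t ^ 2) ≤ 4 * bw N ((t : ℝ) ^ 3 / N) (t ^ 3 + t ^ 2 + i) := by
  have ht1 : (64 : ℝ) ≤ t := by exact_mod_cast ht
  have ht0 : (0 : ℝ) < t := by linarith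
  obtain ⟨hs1, hs2⟩ := size ht hN
  have hm : (0 : ℝ) < (t : ℝ) ^ 3 := by positivity
  have hN0 : (0 : ℝ) < N := by linarith
  have hq0 : 0 ≤ (t : ℝ) ^ 3 / N := by positivity
  have hq1 : (t : ℝ) ^ 3 / N ≤ 1 := by rw [div_le_one hN0]; linarith
  obtain ⟨c, hc⟩ : ∃ c : ℝ, c = Real.exp (1 / t + 2 / (t : ℝ) ^ 2) := ⟨_, rfl⟩
  have hc1 : 1 ≤ c := by rw [hc]; exact Real.one_le_exp (by positivity)
  have hc2 : (1 + 1 / (t : ℝ) + 1 / (t : ℝ) ^ 2) * (1 + 1 / (t : ℝ) ^ 2) ≤ c := by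
    have e : c = Real.exp (1 / t + 1 / (t : ℝ) ^ 2) * Real.exp (1 / (t : ℝ) ^ 2) := by
      rw [hc, ← Real.exp_add]
      congr 1
      ring
    rw [e]
    have h1 := Real.add_one_le_exp (1 / (t : ℝ) + 1 / (t : ℝ) ^ 2)
    have h2 := Real.add_one_le_exp (1 / (t : ℝ) ^ 2)
    have h3 : (0 : ℝ) ≤ 1 / (t : ℝ) ^ 2 := by positivity
    have h4 : (0 : ℝ) ≤ 1 / (t : ℝ) := by positivity
    exact mul_le_mul (by linarith) (by linarith) (by linarith) (Real.exp_pos _).le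
  have hct : c ^ t ≤ 4 := by
    rw [hc, ← Real.exp_nat_mul]
    have e : (t : ℝ) * (1 / t + 2 / (t : ℝ) ^ 2) = 1 + 2 / t := by field_simp
    rw [e]
    refine exp_small ?_
    rw [div_le_div_iff₀ ht0 (by norm_num)]
    linarith
  have h := seq_ge (f := fun k => bw N ((t : ℝ) ^ 3 / N) k) (fun k => bw_nn hq0 hq1 k) hc1
    (a := t ^ 3 + t ^ 2) (t := t) (fun k hk hk' => ?_) i hi
  · exact h.trans (mul_le_mul_of_nonneg_right hct (bw_nn hq0 hq1 _))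
  · have hkr : (t : ℝ) ^ 3 + (t : ℝ) ^ 2 ≤ k := by exact_mod_cast hk
    have hkr' : (k : ℝ) + 1 ≤ (t : ℝ) ^ 3 + (t : ℝ) ^ 2 + t := by exact_mod_cast hk'
    have h4 : (0 : ℝ) ≤ (t : ℝ) ^ 4 := by positivity
    have hkN : k < N := by
      have : (k : ℝ) < N := by linarith
      exact_mod_cast this
    refine step_ge hm (by linarith) hkN ?_
    have g1 : (k : ℝ) + 1 ≤ (1 + 1 / (t : ℝ) + 1 / (t : ℝ) ^ 2) * (t : ℝ) ^ 3 := by
      have e : (1 + 1 / (t : ℝ) + 1 / (t : ℝ) ^ 2) * (t : ℝ) ^ 3 =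
          (t : ℝ) ^ 3 + (t : ℝ) ^ 2 + t := by field_simp
      rw [e]
      exact hkr'
    have g2 : (N : ℝ) - (t : ℝ) ^ 3 ≤ (1 + 1 / (t : ℝ) ^ 2) * (N - k) := by
      have e : (t : ℝ) ^ 2 + t ≤ 1 / (t : ℝ) ^ 2 * (N - k) := by
        rw [one_div, inv_mul_eq_div, le_div_iff₀ (by positivity)]
        nlinarith
      linarith
    have g3 : (0 : ℝ) ≤ N - (t : ℝ) ^ 3 := by linarith
    have g4 : (0 : ℝ) ≤ N - k := by
      have : (k : ℝ) < N := by exact_mod_cast hkN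
      linarith
    calc ((k : ℝ) + 1) * (N - (t : ℝ) ^ 3)
        ≤ ((1 + 1 / (t : ℝ) + 1 / (t : ℝ) ^ 2) * (t : ℝ) ^ 3) * ((1 + 1 / (t : ℝ) ^ 2) * (N - k)) :=
          mul_le_mul g1 g2 g3 (by positivity)
      _ = (1 + 1 / (t : ℝ) + 1 / (t : ℝ) ^ 2) * (1 + 1 / (t : ℝ) ^ 2) * ((t : ℝ) ^ 3 * (N - k)) := by
          ring
      _ ≤ c * ((t : ℝ) ^ 3 * (N - k)) := mul_le_mul_of_nonneg_right hc2 (by positivity)

/-- below the window the weight does not grow by more than a factor 4 in `t` steps -/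
private lemma bnb_lo {N t : ℕ} (ht : 64 ≤ t) (hN : 100 * t ^ 6 ≤ N) (i : ℕ) (hi : i ≤ t) :
    bw N ((t : ℝ) ^ 3 / N) (t ^ 3 - t ^ 2 + i) ≤ 4 * bw N ((t : ℝ) ^ 3 / N) (t ^ 3 - t ^ 2) := by
  have ht1 : (64 : ℝ) ≤ t := by exact_mod_cast ht
  have ht0 : (0 : ℝ) < t := by linarith
  have ht2 : (0 : ℝ) < (t : ℝ) - 1 := by linarith
  obtain ⟨hs1, hs2⟩ := size ht hN
  have hm : (0 : ℝ) < (t : ℝ) ^ 3 := by positivity
  have hN0 : (0 : ℝ) < N := by linarith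
  have hq0 : 0 ≤ (t : ℝ) ^ 3 / N := by positivity
  have hq1 : (t : ℝ) ^ 3 / N ≤ 1 := by rw [div_le_one hN0]; linarith
  have hd : t ^ 2 + t ≤ t ^ 3 := by
    have e : t ^ 3 = t * t ^ 2 := by ring
    have e' : t ≤ t ^ 2 := by nlinarith
    rw [e]
    nlinarith
  obtain ⟨c, hc⟩ : ∃ c : ℝ, c = Real.exp (1 / ((t : ℝ) - 1) + 1 / (t : ℝ) ^ 2) := ⟨_, rfl⟩
  have hc1 : 1 ≤ c := by rw [hc]; exact Real.one_le_exp (by positivity)
  have hc2 : (1 + 1 / ((t : ℝ) - 1)) * (1 + 1 / (t : ℝ) ^ 2) ≤ c := by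
    rw [hc, Real.exp_add]
    have h1 := Real.add_one_le_exp (1 / ((t : ℝ) - 1))
    have h2 := Real.add_one_le_exp (1 / (t : ℝ) ^ 2)
    have h3 : (0 : ℝ) ≤ 1 / (t : ℝ) ^ 2 := by positivity
    exact mul_le_mul (by linarith) (by linarith) (by linarith) (Real.exp_pos _).le
  have hct : c ^ t ≤ 4 := by
    rw [hc, ← Real.exp_nat_mul]
    have e : (t : ℝ) * (1 / ((t : ℝ) - 1) + 1 / (t : ℝ) ^ 2) =
        1 + (1 / ((t : ℝ) - 1) + 1 / t) := by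
      field_simp
      ring
    rw [e]
    refine exp_small ?_
    have h1 : 1 / ((t : ℝ) - 1) ≤ 1 / 63 :=
      one_div_le_one_div_of_le (by norm_num) (by linarith)
    have h2 : 1 / (t : ℝ) ≤ 1 / 64 := one_div_le_one_div_of_le (by norm_num) ht1
    linarith
  have h := seq_le (f := fun k => bw N ((t : ℝ) ^ 3 / N) k) (fun k => bw_nn hq0 hq1 k) hc1
    (a := t ^ 3 - t ^ 2) (t := t) (fun k hk hk' => ?_) i hi
  · exact h.trans (mul_le_mul_of_nonneg_right hct (bw_nn hq0 hq1 _))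
  · have hk1 : t ^ 3 ≤ k + t ^ 2 := by omega
    have hk3 : t ≤ t ^ 2 := by nlinarith
    have hk2 : k + 1 ≤ t ^ 3 := by omega
    have hkr : (t : ℝ) ^ 3 ≤ k + (t : ℝ) ^ 2 := by exact_mod_cast hk1
    have hkr' : (k : ℝ) + 1 ≤ (t : ℝ) ^ 3 := by exact_mod_cast hk2
    refine step_le hm (by linarith) (by linarith) (fun _ => ?_)
    have g1 : (t : ℝ) ^ 3 ≤ (1 + 1 / ((t : ℝ) - 1)) * ((k : ℝ) + 1) := by
      have e : 1 + 1 / ((t : ℝ) - 1) = t / (t - 1) := by field_simp; ring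
      rw [e, div_mul_eq_mul_div, le_div_iff₀ ht2]
      nlinarith
    have g2 : (N : ℝ) - k ≤ (1 + 1 / (t : ℝ) ^ 2) * (N - (t : ℝ) ^ 3) := by
      have e : (t : ℝ) ^ 2 ≤ 1 / (t : ℝ) ^ 2 * (N - (t : ℝ) ^ 3) := by
        rw [one_div, inv_mul_eq_div, le_div_iff₀ (by positivity)]
        nlinarith
      linarith
    have g3 : (0 : ℝ) ≤ N - k := by linarith
    have g4 : (0 : ℝ) ≤ N - (t : ℝ) ^ 3 := by linarith
    calc (t : ℝ) ^ 3 * (N - k)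
        ≤ ((1 + 1 / ((t : ℝ) - 1)) * ((k : ℝ) + 1)) * ((1 + 1 / (t : ℝ) ^ 2) * (N - (t : ℝ) ^ 3)) :=
          mul_le_mul g1 g2 g3 (by positivity)
      _ = (1 + 1 / ((t : ℝ) - 1)) * (1 + 1 / (t : ℝ) ^ 2) * (((k : ℝ) + 1) * (N - (t : ℝ) ^ 3)) := by
          ring
      _ ≤ c * (((k : ℝ) + 1) * (N - (t : ℝ) ^ 3)) := mul_le_mul_of_nonneg_right hc2 (by positivity)

private lemma bnb_mono {N μ : ℕ} (hμ : 0 < μ) (hN : 2 * μ ≤ N) {k l : ℕ} (hkl : k ≤ l)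
    (hl : l ≤ μ) : bw N ((μ : ℝ) / N) k ≤ bw N ((μ : ℝ) / N) l := by
  induction l, hkl using Nat.le_induction with
  | base => exact le_rfl
  | succ l hkl ih => exact (ih (by omega)).trans (RO.bw_up hμ hN (by omega))

private lemma bnb_anti {N μ : ℕ} (hμ : 0 < μ) (hN : 2 * μ ≤ N) {k l : ℕ} (hk : μ ≤ k)
    (hkl : k ≤ l) : bw N ((μ : ℝ) / N) l ≤ bw N ((μ : ℝ) / N) k := by
  induction l, hkl using Nat.le_induction with
  | base => exact le_rfl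
  | succ l hkl ih => exact (RO.bw_down hμ hN (by omega)).trans ih

private lemma facts {N t : ℕ} (ht : 64 ≤ t) (hN : 100 * t ^ 6 ≤ N) :
    2 * t ^ 3 ≤ N ∧ t ≤ t ^ 2 ∧ 2 * t ^ 2 ≤ t ^ 3 := by
  have e : t ^ 3 = t * t ^ 2 := by ring
  have e6 : t ^ 6 = t ^ 3 * t ^ 3 := by ring
  have h1 : 1 ≤ t ^ 3 := Nat.one_le_pow _ _ (by omega)
  refine ⟨?_, ?_, ?_⟩
  · nlinarith
  · nlinarith
  · rw [e]
    exact Nat.mul_le_mul_right _ (by omega)

theorem bn_min {N t : ℕ} (ht : 64 ≤ t) (h2 : Even t) (hN : 100 * t ^ 6 ≤ N) :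
    t * bw N ((t : ℝ) ^ 3 / N) (t ^ 3 + t ^ 2) ≤
      4 * ∑ k ∈ Ico (t ^ 3 + t ^ 2) (t ^ 3 + t ^ 2 + t),
        min (bw N ((t : ℝ) ^ 3 / N) k) (bw N ((t : ℝ) ^ 3 / N) (k - 2 * t ^ 2)) := by
  obtain ⟨f1, f2, f3⟩ := facts ht hN
  obtain ⟨hr1, hr2⟩ := RO.bw_ratio (N := N) (t := t) (by omega) f1
  have hμ : 0 < t ^ 3 := by positivity
  have hc : ((t ^ 3 : ℕ) : ℝ) = (t : ℝ) ^ 3 := by push_cast; ring
  have mup := @bnb_mono N (t ^ 3) hμ f1
  rw [hc] at mup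
  have key : ∀ k ∈ Ico (t ^ 3 + t ^ 2) (t ^ 3 + t ^ 2 + t), bw N ((t : ℝ) ^ 3 / N) (t ^ 3 + t ^ 2) ≤
      4 * min (bw N ((t : ℝ) ^ 3 / N) k) (bw N ((t : ℝ) ^ 3 / N) (k - 2 * t ^ 2)) := by
    intro k hk
    rw [mem_Ico] at hk
    rw [mul_min_of_nonneg _ _ (by norm_num : (0 : ℝ) ≤ 4)]
    refine le_min ?_ ?_
    · obtain ⟨i, rfl⟩ : ∃ i, k = t ^ 3 + t ^ 2 + i := ⟨k - (t ^ 3 + t ^ 2), by omega⟩
      exact bnb_up ht hN i (by omega)
    · have h1 : bw N ((t : ℝ) ^ 3 / N) (t ^ 3 - t ^ 2) ≤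
          bw N ((t : ℝ) ^ 3 / N) (k - 2 * t ^ 2) := mup (by omega) (by omega)
      have hq : 0 ≤ bw N ((t : ℝ) ^ 3 / N) (k - 2 * t ^ 2) := by
        obtain ⟨hs1, hs2⟩ := size ht hN
        have hm : (0 : ℝ) ≤ (t : ℝ) ^ 3 := by positivity
        have hN0 : (0 : ℝ) < N := by
          have : (0 : ℝ) < (t : ℝ) ^ 3 := by exact_mod_cast hμ
          linarith
        exact bw_nn (by positivity) (by rw [div_le_one hN0]; linarith) _
      linarith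
  have h := Finset.card_nsmul_le_sum _ _ _ key
  rw [Nat.card_Ico, nsmul_eq_mul, ← mul_sum] at h
  have e : t ^ 3 + t ^ 2 + t - (t ^ 3 + t ^ 2) = t := by omega
  rw [e] at h
  exact h

theorem bn_zeta {N t : ℕ} (ht : 64 ≤ t) (h2 : Even t) (hN : 100 * t ^ 6 ≤ N) :
    ∑ k ∈ Ico (t ^ 3 + t ^ 2) (t ^ 3 + t ^ 2 + t),
      (bw N ((t : ℝ) ^ 3 / N) k + bw N ((t : ℝ) ^ 3 / N) (k - 2 * t ^ 2)) ≤
      16 * (t * bw N ((t : ℝ) ^ 3 / N) (t ^ 3 + t ^ 2)) := by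
  obtain ⟨f1, f2, f3⟩ := facts ht hN
  obtain ⟨hr1, hr2⟩ := RO.bw_ratio (N := N) (t := t) (by omega) f1
  have hμ : 0 < t ^ 3 := by positivity
  have hc : ((t ^ 3 : ℕ) : ℝ) = (t : ℝ) ^ 3 := by push_cast; ring
  have mdn := @bnb_anti N (t ^ 3) hμ f1
  rw [hc] at mdn
  have key : ∀ k ∈ Ico (t ^ 3 + t ^ 2) (t ^ 3 + t ^ 2 + t),
      bw N ((t : ℝ) ^ 3 / N) k + bw N ((t : ℝ) ^ 3 / N) (k - 2 * t ^ 2) ≤
      16 * bw N ((t : ℝ) ^ 3 / N) (t ^ 3 + t ^ 2) := by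
    intro k hk
    rw [mem_Ico] at hk
    have h1 : bw N ((t : ℝ) ^ 3 / N) k ≤ bw N ((t : ℝ) ^ 3 / N) (t ^ 3 + t ^ 2) :=
      mdn (by omega) hk.1
    obtain ⟨i, hi⟩ : ∃ i, k - 2 * t ^ 2 = t ^ 3 - t ^ 2 + i ∧ i ≤ t :=
      ⟨k - (t ^ 3 + t ^ 2), by omega, by omega⟩
    have h2 := bnb_lo ht hN i hi.2
    rw [← hi.1] at h2
    have hq : 0 ≤ bw N ((t : ℝ) ^ 3 / N) (t ^ 3 + t ^ 2) := by
      obtain ⟨hs1, hs2⟩ := size ht hN
      have hm : (0 : ℝ) ≤ (t : ℝ) ^ 3 := by positivity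
      have hN0 : (0 : ℝ) < N := by
        have : (0 : ℝ) < (t : ℝ) ^ 3 := by exact_mod_cast hμ
        linarith
      exact bw_nn (by positivity) (by rw [div_le_one hN0]; linarith) _
    linarith
  have h := Finset.sum_le_card_nsmul _ _ _ key
  rw [Nat.card_Ico, nsmul_eq_mul] at h
  have e : t ^ 3 + t ^ 2 + t - (t ^ 3 + t ^ 2) = t := by omega
  rw [e] at h
  linarith

end Pool.Agent.RC
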