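import Mathlib
import Pool.Agent.RO.Binom
import Pool.Agent.RO.BinomB
import Pool.Agent.RO.BinomC

set_option autoImplicit false

/-!
# RC-BnC (job): the binomial distribution in the middle

Notation: `μ = ν²`, `q = μ / N`, `π k = bw N q k`; `π (k+1) / π k = (μ / (k+1)) ((N - k) / (N - μ))` for `k < N` (see the private lemmas `step_le`,
`step_ge` in `Pool/Agent/RO/BinomB.lean`, copy them).

PLAN. Lower bound: Chebyshev (`cheb` in `Pool/Agent/RO/Binom.lean`, the variance is at most `μ`): the sum of `π k` over `|k - μ| < 2 ν` is at least `3/4`; there are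
at most `4 ν` such `k`, and `π μ` is the maximum (`RO.bw_up`, `RO.bw_down`): `π μ ≥ 3 / (16 ν) ≥ 1 / (6 ν)`.
Upper bound: `π μ ≤ (1 + 1.05 / ν) ^ n π (μ + n) ≤ 3 π (μ + n)` for `n ≤ ν`, and the sum over `n = 0, ..., ν - 1` is at most 1: `π μ ≤ 3 / ν`.
`bn_Q`: the product of the ratios from `μ` to `μ + d`: `π (μ + d) * ∏ (1 + (k+1)/μ) = π μ * ∏_{k < d} (N - μ - k) / (N - μ)`, and the last product is
between `1 - d² / (N - μ) ≥ 1/2` and `1`.
-/

namespace Pool.Agent.RC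

open Pool.Agent.RO (bw)
open Finset

private lemma cbw_nn {N : ℕ} {q : ℝ} (hq0 : 0 ≤ q) (hq1 : q ≤ 1) (k : ℕ) : 0 ≤ bw N q k := by
  unfold bw
  have : 0 ≤ 1 - q := by linarith
  positivity

private lemma cbw_rec {N k : ℕ} {m : ℝ} (hk : k < N) :
    bw N (m / N) (k + 1) * (((k : ℝ) + 1) * (N - m)) = bw N (m / N) k * (m * (N - k)) := by
  have hN : (N : ℝ) ≠ 0 := by
    have : 0 < N := by omega
    exact_mod_cast this.ne'
  unfold bw
  have h1 : (N.choose (k + 1) : ℝ) * ((k : ℝ) + 1) = (N.choose k : ℝ) * ((N : ℝ) - k) := by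
    have h := Nat.choose_succ_right_eq N k
    have h' : ((N.choose (k + 1) * (k + 1) : ℕ) : ℝ) = ((N.choose k * (N - k) : ℕ) : ℝ) := by
      exact_mod_cast h
    push_cast [Nat.cast_sub hk.le] at h'
    exact h'
  have h2 : N - k = (N - (k + 1)) + 1 := by omega
  rw [h2, pow_succ, pow_succ]
  have h3 : (m / N) * N = m := by field_simp
  have h4 : (N : ℝ) - m = N * (1 - m / N) := by field_simp
  rw [h4]
  calc (N.choose (k + 1) : ℝ) * ((m / N) ^ k * (m / N)) * (1 - m / N) ^ (N - (k + 1)) *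
        (((k : ℝ) + 1) * (N * (1 - m / N)))
      = ((N.choose (k + 1) : ℝ) * ((k : ℝ) + 1)) * (m / N) ^ k * ((m / N) * N) *
        ((1 - m / N) ^ (N - (k + 1)) * (1 - m / N)) := by ring
    _ = _ := by rw [h1, h3]; ring

private lemma cstep_ge {N k : ℕ} {m c : ℝ} (hm : 0 < m) (hN : m < N) (hk : k < N)
    (h : ((k : ℝ) + 1) * (N - m) ≤ c * (m * (N - k))) :
    bw N (m / N) k ≤ c * bw N (m / N) (k + 1) := by
  have hN0 : (0 : ℝ) < N := by linarith
  have hq0 : 0 ≤ m / N := by positivity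
  have hq1 : m / N ≤ 1 := by rw [div_le_one hN0]; linarith
  have hr := cbw_rec (m := m) hk
  have hE : 0 < m * ((N : ℝ) - k) := by
    have : (0 : ℝ) < (N : ℝ) - k := by
      have : (k : ℝ) < N := by exact_mod_cast hk
      linarith
    positivity
  have hb := cbw_nn (N := N) hq0 hq1 (k + 1)
  by_contra hcon
  push Not at hcon
  have h2 : c * bw N (m / N) (k + 1) * (m * ((N : ℝ) - k)) <
      bw N (m / N) k * (m * ((N : ℝ) - k)) := mul_lt_mul_of_pos_right hcon hE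
  have h3 : bw N (m / N) (k + 1) * (((k : ℝ) + 1) * (N - m)) ≤
      bw N (m / N) (k + 1) * (c * (m * (N - k))) := mul_le_mul_of_nonneg_left h hb
  rw [← hr] at h2
  nlinarith

private theorem cvar {N : ℕ} {q : ℝ} :
    ∑ k ∈ range (N + 1), ((N : ℝ) * q - k) ^ 2 * bw N q k = N * q * (1 - q) := by
  have h := congrArg (Polynomial.eval q) (bernsteinPolynomial.variance ℝ N)
  rw [Polynomial.eval_finsetSum] at h
  simp only [Polynomial.eval_mul, Polynomial.eval_pow, Polynomial.eval_sub,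
    Polynomial.eval_X, Polynomial.eval_natCast, Polynomial.eval_one, bernsteinPolynomial,
    nsmul_eq_mul] at h
  rw [← h]
  refine Finset.sum_congr rfl fun k _ => ?_
  unfold bw
  ring

private theorem ccheb {N : ℕ} {q δ : ℝ} (hq0 : 0 ≤ q) (hq1 : q ≤ 1) (hδ : 0 < δ)
    (S : Finset ℕ) (hS : S ⊆ range (N + 1)) (hd : ∀ k ∈ S, δ ^ 2 ≤ ((N : ℝ) * q - k) ^ 2) :
    ∑ k ∈ S, bw N q k ≤ N * q / δ ^ 2 := by
  have hq2 : 0 ≤ 1 - q := by linarith
  rw [le_div_iff₀ (by positivity), Finset.sum_mul]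
  calc ∑ k ∈ S, bw N q k * δ ^ 2
      ≤ ∑ k ∈ S, ((N : ℝ) * q - k) ^ 2 * bw N q k := by
        refine Finset.sum_le_sum fun k hk => ?_
        rw [mul_comm]
        exact mul_le_mul_of_nonneg_right (hd k hk) (cbw_nn hq0 hq1 k)
    _ ≤ ∑ k ∈ range (N + 1), ((N : ℝ) * q - k) ^ 2 * bw N q k := by
        refine Finset.sum_le_sum_of_subset_of_nonneg hS fun k _ _ => ?_
        exact mul_nonneg (sq_nonneg _) (cbw_nn hq0 hq1 k)
    _ = N * q * (1 - q) := cvar
    _ ≤ N * q := by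
        have : 0 ≤ (N : ℝ) * q := by positivity
        nlinarith

/-- the value at `μ` is the maximum -/
private lemma bw_max {N μ : ℕ} (hμ : 0 < μ) (hN : 2 * μ ≤ N) (k : ℕ) :
    bw N ((μ : ℝ) / N) k ≤ bw N ((μ : ℝ) / N) μ := by
  rcases le_total k μ with h | h
  · obtain ⟨e, rfl⟩ := Nat.exists_eq_add_of_le h
    clear h
    have : ∀ i, i ≤ e → bw N (((k + e : ℕ) : ℝ) / N) k ≤ bw N (((k + e : ℕ) : ℝ) / N) (k + i) := by
      intro i
      induction i with
      | zero => intro _; simp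
      | succ i ih =>
        intro hi
        exact (ih (by omega)).trans (RO.bw_up hμ hN (by omega))
    exact this e le_rfl
  · obtain ⟨e, rfl⟩ := Nat.exists_eq_add_of_le h
    clear h
    induction e with
    | zero => simp
    | succ e ih => exact (RO.bw_down hμ hN (Nat.le_add_right μ e)).trans ih

theorem bn_center {N ν : ℕ} (hν : 8 ≤ ν) (hN : 100 * ν ^ 4 ≤ N) :
    1 ≤ 6 * (ν * bw N ((ν : ℝ) ^ 2 / N) (ν ^ 2)) ∧
      ν * bw N ((ν : ℝ) ^ 2 / N) (ν ^ 2) ≤ 3 := by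
  have hν2 : 64 ≤ ν ^ 2 := by nlinarith
  have hν24 : ν ^ 2 * ν ^ 2 = ν ^ 4 := by ring
  have hle : ν ^ 2 ≤ ν ^ 4 := by nlinarith
  have h2ν : 8 * ν ≤ ν ^ 2 := by nlinarith
  have hμ : 0 < ν ^ 2 := by omega
  have hμN : 2 * ν ^ 2 ≤ N := by omega
  have hνr : (8 : ℝ) ≤ ν := by exact_mod_cast hν
  have hν0 : (0 : ℝ) < ν := by linarith
  have hN0 : (0 : ℝ) < N := by
    have : 0 < N := by omega
    exact_mod_cast this
  have hNr : 100 * (ν : ℝ) ^ 4 ≤ N := by exact_mod_cast hN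
  have hcast : ((ν : ℝ)) ^ 2 = ((ν ^ 2 : ℕ) : ℝ) := by push_cast; ring
  have hμr : (ν : ℝ) ^ 2 ≤ N := by
    rw [hcast]; exact_mod_cast (by omega : ν ^ 2 ≤ N)
  have hμlt : (ν : ℝ) ^ 2 < N := by
    rw [hcast]; exact_mod_cast (by omega : ν ^ 2 < N)
  have hq0 : (0 : ℝ) ≤ (ν : ℝ) ^ 2 / N := by positivity
  have hq1 : (ν : ℝ) ^ 2 / N ≤ 1 := by rw [div_le_one hN0]; exact hμr
  have hNq : (N : ℝ) * ((ν : ℝ) ^ 2 / N) = (ν : ℝ) ^ 2 := by field_simp
  have hmax : ∀ k, bw N ((ν : ℝ) ^ 2 / N) k ≤ bw N ((ν : ℝ) ^ 2 / N) (ν ^ 2) := by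
    intro k
    have h := bw_max hμ hμN k
    rw [← hcast] at h
    exact h
  have htot := RO.sum_bw N ((ν : ℝ) ^ 2 / N)
  constructor
  · have hsub : Ico (ν ^ 2 - 2 * ν) (ν ^ 2 + 2 * ν) ⊆ range (N + 1) := by
      intro k hk
      rw [Finset.mem_Ico] at hk
      rw [Finset.mem_range]
      omega
    rw [← Finset.sum_sdiff hsub] at htot
    have hout : ∑ k ∈ range (N + 1) \ Ico (ν ^ 2 - 2 * ν) (ν ^ 2 + 2 * ν),
        bw N ((ν : ℝ) ^ 2 / N) k ≤ 1 / 4 := by
      refine le_trans (ccheb (δ := 2 * (ν : ℝ)) hq0 hq1 (by positivity) _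
        Finset.sdiff_subset ?_) ?_
      · intro k hk
        rw [hNq]
        rw [Finset.mem_sdiff, Finset.mem_Ico] at hk
        rcases lt_or_ge k (ν ^ 2 - 2 * ν) with h | h
        · have h2 : k + 2 * ν ≤ ν ^ 2 := by omega
          have h3 : (k : ℝ) + 2 * (ν : ℝ) ≤ (ν : ℝ) ^ 2 := by exact_mod_cast h2
          nlinarith
        · have h2 : ν ^ 2 + 2 * ν ≤ k := by
            by_contra hc
            exact hk.2 ⟨h, by omega⟩
          have h3 : (ν : ℝ) ^ 2 + 2 * (ν : ℝ) ≤ (k : ℝ) := by exact_mod_cast h2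
          nlinarith
      · rw [hNq]
        apply le_of_eq
        field_simp
        norm_num
    have hin : ∑ k ∈ Ico (ν ^ 2 - 2 * ν) (ν ^ 2 + 2 * ν), bw N ((ν : ℝ) ^ 2 / N) k ≤
        4 * ν * bw N ((ν : ℝ) ^ 2 / N) (ν ^ 2) := by
      refine (Finset.sum_le_card_nsmul _ _ _ fun k _ => hmax k).trans ?_
      rw [Nat.card_Ico, show ν ^ 2 + 2 * ν - (ν ^ 2 - 2 * ν) = 4 * ν by omega, nsmul_eq_mul]
      push_cast
      exact le_rfl
    linarith
  · have hstep : ∀ i, i < ν → bw N ((ν : ℝ) ^ 2 / N) (ν ^ 2 + i) ≤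
        (1 + 1.05 / ν) * bw N ((ν : ℝ) ^ 2 / N) (ν ^ 2 + (i + 1)) := by
      intro i hi
      rw [← add_assoc]
      refine cstep_ge (by positivity) hμlt (by omega) ?_
      have hir : (i : ℝ) + 1 ≤ ν := by exact_mod_cast hi
      have hi0 : (0 : ℝ) ≤ i := by positivity
      push_cast
      set M : ℝ := (N : ℝ) - ((ν : ℝ) ^ 2 + i) with hM
      have hM1 : 99 * (ν : ℝ) ^ 4 ≤ M := by
        have : (ν : ℝ) ^ 2 + i ≤ (ν : ℝ) ^ 4 := by nlinarith [pow_pos hν0 2, pow_pos hν0 3, sq_nonneg ((ν : ℝ) ^ 2)]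
        linarith
      have hMν : (N : ℝ) - (ν : ℝ) ^ 2 = M + i := by rw [hM]; ring
      rw [hMν]
      have hR : (1 + 1.05 / (ν : ℝ)) * ((ν : ℝ) ^ 2 * M) = ((ν : ℝ) ^ 2 + 1.05 * ν) * M := by
        field_simp
      rw [hR]
      have hM0 : 0 ≤ M := le_trans (by positivity) hM1
      have h1 : ((ν : ℝ) ^ 2 + i + 1) * (M + i) ≤ ((ν : ℝ) ^ 2 + ν) * (M + ν) := by
        apply mul_le_mul (by linarith) (by linarith) (by positivity) (by positivity)
      have h2 : ((ν : ℝ) ^ 2 + ν) * ν ≤ 0.05 * ν * M := by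
        have h3 : ((ν : ℝ) ^ 2 + ν) ≤ 0.05 * M := by
          have : (ν : ℝ) ^ 2 + ν ≤ (ν : ℝ) ^ 4 := by nlinarith [pow_pos hν0 2, pow_pos hν0 3]
          linarith
        nlinarith
      nlinarith
    have hc1 : (1 : ℝ) ≤ 1 + 1.05 / ν := by
      have : (0 : ℝ) ≤ 1.05 / ν := by positivity
      linarith
    have hpow : ∀ n, n ≤ ν → bw N ((ν : ℝ) ^ 2 / N) (ν ^ 2) ≤
        (1 + 1.05 / (ν : ℝ)) ^ n * bw N ((ν : ℝ) ^ 2 / N) (ν ^ 2 + n) := by
      intro n
      induction n with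
      | zero => intro _; simp
      | succ n ih =>
        intro hn
        have h1 := ih (by omega)
        have h2 := hstep n (by omega)
        calc bw N ((ν : ℝ) ^ 2 / N) (ν ^ 2)
            ≤ (1 + 1.05 / (ν : ℝ)) ^ n * bw N ((ν : ℝ) ^ 2 / N) (ν ^ 2 + n) := h1
          _ ≤ (1 + 1.05 / (ν : ℝ)) ^ n *
              ((1 + 1.05 / ν) * bw N ((ν : ℝ) ^ 2 / N) (ν ^ 2 + (n + 1))) :=
            mul_le_mul_of_nonneg_left h2 (by positivity)
          _ = _ := by ring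
    have he : (1 + 1.05 / (ν : ℝ)) ^ ν ≤ 3 := by
      have h1 : 1 + 1.05 / (ν : ℝ) ≤ Real.exp (1.05 / ν) := by
        rw [add_comm]; exact Real.add_one_le_exp _
      have h2 : (1 + 1.05 / (ν : ℝ)) ^ ν ≤ Real.exp 1.05 := by
        calc (1 + 1.05 / (ν : ℝ)) ^ ν ≤ (Real.exp (1.05 / ν)) ^ ν :=
              pow_le_pow_left₀ (by positivity) h1 _
          _ = Real.exp 1.05 := by
              rw [← Real.exp_nat_mul]
              congr 1
              field_simp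
      have h3 : Real.exp 1.05 = Real.exp 1 * Real.exp 0.05 := by
        rw [← Real.exp_add]; norm_num
      have h4 : Real.exp 0.05 ≤ 1 / (1 - 0.05) := by
        rw [le_div_iff₀ (by norm_num)]
        have h5 : (1 : ℝ) - 0.05 ≤ Real.exp (-0.05) := by
          have := Real.add_one_le_exp (-0.05 : ℝ)
          linarith
        calc Real.exp 0.05 * (1 - 0.05) ≤ Real.exp 0.05 * Real.exp (-0.05) :=
              mul_le_mul_of_nonneg_left h5 (Real.exp_pos _).le
          _ = 1 := by rw [← Real.exp_add]; norm_num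
      have h6 := Real.exp_one_lt_d9
      have h7 := Real.exp_pos 0.05
      rw [h3] at h2
      have h8 : Real.exp 1 * Real.exp 0.05 ≤ 2.7182818286 * (1 / (1 - 0.05)) :=
        mul_le_mul h6.le h4 h7.le (by norm_num)
      norm_num at h8
      linarith
    have h3 : ∀ n ∈ range ν, bw N ((ν : ℝ) ^ 2 / N) (ν ^ 2) ≤
        3 * bw N ((ν : ℝ) ^ 2 / N) (ν ^ 2 + n) := by
      intro n hn
      rw [Finset.mem_range] at hn
      refine (hpow n hn.le).trans ?_
      refine mul_le_mul_of_nonneg_right ?_ (cbw_nn hq0 hq1 _)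
      exact (pow_le_pow_right₀ hc1 hn.le).trans he
    have h4 := Finset.sum_le_sum h3
    rw [Finset.sum_const, Finset.card_range, nsmul_eq_mul, ← Finset.mul_sum] at h4
    refine h4.trans ?_
    have h5 : ∑ n ∈ range ν, bw N ((ν : ℝ) ^ 2 / N) (ν ^ 2 + n) ≤ 1 := by
      rw [← htot, ← Finset.sum_image (f := bw N ((ν : ℝ) ^ 2 / N)) (g := fun n => ν ^ 2 + n)
        (s := range ν) (fun a _ b _ hab => by simpa using hab)]
      refine Finset.sum_le_sum_of_subset_of_nonneg ?_ fun k _ _ => cbw_nn hq0 hq1 k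
      intro k hk
      rw [Finset.mem_image] at hk
      obtain ⟨n, hn, rfl⟩ := hk
      rw [Finset.mem_range] at hn ⊢
      omega
    linarith

theorem bn_Q {N μ d : ℕ} (hμ : 0 < μ) (hd : d ≤ μ) (hN : 100 * μ ^ 2 ≤ N) :
    bw N ((μ : ℝ) / N) (μ + d) * ∏ k ∈ range d, (1 + ((k : ℝ) + 1) / μ) ≤
      bw N ((μ : ℝ) / N) μ ∧
    bw N ((μ : ℝ) / N) μ ≤
      2 * (bw N ((μ : ℝ) / N) (μ + d) * ∏ k ∈ range d, (1 + ((k : ℝ) + 1) / μ)) := by
  have hμ0 : (0 : ℝ) < μ := by exact_mod_cast hμ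
  have hμ1 : (1 : ℝ) ≤ μ := by exact_mod_cast hμ
  have hμμ : μ ≤ μ ^ 2 := by nlinarith
  have hNr : 100 * (μ : ℝ) ^ 2 ≤ N := by exact_mod_cast hN
  have hN0 : (0 : ℝ) < N := by nlinarith
  have hdr : (d : ℝ) ≤ μ := by exact_mod_cast hd
  have hL : (0 : ℝ) < N - μ := by nlinarith
  have hLr : 99 * (μ : ℝ) ^ 2 ≤ N - μ := by nlinarith
  have hq0 : (0 : ℝ) ≤ (μ : ℝ) / N := by positivity
  have hq1 : (μ : ℝ) / N ≤ 1 := by rw [div_le_one hN0]; linarith
  have hP0 : ∀ e, 0 ≤ ∏ k ∈ range e, (1 + ((k : ℝ) + 1) / μ) := fun e =>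
    Finset.prod_nonneg fun k _ => by positivity
  have hπ0 := cbw_nn (N := N) hq0 hq1
  have key : ∀ e, e ≤ d →
      bw N ((μ : ℝ) / N) (μ + e) * ∏ k ∈ range e, (1 + ((k : ℝ) + 1) / μ) ≤
        bw N ((μ : ℝ) / N) μ ∧
      bw N ((μ : ℝ) / N) μ * (1 - e * d / (N - μ)) ≤
        bw N ((μ : ℝ) / N) (μ + e) * ∏ k ∈ range e, (1 + ((k : ℝ) + 1) / μ) := by
    intro e
    induction e with
    | zero => intro _; simp
    | succ e ih =>
      intro he
      obtain ⟨i1, i2⟩ := ih (by omega)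
      have hr := cbw_rec (m := (μ : ℝ)) (show μ + e < N by omega)
      have her : (e : ℝ) + 1 ≤ d := by exact_mod_cast he
      have he0 : (0 : ℝ) ≤ e := by positivity
      push_cast at hr
      have hs : bw N ((μ : ℝ) / N) (μ + (e + 1)) * (1 + ((e : ℝ) + 1) / μ) =
          bw N ((μ : ℝ) / N) (μ + e) * (1 - e / (N - μ)) := by
        rw [← add_assoc]
        have hL' : (N : ℝ) - μ ≠ 0 := hL.ne'
        have e1 : (1 + ((e : ℝ) + 1) / μ) = (μ + e + 1) * (N - μ) / (μ * (N - μ)) := by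
          field_simp
          ring
        have e2 : (1 - (e : ℝ) / (N - μ)) = μ * (N - (μ + e)) / (μ * (N - μ)) := by
          field_simp
          ring
        rw [e1, e2, ← mul_div_assoc, ← mul_div_assoc, hr]
      rw [Finset.prod_range_succ]
      have hs' : bw N ((μ : ℝ) / N) (μ + (e + 1)) *
          ((∏ k ∈ range e, (1 + ((k : ℝ) + 1) / μ)) * (1 + ((e : ℝ) + 1) / μ)) =
          (bw N ((μ : ℝ) / N) (μ + e) * ∏ k ∈ range e, (1 + ((k : ℝ) + 1) / μ)) *
            (1 - e / (N - μ)) := by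
        calc _ = (bw N ((μ : ℝ) / N) (μ + (e + 1)) * (1 + ((e : ℝ) + 1) / μ)) *
              ∏ k ∈ range e, (1 + ((k : ℝ) + 1) / μ) := by ring
          _ = _ := by rw [hs]; ring
      rw [hs']
      set A := bw N ((μ : ℝ) / N) (μ + e) * ∏ k ∈ range e, (1 + ((k : ℝ) + 1) / μ) with hA
      have hA0 : 0 ≤ A := mul_nonneg (hπ0 _) (hP0 e)
      have hx0 : (0 : ℝ) ≤ e / (N - μ) := by positivity
      have hx1 : (e : ℝ) / (N - μ) ≤ d / (N - μ) :=
        div_le_div_of_nonneg_right (by linarith) hL.le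
      have hx2 : (d : ℝ) / (N - μ) ≤ 1 := by
        rw [div_le_one hL]; nlinarith
      have hd0 : (0 : ℝ) ≤ d / (N - μ) := by positivity
      constructor
      · nlinarith
      · have hB := hπ0 μ
        have e3 : ((e + 1 : ℕ) : ℝ) * d / (N - μ) = e * d / (N - μ) + d / (N - μ) := by
          push_cast; ring
        rw [e3]
        set B := bw N ((μ : ℝ) / N) μ
        set y := (d : ℝ) / (N - μ)
        have hy : (e : ℝ) * d / (N - μ) = e * y := by simp only [y]; ring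
        rw [hy] at i2 ⊢
        have h1 : B * (1 - e * y) * (1 - y) ≤ A * (1 - y) :=
          mul_le_mul_of_nonneg_right i2 (by linarith)
        have h2 : A * (1 - y) ≤ A * (1 - e / (N - μ)) :=
          mul_le_mul_of_nonneg_left (by linarith) hA0
        have h3 : 0 ≤ B * (e * y * y) := by positivity
        nlinarith
  obtain ⟨k1, k2⟩ := key d le_rfl
  refine ⟨k1, ?_⟩
  have hdd : (d : ℝ) * d / (N - μ) ≤ 1 / 2 := by
    rw [div_le_iff₀ hL]
    have : (d : ℝ) * d ≤ (μ : ℝ) ^ 2 := by nlinarith [show (0 : ℝ) ≤ d by positivity]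
    nlinarith
  have hB := hπ0 μ
  nlinarith

end Pool.Agent.RC
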