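import Mathlib
import Pool.Agent.RC.BnC
import Pool.Agent.RC.Lq

set_option autoImplicit false

/-!
# RC-BnX (job): the size of `x = 4^c * bw N q (64^c + 16^c)`

PLAN. `μ = 64^c = ν²` with `ν = 8^c`, `d = 16^c`, `Q = ∏_{k < d} (1 + (k+1)/μ)`.  `bn_Q`: `π(μ+d) Q ≤ π(μ) ≤ 2 π(μ+d) Q`; `bn_center`: `1 ≤ 6 ν π(μ)`, `ν π(μ) ≤ 3`;
`lq_le`, `lq_ge`: `2^lq ≤ Q ≤ 3 * 2^lq`; `4^c * 2^c = 8^c = ν`.  So `2^(c + lq) x = ν 2^lq π(μ+d) ≤ ν Q π(μ+d) ≤ ν π(μ) ≤ 3` and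
`36 * 2^(c + lq) x ≥ 12 ν Q π(μ+d) ≥ 6 ν π(μ) ≥ 1`.
-/

namespace Pool.Agent.RC

open Pool.Agent.RO (bw)
open Finset

theorem bn_x {N c : ℕ} (hc : 1 ≤ c) (hN : 100 * 4096 ^ c ≤ N) :
    1 ≤ 36 * ((2 : ℝ) ^ (c + lq c) * (4 ^ c * bw N ((64 : ℝ) ^ c / N) (64 ^ c + 16 ^ c))) ∧
      (2 : ℝ) ^ (c + lq c) * (4 ^ c * bw N ((64 : ℝ) ^ c / N) (64 ^ c + 16 ^ c)) ≤ 3 := by
  have hν : 8 ≤ 8 ^ c := Nat.le_self_pow (by omega) 8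
  have e1 : (8 ^ c) ^ 4 = 4096 ^ c := by rw [← pow_mul, mul_comm, pow_mul]; norm_num
  have e2 : (64 ^ c) ^ 2 = 4096 ^ c := by rw [← pow_mul, mul_comm, pow_mul]; norm_num
  have e3 : (8 ^ c) ^ 2 = 64 ^ c := by rw [← pow_mul, mul_comm, pow_mul]; norm_num
  have e4 : (((8 ^ c : ℕ) : ℝ)) ^ 2 = (64 : ℝ) ^ c := by exact_mod_cast e3
  have e5 : (((64 ^ c : ℕ) : ℝ)) = (64 : ℝ) ^ c := by push_cast; rfl
  have e6 : (2 : ℝ) ^ c * 4 ^ c = ((8 ^ c : ℕ) : ℝ) := by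
    rw [← mul_pow]; push_cast; norm_num
  have hC := bn_center (N := N) (ν := 8 ^ c) hν (by rw [e1]; exact hN)
  have hQ := bn_Q (N := N) (μ := 64 ^ c) (d := 16 ^ c) (by positivity)
    (Nat.pow_le_pow_left (by norm_num) c) (by rw [e2]; exact hN)
  have hL1 := lq_le c
  have hL2 := lq_ge c
  rw [e4, e3] at hC
  rw [e5] at hQ hL1 hL2
  obtain ⟨h3, h4⟩ := hC
  obtain ⟨h1, h2⟩ := hQ
  have hN1 : (64 : ℝ) ^ c ≤ N := by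
    have h : 64 ^ c ≤ N := by
      calc 64 ^ c ≤ 4096 ^ c := Nat.pow_le_pow_left (by norm_num) c
        _ ≤ 100 * 4096 ^ c := by omega
        _ ≤ N := hN
    exact_mod_cast h
  have hN0 : (0 : ℝ) < N := lt_of_lt_of_le (by positivity) hN1
  have hB : 0 ≤ bw N ((64 : ℝ) ^ c / N) (64 ^ c + 16 ^ c) := by
    unfold Pool.Agent.RO.bw
    have hq : 0 ≤ 1 - (64 : ℝ) ^ c / N := by
      rw [sub_nonneg, div_le_one hN0]; exact hN1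
    positivity
  have hν0 : (0 : ℝ) ≤ ((8 ^ c : ℕ) : ℝ) := by positivity
  generalize bw N ((64 : ℝ) ^ c / N) (64 ^ c + 16 ^ c) = B at *
  generalize bw N ((64 : ℝ) ^ c / N) (64 ^ c) = P at *
  generalize ∏ k ∈ range (16 ^ c), (1 + ((k : ℝ) + 1) / (64 : ℝ) ^ c) = Q at *
  have e7 : (2 : ℝ) ^ (c + lq c) * (4 ^ c * B) = ((8 ^ c : ℕ) : ℝ) * (B * (2 : ℝ) ^ lq c) := by
    rw [pow_add, ← e6]; ring
  rw [e7]
  have h5 : B * (2 : ℝ) ^ lq c ≤ B * Q := mul_le_mul_of_nonneg_left hL1 hB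
  have h6 : B * Q ≤ 3 * (B * (2 : ℝ) ^ lq c) := by
    calc B * Q ≤ B * (3 * (2 : ℝ) ^ lq c) := mul_le_mul_of_nonneg_left hL2 hB
      _ = 3 * (B * (2 : ℝ) ^ lq c) := by ring
  constructor
  · have h7 : P ≤ 6 * (B * (2 : ℝ) ^ lq c) := by linarith
    have h8 := mul_le_mul_of_nonneg_left h7 hν0
    calc (1 : ℝ) ≤ 6 * (((8 ^ c : ℕ) : ℝ) * P) := h3
      _ ≤ 6 * (((8 ^ c : ℕ) : ℝ) * (6 * (B * (2 : ℝ) ^ lq c))) :=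
          mul_le_mul_of_nonneg_left h8 (by norm_num)
      _ = 36 * (((8 ^ c : ℕ) : ℝ) * (B * (2 : ℝ) ^ lq c)) := by ring
  · exact (mul_le_mul_of_nonneg_left (h5.trans h1) hν0).trans h4

end Pool.Agent.RC
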