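import Mathlib
import Pool.Agent.RC.Rk

set_option autoImplicit false

/-!
# RC-Inc (job): inclusion and exclusion

PLAN. For a point `x` let `n(x) = #{i | (x i).1 ∈ Z}`, a natural number; `n - n (n - 1) / 2 ≤ 1`, so
`ind (Φ (Gx x)) ≥ ind (Φ (Gx x)) * n(x) - n(x) (n(x) - 1) / 2`.  Expectations: `n(x) = ∑_i g ((x i).1)`, `g h = if h ∈ Z then 1 else 0`, and `rk_ind` gives
`EI (ind Φ * n) = ∑_i ∑_{h ≤ N} bw h * (g h * rk h) = ∑_i ∑_{k ∈ Z} bw k * rk k` (`hZ`); `n (n - 1) = ∑_{i ≠ i'} g (x i) g (x i')`, whose expectation is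
`W (W - 1) ζ² ≤ (W ζ)²`, `ζ = ∑_{k ∈ Z} bw k` (`EI_two`; `∑_ξ wX q ξ * g ξ.1 = ζ`: `wX_fr` with `Φ = True`, `fr h True = 1` for `h ≤ N`).
`EI_out`: the union bound: `ind (∃ i, (x i).1 ∈ Z) ≤ ∑_i g ((x i).1)`.
-/

namespace Pool.Agent.RC

open Pool.Agent.RO (pr fr pre bw)

variable {I Λ : Type} [Fintype I] [DecidableEq I] [Fintype Λ] [DecidableEq Λ] [Nonempty Λ]

private theorem inc_fr {h : ℕ} (hh : h ≤ Fintype.card Λ) : fr h (fun _ : Finset Λ => True) = 1 := by
  classical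
  unfold fr
  rw [Finset.filter_true, Finset.card_powersetCard, Finset.card_univ]
  have : 0 < (Fintype.card Λ).choose h := Nat.choose_pos hh
  have h2 : (((Fintype.card Λ).choose h : ℕ) : ℝ) ≠ 0 := by exact_mod_cast this.ne'
  exact div_self h2

private theorem inc_wX (q : ℝ) (g : ℕ → ℝ) : ∑ ξ : Xi Λ, wX q ξ * g (ξ.1 : ℕ) =
    ∑ h ∈ Finset.range (Fintype.card Λ + 1), bw (Fintype.card Λ) q h * g h := by
  have h1 := wX_fr (Λ := Λ) q g (fun _ => True)
  have h2 : ∀ ξ : Xi Λ, wX q ξ * (g (ξ.1 : ℕ) * ind True) = wX q ξ * g (ξ.1 : ℕ) := by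
    intro ξ
    unfold ind
    rw [if_pos trivial, mul_one]
  rw [Finset.sum_congr rfl fun ξ _ => h2 ξ] at h1
  rw [h1]
  refine Finset.sum_congr rfl fun h hh => ?_
  rw [Finset.mem_range] at hh
  rw [inc_fr (by omega), mul_one]

theorem inc {q : ℝ} (hq0 : 0 ≤ q) (hq1 : q ≤ 1) (Φ : (I → Finset Λ) → Prop) (Z : Finset ℕ)
    (hZ : ∀ k ∈ Z, k ≤ Fintype.card Λ) :
    ∑ i : I, ∑ k ∈ Z, bw (Fintype.card Λ) q k * rk q Φ i k -
      ((Fintype.card I : ℝ) * ∑ k ∈ Z, bw (Fintype.card Λ) q k) ^ 2 / 2 ≤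
      EI (wX q) (fun x : I → Xi Λ => ind (Φ (Gx x))) := by
  classical
  set g : ℕ → ℝ := fun k => if k ∈ Z then 1 else 0 with hg
  have hg01 : ∀ k, g k * g k = g k := by
    intro k
    simp only [hg]
    split_ifs <;> norm_num
  have hsumg : ∀ r : ℕ → ℝ, ∑ h ∈ Finset.range (Fintype.card Λ + 1),
      bw (Fintype.card Λ) q h * (g h * r h) = ∑ k ∈ Z, bw (Fintype.card Λ) q k * r k := by
    intro r
    have h1 : Z = (Finset.range (Fintype.card Λ + 1)).filter (fun k => k ∈ Z) := by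
      ext k
      rw [Finset.mem_filter, Finset.mem_range]
      constructor
      · intro h
        exact ⟨by have := hZ k h; omega, h⟩
      · exact fun h => h.2
    conv_rhs => rw [h1, Finset.sum_filter]
    refine Finset.sum_congr rfl fun k _ => ?_
    simp only [hg]
    split_ifs <;> simp
  have hζ : ∑ ξ : Xi Λ, wX q ξ * g (ξ.1 : ℕ) = ∑ k ∈ Z, bw (Fintype.card Λ) q k := by
    rw [inc_wX q g]
    have h2 := hsumg (fun _ => 1)
    simp only [mul_one] at h2
    exact h2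
  set ζ : ℝ := ∑ k ∈ Z, bw (Fintype.card Λ) q k with hζd
  have hζ0 : 0 ≤ ζ := Finset.sum_nonneg fun k _ => Pool.Agent.RO.bw_nonneg hq0 hq1 k
  -- the number of windows and the number of pairs
  set n : (I → Xi Λ) → ℝ := fun x => ∑ i, g ((x i).1 : ℕ) with hn
  set off : (I → Xi Λ) → ℝ := fun x => ∑ i, ∑ i' ∈ Finset.univ.erase i,
    g ((x i).1 : ℕ) * g ((x i').1 : ℕ) with hoff
  have hno : ∀ x, off x = n x * n x - n x := by
    intro x
    have h1 : n x * n x = ∑ i, g ((x i).1 : ℕ) * n x := by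
      simp only [hn]
      rw [Finset.sum_mul]
    have h2 : ∀ i : I, g ((x i).1 : ℕ) * n x = g ((x i).1 : ℕ) + ∑ i' ∈ Finset.univ.erase i,
        g ((x i).1 : ℕ) * g ((x i').1 : ℕ) := by
      intro i
      have h3 : n x = g ((x i).1 : ℕ) + ∑ i' ∈ Finset.univ.erase i, g ((x i').1 : ℕ) := by
        exact (Finset.add_sum_erase Finset.univ (fun i' : I => g ((x i').1 : ℕ))
          (Finset.mem_univ i)).symm
      rw [h3, mul_add, hg01, Finset.mul_sum]
    rw [h1, Finset.sum_congr rfl fun i _ => h2 i, Finset.sum_add_distrib]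
    simp only [hoff, hn]
    ring
  have hnat : ∀ x, ∃ m : ℕ, n x = m := by
    intro x
    refine ⟨(Finset.univ.filter fun i : I => ((x i).1 : ℕ) ∈ Z).card, ?_⟩
    simp only [hn, hg]
    rw [Finset.sum_ite, Finset.sum_const_zero, add_zero, Finset.sum_const, nsmul_eq_mul, mul_one]
  have hpt : ∀ x : I → Xi Λ, (∑ i, g ((x i).1 : ℕ) * ind (Φ (Gx x))) + (-(1 / 2)) * off x ≤
      ind (Φ (Gx x)) := by
    intro x
    rw [← Finset.sum_mul]
    have e : (∑ i, g ((x i).1 : ℕ)) = n x := rfl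
    rw [e, hno x]
    obtain ⟨m, hm⟩ := hnat x
    rw [hm]
    have hm1 : (m : ℝ) ≤ (m : ℝ) * m := by
      rcases Nat.eq_zero_or_pos m with h | h
      · rw [h]; simp
      · have : (1 : ℝ) ≤ m := by exact_mod_cast h
        nlinarith
    have hm2 : 0 ≤ ((m : ℝ) - 1) * ((m : ℝ) - 2) := by
      rcases Nat.lt_or_ge m 2 with h | h
      · have h5 : (m : ℝ) ≤ 1 := by exact_mod_cast (by omega : m ≤ 1)
        nlinarith
      · have h5 : (2 : ℝ) ≤ m := by exact_mod_cast h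
        nlinarith
    unfold ind
    split_ifs
    · nlinarith
    · nlinarith
  have hmono := EI_mono (w := wX q) (I := I) (fun ξ => wX_nonneg hq0 hq1 ξ) hpt
  refine le_trans ?_ hmono
  rw [EI_add, EI_mul, EI_sum]
  have e1 : ∑ i : I, EI (wX q) (fun x : I → Xi Λ => g ((x i).1 : ℕ) * ind (Φ (Gx x))) =
      ∑ i : I, ∑ k ∈ Z, bw (Fintype.card Λ) q k * rk q Φ i k := by
    refine Finset.sum_congr rfl fun i _ => ?_
    rw [rk_ind q Φ i g, hsumg]
  have e2 : EI (wX q) off ≤ ((Fintype.card I : ℝ) * ζ) ^ 2 := by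
    simp only [hoff]
    rw [EI_sum]
    have h3 : ∀ i ∈ (Finset.univ : Finset I), EI (wX q) (fun x : I → Xi Λ =>
        ∑ i' ∈ Finset.univ.erase i, g ((x i).1 : ℕ) * g ((x i').1 : ℕ)) ≤
        (Fintype.card I : ℝ) * (ζ * ζ) := by
      intro i _
      rw [EI_sum]
      have h4 : ∀ i' ∈ Finset.univ.erase i, EI (wX q) (fun x : I → Xi Λ =>
          g ((x i).1 : ℕ) * g ((x i').1 : ℕ)) = ζ * ζ := by
        intro i' hi'
        rw [EI_two (wX_sum q) (Finset.ne_of_mem_erase hi').symm (fun ξ : Xi Λ => g (ξ.1 : ℕ))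
          (fun ξ : Xi Λ => g (ξ.1 : ℕ)), hζ]
      rw [Finset.sum_congr rfl h4, Finset.sum_const, nsmul_eq_mul]
      refine mul_le_mul_of_nonneg_right ?_ (mul_nonneg hζ0 hζ0)
      have : (Finset.univ.erase i).card ≤ Fintype.card I := by
        rw [← Finset.card_univ]
        exact Finset.card_le_card (Finset.erase_subset _ _)
      exact_mod_cast this
    refine le_trans (Finset.sum_le_sum h3) (le_of_eq ?_)
    rw [Finset.sum_const, Finset.card_univ, nsmul_eq_mul]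
    ring
  rw [e1]
  linarith

open Classical in
theorem EI_out {q : ℝ} (hq0 : 0 ≤ q) (hq1 : q ≤ 1) (c : ℕ → Prop) :
    EI (wX q) (fun x : I → Xi Λ => ind (∃ i, c (Gx x i).card)) ≤
      (Fintype.card I : ℝ) * ∑ k ∈ (Finset.range (Fintype.card Λ + 1)).filter c,
        bw (Fintype.card Λ) q k := by
  have h1 : ∀ x : I → Xi Λ, ind (∃ i, c (Gx x i).card) ≤ ∑ i, ind (c ((x i).1 : ℕ)) := by
    intro x
    have hc : ∀ i, (Gx x i).card = ((x i).1 : ℕ) := by
      intro i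
      unfold Gx Hs
      exact Pool.Agent.RO.card_pre (by have := (x i).1.2; omega) _
    have h0 : ∀ i : I, 0 ≤ ind (c ((x i).1 : ℕ)) := by
      intro i
      unfold ind
      split_ifs <;> norm_num
    by_cases h : ∃ i, c (Gx x i).card
    · obtain ⟨i, hi⟩ := h
      have h2 : ind (∃ i, c (Gx x i).card) = 1 := if_pos ⟨i, hi⟩
      rw [hc i] at hi
      have h3 : ind (c ((x i).1 : ℕ)) = 1 := if_pos hi
      rw [h2, ← h3]
      exact Finset.single_le_sum (f := fun i : I => ind (c ((x i).1 : ℕ))) (fun i _ => h0 i)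
        (Finset.mem_univ i)
    · have h2 : ind (∃ i, c (Gx x i).card) = 0 := if_neg h
      rw [h2]
      exact Finset.sum_nonneg fun i _ => h0 i
  refine le_trans (EI_mono (fun ξ => wX_nonneg hq0 hq1 ξ) h1) (le_of_eq ?_)
  rw [EI_sum]
  have h2 : ∀ i ∈ (Finset.univ : Finset I), EI (wX q) (fun x : I → Xi Λ => ind (c ((x i).1 : ℕ))) =
      ∑ k ∈ (Finset.range (Fintype.card Λ + 1)).filter c, bw (Fintype.card Λ) q k := by
    intro i _
    rw [EI_coord (wX_sum q) i (fun ξ : Xi Λ => ind (c (ξ.1 : ℕ))), inc_wX q (fun k => ind (c k)),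
      Finset.sum_filter]
    refine Finset.sum_congr rfl fun k _ => ?_
    unfold ind
    split_ifs <;> simp
  rw [Finset.sum_congr rfl h2, Finset.sum_const, Finset.card_univ, nsmul_eq_mul]

end Pool.Agent.RC
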