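import Mathlib
import Pool.Agent.RC.AdvM
import Pool.Agent.RC.Inc
import Pool.Agent.RC.BnA
import Pool.Agent.RC.BnB
import Pool.Agent.RC.BnX

set_option autoImplicit false

/-!
# RC-CoR (job): the core lemma, real numbers

PLAN.  `N = card Λ`, `W = card I`, `t = 4^c`, `μ = t³ = 64^c`, `d = t² = 16^c`, `j = 2 d`, `x₀ = t * bw N q (μ + d)`, `X = W * x₀`.
By `bn_x` (and `hI`, `hg`: `W * 2^(l+13) = 2^(c + lq c)`): `1 ≤ 36 * 2^(l+13) * X` and `2^(l+13) * X ≤ 3`.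
* `EI (ind Out) ≤ W * ∑_{outside} bw ≤ 5 X`: `EI_out` and `bn_out`.
* Let `EI (ind FlA) ≤ 1/4`.  For each `k ∈ Z := Ico (μ + d) (μ + d + t)` apply `adv_main` with `h₁ = μ - d/2`, `h₂ = μ + d/2`, `m = a + 8`, `r = 16 (a + 8)` (`j ≤ h₁`, `h₂ ≤ k`,
  `k ≤ h₁ + j = μ + 3d/2`; `bn_typ` for `htyp`; `hV`: `card V ≤ 2^a`, and `(1 + ε)^r ≤ exp (ε r) ≤ 3 ≤ 4` because
  `ε r = 8 (j P + h₂²) / N * 16 (a + 8) ≤ 1` by `hN`; so it is `≤ 4 / 2^8 = 1/64`).  So `∑_i (rk i k + rk i (k - j)) ≥ W / 2`, and with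
  `m_k = min (bw k) (bw (k - j))`: `∑_i (bw k * rk i k + bw (k-j) * rk i (k-j)) ≥ m_k W / 2`.  Sum over `k ∈ Z` and `bn_min`:
  `∑_i ∑_{k ∈ Z ∪ (Z - j)} bw k * rk i k ≥ (W / 2) (x₀ / 4) = X / 8` (`Z` and `Z - j = Ico (μ - d) (μ - d + t)` are disjoint).  `inc` for the set `Z ∪ (Z - j)` and
  `bn_zeta`: `EI (ind Iv) ≥ X / 8 - (16 X)² / 2 = X / 8 - 128 X² ≥ X / 16`, because `X ≤ 3 / 2^(l+13) ≤ 3 / 2^13 ≤ 1 / 2^11`.
-/

namespace Pool.Agent.RC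

open Pool.Agent.RO (pr fr pre AA Cert bw)

variable {I Λ V : Type} [Fintype I] [DecidableEq I] [Fintype Λ] [DecidableEq Λ] [Fintype V]

private theorem nat_facts {t : ℕ} (ht : 64 ≤ t) :
    64 * t ^ 2 ≤ t ^ 3 ∧ 64 * t ≤ t ^ 2 ∧ 64 ≤ t ^ 2 := by
  have h1 : 64 * t ^ 2 ≤ t ^ 3 := by
    have : t ^ 3 = t * t ^ 2 := by ring
    rw [this]
    exact Nat.mul_le_mul_right _ ht
  have h2 : 64 * t ≤ t ^ 2 := by
    have : t ^ 2 = t * t := by ring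
    rw [this]
    exact Nat.mul_le_mul_right _ ht
  exact ⟨h1, h2, by omega⟩

private theorem eight_le (a P : ℕ) : 8 ≤ (a + 8) * (P + 1) := by
  calc 8 = 8 * 1 := by norm_num
    _ ≤ (a + 8) * (P + 1) := Nat.mul_le_mul (by omega) (by omega)

private theorem hund_le (a P x N : ℕ) (hN : 1024 * ((a + 8) * (P + 1)) * x ≤ N) :
    100 * x ≤ N := by
  have h := Nat.mul_le_mul_right x (eight_le a P)
  have e : 1024 * ((a + 8) * (P + 1)) * x = 1024 * (((a + 8) * (P + 1)) * x) := by ring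
  rw [e] at hN
  omega

private theorem w_le (a P W : ℕ) (hW : 4000 * ((a + 8) * (P + 1)) ≤ W) :
    192 * P * (16 * (a + 8)) + 2 ≤ W ∧ 16 * (a + 8) ≤ W := by
  have e : (a + 8) * (P + 1) = P * (a + 8) + (a + 8) := by ring
  rw [e] at hW
  have e2 : 192 * P * (16 * (a + 8)) = 3072 * (P * (a + 8)) := by ring
  rw [e2]
  omega

private theorem pow_bound_aux {A N r : ℕ} (hN : 0 < N) (h : 8 * A * r ≤ N) :
    (1 + 8 * (A : ℝ) / (N : ℝ)) ^ r ≤ 4 := by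
  have hNpos : (0 : ℝ) < N := by exact_mod_cast hN
  have hεr : (r : ℝ) * (8 * (A : ℝ) / (N : ℝ)) ≤ 1 := by
    rw [mul_div_assoc', div_le_one hNpos]
    have h4 : ((8 * A * r : ℕ) : ℝ) ≤ (N : ℝ) := by exact_mod_cast h
    push_cast at h4
    linarith
  have hε0 : 0 ≤ 8 * (A : ℝ) / (N : ℝ) := by positivity
  generalize 8 * (A : ℝ) / (N : ℝ) = ε at hεr hε0 ⊢
  have h5 : (1 + ε) ^ r ≤ Real.exp ε ^ r := by
    apply pow_le_pow_left₀ (by linarith)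
    rw [add_comm]
    exact Real.add_one_le_exp ε
  have h6 : Real.exp ε ^ r = Real.exp ((r : ℝ) * ε) := by
    rw [← Real.exp_nat_mul]
  rw [h6] at h5
  have h7 : Real.exp ((r : ℝ) * ε) ≤ Real.exp 1 := Real.exp_le_exp.2 hεr
  have h8 := Real.exp_one_lt_d9
  linarith

private theorem pow_bound {t a P N h₂ j : ℕ} (ht : 64 ≤ t) (hj : j = 2 * t ^ 2)
    (hh : h₂ = t ^ 3 + t ^ 2 / 2) (hN : 1024 * ((a + 8) * (P + 1)) * t ^ 6 ≤ N) :
    (1 + 8 * ((j : ℝ) * P + (h₂ : ℝ) ^ 2) / (N : ℝ)) ^ (16 * (a + 8)) ≤ 4 := by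
  obtain ⟨f1, f2, f3⟩ := nat_facts ht
  have h36 : t ^ 2 ≤ t ^ 6 := Nat.pow_le_pow_right (by omega) (by norm_num)
  have h100 := hund_le a P _ _ hN
  have hnat : 8 * (j * P + h₂ ^ 2) * (16 * (a + 8)) ≤ N := by
    refine le_trans ?_ hN
    have hh2 : h₂ ≤ 2 * t ^ 3 := by omega
    have hh3 : h₂ ^ 2 ≤ 4 * t ^ 6 := by
      calc h₂ ^ 2 ≤ (2 * t ^ 3) ^ 2 := Nat.pow_le_pow_left hh2 2
        _ = 4 * t ^ 6 := by ring
    have hjP : j * P ≤ 2 * (P * t ^ 6) := by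
      rw [hj]
      calc 2 * t ^ 2 * P = 2 * (P * t ^ 2) := by ring
        _ ≤ 2 * (P * t ^ 6) := Nat.mul_le_mul_left _ (Nat.mul_le_mul_left _ h36)
    have h3 : j * P + h₂ ^ 2 ≤ 8 * (P * t ^ 6 + t ^ 6) := by omega
    calc 8 * (j * P + h₂ ^ 2) * (16 * (a + 8)) ≤ 8 * (8 * (P * t ^ 6 + t ^ 6)) * (16 * (a + 8)) :=
          Nat.mul_le_mul_right _ (Nat.mul_le_mul_left _ h3)
      _ = 1024 * ((a + 8) * (P + 1)) * t ^ 6 := by ring
  have h := pow_bound_aux (A := j * P + h₂ ^ 2) (N := N) (r := 16 * (a + 8)) (by omega) hnat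
  push_cast at h
  exact h

private theorem adv_k {op : Λ → Λ → Λ} (hop1 : ∀ x y, op x y = op y x)
    (hop2 : ∀ x y, op x (op x y) = y) {t a P j : ℕ} (ht : 64 ≤ t) (h2 : Even t)
    (hj : j = 2 * t ^ 2) (hV : Fintype.card V ≤ 2 ^ a)
    (hW : 4000 * ((a + 8) * (P + 1)) ≤ Fintype.card I)
    (hN : 1024 * ((a + 8) * (P + 1)) * t ^ 6 ≤ Fintype.card Λ)
    {α β : V → I → (Fin j ↪ Λ) → (I → Finset Λ) → Prop} (hα : Cer P α) (hβ : Cer P β)
    (hFl : EI (wX ((t : ℝ) ^ 3 / Fintype.card Λ))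
      (fun x : I → Xi Λ => ind (FlA op α β (Gx x))) ≤ 1 / 4)
    (hq0 : 0 ≤ (t : ℝ) ^ 3 / Fintype.card Λ) (hq1 : (t : ℝ) ^ 3 / Fintype.card Λ ≤ 1)
    {k : ℕ} (hk : k ∈ Finset.Ico (t ^ 3 + t ^ 2) (t ^ 3 + t ^ 2 + t)) :
    (Fintype.card I : ℝ) / 2 ≤ ∑ i : I, (rk ((t : ℝ) ^ 3 / Fintype.card Λ) (Iv α β) i k +
      rk ((t : ℝ) ^ 3 / Fintype.card Λ) (Iv α β) i (k - j)) := by
  obtain ⟨f1, f2, f3⟩ := nat_facts ht
  rw [Finset.mem_Ico] at hk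
  have h36 : t ^ 3 ≤ t ^ 6 := Nat.pow_le_pow_right (by omega) (by norm_num)
  have h100 : 100 * t ^ 6 ≤ Fintype.card Λ := hund_le a P _ _ hN
  refine adv_main (h₁ := t ^ 3 - t ^ 2 / 2) (h₂ := t ^ 3 + t ^ 2 / 2) (P := P) (m := a + 8)
    (r := 16 * (a + 8)) hop1 hop2 hq0 hq1 (by omega) (by omega) (by omega) (by omega) (by omega)
    ?_ hα hβ le_rfl (by omega) ?_ ?_ ?_ (bn_typ ht h2 h100) hFl
  · have h7 : j + (t ^ 3 + t ^ 2 / 2) ≤ 2 * t ^ 3 := by omega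
    calc 4 * (j + (t ^ 3 + t ^ 2 / 2)) ^ 2 ≤ 4 * (2 * t ^ 3) ^ 2 := by gcongr
      _ = 16 * t ^ 6 := by ring
      _ ≤ _ := by omega
  · exact (w_le a P _ hW).1
  · exact (w_le a P _ hW).2
  · have hb := pow_bound (h₂ := t ^ 3 + t ^ 2 / 2) ht hj rfl hN
    have hV' : (Fintype.card V : ℝ) ≤ 2 ^ a := by exact_mod_cast hV
    rw [div_le_iff₀ (by positivity)]
    have hpos : (0 : ℝ) ≤ (1 + 8 * ((j : ℝ) * P + ((t ^ 3 + t ^ 2 / 2 : ℕ) : ℝ) ^ 2) /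
        (Fintype.card Λ : ℝ)) ^ (16 * (a + 8)) := by positivity
    calc (Fintype.card V : ℝ) * (1 + 8 * ((j : ℝ) * P + ((t ^ 3 + t ^ 2 / 2 : ℕ) : ℝ) ^ 2) /
        (Fintype.card Λ : ℝ)) ^ (16 * (a + 8)) ≤ 2 ^ a * 4 :=
          mul_le_mul hV' hb hpos (by positivity)
      _ = 1 / 64 * 2 ^ (a + 8) := by rw [pow_add]; norm_num; ring

open Finset in
private theorem core_t {op : Λ → Λ → Λ} (hop1 : ∀ x y, op x y = op y x)
    (hop2 : ∀ x y, op x (op x y) = y) {t a P j : ℕ} (ht : 64 ≤ t) (h2 : Even t)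
    (hj : j = 2 * t ^ 2) (hV : Fintype.card V ≤ 2 ^ a)
    (hW : 4000 * ((a + 8) * (P + 1)) ≤ Fintype.card I)
    (hN : 1024 * ((a + 8) * (P + 1)) * t ^ 6 ≤ Fintype.card Λ)
    {α β : V → I → (Fin j ↪ Λ) → (I → Finset Λ) → Prop} (hα : Cer P α) (hβ : Cer P β) (X : ℝ)
    (hX : X = (Fintype.card I : ℝ) * (t * bw (Fintype.card Λ) ((t : ℝ) ^ 3 / Fintype.card Λ)
      (t ^ 3 + t ^ 2))) (hXs : 128 * X ≤ 1 / 16) :
    EI (wX ((t : ℝ) ^ 3 / Fintype.card Λ)) (fun x : I → Xi Λ => ind (∃ i,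
        ¬ (t ^ 3 - t ^ 2 ≤ (Gx x i).card ∧ (Gx x i).card < t ^ 3 + t ^ 2))) ≤ 5 * X ∧
      (EI (wX ((t : ℝ) ^ 3 / Fintype.card Λ)) (fun x : I → Xi Λ => ind (FlA op α β (Gx x))) ≤
          1 / 4 →
        X / 16 ≤ EI (wX ((t : ℝ) ^ 3 / Fintype.card Λ))
          (fun x : I → Xi Λ => ind (Iv α β (Gx x)))) := by
  obtain ⟨f1, f2, f3⟩ := nat_facts ht
  have h100 : 100 * t ^ 6 ≤ Fintype.card Λ := hund_le a P _ _ hN
  have h36 : t ^ 3 ≤ t ^ 6 := Nat.pow_le_pow_right (by omega) (by norm_num)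
  have hNpos : 0 < Fintype.card Λ := by omega
  have : Nonempty Λ := Fintype.card_pos_iff.1 hNpos
  set N := Fintype.card Λ with hNd
  set q : ℝ := (t : ℝ) ^ 3 / N with hq
  have hNr : (0 : ℝ) < N := by exact_mod_cast hNpos
  have hq0 : 0 ≤ q := by positivity
  have hq1 : q ≤ 1 := by
    rw [hq, div_le_one hNr]
    have : t ^ 3 ≤ N := by omega
    exact_mod_cast this
  have hbw : ∀ k, 0 ≤ bw N q k := RO.bw_nonneg hq0 hq1
  have hX0 : 0 ≤ X := by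
    rw [hX]
    have := hbw (t ^ 3 + t ^ 2)
    positivity
  constructor
  · classical
    have h1 := EI_out (I := I) (Λ := Λ) hq0 hq1 (fun k => ¬ (t ^ 3 - t ^ 2 ≤ k ∧ k < t ^ 3 + t ^ 2))
    refine h1.trans ?_
    have h3 := bn_out ht h2 h100
    have h4 : ∑ k ∈ (range (N + 1)).filter (fun k => ¬ (t ^ 3 - t ^ 2 ≤ k ∧ k < t ^ 3 + t ^ 2)),
      bw N q k ≤ 5 * (t * bw N q (t ^ 3 + t ^ 2)) := by
      convert h3 using 2
    have h5 := mul_le_mul_of_nonneg_left h4 (Nat.cast_nonneg (α := ℝ) (Fintype.card I))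
    have h6 : (Fintype.card I : ℝ) * (5 * (t * bw N q (t ^ 3 + t ^ 2))) = 5 * X := by
      rw [hX]; ring
    rw [h6] at h5
    refine le_trans (le_of_eq ?_) h5
    congr 1
    refine Finset.sum_congr ?_ fun _ _ => rfl
    ext k
    simp only [Finset.mem_filter]
    exact Iff.rfl
  · intro hFl
    have hadv := fun k (hk : k ∈ Ico (t ^ 3 + t ^ 2) (t ^ 3 + t ^ 2 + t)) =>
      adv_k hop1 hop2 ht h2 hj hV hW hN hα hβ hFl hq0 hq1 hk
    set Φ : (I → Finset Λ) → Prop := Iv α β with hΦ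
    have hrk : ∀ i k, 0 ≤ rk q Φ i k := fun i k => rk_nonneg hq0 hq1 Φ i k
    set Z := Ico (t ^ 3 + t ^ 2) (t ^ 3 + t ^ 2 + t) with hZ
    set Z' := Ico (t ^ 3 - t ^ 2) (t ^ 3 - t ^ 2 + t) with hZ'
    have hdisj : Disjoint Z Z' := by
      rw [Finset.disjoint_left]
      intro k hk hk'
      rw [hZ, mem_Ico] at hk
      rw [hZ', mem_Ico] at hk'
      omega
    have hshift : ∀ f : ℕ → ℝ, ∑ k ∈ Z', f k = ∑ k ∈ Z, f (k - j) := by
      intro f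
      symm
      refine Finset.sum_bij' (fun k _ => k - j) (fun k _ => k + j) ?_ ?_ ?_ ?_ ?_
      · intro k hk
        rw [hZ, mem_Ico] at hk
        rw [hZ', mem_Ico]
        omega
      · intro k hk
        rw [hZ', mem_Ico] at hk
        rw [hZ, mem_Ico]
        omega
      · intro k hk
        rw [hZ, mem_Ico] at hk
        show k - j + j = k
        omega
      · intro k hk
        show k + j - j = k
        omega
      · intro k hk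
        rfl
    have hunion : ∀ f : ℕ → ℝ, ∑ k ∈ Z ∪ Z', f k = ∑ k ∈ Z, (f k + f (k - j)) := by
      intro f
      rw [Finset.sum_union hdisj, hshift, Finset.sum_add_distrib]
    have hinc := inc (I := I) (Λ := Λ) hq0 hq1 Φ (Z ∪ Z') (by
      intro k hk
      rw [mem_union, hZ, hZ', mem_Ico, mem_Ico] at hk
      omega)
    rw [hunion] at hinc
    have hzeta : ∑ k ∈ Z, (bw N q k + bw N q (k - j)) ≤ 16 * (t * bw N q (t ^ 3 + t ^ 2)) := by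
      rw [hj]
      exact bn_zeta ht h2 h100
    have hzeta0 : 0 ≤ ∑ k ∈ Z, (bw N q k + bw N q (k - j)) :=
      Finset.sum_nonneg fun k _ => add_nonneg (hbw _) (hbw _)
    have hmin : t * bw N q (t ^ 3 + t ^ 2) ≤ 4 * ∑ k ∈ Z, min (bw N q k) (bw N q (k - j)) := by
      rw [hj]
      exact bn_min ht h2 h100
    -- the main term
    have hmain : X / 8 ≤ ∑ i : I, ∑ k ∈ Z ∪ Z', bw N q k * rk q Φ i k := by
      have e1 : ∑ i : I, ∑ k ∈ Z ∪ Z', bw N q k * rk q Φ i k =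
          ∑ k ∈ Z, ∑ i : I, (bw N q k * rk q Φ i k + bw N q (k - j) * rk q Φ i (k - j)) := by
        rw [Finset.sum_comm]
        rw [hunion (fun k => ∑ i : I, bw N q k * rk q Φ i k)]
        refine Finset.sum_congr rfl fun k _ => ?_
        rw [Finset.sum_add_distrib]
      rw [e1]
      have e2 : ∀ k ∈ Z, min (bw N q k) (bw N q (k - j)) * ((Fintype.card I : ℝ) / 2) ≤
          ∑ i : I, (bw N q k * rk q Φ i k + bw N q (k - j) * rk q Φ i (k - j)) := by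
        intro k hk
        have hm0 : 0 ≤ min (bw N q k) (bw N q (k - j)) := le_min (hbw _) (hbw _)
        refine (mul_le_mul_of_nonneg_left (hadv k hk) hm0).trans ?_
        rw [Finset.mul_sum]
        refine Finset.sum_le_sum fun i _ => ?_
        rw [mul_add]
        exact add_le_add (mul_le_mul_of_nonneg_right (min_le_left _ _) (hrk _ _))
          (mul_le_mul_of_nonneg_right (min_le_right _ _) (hrk _ _))
      refine le_trans ?_ (Finset.sum_le_sum e2)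
      rw [← Finset.sum_mul, hX]
      have hW0 : (0 : ℝ) ≤ (Fintype.card I : ℝ) := Nat.cast_nonneg _
      nlinarith [mul_le_mul_of_nonneg_left hmin hW0]
    have hsq : ((Fintype.card I : ℝ) * ∑ k ∈ Z, (bw N q k + bw N q (k - j))) ^ 2 / 2 ≤
        128 * X ^ 2 := by
      have hle : (Fintype.card I : ℝ) * ∑ k ∈ Z, (bw N q k + bw N q (k - j)) ≤ 16 * X := by
        have := mul_le_mul_of_nonneg_left hzeta (Nat.cast_nonneg (α := ℝ) (Fintype.card I))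
        rw [hX]
        linarith
      have h0 : 0 ≤ (Fintype.card I : ℝ) * ∑ k ∈ Z, (bw N q k + bw N q (k - j)) :=
        mul_nonneg (Nat.cast_nonneg _) hzeta0
      have := pow_le_pow_left₀ h0 hle 2
      nlinarith
    have hfin : 128 * X ^ 2 ≤ X / 16 := by
      have := mul_le_mul_of_nonneg_right hXs hX0
      nlinarith
    linarith

theorem core_real {op : Λ → Λ → Λ} (hop1 : ∀ x y, op x y = op y x)
    (hop2 : ∀ x y, op x (op x y) = y) {c l a P j : ℕ} (hc : 5 ≤ c) (hj : j = 2 * 16 ^ c)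
    (hV : Fintype.card V ≤ 2 ^ a) (hg : l + 13 ≤ c + lq c)
    (hI : Fintype.card I = 2 ^ (c + lq c - (l + 13)))
    (hW : 4000 * ((a + 8) * (P + 1)) ≤ Fintype.card I)
    (hN : 1024 * ((a + 8) * (P + 1)) * 4096 ^ c ≤ Fintype.card Λ)
    {α β : V → I → (Fin j ↪ Λ) → (I → Finset Λ) → Prop} (hα : Cer P α) (hβ : Cer P β) :
    ∃ X : ℝ, 1 ≤ 36 * (2 ^ (l + 13) * X) ∧ 2 ^ (l + 13) * X ≤ 3 ∧
      EI (wX ((64 : ℝ) ^ c / Fintype.card Λ)) (fun x : I → Xi Λ => ind (∃ i,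
        ¬ (64 ^ c - 16 ^ c ≤ (Gx x i).card ∧ (Gx x i).card < 64 ^ c + 16 ^ c))) ≤ 5 * X ∧
      (EI (wX ((64 : ℝ) ^ c / Fintype.card Λ)) (fun x : I → Xi Λ => ind (FlA op α β (Gx x))) ≤
          1 / 4 →
        X / 16 ≤ EI (wX ((64 : ℝ) ^ c / Fintype.card Λ))
          (fun x : I → Xi Λ => ind (Iv α β (Gx x)))) := by
  have h3 : (64 : ℕ) ^ c = (4 ^ c) ^ 3 := by
    rw [← pow_mul, mul_comm, pow_mul]; norm_num
  have h2 : (16 : ℕ) ^ c = (4 ^ c) ^ 2 := by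
    rw [← pow_mul, mul_comm, pow_mul]; norm_num
  have h6 : (4096 : ℕ) ^ c = (4 ^ c) ^ 6 := by
    rw [← pow_mul, mul_comm, pow_mul]; norm_num
  have h3r : (64 : ℝ) ^ c = ((4 ^ c : ℕ) : ℝ) ^ 3 := by exact_mod_cast h3
  have ht : 64 ≤ 4 ^ c := by
    calc 64 ≤ 4 ^ 5 := by norm_num
      _ ≤ 4 ^ c := Nat.pow_le_pow_right (by norm_num) hc
  have heven : Even (4 ^ c) := by
    refine Even.pow_of_ne_zero (by decide) (by omega)
  have h100 : 100 * 4096 ^ c ≤ Fintype.card Λ := hund_le a P _ _ hN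
  obtain ⟨hx1, hx2⟩ := bn_x (by omega : 1 ≤ c) h100
  set x₀ : ℝ := 4 ^ c * bw (Fintype.card Λ) ((64 : ℝ) ^ c / Fintype.card Λ) (64 ^ c + 16 ^ c)
    with hx₀
  have hWr : (2 : ℝ) ^ (l + 13) * ((Fintype.card I : ℝ) * x₀) = 2 ^ (c + lq c) * x₀ := by
    rw [hI]
    push_cast
    rw [← mul_assoc, ← pow_add]
    congr 2
    omega
  have hX1 : 1 ≤ 36 * ((2 : ℝ) ^ (l + 13) * ((Fintype.card I : ℝ) * x₀)) := by rw [hWr]; exact hx1
  have hX2 : (2 : ℝ) ^ (l + 13) * ((Fintype.card I : ℝ) * x₀) ≤ 3 := by rw [hWr]; exact hx2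
  have hX0 : 0 < (Fintype.card I : ℝ) * x₀ := by
    by_contra hcon
    push Not at hcon
    have : (2 : ℝ) ^ (l + 13) * ((Fintype.card I : ℝ) * x₀) ≤ 0 :=
      mul_nonpos_of_nonneg_of_nonpos (by positivity) hcon
    linarith
  have hX3 : 128 * ((Fintype.card I : ℝ) * x₀) ≤ 1 / 16 := by
    have h13 : (2 : ℝ) ^ 13 ≤ 2 ^ (l + 13) := pow_le_pow_right₀ (by norm_num) (by omega)
    have := mul_le_mul_of_nonneg_right h13 hX0.le
    norm_num at this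
    linarith
  refine ⟨(Fintype.card I : ℝ) * x₀, hX1, hX2, ?_⟩
  have hXt : (Fintype.card I : ℝ) * x₀ = (Fintype.card I : ℝ) * (((4 ^ c : ℕ) : ℝ) *
      bw (Fintype.card Λ) (((4 ^ c : ℕ) : ℝ) ^ 3 / Fintype.card Λ) ((4 ^ c) ^ 3 + (4 ^ c) ^ 2)) := by
    rw [hx₀, h3r, h3, h2]
    push_cast
    rfl
  rw [h3r, h3, h2]
  rw [h2] at hj
  rw [h6] at hN
  exact core_t hop1 hop2 ht heven hj hV hW hN hα hβ _ hXt hX3

end Pool.Agent.RC
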