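import Mathlib
import Pool.Agent.RC.Ex
import Pool.Agent.RC.OneE

set_option autoImplicit false

/-!
# RC-Glue (job): from the weights `wt` to the expectations `EI`

`e : I × Λ ≃ Λ'`; a set `H : Finset Λ'` consists of its sections `sec e H i = {w | e (i, w) ∈ H}`.

PLAN. `EI_law`: `EI_map` with `φ = Hs`, `w' = w0 q`: for `H : Finset Λ` with `h = H.card` elements the sum of `wX q ξ` over the `ξ` with `Hs ξ = H` is
`bw N q h * pr (fun v => pre h v = H) = bw N q h / N.choose h = w0 q H` (`RO.card_pre`: only `ξ.1 = h` contributes; `RO.pr_pre` with `Φ = (· = H)`,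
`fr h (· = H) = 1 / N.choose h`, `h ≤ N`; `RO.pr_fst` for the factor `y`).
`wt_EI`: `H ↦ sec e H` is a bijection `Finset Λ' ≃ (I → Finset Λ)` with `H.card = ∑_i (sec e H i).card`; and `q = 1 / 2^κ`, `ρ = ((2^κ - 1 : ℕ) : ℝ≥0∞)⁻¹ = ofReal (q / (1 - q))`
(see `ce_rho` and `ce_mx` in `Pool/Agent/RO/CoreE.lean`), so `∏_i w0 q (G i) = (1 - q)^(N W) * ∏_i (q/(1-q))^|G i|`.
-/

namespace Pool.Agent.RC

open Pool.Agent.RO (pr fr pre bw wt)
open scoped ENNReal

variable {I Λ Λ' : Type} [Fintype I] [DecidableEq I] [Fintype Λ] [DecidableEq Λ] [Fintype Λ']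
  [DecidableEq Λ']

/-- the sections of a set -/
def sec (e : I × Λ ≃ Λ') (H : Finset Λ') (i : I) : Finset Λ :=
  Finset.univ.filter fun w => e (i, w) ∈ H

private theorem gl_fr (k : ℕ) (H : Finset Λ) :
    fr k (fun G : Finset Λ => G = H) =
      if k = H.card then (1 : ℝ) / ((Fintype.card Λ).choose k : ℝ) else 0 := by
  classical
  have h1 : fr k (fun G : Finset Λ => G = H) =
      ((((Finset.univ : Finset Λ).powersetCard k).filter (fun G : Finset Λ => G = H)).card : ℝ) /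
        ((Fintype.card Λ).choose k : ℝ) := by
    unfold fr
    congr
  rw [h1]
  split_ifs with hk
  · have h2 : ((Finset.univ : Finset Λ).powersetCard k).filter (fun G : Finset Λ => G = H) =
        {H} := by
      ext G
      simp only [Finset.mem_filter, Finset.mem_powersetCard, Finset.subset_univ, true_and,
        Finset.mem_singleton]
      constructor
      · exact fun h => h.2
      · intro h
        exact ⟨by rw [h, hk], h⟩
    rw [h2, Finset.card_singleton, Nat.cast_one]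
  · have h2 : ((Finset.univ : Finset Λ).powersetCard k).filter (fun G : Finset Λ => G = H) =
        ∅ := by
      ext G
      simp only [Finset.mem_filter, Finset.mem_powersetCard, Finset.subset_univ, true_and,
        Finset.notMem_empty, iff_false]
      rintro ⟨h, rfl⟩
      exact hk h.symm
    rw [h2, Finset.card_empty, Nat.cast_zero, zero_div]

open Classical in
private theorem gl_law [Nonempty Λ] (q : ℝ) (H : Finset Λ) :
    ∑ ξ ∈ Finset.univ.filter (fun ξ : Xi Λ => Hs ξ = H), wX q ξ = w0 q H := by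
  have h1 := wX_fr q (fun _ => (1 : ℝ)) (fun G : Finset Λ => G = H)
  have h2 : ∑ ξ ∈ Finset.univ.filter (fun ξ : Xi Λ => Hs ξ = H), wX q ξ =
      ∑ ξ : Xi Λ, wX q ξ * (1 * ind (Hs ξ = H)) := by
    rw [Finset.sum_filter]
    refine Finset.sum_congr rfl fun ξ _ => ?_
    unfold ind
    split_ifs <;> simp
  rw [h2, h1]
  have hc : H.card ∈ Finset.range (Fintype.card Λ + 1) :=
    Finset.mem_range.mpr (Nat.lt_succ_of_le (Finset.card_le_univ H))
  rw [Finset.sum_eq_single_of_mem H.card hc]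
  · rw [gl_fr, if_pos rfl]
    have h3 : ((Fintype.card Λ).choose H.card : ℝ) ≠ 0 :=
      Nat.cast_ne_zero.mpr (Nat.choose_pos (Finset.card_le_univ H)).ne'
    unfold bw w0
    field_simp
  · intro k _ hk
    rw [gl_fr, if_neg hk, mul_zero, mul_zero]

theorem EI_law [Nonempty Λ] (q : ℝ) (f : (I → Finset Λ) → ℝ) :
    EI (wX q) (fun x : I → Xi Λ => f (Gx x)) = EI (w0 q) f := by
  classical
  exact EI_map (wX q) (w0 q) Hs (fun H => by
    have h := gl_law q H
    convert h) f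

omit [Fintype I] [Fintype Λ'] [DecidableEq I] [DecidableEq Λ] in
private theorem gl_mem (e : I × Λ ≃ Λ') (H : Finset Λ') (i : I) (w : Λ) :
    w ∈ sec e H i ↔ e (i, w) ∈ H := by
  unfold sec
  simp

omit [Fintype Λ'] [DecidableEq I] [DecidableEq Λ] in
private theorem gl_card (e : I × Λ ≃ Λ') (H : Finset Λ') :
    H.card = ∑ i, (sec e H i).card := by
  rw [← Finset.card_sigma]
  refine Finset.card_bij' (fun z _ => (⟨(e.symm z).1, (e.symm z).2⟩ : Σ _ : I, Λ))
    (fun p _ => e (p.1, p.2)) ?_ ?_ ?_ ?_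
  · intro z hz
    rw [Finset.mem_sigma]
    refine ⟨Finset.mem_univ _, ?_⟩
    rw [gl_mem]
    simpa using hz
  · intro p hp
    rw [Finset.mem_sigma] at hp
    exact (gl_mem e H p.1 p.2).1 hp.2
  · intro z _
    simp
  · intro p _
    simp

/-- the sections as an equivalence -/
private def glE (e : I × Λ ≃ Λ') : Finset Λ' ≃ (I → Finset Λ) where
  toFun := fun H => sec e H
  invFun := fun G => Finset.univ.filter fun z => (e.symm z).2 ∈ G (e.symm z).1
  left_inv := by
    intro H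
    ext z
    simp only [Finset.mem_filter, Finset.mem_univ, true_and, gl_mem]
    simp
  right_inv := by
    intro G
    funext i
    ext w
    rw [gl_mem]
    simp

omit [DecidableEq I] [DecidableEq Λ] [DecidableEq Λ'] in
private theorem gl_pow {q : ℝ} (hq : q < 1) (G : I → Finset Λ) (N' n : ℕ)
    (hN : N' = Fintype.card I * Fintype.card Λ) (hn : n = ∑ i, (G i).card) :
    (1 - q) ^ N' * (q / (1 - q)) ^ n = ∏ i, w0 q (G i) := by
  have h0 : (1 - q) ≠ 0 := by linarith
  have h1 : ∀ i, w0 q (G i) = (1 - q) ^ Fintype.card Λ * (q / (1 - q)) ^ (G i).card := by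
    intro i
    have h2 : (1 - q) ^ Fintype.card Λ =
        (1 - q) ^ (Fintype.card Λ - (G i).card) * (1 - q) ^ (G i).card := by
      rw [← pow_add, Nat.sub_add_cancel (Finset.card_le_univ (G i))]
    unfold w0
    rw [h2, div_pow]
    field_simp
  rw [Finset.prod_congr rfl fun i _ => h1 i, Finset.prod_mul_distrib, Finset.prod_const,
    Finset.card_univ, Finset.prod_pow_eq_pow_sum, hn, hN, ← pow_mul, mul_comm (Fintype.card I)]

theorem wt_EI [Nonempty Λ] (e : I × Λ ≃ Λ') {κ : ℕ} (hκ : 1 ≤ κ)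
    (Φ : (I → Finset Λ) → Prop) :
    ENNReal.ofReal ((1 - 1 / 2 ^ κ) ^ Fintype.card Λ') *
      wt (((2 ^ κ - 1 : ℕ) : ℝ≥0∞)⁻¹) (fun H : Finset Λ' => Φ (sec e H)) =
      ENNReal.ofReal (EI (wX (1 / 2 ^ κ)) (fun x : I → Xi Λ => ind (Φ (Gx x)))) := by
  classical
  have h1 : (2 : ℝ) ≤ 2 ^ κ := by
    calc (2 : ℝ) = 2 ^ 1 := (pow_one _).symm
      _ ≤ 2 ^ κ := pow_le_pow_right₀ (by norm_num) hκ
  have h2 : (0 : ℝ) < 2 ^ κ - 1 := by linarith
  have hrho : (((2 ^ κ - 1 : ℕ) : ℝ≥0∞)⁻¹) = ENNReal.ofReal (1 / ((2 : ℝ) ^ κ - 1)) := by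
    rw [one_div, ENNReal.ofReal_inv_of_pos h2]
    congr 1
    rw [← ENNReal.ofReal_natCast]
    congr 1
    rw [Nat.cast_sub Nat.one_le_two_pow]
    push_cast
    ring
  have hr0 : 0 ≤ 1 / ((2 : ℝ) ^ κ - 1) := by positivity
  have hq1 : (1 : ℝ) / 2 ^ κ < 1 := by
    rw [div_lt_one (by positivity)]
    linarith
  have hqr : (1 / (2 : ℝ) ^ κ) / (1 - 1 / (2 : ℝ) ^ κ) = 1 / ((2 : ℝ) ^ κ - 1) := by
    have h3 : (2 : ℝ) ^ κ ≠ 0 := by positivity
    have h4 : (2 : ℝ) ^ κ - 1 ≠ 0 := h2.ne'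
    have h5 : 1 - 1 / (2 : ℝ) ^ κ = ((2 : ℝ) ^ κ - 1) / 2 ^ κ := by field_simp
    rw [h5]
    field_simp
  have hwt : wt (((2 ^ κ - 1 : ℕ) : ℝ≥0∞)⁻¹) (fun H : Finset Λ' => Φ (sec e H)) =
      ENNReal.ofReal (∑ H ∈ Finset.univ.filter (fun H : Finset Λ' => Φ (sec e H)),
        (1 / ((2 : ℝ) ^ κ - 1)) ^ H.card) := by
    have h6 : wt (((2 ^ κ - 1 : ℕ) : ℝ≥0∞)⁻¹) (fun H : Finset Λ' => Φ (sec e H)) =
        ∑ H ∈ Finset.univ.filter (fun H : Finset Λ' => Φ (sec e H)),
          (((2 ^ κ - 1 : ℕ) : ℝ≥0∞)⁻¹) ^ H.card := by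
      unfold wt
      congr
    rw [h6, hrho, ENNReal.ofReal_sum_of_nonneg fun _ _ => pow_nonneg hr0 _]
    exact Finset.sum_congr rfl fun G _ => (ENNReal.ofReal_pow hr0 _).symm
  have hcard : Fintype.card Λ' = Fintype.card I * Fintype.card Λ := by
    rw [← Fintype.card_prod, Fintype.card_congr e]
  rw [hwt, ← ENNReal.ofReal_mul (pow_nonneg (by linarith) _)]
  congr 1
  rw [EI_law (1 / 2 ^ κ) (fun G : I → Finset Λ => ind (Φ G))]
  unfold EI
  rw [Finset.mul_sum, Finset.sum_filter]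
  refine Fintype.sum_equiv (glE e) _ _ fun H => ?_
  have h7 : glE e H = sec e H := rfl
  rw [h7]
  unfold ind
  simp only
  split_ifs
  · rw [mul_one, ← gl_pow hq1 (sec e H) (Fintype.card Λ') H.card hcard (gl_card e H), hqr]
  · rw [mul_zero]

end Pool.Agent.RC
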