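import Mathlib
import Pool.Agent.RC.CoR
import Pool.Agent.RC.Glue

set_option autoImplicit false

/-!
# RC-CoE (job): the core lemma for weights

PLAN. `q = 64^c / card Λ = 1 / 2^κ` (`hΛ`).  With `C = ENNReal.ofReal ((1 - q)^(card Λ')) ≠ 0, ⊤`, `wt_EI` turns each `C * wt ρ Φ` into
`ofReal (EI (ind Φ))`; it is enough to prove the inequalities after multiplication by `C` (`ENNReal.mul_le_mul_iff_right` or similar).  Let
`F = EI (ind FlA)`, `J = EI (ind Iv)`, `O = EI (ind Out)`, `K = EI (ind (Iv ∨ FlA)) ≥ max F J`, and `EI (ind True) = 1`.  `core_real` gives `X`.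
If `F ≤ 1/4`: `O ≤ 5 X ≤ 80 J`, and `1 ≤ 36 * 2^(l+13) X ≤ 576 * 2^(l+13) J ≤ 2^(l+23) K`.
If `F > 1/4`: `O ≤ 5 X ≤ 15 / 2^(l+13) ≤ 60 F / 2^(l+13) ≤ K / 2^l`, and `1 ≤ 4 F ≤ 2^(l+23) K`.
(`Out` is `¬ ∀ i, ..`, the same as `∃ i, ¬ ..`.)
-/

namespace Pool.Agent.RC

open Pool.Agent.RO (pr fr pre AA Cert bw wt)
open scoped ENNReal

variable {I Λ V Λ' : Type} [Fintype I] [DecidableEq I] [Fintype Λ] [DecidableEq Λ] [Fintype V]
  [Fintype Λ'] [DecidableEq Λ']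

private lemma ind_nonneg (p : Prop) : 0 ≤ ind p := by
  unfold ind
  split_ifs <;> norm_num

private lemma ind_mono {p q : Prop} (h : p → q) : ind p ≤ ind q := by
  unfold ind
  split_ifs with h1 h2
  · exact le_rfl
  · exact absurd (h h1) h2
  · norm_num
  · exact le_rfl

theorem core_wt (e : I × Λ ≃ Λ') {op : Λ → Λ → Λ} (hop1 : ∀ x y, op x y = op y x)
    (hop2 : ∀ x y, op x (op x y) = y) {c l a P j κ : ℕ} (hc : 5 ≤ c) (hj : j = 2 * 16 ^ c)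
    (hκ : 1 ≤ κ) (hΛ : Fintype.card Λ = 64 ^ c * 2 ^ κ)
    (hV : Fintype.card V ≤ 2 ^ a) (hg : l + 13 ≤ c + lq c)
    (hI : Fintype.card I = 2 ^ (c + lq c - (l + 13)))
    (hW : 4000 * ((a + 8) * (P + 1)) ≤ Fintype.card I)
    (hN : 1024 * ((a + 8) * (P + 1)) * 4096 ^ c ≤ Fintype.card Λ)
    {α β : V → I → (Fin j ↪ Λ) → (I → Finset Λ) → Prop} (hα : Cer P α) (hβ : Cer P β) :
    wt (((2 ^ κ - 1 : ℕ) : ℝ≥0∞)⁻¹) (fun H : Finset Λ' => ¬ ∀ i,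
        64 ^ c - 16 ^ c ≤ (sec e H i).card ∧ (sec e H i).card < 64 ^ c + 16 ^ c) ≤
      80 * wt (((2 ^ κ - 1 : ℕ) : ℝ≥0∞)⁻¹) (fun H : Finset Λ' => Iv α β (sec e H)) +
      (1 / (2 : ℝ≥0∞) ^ l) * wt (((2 ^ κ - 1 : ℕ) : ℝ≥0∞)⁻¹)
        (fun H : Finset Λ' => Iv α β (sec e H) ∨ FlA op α β (sec e H)) ∧
    wt (((2 ^ κ - 1 : ℕ) : ℝ≥0∞)⁻¹) (fun _ : Finset Λ' => True) ≤
      (2 : ℝ≥0∞) ^ (l + 23) * wt (((2 ^ κ - 1 : ℕ) : ℝ≥0∞)⁻¹)
        (fun H : Finset Λ' => Iv α β (sec e H) ∨ FlA op α β (sec e H)) := by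
  obtain ⟨X, hX1, hX2, hO, hJ⟩ := core_real hop1 hop2 hc hj hV hg hI hW hN hα hβ
  have hcard : 0 < Fintype.card Λ := by rw [hΛ]; positivity
  have : Nonempty Λ := Fintype.card_pos_iff.1 hcard
  have hq : (64 : ℝ) ^ c / Fintype.card Λ = 1 / 2 ^ κ := by
    rw [hΛ]
    push_cast
    field_simp
  rw [hq] at hO hJ
  have hq0 : (0 : ℝ) ≤ 1 / 2 ^ κ := by positivity
  have h2κ : (2 : ℝ) ≤ 2 ^ κ := by
    calc (2 : ℝ) = 2 ^ 1 := by norm_num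
      _ ≤ 2 ^ κ := pow_le_pow_right₀ (by norm_num) hκ
  have hq2 : (1 : ℝ) / 2 ^ κ ≤ 1 / 2 := by
    apply one_div_le_one_div_of_le (by norm_num) h2κ
  have hq1 : (1 : ℝ) / 2 ^ κ ≤ 1 := by linarith
  have hw := wX_nonneg (Λ := Λ) hq0 hq1
  have hw1 := wX_sum (Λ := Λ) ((1 : ℝ) / 2 ^ κ)
  set F := EI (wX ((1 : ℝ) / 2 ^ κ)) (fun x : I → Xi Λ => ind (FlA op α β (Gx x))) with hF
  set J := EI (wX ((1 : ℝ) / 2 ^ κ)) (fun x : I → Xi Λ => ind (Iv α β (Gx x))) with hJdef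
  set O := EI (wX ((1 : ℝ) / 2 ^ κ)) (fun x : I → Xi Λ => ind (∃ i,
        ¬ (64 ^ c - 16 ^ c ≤ (Gx x i).card ∧ (Gx x i).card < 64 ^ c + 16 ^ c))) with hOdef
  set K := EI (wX ((1 : ℝ) / 2 ^ κ)) (fun x : I → Xi Λ =>
    ind (Iv α β (Gx x) ∨ FlA op α β (Gx x))) with hK
  have hJK : J ≤ K := EI_mono hw fun x => ind_mono Or.inl
  have hFK : F ≤ K := EI_mono hw fun x => ind_mono Or.inr
  have hF0 : 0 ≤ F := EI_nonneg hw fun x => ind_nonneg _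
  have hJ0 : 0 ≤ J := EI_nonneg hw fun x => ind_nonneg _
  have hK0 : 0 ≤ K := EI_nonneg hw fun x => ind_nonneg _
  have hp : (2 : ℝ) ^ (l + 13) = 2 ^ l * 8192 := by rw [pow_add]; norm_num
  have hp23 : (2 : ℝ) ^ (l + 23) = 2 ^ l * 8388608 := by rw [pow_add]; norm_num
  have h2l : (1 : ℝ) ≤ 2 ^ l := one_le_pow₀ (by norm_num)
  have h2l0 : (0 : ℝ) < 2 ^ l := by positivity
  rw [hp] at hX1 hX2
  -- the two real inequalities
  have hreal1 : O ≤ 80 * J + 1 / 2 ^ l * K := by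
    have hKl : 0 ≤ 1 / 2 ^ l * K := by positivity
    rcases le_or_gt F (1 / 4) with h | h
    · have := hJ h
      linarith
    · have h1 : 5 * X ≤ 1 / 2 ^ l * K := by
        rw [one_div_mul_eq_div, le_div_iff₀ h2l0]
        nlinarith
      linarith
  have hreal2 : 1 ≤ (2 : ℝ) ^ (l + 23) * K := by
    rw [hp23]
    rcases le_or_gt F (1 / 4) with h | h
    · have h1 := hJ h
      have h2 : X ≤ 16 * K := by linarith
      have h3 : (2 : ℝ) ^ l * X ≤ 2 ^ l * (16 * K) := mul_le_mul_of_nonneg_left h2 h2l0.le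
      have h4 : 0 ≤ 2 ^ l * K := by positivity
      nlinarith
    · have h1 : (1 : ℝ) / 4 ≤ K := by linarith
      nlinarith
  -- the translation
  set C := ENNReal.ofReal ((1 - 1 / 2 ^ κ) ^ Fintype.card Λ') with hC
  have hC0 : C ≠ 0 := by
    rw [hC, Ne, ENNReal.ofReal_eq_zero, not_le]
    have : (0 : ℝ) < 1 - 1 / 2 ^ κ := by linarith
    positivity
  have hCt : C ≠ ⊤ := ENNReal.ofReal_ne_top
  have tr : ∀ Φ : (I → Finset Λ) → Prop, C * wt (((2 ^ κ - 1 : ℕ) : ℝ≥0∞)⁻¹)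
      (fun H : Finset Λ' => Φ (sec e H)) =
      ENNReal.ofReal (EI (wX ((1 : ℝ) / 2 ^ κ)) (fun x : I → Xi Λ => ind (Φ (Gx x)))) :=
    fun Φ => wt_EI e hκ Φ
  have tO := tr (fun G => ¬ ∀ i, 64 ^ c - 16 ^ c ≤ (G i).card ∧ (G i).card < 64 ^ c + 16 ^ c)
  have tJ := tr (fun G => Iv α β G)
  have tK := tr (fun G => Iv α β G ∨ FlA op α β G)
  have tT := tr (fun _ => True)
  have hOO : EI (wX ((1 : ℝ) / 2 ^ κ)) (fun x : I → Xi Λ =>
      ind (¬ ∀ i, 64 ^ c - 16 ^ c ≤ (Gx x i).card ∧ (Gx x i).card < 64 ^ c + 16 ^ c)) = O := by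
    rw [hOdef]
    simp only [not_forall]
  have hT1 : EI (wX ((1 : ℝ) / 2 ^ κ)) (fun _ : I → Xi Λ => ind True) = 1 := by
    rw [EI_const hw1]
    unfold ind
    simp
  rw [hOO] at tO
  rw [hT1, ENNReal.ofReal_one] at tT
  constructor
  · refine (ENNReal.mul_le_mul_iff_right hC0 hCt).1 ?_
    rw [tO, mul_add, mul_left_comm C, mul_left_comm C, tJ, tK]
    have e1 : (80 : ℝ≥0∞) = ENNReal.ofReal 80 := by norm_num
    have e2 : (1 / (2 : ℝ≥0∞) ^ l) = ENNReal.ofReal (1 / 2 ^ l) := by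
      rw [ENNReal.ofReal_div_of_pos h2l0, ENNReal.ofReal_one, ENNReal.ofReal_pow (by norm_num)]
      norm_num
    rw [e1, e2, ← ENNReal.ofReal_mul (by norm_num), ← ENNReal.ofReal_mul (by positivity),
      ← ENNReal.ofReal_add (by positivity) (by positivity)]
    exact ENNReal.ofReal_le_ofReal hreal1
  · refine (ENNReal.mul_le_mul_iff_right hC0 hCt).1 ?_
    rw [tT, mul_left_comm C, tK]
    have e2 : ((2 : ℝ≥0∞) ^ (l + 23)) = ENNReal.ofReal (2 ^ (l + 23)) := by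
      rw [ENNReal.ofReal_pow (by norm_num)]
      norm_num
    rw [e2, ← ENNReal.ofReal_mul (by positivity), ← ENNReal.ofReal_one]
    exact ENNReal.ofReal_le_ofReal hreal2

end Pool.Agent.RC
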