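import Mathlib
import Pool.Agent.RO.LinkA
import Pool.Agent.RC.Par
import Pool.Agent.RC.Glue

set_option autoImplicit false

/-!
# RC-Link (job): the machines as predicates with certificates

ADAPT `Pool/Agent/ROP/Link.lean` (`link_un_inj`, `link_mark`, `link_marks`, `isInst_code`, `exists_code_of_isInst`, `cert_aa`, `sat_iff`, `fail_iff`, `inv_iff`,
`win_iff` there).  The windows are `List.Vector Bool (gg s l)`, the cells of a window `List.Vector Bool s`, all cells together
`List.Vector Bool (gg s l + s)`, `glu` is the concatenation; `sec glu H i = {w | i ++ w ∈ H}`, and `uns' G` is the set with the sections `G`.  For an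
oracle `R` without marks (of length `gg s l + s`) the oracle `RO.zer (kap s) H R` has exactly the marks `H`.
* `cer_aa`: if `aa V b A R s l v i x G` holds take the witness of `Accepts` and the queries of the run (at most `h`, `HB.num`); the certificate is
  the set of the pairs `(i', w)` such that some query is `true :: (i'.1 ++ w.1 ++ un a)` with `a < kap s` (at most one pair for each query: `q.tail.take (g + s)`).
* `sat_iff`: `Mark (zer (kap s) H R) (kap s) (i.1 ++ (vx y (x k)).1)` iff `glu (i, vx y (x k)) ∈ H` iff `vx y (x k) ∈ sec glu H i`.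
* `fail_iff`: by definition `Fail = Inv ∨ ∀ v, |v| ≤ al s → Wrong`; `Wrong` for `v` is `¬ Corr` for the element of `Adv s` with the word `v`
  (`exists_adv`); `uns' (sec glu H) = H`.
* `card_adv`: `∑_{n ≤ al s} 2^n < 2^(al s + 1)`.
-/

namespace Pool.Agent.RC

open N68a2faeb N793a5b8e N487b59b3 Pool.Agent.Helper22
open Pool.Agent.Helper20.Cons (join Po cRun)
open Pool.Agent.RO (Vp pads lev code zer marks qs run_congr vx AA)

/-- concatenation -/
def glu {g s : ℕ} : List.Vector Bool g × List.Vector Bool s ≃ List.Vector Bool (g + s) where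
  toFun p := ⟨p.1.1 ++ p.2.1, by rw [List.length_append, p.1.2, p.2.2]⟩
  invFun v := (⟨v.1.take g, by rw [List.length_take, v.2]; omega⟩,
    ⟨v.1.drop g, by rw [List.length_drop, v.2]; omega⟩)
  left_inv p := by
    obtain ⟨⟨a, ha⟩, ⟨b, hb⟩⟩ := p
    simp only [Prod.mk.injEq]
    exact ⟨Subtype.ext (List.take_left' ha), Subtype.ext (List.drop_left' ha)⟩
  right_inv v := Subtype.ext (List.take_append_drop g v.1)

/-- the set with given sections -/
def uns' {g s : ℕ} (G : List.Vector Bool g → Finset (List.Vector Bool s)) :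
    Finset (List.Vector Bool (g + s)) :=
  Finset.univ.filter fun v => (glu.symm v).2 ∈ G (glu.symm v).1

/-- the advices of length at most `al s` -/
abbrev Adv (s : ℕ) : Type := Σ n : Fin (al s + 1), List.Vector Bool (n : ℕ)

/-- acceptance as a predicate for the core lemma -/
def aa (V : Vp) (b : Bool) (A R : Oracle) (s l : ℕ) (v : Adv s) (i : List.Vector Bool (gg s l))
    (x : Fin (jj s) ↪ List.Vector Bool s)
    (G : List.Vector Bool (gg s l) → Finset (List.Vector Bool s)) : Prop :=
  ROA.acc V b A (zer (kap s) (uns' G) R) l (cd (cd i.1 (code x)) v.2.1)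

private theorem lk_un_inj {s : ℕ} {v v' : List.Vector Bool s} {a a' : ℕ}
    (h : v.1 ++ un a = v'.1 ++ un a') : v = v' := by
  have h1 : v.1.length = v'.1.length := by rw [v.2, v'.2]
  exact Subtype.ext (List.append_inj h h1).1

private theorem lk_mark {s κ : ℕ} {R : Oracle} (hR : marks R s κ = ∅)
    (G : Finset (List.Vector Bool s)) (v : List.Vector Bool s) :
    RO.Mark (zer κ G R) κ v.1 ↔ v ∈ G := by
  classical
  constructor
  · intro hm
    by_contra hv
    have h1 : v ∉ marks R s κ := by rw [hR]; exact Finset.notMem_empty v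
    have h2 : ¬ RO.Mark R κ v.1 := by
      intro h
      apply h1
      unfold marks
      exact Finset.mem_filter.2 ⟨Finset.mem_univ v, h⟩
    apply h2
    intro a ha
    have h3 := hm a ha
    unfold zer at h3
    rw [if_neg] at h3
    · exact h3
    · rintro ⟨v', hv', a', -, he⟩
      rw [lk_un_inj he] at hv
      exact hv hv'
  · intro hv a ha
    unfold zer
    exact if_pos ⟨v, hv, a, ha, rfl⟩

private theorem lk_sec {g s : ℕ} (H : Finset (List.Vector Bool (g + s)))
    (i : List.Vector Bool g) (w : List.Vector Bool s) : w ∈ sec glu H i ↔ glu (i, w) ∈ H := by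
  unfold sec
  simp

private theorem lk_uns {g s : ℕ} (G : List.Vector Bool g → Finset (List.Vector Bool s))
    (v : List.Vector Bool (g + s)) : v ∈ uns' G ↔ (glu.symm v).2 ∈ G (glu.symm v).1 := by
  unfold uns'
  simp

private theorem lk_markc {s l : ℕ} {R : Oracle} (hR : marks R (gg s l + s) (kap s) = ∅)
    (H : Finset (List.Vector Bool (gg s l + s))) (i : List.Vector Bool (gg s l))
    (w : List.Vector Bool s) :
    RO.Mark (zer (kap s) H R) (kap s) (i.1 ++ w.1) ↔ w ∈ sec glu H i := by
  rw [lk_sec]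
  exact lk_mark hR H (glu (i, w))

theorem card_adv (s : ℕ) : Fintype.card (Adv s) ≤ 2 ^ (al s + 1) := by
  rw [Fintype.card_sigma]
  have h1 : ∀ n : Fin (al s + 1), Fintype.card (List.Vector Bool (n : ℕ)) = 2 ^ (n : ℕ) := by
    intro n
    rw [card_vector, Fintype.card_bool]
  rw [Finset.sum_congr rfl fun n _ => h1 n, Fin.sum_univ_eq_sum_range (fun n => 2 ^ n),
    Nat.geomSum_eq (le_refl 2)]
  simp

theorem exists_adv {s : ℕ} {w : List Bool} (h : w.length ≤ al s) : ∃ v : Adv s, v.2.1 = w :=
  ⟨⟨⟨w.length, Nat.lt_succ_of_le h⟩, ⟨w, rfl⟩⟩, rfl⟩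

theorem uns_sec {g s : ℕ} (H : Finset (List.Vector Bool (g + s))) : uns' (sec glu H) = H := by
  ext v
  rw [lk_uns, lk_sec, Prod.mk.eta, Equiv.apply_symm_apply]

theorem isInst_code {s l : ℕ} (i : List.Vector Bool (gg s l))
    (x : Fin (jj s) ↪ List.Vector Bool s) : IsInst s l (cd i.1 (code x)) := by
  unfold IsInst RO.code
  rw [cf_cd, cs_cd, ld_lc]
  refine ⟨rfl, i.2, by simp, ?_, ?_⟩
  · rw [List.nodup_ofFn]
    exact fun i j hij => x.injective (Subtype.ext hij)
  · intro y hy
    rw [List.mem_ofFn] at hy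
    obtain ⟨i, rfl⟩ := hy
    exact (x i).2

theorem exists_code_of_isInst {s l : ℕ} {u : List Bool} (h : IsInst s l u) :
    ∃ (i : List.Vector Bool (gg s l)) (x : Fin (jj s) ↪ List.Vector Bool s),
      cd i.1 (code x) = u := by
  obtain ⟨h1, h0, h2, h3, h4⟩ := h
  refine ⟨⟨cf u, h0⟩, ⟨fun i => ⟨(ld (cs u))[(i : ℕ)]'(by rw [h2]; exact i.2),
    h4 _ (List.getElem_mem _)⟩, ?_⟩, ?_⟩
  · intro i j hij
    have h5 : (ld (cs u))[(i : ℕ)]'(by rw [h2]; exact i.2) =
        (ld (cs u))[(j : ℕ)]'(by rw [h2]; exact j.2) :=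
      congrArg Subtype.val hij
    exact Fin.ext ((List.Nodup.getElem_inj_iff h3).1 h5)
  · unfold RO.code
    conv_rhs => rw [← h1]
    congr 2
    apply List.ext_getElem
    · simp [h2]
    · intro i h5 h6
      rw [List.getElem_ofFn]
      rfl

theorem cer_aa {V : Vp} {s l h : ℕ} (H : HB V s l h) (A R : Oracle) (b : Bool) :
    Cer h (aa V b A R s l) := by
  classical
  intro v i x G hacc
  have hD : Dom s l (cd (cd i.1 (code x)) v.2.1) :=
    ⟨cd i.1 (code x), v.2.1, isInst_code i x, by rw [v.2.2]; exact Nat.lt_succ_iff.mp v.1.2, rfl⟩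
  obtain ⟨w, hw, hrun⟩ := hacc
  set qq := qs (V b).1 (join A (zer (kap s) (uns' G) R))
    (pads l (cd (cd i.1 (code x)) v.2.1), w) with hqq
  have hlen : qq.length ≤ h := H.num _ hD b (join A (zer (kap s) (uns' G) R)) w hw
  refine ⟨Finset.univ.filter fun c : List.Vector Bool (gg s l) × List.Vector Bool s =>
    ∃ q ∈ qq, ∃ a, a < kap s ∧ q = true :: ((glu c).1 ++ un a), ?_, ?_⟩
  · refine le_trans ?_ hlen
    have h1 : (Finset.univ.filter fun c : List.Vector Bool (gg s l) × List.Vector Bool s =>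
        ∃ q ∈ qq, ∃ a, a < kap s ∧ q = true :: ((glu c).1 ++ un a)).card ≤
        (qq.toFinset.image fun q => q.tail.take (gg s l + s)).card := by
      refine Finset.card_le_card_of_injOn (fun c => (glu c).1) ?_ ?_
      · intro c hc
        obtain ⟨q, hq, a, -, he⟩ := (Finset.mem_filter.1 hc).2
        refine Finset.mem_coe.2 (Finset.mem_image.2 ⟨q, List.mem_toFinset.2 hq, ?_⟩)
        rw [he, List.tail_cons, List.take_left' (glu c).2]
      · intro c _ c' _ he
        exact glu.injective (Subtype.ext he)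
    exact h1.trans (Finset.card_image_le.trans (List.toFinset_card_le qq))
  · intro G' hG'
    refine ⟨w, hw, ?_⟩
    rw [← hrun]
    symm
    apply run_congr
    intro q hq
    match q, hq with
    | [], _ => rfl
    | false :: q, _ => rfl
    | true :: q, hq =>
      change zer (kap s) (uns' G) R q = zer (kap s) (uns' G') R q
      have hmem : ∀ (y : List.Vector Bool (gg s l + s)) (a : ℕ), a < kap s →
          q = y.1 ++ un a → (y ∈ uns' G' ↔ y ∈ uns' G) := by
        intro y a ha he
        rw [lk_uns, lk_uns]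
        refine hG' (glu.symm y) (Finset.mem_filter.2 ⟨Finset.mem_univ _, _, hq, a, ha, ?_⟩)
        rw [Equiv.apply_symm_apply, he]
      have hiff : (∃ y ∈ uns' G, ∃ a, a < kap s ∧ q = y.1 ++ un a) ↔
          (∃ y ∈ uns' G', ∃ a, a < kap s ∧ q = y.1 ++ un a) := by
        constructor
        · rintro ⟨y, hy, a, ha, he⟩
          exact ⟨y, (hmem y a ha he).2 hy, a, ha, he⟩
        · rintro ⟨y, hy, a, ha, he⟩
          exact ⟨y, (hmem y a ha he).1 hy, a, ha, he⟩
      unfold zer
      by_cases hc : ∃ y ∈ uns' G, ∃ a, a < kap s ∧ q = y.1 ++ un a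
      · rw [if_pos hc, if_pos (hiff.1 hc)]
      · rw [if_neg hc, if_neg fun h' => hc (hiff.2 h')]

theorem sat_iff {s l : ℕ} {R : Oracle} (hR : marks R (gg s l + s) (kap s) = ∅)
    (i : List.Vector Bool (gg s l)) (x : Fin (jj s) ↪ List.Vector Bool s)
    (H : Finset (List.Vector Bool (gg s l + s))) :
    Sat (zer (kap s) H R) s (cd i.1 (code x)) ↔ AA vx x (sec glu H i) := by
  have hld : ld (code x) = List.ofFn fun i => (x i).1 := ld_lc _
  unfold Sat
  rw [cf_cd, cs_cd, hld]
  constructor
  · rintro ⟨y, hy, hm⟩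
    refine ⟨⟨y, hy⟩, fun k => ?_⟩
    rw [← lk_markc hR H i]
    exact hm (x k).1 (by rw [List.mem_ofFn]; exact ⟨k, rfl⟩)
  · rintro ⟨y, hy⟩
    refine ⟨y.1, y.2, fun u hu => ?_⟩
    rw [List.mem_ofFn] at hu
    obtain ⟨k, rfl⟩ := hu
    exact (lk_markc hR H i (vx y (x k))).2 (hy k)

theorem inv_iff {V : Vp} {s l : ℕ} {A R : Oracle} (H : Finset (List.Vector Bool (gg s l + s))) :
    Inv V A (zer (kap s) H R) s l ↔ Iv (aa V true A R s l) (aa V false A R s l) (sec glu H) := by
  unfold Inv Iv aa
  simp only [uns_sec]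
  constructor
  · rintro ⟨w, hw, u, hu, h⟩
    obtain ⟨v, rfl⟩ := exists_adv hw
    obtain ⟨i, x, rfl⟩ := exists_code_of_isInst hu
    exact ⟨v, i, x, h⟩
  · rintro ⟨v, i, x, h⟩
    exact ⟨v.2.1, by rw [v.2.2]; exact Nat.lt_succ_iff.mp v.1.2, cd i.1 (code x),
      isInst_code i x, h⟩

private theorem wrong_iff {V : Vp} {s l : ℕ} {A R : Oracle}
    (hR : marks R (gg s l + s) (kap s) = ∅) (H : Finset (List.Vector Bool (gg s l + s)))
    (v : Adv s) :
    Wrong V A (zer (kap s) H R) s l v.2.1 ↔
      ¬ Corr vx (aa V true A R s l) (aa V false A R s l) v (sec glu H) := by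
  unfold Wrong Corr aa
  simp only [uns_sec]
  constructor
  · rintro ⟨u, hu, h⟩ hc
    obtain ⟨i, x, rfl⟩ := exists_code_of_isInst hu
    rw [sat_iff hR i x H] at h
    rcases h with h | h
    · exact h (hc i x).1
    · exact h (hc i x).2
  · intro h
    push Not at h
    obtain ⟨i, x, h⟩ := h
    refine ⟨cd i.1 (code x), isInst_code i x, ?_⟩
    rw [sat_iff hR i x H]
    by_cases h1 : (ROA.acc V true A (zer (kap s) H R) l (cd (cd i.1 (code x)) v.2.1) ↔
        AA vx x (sec glu H i))
    · right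
      intro h2
      exact absurd h (by simp only [h1, h2]; tauto)
    · left
      exact h1

theorem fail_iff {V : Vp} {s l : ℕ} {A R : Oracle} (hR : marks R (gg s l + s) (kap s) = ∅)
    (H : Finset (List.Vector Bool (gg s l + s))) :
    Fail V A (zer (kap s) H R) s l ↔
      Iv (aa V true A R s l) (aa V false A R s l) (sec glu H) ∨
        FlA vx (aa V true A R s l) (aa V false A R s l) (sec glu H) := by
  unfold Fail FlA
  rw [inv_iff H]
  refine or_congr Iff.rfl ?_
  constructor
  · intro h v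
    exact (wrong_iff hR H v).1 (h v.2.1 (by rw [v.2.2]; exact Nat.lt_succ_iff.mp v.1.2))
  · intro h w hw
    obtain ⟨v, rfl⟩ := exists_adv hw
    exact (wrong_iff hR H v).2 (h v)

theorem win_iff {s l : ℕ} {R : Oracle} (hR : marks R (gg s l + s) (kap s) = ∅)
    (H : Finset (List.Vector Bool (gg s l + s))) :
    Win (zer (kap s) H R) s l ↔ ∀ i, 64 ^ cc s - 16 ^ cc s ≤ (sec glu H i).card ∧
      (sec glu H i).card < 64 ^ cc s + 16 ^ cc s := by
  classical
  have h1 : ∀ i : List.Vector Bool (gg s l), wmk (zer (kap s) H R) s i.1 = sec glu H i := by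
    intro i
    ext w
    rw [← lk_markc hR H i w]
    unfold wmk
    simp
  unfold Win mu dd
  constructor
  · intro h i
    rw [← h1 i]
    exact h i.1 i.2
  · intro h i hi
    have h2 := h ⟨i, hi⟩
    rw [← h1 ⟨i, hi⟩] at h2
    exact h2

end Pool.Agent.RC
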