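import Mathlib
import Pool.Agent.RO.LI
import Pool.Agent.RC.Link
import Pool.Agent.RC.CoE

set_option autoImplicit false

/-!
# RC-LI (job): the inequalities of one level

ADAPT `Pool/Agent/ROP/LI.lean` (everything there is private except `level_i1`, `level_i2`; copy it), with words of length `g + s`, `g = gg s l`, instead of `s`:
`RO.key_int (s := gg s l + s) (κ := kap s)`, `zer_of_lt` (`Dep s Y` gives `Dep (gg s l + s) Y`), and instead of the core lemma there `core_wt glu` with `op = vx`,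
`c = cc s`, `V := Adv s`, `a = al s + 1`, `P = h`, `j = jj s`, `κ = kap s`: `card_adv`; `HB.adv : al s ≤ h` so `a + 8 ≤ h + 9`; `par_big`; `two_pow_kap`;
`4000 * ((a + 8) * (h + 1)) ≤ 4000 * (h + 9)^2 ≤ 2^gg`; `card_vector`, `Fintype.card_bool`; `cer_aa`, `fail_iff`, `inv_iff`, `win_iff`.
-/

namespace Pool.Agent.RC

open MeasureTheory Pool.Agent.Helper22
open Pool.Agent.RO (Vp coin Dep)
open scoped ENNReal
open Pool.Agent.RO (wt zer marks Mark vx vx_comm vx_vx measurable_of_dep zer_of_lt)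

private theorem wt_ind {s κ : ℕ} (ρ : ℝ≥0∞) (Φ : Set Oracle) (R : Oracle) :
    wt ρ (fun H : Finset (List.Vector Bool s) => zer κ H R ∈ Φ) =
      ∑ H : Finset (List.Vector Bool s),
        ((zer κ H) ⁻¹' Φ).indicator (fun _ => ρ ^ H.card) R := by
  classical
  rw [wt, Finset.sum_filter]
  refine Finset.sum_congr rfl fun H _ => ?_
  rw [Set.indicator_apply]
  rfl

private theorem ind_meas {s κ : ℕ} (ρ : ℝ≥0∞) {Φ : Set Oracle} (hΦ : MeasurableSet Φ)
    (H : Finset (List.Vector Bool s)) :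
    Measurable (((zer κ H) ⁻¹' Φ).indicator fun _ : Oracle => ρ ^ H.card) :=
  measurable_const.indicator (Pool.Agent.RO.zer_measurable H hΦ)

private theorem wt_meas {s κ : ℕ} (ρ : ℝ≥0∞) {Φ : Set Oracle} (hΦ : MeasurableSet Φ) :
    Measurable fun R : Oracle =>
      wt ρ (fun H : Finset (List.Vector Bool s) => zer κ H R ∈ Φ) := by
  have h1 : (fun R : Oracle => wt ρ (fun H : Finset (List.Vector Bool s) => zer κ H R ∈ Φ)) =
      fun R => ∑ H : Finset (List.Vector Bool s),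
        ((zer κ H) ⁻¹' Φ).indicator (fun _ => ρ ^ H.card) R := funext fun R => wt_ind ρ Φ R
  rw [h1]
  exact Finset.measurable_fun_sum _ fun H _ => ind_meas ρ hΦ H

private theorem marks_dep (s κ : ℕ) : Dep (s + κ) {R | marks R s κ = ∅} := by
  intro R R' h
  have h1 : marks R s κ = marks R' s κ := by
    classical
    rw [marks, marks]
    refine Finset.filter_congr fun w _ => ?_
    rw [Mark, Mark]
    refine forall_congr' fun a => forall_congr' fun ha => ?_
    rw [h (w.1 ++ un a)]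
    rw [List.length_append, w.2]
    simp only [un, List.length_replicate]
    omega
  change marks R s κ = ∅ ↔ marks R' s κ = ∅
  rw [h1]

private theorem wt_congr {Λ : Type} [Fintype Λ] [DecidableEq Λ] (ρ : ℝ≥0∞)
    {Φ Ψ : Finset Λ → Prop} (h : ∀ G, Φ G ↔ Ψ G) : wt ρ Φ = wt ρ Ψ := by
  have h1 : Φ = Ψ := funext fun G => propext (h G)
  rw [h1]

private theorem wt_false {Λ : Type} [Fintype Λ] [DecidableEq Λ] (ρ : ℝ≥0∞)
    {Φ : Finset Λ → Prop} (h : ∀ G, ¬ Φ G) : wt ρ Φ = 0 := by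
  classical
  rw [wt, Finset.filter_false_of_mem fun G _ => h G, Finset.sum_empty]

private theorem zer_mem' {s g κ : ℕ} {Y : Set Oracle} (hY : Dep s Y)
    (G : Finset (List.Vector Bool (g + s))) (R : Oracle) : zer κ G R ∈ Y ↔ R ∈ Y :=
  hY _ _ fun _ hw => zer_of_lt G R (by omega)

private theorem kap_pos {s : ℕ} (hc : 5 ≤ cc s) : 1 ≤ kap s := by
  have h1 := par_s hc 0
  have h2 : 0 < 4 ^ cc s := by positivity
  unfold kap
  omega

private theorem core12 {V : Vp} {A : Oracle} {s l h : ℕ} (H : HB V s l h) (hc : 5 ≤ cc s)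
    (hb : 4000 * (h + 9) ^ 2 ≤ 2 ^ gg s l) {R : Oracle} (hR : marks R (gg s l + s) (kap s) = ∅) :
    wt (((2 ^ kap s - 1 : ℕ) : ℝ≥0∞)⁻¹)
        (fun G : Finset (List.Vector Bool (gg s l + s)) => ¬ Win (zer (kap s) G R) s l) ≤
      80 * wt (((2 ^ kap s - 1 : ℕ) : ℝ≥0∞)⁻¹)
        (fun G : Finset (List.Vector Bool (gg s l + s)) => Inv V A (zer (kap s) G R) s l) +
      (1 / (2 : ℝ≥0∞) ^ l) * wt (((2 ^ kap s - 1 : ℕ) : ℝ≥0∞)⁻¹)
        (fun G : Finset (List.Vector Bool (gg s l + s)) => Fail V A (zer (kap s) G R) s l) ∧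
    wt (((2 ^ kap s - 1 : ℕ) : ℝ≥0∞)⁻¹) (fun _ : Finset (List.Vector Bool (gg s l + s)) => True) ≤
      (2 : ℝ≥0∞) ^ (l + 23) * wt (((2 ^ kap s - 1 : ℕ) : ℝ≥0∞)⁻¹)
        (fun G : Finset (List.Vector Bool (gg s l + s)) => Fail V A (zer (kap s) G R) s l) := by
  have hκ := kap_pos hc
  obtain ⟨hp1, hp2⟩ := par_big hc hb
  have hcard : ∀ m : ℕ, Fintype.card (List.Vector Bool m) = 2 ^ m := by
    intro m
    rw [card_vector, Fintype.card_bool]
  have hadv := H.adv
  have hA : (al s + 1 + 8) * (h + 1) ≤ (h + 9) * (h + 1) := Nat.mul_le_mul_right _ (by omega)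
  have hI : Fintype.card (List.Vector Bool (gg s l)) = 2 ^ (cc s + lq (cc s) - (l + 13)) := by
    rw [hcard]
    rfl
  have hW : 4000 * ((al s + 1 + 8) * (h + 1)) ≤ Fintype.card (List.Vector Bool (gg s l)) := by
    rw [hcard]
    refine le_trans ?_ hb
    refine Nat.mul_le_mul_left _ (hA.trans ?_)
    rw [pow_two]
    exact Nat.mul_le_mul_left _ (by omega)
  have hN : 1024 * ((al s + 1 + 8) * (h + 1)) * 4096 ^ cc s ≤ Fintype.card (List.Vector Bool s) := by
    rw [hcard]
    refine le_trans ?_ hp2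
    exact Nat.mul_le_mul_right _ (Nat.mul_le_mul_left _ hA)
  have hΛ : Fintype.card (List.Vector Bool s) = 64 ^ cc s * 2 ^ kap s := by
    rw [hcard]
    exact two_pow_kap (by omega)
  have h1 := core_wt (c := cc s) (l := l) (a := al s + 1) (P := h) (j := jj s) (κ := kap s)
    (glu (g := gg s l) (s := s)) (op := vx) (fun x y => vx_comm x y) (fun x y => vx_vx x y)
    hc rfl hκ hΛ (card_adv s) hp1 hI hW hN (cer_aa H A R true) (cer_aa H A R false)
  obtain ⟨h2, h3⟩ := h1
  rw [wt_congr _ (fun G => (fail_iff (A := A) hR G).symm)] at h2 h3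
  rw [wt_congr _ (fun G => (inv_iff (A := A) G).symm),
    wt_congr _ (fun G => (not_congr (win_iff hR G)).symm)] at h2
  exact ⟨h2, h3⟩

theorem level_i1 {V : Vp} {A : Oracle} {s l h : ℕ} (H : HB V s l h) (hc : 5 ≤ cc s)
    (hb : 4000 * (h + 9) ^ 2 ≤ 2 ^ gg s l) {Y : Set Oracle} (hY : Dep s Y)
    (hF : MeasurableSet {R | Fail V A R s l}) (hI : MeasurableSet {R | Inv V A R s l})
    (hW : MeasurableSet {R | Win R s l}) :
    coin (Y ∩ {R | ¬ Win R s l}) ≤ 80 * coin (Y ∩ {R | Inv V A R s l}) +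
      (1 / (2 : ℝ≥0∞) ^ l) * coin (Y ∩ {R | Fail V A R s l}) := by
  have hκ := kap_pos hc
  have hYm := measurable_of_dep hY
  have hE := measurable_of_dep (marks_dep (gg s l + s) (kap s))
  have hW' : MeasurableSet {R : Oracle | ¬ Win R s l} := hW.compl
  rw [RO.key_int (s := gg s l + s) hκ (hYm.inter hW'), RO.key_int (s := gg s l + s) hκ (hYm.inter hI),
    RO.key_int (s := gg s l + s) hκ (hYm.inter hF), ← lintegral_const_mul _ (wt_meas _ (hYm.inter hI)),
    ← lintegral_const_mul _ (wt_meas _ (hYm.inter hF)),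
    ← lintegral_add_left ((wt_meas _ (hYm.inter hI)).const_mul _)]
  refine setLIntegral_mono' hE fun R hR => ?_
  by_cases hRY : R ∈ Y
  · have h1 := (core12 (A := A) H hc hb hR).1
    rw [wt_congr _ (Φ := fun G : Finset (List.Vector Bool (gg s l + s)) => ¬ Win (zer (kap s) G R) s l)
        (Ψ := fun G => zer (kap s) G R ∈ Y ∩ {R | ¬ Win R s l})
        (fun G => ⟨fun h => ⟨(zer_mem' hY G R).2 hRY, h⟩, fun h => h.2⟩),
      wt_congr _ (Φ := fun G : Finset (List.Vector Bool (gg s l + s)) => Inv V A (zer (kap s) G R) s l)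
        (Ψ := fun G => zer (kap s) G R ∈ Y ∩ {R | Inv V A R s l})
        (fun G => ⟨fun h => ⟨(zer_mem' hY G R).2 hRY, h⟩, fun h => h.2⟩),
      wt_congr _ (Φ := fun G : Finset (List.Vector Bool (gg s l + s)) => Fail V A (zer (kap s) G R) s l)
        (Ψ := fun G => zer (kap s) G R ∈ Y ∩ {R | Fail V A R s l})
        (fun G => ⟨fun h => ⟨(zer_mem' hY G R).2 hRY, h⟩, fun h => h.2⟩)] at h1
    exact h1
  · rw [wt_false _ fun G h => hRY ((zer_mem' hY G R).1 h.1)]
    exact zero_le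

theorem level_i2 {V : Vp} {A : Oracle} {s l h : ℕ} (H : HB V s l h) (hc : 5 ≤ cc s)
    (hb : 4000 * (h + 9) ^ 2 ≤ 2 ^ gg s l) {Y : Set Oracle} (hY : Dep s Y)
    (hF : MeasurableSet {R | Fail V A R s l}) :
    coin Y ≤ (2 : ℝ≥0∞) ^ (l + 23) * coin (Y ∩ {R | Fail V A R s l}) := by
  have hκ := kap_pos hc
  have hYm := measurable_of_dep hY
  have hE := measurable_of_dep (marks_dep (gg s l + s) (kap s))
  rw [RO.key_int (s := gg s l + s) hκ hYm, RO.key_int (s := gg s l + s) hκ (hYm.inter hF),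
    ← lintegral_const_mul _ (wt_meas _ (hYm.inter hF))]
  refine setLIntegral_mono' hE fun R hR => ?_
  by_cases hRY : R ∈ Y
  · have h1 := (core12 (A := A) H hc hb hR).2
    rw [wt_congr _ (Φ := fun _ : Finset (List.Vector Bool (gg s l + s)) => True)
        (Ψ := fun G => zer (kap s) G R ∈ Y)
        (fun G => ⟨fun _ => (zer_mem' hY G R).2 hRY, fun _ => trivial⟩),
      wt_congr _ (Φ := fun G : Finset (List.Vector Bool (gg s l + s)) => Fail V A (zer (kap s) G R) s l)
        (Ψ := fun G => zer (kap s) G R ∈ Y ∩ {R | Fail V A R s l})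
        (fun G => ⟨fun h => ⟨(zer_mem' hY G R).2 hRY, h⟩, fun h => h.2⟩)] at h1
    exact h1
  · rw [wt_false _ fun G h => hRY ((zer_mem' hY G R).1 h)]
    exact zero_le

end Pool.Agent.RC
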