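import Mathlib
import Pool.Agent.ROP.QdA
import Pool.Agent.RO.LinkA
import Pool.Agent.RC.Par

set_option autoImplicit false

/-!
# RC-Qd (job): no quadruples from some level on

ADAPT `Pool/Agent/ROP/QdB.lean` and `Pool/Agent/ROP/QdC.lean`.
PLAN. `coin_quad`: union over the `2^g` names `i` of the windows and the triples `(a, b, c)`; the fourth mark is `vx c (vx a b)`; four different marks of the window `i`
mean that `4 κ` different words (`i ++ w ++ un n`, `n < κ = kap s`) are not in the oracle (`ROP.coin_false`): the probability is at most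
`2^g * 2^(3 s) * 2^(-4 κ) = 2^(g + 24 c) * 2^(-s)`, `κ = s - 6 c` (`kap_eq`).
`ae_quad`: for `l ≤ i`, `s = lev S i`, `c = cc s ≥ 5`: `par_s` gives `g + 24 c ≤ s - 4^c`, so the probability is at most `(1/2)^(4^c)`; `4^c > s / 64` (`lt_cc`) and
`s = lev S i ≥ 64 * (2 i + 2)` (`lev S 0 = S ≥ 16 * 4^5`, and `lev S (i+1) = 2^(2^(lev S i)) ≥ 4 * lev S i`), so it is at most `(1/2)^(2 i + 2)`; union over
`l ≤ i`, Borel-Cantelli as in `QdC`.
-/

namespace Pool.Agent.RC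

open MeasureTheory Pool.Agent.Helper22
open Pool.Agent.RO (coin lev)
open scoped ENNReal

private theorem qd_inj {g s : ℕ} {i i' : List.Vector Bool g} {v v' : List.Vector Bool s}
    {a a' : ℕ} (h : i.1 ++ v.1 ++ un a = i'.1 ++ v'.1 ++ un a') : i = i' ∧ v = v' ∧ a = a' := by
  have h1 := List.append_inj h (by
    rw [List.length_append, List.length_append, i.2, i'.2, v.2, v'.2])
  have h3 := List.append_inj h1.1 (by rw [i.2, i'.2])
  refine ⟨Subtype.ext h3.1, Subtype.ext h3.2, ?_⟩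
  have h2 := congrArg List.length h1.2
  simpa [un_length] using h2

/-- the words which are not in the oracle if the words of `A` are marks of the window `i` -/
private def qdF {g s : ℕ} (κ : ℕ) (i : List.Vector Bool g) (A : Finset (List.Vector Bool s)) :
    Finset (List Bool) :=
  (A ×ˢ Finset.range κ).image fun p => i.1 ++ p.1.1 ++ un p.2

private theorem qdF_card {g s : ℕ} (κ : ℕ) (i : List.Vector Bool g)
    (A : Finset (List.Vector Bool s)) : (qdF κ i A).card = A.card * κ := by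
  unfold qdF
  rw [Finset.card_image_of_injOn, Finset.card_product, Finset.card_range]
  intro p _ q _ h
  obtain ⟨-, h1, h2⟩ := qd_inj h
  exact Prod.ext h1 h2

private theorem qd_marks {g s : ℕ} {R : Oracle} (i : List.Vector Bool g)
    (A : Finset (List.Vector Bool s)) (h : ∀ v ∈ A, v ∈ wmk R s i.1) :
    ∀ w ∈ qdF (kap s) i A, R w = false := by
  intro w hw
  unfold qdF at hw
  obtain ⟨p, hp, rfl⟩ := Finset.mem_image.1 hw
  obtain ⟨h1, h2⟩ := Finset.mem_product.1 hp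
  have h3 := h _ h1
  unfold wmk at h3
  have h4 : Pool.Agent.RO.Mark R (kap s) (i.1 ++ p.1.1) := by
    classical
    exact (Finset.mem_filter.1 h3).2
  exact h4 _ (Finset.mem_range.1 h2)

private theorem qd_half (a m : ℕ) : (2 : ℝ≥0∞) ^ a * (2⁻¹ : ℝ≥0∞) ^ (a + m) = (2⁻¹ : ℝ≥0∞) ^ m := by
  rw [pow_add, ← mul_assoc, ← mul_pow,
    ENNReal.mul_inv_cancel (by norm_num) ENNReal.ofNat_ne_top, one_pow, one_mul]

private theorem qd_num {g s κ B : ℕ} (h : s = κ + B) :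
    ((2 : ℝ≥0∞) ^ g * ((2 : ℝ≥0∞) ^ s) ^ 3) * (2⁻¹ : ℝ≥0∞) ^ (4 * κ) =
      (2 : ℝ≥0∞) ^ (g + 4 * B) * (2⁻¹ : ℝ≥0∞) ^ s := by
  have key : ∀ n : ℕ, (2 : ℝ≥0∞) ^ n * (2⁻¹ : ℝ≥0∞) ^ n = 1 := fun n => by
    have := qd_half n 0
    simpa using this
  have e1 : 4 * κ + 4 * B = 3 * s + s := by omega
  calc ((2 : ℝ≥0∞) ^ g * ((2 : ℝ≥0∞) ^ s) ^ 3) * (2⁻¹ : ℝ≥0∞) ^ (4 * κ)
      = ((2 : ℝ≥0∞) ^ g * ((2 : ℝ≥0∞) ^ s) ^ 3) * (2⁻¹ : ℝ≥0∞) ^ (4 * κ) *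
          ((2 : ℝ≥0∞) ^ (4 * B) * (2⁻¹ : ℝ≥0∞) ^ (4 * B)) := by rw [key, mul_one]
    _ = ((2 : ℝ≥0∞) ^ g * (2 : ℝ≥0∞) ^ (4 * B)) * (((2 : ℝ≥0∞) ^ s) ^ 3 *
          ((2⁻¹ : ℝ≥0∞) ^ (4 * κ) * (2⁻¹ : ℝ≥0∞) ^ (4 * B))) := by
        ring
    _ = (2 : ℝ≥0∞) ^ (g + 4 * B) * ((2 : ℝ≥0∞) ^ (3 * s) *
          ((2⁻¹ : ℝ≥0∞) ^ (3 * s) * (2⁻¹ : ℝ≥0∞) ^ s)) := by
        rw [← pow_add, ← pow_add, e1, pow_add _ (3 * s) s, ← pow_mul, mul_comm s 3]
    _ = (2 : ℝ≥0∞) ^ (g + 4 * B) * (2⁻¹ : ℝ≥0∞) ^ s := by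
        rw [← mul_assoc ((2 : ℝ≥0∞) ^ (3 * s)), key, one_mul]

theorem coin_quad {s : ℕ} (hc : 5 ≤ cc s) (l : ℕ) :
    coin {R | Quad R s l} ≤ (2 : ℝ≥0∞) ^ (gg s l + 24 * cc s) * (2⁻¹ : ℝ≥0∞) ^ s := by
  classical
  have hs' : s = kap s + 6 * cc s := (kap_eq (by omega : 1 ≤ cc s)).1.symm
  obtain ⟨A, hA⟩ : ∃ A : List.Vector Bool s × List.Vector Bool s × List.Vector Bool s →
      Finset (List.Vector Bool s), A = fun t =>
        {t.1, t.2.1, t.2.2, Pool.Agent.RO.vx t.2.2 (Pool.Agent.RO.vx t.1 t.2.1)} := ⟨_, rfl⟩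
  obtain ⟨T, hT⟩ : ∃ T : Finset (List.Vector Bool (gg s l) ×
      (List.Vector Bool s × List.Vector Bool s × List.Vector Bool s)),
      T = Finset.univ.filter fun t => (A t.2).card = 4 := ⟨_, rfl⟩
  have hsub : {R | Quad R s l} ⊆
      ⋃ t ∈ T, {R : Oracle | ∀ w ∈ qdF (kap s) t.1 (A t.2), R w = false} := by
    rintro R ⟨i, hi, a, b, c, d, ⟨⟨h1, h2, h3⟩, h4, h5, h6⟩, ⟨m1, m2, m3, m4⟩, hv⟩
    have hd : Pool.Agent.RO.vx c (Pool.Agent.RO.vx a b) = d := by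
      rw [hv, Pool.Agent.RO.vx_vx]
    have hAt : A (a, b, c) = {a, b, c, d} := by
      rw [hA]
      show ({a, b, c, Pool.Agent.RO.vx c (Pool.Agent.RO.vx a b)} :
        Finset (List.Vector Bool s)) = _
      rw [hd]
    have hc : ({a, b, c, d} : Finset (List.Vector Bool s)).card = 4 := by
      rw [Finset.card_insert_of_notMem, Finset.card_insert_of_notMem,
        Finset.card_insert_of_notMem, Finset.card_singleton]
      · rwa [Finset.mem_singleton]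
      · rw [Finset.mem_insert, Finset.mem_singleton]
        tauto
      · rw [Finset.mem_insert, Finset.mem_insert, Finset.mem_singleton]
        tauto
    refine Set.mem_iUnion₂.2 ⟨(⟨i, hi⟩, (a, b, c)), ?_, ?_⟩
    · rw [hT]
      exact Finset.mem_filter.2 ⟨Finset.mem_univ _, by rw [hAt, hc]⟩
    · show ∀ w ∈ qdF (kap s) (⟨i, hi⟩ : List.Vector Bool (gg s l)) (A (a, b, c)), R w = false
      rw [hAt]
      refine qd_marks _ _ ?_
      intro v hv'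
      rw [Finset.mem_insert, Finset.mem_insert, Finset.mem_insert, Finset.mem_singleton] at hv'
      rcases hv' with rfl | rfl | rfl | rfl
      · exact m1
      · exact m2
      · exact m3
      · exact m4
  have hterm : ∀ t ∈ T, coin {R : Oracle | ∀ w ∈ qdF (kap s) t.1 (A t.2), R w = false} =
      (2⁻¹ : ℝ≥0∞) ^ (4 * kap s) := by
    intro t ht
    rw [hT] at ht
    rw [Pool.Agent.ROP.coin_false, qdF_card, (Finset.mem_filter.1 ht).2]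
  have hcard : (T.card : ℝ≥0∞) ≤ (2 : ℝ≥0∞) ^ gg s l * ((2 : ℝ≥0∞) ^ s) ^ 3 := by
    have h1 : T.card ≤ 2 ^ gg s l * (2 ^ s) ^ 3 := by
      refine (Finset.card_le_univ T).trans (le_of_eq ?_)
      rw [Fintype.card_prod, Fintype.card_prod, Fintype.card_prod, card_vector, card_vector,
        Fintype.card_bool]
      ring
    calc (T.card : ℝ≥0∞) ≤ ((2 ^ gg s l * (2 ^ s) ^ 3 : ℕ) : ℝ≥0∞) := by exact_mod_cast h1
      _ = (2 : ℝ≥0∞) ^ gg s l * ((2 : ℝ≥0∞) ^ s) ^ 3 := by push_cast; rfl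
  have h24 : gg s l + 24 * cc s = gg s l + 4 * (6 * cc s) := by ring
  calc coin {R | Quad R s l}
      ≤ coin (⋃ t ∈ T, {R : Oracle | ∀ w ∈ qdF (kap s) t.1 (A t.2), R w = false}) :=
        measure_mono hsub
    _ ≤ ∑ t ∈ T, coin {R : Oracle | ∀ w ∈ qdF (kap s) t.1 (A t.2), R w = false} :=
        measure_biUnion_finset_le _ _
    _ = ∑ _t ∈ T, (2⁻¹ : ℝ≥0∞) ^ (4 * kap s) := Finset.sum_congr rfl hterm
    _ = (T.card : ℝ≥0∞) * (2⁻¹ : ℝ≥0∞) ^ (4 * kap s) := by rw [Finset.sum_const, nsmul_eq_mul]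
    _ ≤ ((2 : ℝ≥0∞) ^ gg s l * ((2 : ℝ≥0∞) ^ s) ^ 3) * (2⁻¹ : ℝ≥0∞) ^ (4 * kap s) := by gcongr
    _ = (2 : ℝ≥0∞) ^ (gg s l + 24 * cc s) * (2⁻¹ : ℝ≥0∞) ^ s := by
        rw [qd_num hs', h24]

private theorem qd_lev {S : ℕ} (hS : ∀ i, 5 ≤ cc (lev S i)) (i : ℕ) :
    64 * (2 * i + 2) ≤ lev S i := by
  have h0 : ∀ i, 16384 ≤ lev S i := by
    intro i
    have h1 := cc_le (s := lev S i) (by have := hS i; omega)
    have h2 : 4 ^ 5 ≤ 4 ^ cc (lev S i) := Nat.pow_le_pow_right (by norm_num) (hS i)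
    have h3 : (4 : ℕ) ^ 5 = 1024 := by norm_num
    omega
  have h4 : ∀ i, 16384 + 128 * i ≤ lev S i := by
    intro i
    induction i with
    | zero => simpa using h0 0
    | succ n ih =>
      have h5 : lev S (n + 1) = 2 ^ (2 ^ lev S n) := rfl
      have h6 : lev S n < 2 ^ lev S n := Nat.lt_two_pow_self
      have h7 : 2 ^ (lev S n + 1) ≤ 2 ^ (2 ^ lev S n) := Nat.pow_le_pow_right (by norm_num) h6
      have h8 : 2 ^ (lev S n + 1) = 2 * 2 ^ lev S n := by ring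
      rw [h5]
      omega
  have := h4 i
  omega

private theorem qd_one {S : ℕ} (hS : ∀ i, 5 ≤ cc (lev S i)) {i l : ℕ} :
    coin {R | Quad R (lev S i) l} ≤ (2⁻¹ : ℝ≥0∞) ^ (2 * i + 2) := by
  have h1 := qd_lev hS i
  have h2 := par_s (hS i) l
  have h3 := lt_cc (lev S i)
  obtain ⟨m, hm⟩ : ∃ m, lev S i = (gg (lev S i) l + 24 * cc (lev S i)) + m :=
    ⟨lev S i - (gg (lev S i) l + 24 * cc (lev S i)), by omega⟩
  have h4 : 2 * i + 2 ≤ m := by omega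
  refine (coin_quad (hS i) l).trans ?_
  have h5 : (2⁻¹ : ℝ≥0∞) ^ lev S i =
      (2⁻¹ : ℝ≥0∞) ^ ((gg (lev S i) l + 24 * cc (lev S i)) + m) := by rw [← hm]
  rw [h5, qd_half]
  exact pow_le_pow_right_of_le_one' (by norm_num) h4

private theorem qd_all {S : ℕ} (hS : ∀ i, 5 ≤ cc (lev S i)) (i : ℕ) :
    coin {R | ∃ l, l ≤ i ∧ Quad R (lev S i) l} ≤ (2⁻¹ : ℝ≥0∞) ^ i := by
  have h1 : {R | ∃ l, l ≤ i ∧ Quad R (lev S i) l} ⊆
      ⋃ l ∈ Finset.range (i + 1), {R | Quad R (lev S i) l} := by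
    rintro R ⟨l, hl, hR⟩
    refine Set.mem_iUnion₂.2 ⟨l, Finset.mem_range.2 (by omega), hR⟩
  refine (measure_mono h1).trans ((measure_biUnion_finset_le _ _).trans ?_)
  have h2 : ∑ l ∈ Finset.range (i + 1), coin {R | Quad R (lev S i) l} ≤
      ∑ _l ∈ Finset.range (i + 1), (2⁻¹ : ℝ≥0∞) ^ (2 * i + 2) :=
    Finset.sum_le_sum fun l _ => qd_one hS
  refine h2.trans ?_
  rw [Finset.sum_const, Finset.card_range, nsmul_eq_mul]
  have h3 : ((i + 1 : ℕ) : ℝ≥0∞) ≤ 2 ^ (i + 1) := by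
    have : i + 1 < 2 ^ (i + 1) := Nat.lt_two_pow_self
    exact_mod_cast this.le
  calc ((i + 1 : ℕ) : ℝ≥0∞) * (2⁻¹ : ℝ≥0∞) ^ (2 * i + 2)
      ≤ 2 ^ (i + 1) * (2⁻¹ : ℝ≥0∞) ^ (2 * i + 2) := by gcongr
    _ = (2⁻¹ : ℝ≥0∞) ^ (i + 1) := by
      rw [show 2 * i + 2 = (i + 1) + (i + 1) by ring, qd_half]
    _ ≤ (2⁻¹ : ℝ≥0∞) ^ i := pow_le_pow_right_of_le_one' (by norm_num) (by omega)

theorem ae_quad {S : ℕ} (hS : ∀ i, 5 ≤ cc (lev S i)) :
    ∀ᵐ R ∂coin, ∃ i₀, ∀ i, i₀ ≤ i → ∀ l, l ≤ i → ¬ Quad R (lev S i) l := by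
  have h1 : ∑' i, coin {R | ∃ l, l ≤ i ∧ Quad R (lev S i) l} ≠ ∞ := by
    have h2 : ∑' i, coin {R | ∃ l, l ≤ i ∧ Quad R (lev S i) l} ≤ ∑' i : ℕ, (2⁻¹ : ℝ≥0∞) ^ i :=
      ENNReal.tsum_le_tsum fun i => qd_all hS i
    refine ne_top_of_le_ne_top ?_ h2
    rw [ENNReal.tsum_geometric]
    norm_num
  filter_upwards [ae_eventually_notMem h1] with R hR
  obtain ⟨i₀, h2⟩ := Filter.eventually_atTop.1 hR
  exact ⟨i₀, fun i hi l hl hq => h2 i hi ⟨l, hl, hq⟩⟩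

end Pool.Agent.RC
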