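import Mathlib
import Pool.Agent.RO.CTq
import Pool.Agent.RC.Par

set_option autoImplicit false

/-!
# RC-C1a: a bound for everything which occurs at one level

Adapted from `Pool/Agent/ROP/C1a.lean`, with `B = 2 al s + l + 9` and `Z = B ^ (l + 2)`.
-/

namespace Pool.Agent.RC

open Pool.Agent.Helper22 N487b59b3
open Pool.Agent.RO (Vp pj pe pad pads qs qs_bound)

/-- the bound -/
def hbd (D s l : ℕ) : ℕ := ((2 * al s + l + 9) ^ (l + 2) + D) ^ D

private theorem c1r_enum_length (n : ℕ) : (enum n).length ≤ n := by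
  induction n with
  | zero => simp [enum]
  | succ n ih =>
    have h1 : enum (n + 1) = nxt (enum n) := by
      rw [enum, enum, Function.iterate_succ_apply']
    rw [h1]
    exact (nxt_length _).trans (Nat.succ_le_succ ih)

private theorem c1r_pj (l : ℕ) : (pj l).length ≤ l := (cf_length_le _).trans (c1r_enum_length l)

private theorem c1r_pe (l : ℕ) : pe l ≤ l :=
  (cf_length_le _).trans ((cs_length _).trans (c1r_enum_length l))

private theorem c1r_le2 {l X : ℕ} (hX : l + 9 ≤ X) :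
    2 * l + 1 + (2 * X + 1 + (X ^ l + l)) ≤ X ^ (l + 2) := by
  have hB1 : 1 ≤ X := by omega
  have h4 : 1 ≤ X ^ l := Nat.one_le_pow _ _ hB1
  have e2 : X ^ (l + 2) = X ^ l * (X * X) := by ring
  have h6 : 9 * X ≤ X * X := Nat.mul_le_mul_right X (by omega)
  have h7 : X ^ l * (9 * X) ≤ X ^ l * (X * X) := Nat.mul_le_mul_left _ h6
  have h8 : 1 * X ≤ X ^ l * X := Nat.mul_le_mul_right X h4
  have h9 : X ^ l * 1 ≤ X ^ l * X := Nat.mul_le_mul_left _ hB1
  have e3 : X ^ l * (9 * X) = 9 * (X ^ l * X) := by ring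
  rw [e2]
  omega

private theorem c1r_al {s : ℕ} (hc : 5 ≤ cc s) : 4 * (512 * 64 ^ cc s) ≤ al s := by
  unfold al
  generalize cc s = c at *
  have h1 : 4 * (512 * 64 ^ c) = 2 ^ (11 + 6 * c) := by
    rw [pow_add, pow_mul]
    norm_num
    ring
  have h2 : c < 2 ^ c := Nat.lt_two_pow_self
  have h3 : 2 ^ 5 ≤ 2 ^ c := Nat.pow_le_pow_right (by norm_num) hc
  have h4 : 2 ^ (c + 3) = 8 * 2 ^ c := by
    rw [pow_add]
    ring
  rw [h1]
  refine Nat.pow_le_pow_right (by norm_num) ?_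
  rw [h4]
  omega

private theorem c1r_inst {s l : ℕ} (hc : 5 ≤ cc s) {u : List Bool} (hu : IsInst s l u) :
    4 * u.length ≤ al s := by
  have h1 := inst_length hu
  have h2 := inst_le hc l
  have h3 := c1r_al hc
  omega

private theorem c1r_s {s : ℕ} (hc : 5 ≤ cc s) : 4 * s ≤ al s := by
  have h1 := lt_cc s
  have h2 := c1r_al hc
  have h3 : 4 ^ cc s ≤ 64 ^ cc s := Nat.pow_le_pow_left (by norm_num) _
  omega

private theorem c1r_dom {s l : ℕ} (hc : 5 ≤ cc s) {x : List Bool} (hx : Dom s l x) :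
    x.length ≤ 2 * al s + l + 9 := by
  obtain ⟨u, v, hu, hv, rfl⟩ := hx
  have h1 := c1r_inst hc hu
  rw [cd_length]
  omega

private theorem c1r_pads {s l B : ℕ} (hc : 5 ≤ cc s) (hB : B = 2 * al s + l + 9)
    {x : List Bool} (hx : Dom s l x) : (pads l x).length ≤ B ^ (l + 2) := by
  have e1 : (pads l x).length =
      2 * (pj l).length + 1 + (2 * x.length + 1 + (x.length ^ pe l + pe l)) := by
    rw [pads, pad, cd_length, cd_length, un_length]
  have h0 := c1r_dom hc hx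
  rw [← hB] at h0
  have h1 := c1r_pj l
  have h2 := c1r_pe l
  have h3 : x.length ^ pe l ≤ B ^ l :=
    (Nat.pow_le_pow_left h0 _).trans (Nat.pow_le_pow_right (by omega) h2)
  have h4 := c1r_le2 (l := l) (X := B) (by omega)
  omega

private theorem c1r_pow (Z e : ℕ) : Z ^ e + e ≤ (Z + (e + 1)) ^ (e + 1) := by
  have h1 : Z ^ e ≤ (Z + (e + 1)) ^ e := Nat.pow_le_pow_left (by omega) _
  have h2 : 1 ≤ (Z + (e + 1)) ^ e := Nat.one_le_pow _ _ (by omega)
  have h3 : 1 * e ≤ (Z + (e + 1)) ^ e * e := Nat.mul_le_mul_right _ h2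
  have e1 : (Z + (e + 1)) ^ (e + 1) =
      (Z + (e + 1)) ^ e * Z + (Z + (e + 1)) ^ e * e + (Z + (e + 1)) ^ e := by ring
  rw [e1]
  omega

private theorem c1r_Z (Z e : ℕ) : Z ≤ (Z + (e + 1)) ^ (e + 1) := by
  have h1 : Z + (e + 1) ≤ (Z + (e + 1)) ^ (e + 1) := Nat.le_self_pow (by omega) _
  omega

/-- the polynomial bound for one of the procedures -/
private theorem c1r_one (M : OracleProc (List Bool × List Bool) Bool) (p : Polynomial ℕ) :
    ∃ F : ℕ → ℕ, PB F ∧ (∀ n m, n ≤ m → p.eval n ≤ F m) ∧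
      ∀ (R : Oracle) (z w : List Bool) (n : ℕ), z.length ≤ n → w.length ≤ p.eval z.length →
        (qs M R (z, w)).length ≤ F n ∧ ∀ q ∈ qs M R (z, w), q.length ≤ F n := by
  obtain ⟨B, hB, hBm, hq⟩ := qs_bound M
  refine ⟨fun n => p.eval n + B (6 * n + 1 + 3 * p.eval n), ?_, ?_, ?_⟩
  · refine (PB.poly p).add (hB.comp ?_)
    exact (((PB.const 6).mul PB.id).add (PB.const 1)).add ((PB.const 3).mul (PB.poly p))
  · intro n m hnm
    exact (poly_mono p hnm).trans (Nat.le_add_right _ _)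
  · intro R z w n hz hw
    have h1 : sz (z, w) ≤ 6 * n + 1 + 3 * p.eval n := by
      have h2 : p.eval z.length ≤ p.eval n := poly_mono p hz
      rw [sz_pair, sz_bits, sz_bits]
      omega
    have h3 := hBm h1
    obtain ⟨h4, h5⟩ := hq R (z, w)
    refine ⟨?_, ?_⟩
    · show (qs M R (z, w)).length ≤ p.eval n + B (6 * n + 1 + 3 * p.eval n)
      omega
    · intro q hqq
      have h6 := h5 q hqq
      show q.length ≤ p.eval n + B (6 * n + 1 + 3 * p.eval n)
      omega

theorem exists_hb (V : Vp) : ∃ D, ∀ s l, 5 ≤ cc s → HB V s l (hbd D s l) := by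
  obtain ⟨F1, hF1, hm1, hq1⟩ := c1r_one (V true).1 (V true).2
  obtain ⟨F2, hF2, hm2, hq2⟩ := c1r_one (V false).1 (V false).2
  obtain ⟨p, hp⟩ := exists_poly (hF1.add hF2)
  obtain ⟨e, he⟩ := poly_le_pow p
  refine ⟨e + 1, ?_⟩
  intro s l hc
  obtain ⟨B, hB⟩ : ∃ B, B = 2 * al s + l + 9 := ⟨_, rfl⟩
  set Z : ℕ := B ^ (l + 2) with hZ
  have hh : hbd (e + 1) s l = (Z + (e + 1)) ^ (e + 1) := by
    rw [hbd, ← hB]
  have hF : F1 Z + F2 Z ≤ hbd (e + 1) s l := by
    rw [hh]
    exact ((hp Z).trans (he Z)).trans (c1r_pow Z e)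
  have hAZ : B ≤ Z := Nat.le_self_pow (by positivity) _
  have hZh : Z ≤ hbd (e + 1) s l := by
    rw [hh]
    exact c1r_Z Z e
  have hb : ∀ b : Bool, (∀ n m, n ≤ m → (V b).2.eval n ≤ F1 m + F2 m) ∧
      ∀ (R : Oracle) (z w : List Bool) (n : ℕ), z.length ≤ n →
        w.length ≤ (V b).2.eval z.length →
        (qs (V b).1 R (z, w)).length ≤ F1 n + F2 n ∧
          ∀ q ∈ qs (V b).1 R (z, w), q.length ≤ F1 n + F2 n := by
    intro b
    cases b with
    | true =>
      refine ⟨fun n m hnm => (hm1 n m hnm).trans (Nat.le_add_right _ _), ?_⟩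
      intro R z w n hz hw
      obtain ⟨h1, h2⟩ := hq1 R z w n hz hw
      exact ⟨h1.trans (Nat.le_add_right _ _), fun q hq => (h2 q hq).trans (Nat.le_add_right _ _)⟩
    | false =>
      refine ⟨fun n m hnm => (hm2 n m hnm).trans (Nat.le_add_left _ _), ?_⟩
      intro R z w n hz hw
      obtain ⟨h1, h2⟩ := hq2 R z w n hz hw
      exact ⟨h1.trans (Nat.le_add_left _ _), fun q hq => (h2 q hq).trans (Nat.le_add_left _ _)⟩
  refine ⟨?_, ?_, ?_, ?_, ?_, ?_, ?_⟩
  · have h1 : gg s l + 40 * cc s ≤ s := le_trans (Nat.le_add_right _ _) (par_s hc l)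
    have h2 := c1r_s hc
    omega
  · intro u hu
    have h1 := c1r_inst hc hu
    omega
  · omega
  · intro x hx
    exact (c1r_pads hc hB hx).trans hZh
  · intro x hx b
    exact ((hb b).1 _ _ (c1r_pads hc hB hx)).trans hF
  · intro x hx b R w hw
    exact ((hb b).2 R _ w Z (c1r_pads hc hB hx) hw).1.trans hF
  · intro x hx b R w hw q hq
    exact (((hb b).2 R _ w Z (c1r_pads hc hB hx) hw).2 q hq).trans hF

end Pool.Agent.RC
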