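import Mathlib
import Pool.Agent.RC.C1a

set_option autoImplicit false

/-!
# RC-C1b (job): the levels grow fast enough (arithmetic)

PLAN. Let `s = lev S i`, `c = cc s`, `z = 2^c`, so `al s = 2^(8 z)`, `4^c = z²`; `l ≤ i`.  `l + 9 ≤ al s`, so
`(2 al s + l + 9)^(l+2) ≤ (2^(8 z + 2))^(l+2)`, `hbd D s l ≤ 2^(((8 z + 2) (l + 2) + D) D)` (`cb_pow_add_le` in `Pool/Agent/ROP/C1b.lean`), and
`4000 * (hbd + 9)^2 ≤ 2^(12 + 2 (((8 z + 2) (l + 2) + D) D + 4))`.  By `gg_lower`: `gg s l ≥ z² / 4 - l - 15`.  So it is enough that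
`12 + 2 (((8 z + 2)(l + 2) + D) D + 4) + l + 15 ≤ z² / 4`, which holds if `z ≥ 200 (D + 1)² (i + 3)` (rough).  And `z² = 4^c > s / 64` (`lt_cc`), so it is enough that
`lev S i ≥ 64 * (200 (D + 1)² (i + 3))²` for all `i`: true for `i = 0` if `S` is large, and `lev S (i + 1) = 2^(2^(lev S i)) ≥ 16 * lev S i` keeps it
(`(i + 4)² ≤ 4 (i + 3)²`).
-/

namespace Pool.Agent.RC

open Pool.Agent.Helper22 N487b59b3
open Pool.Agent.RO (Vp lev)

private lemma cb_two_mul_le_pow (x : ℕ) : 2 * x ≤ 2 ^ x := by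
  rcases x with _ | x
  · simp
  · have h := (Nat.lt_two_pow_self (n := x))
    rw [pow_succ]
    omega

private lemma cb_four_mul_le (x : ℕ) : 4 * x ≤ 2 ^ (2 ^ x) := by
  have h1 : x + 1 ≤ 2 ^ x := Nat.lt_two_pow_self
  have h2 : 2 ^ (x + 1) ≤ 2 ^ (2 ^ x) := Nat.pow_le_pow_right (by norm_num) h1
  have h3 := cb_two_mul_le_pow x
  rw [pow_succ] at h2
  omega

private lemma cb_pow_add_le (a D : ℕ) : 2 ^ a + D ≤ 2 ^ (a + D) := by
  have h1 : 1 ≤ 2 ^ a := Nat.one_le_two_pow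
  have h2 : D + 1 ≤ 2 ^ D := Nat.lt_two_pow_self
  rw [pow_add]
  nlinarith

private lemma cb_lev (K : ℕ) (i : ℕ) :
    64 * (K * (i + 3)) ^ 2 ≤ lev (64 * (K * 3) ^ 2) i := by
  induction i with
  | zero => exact le_rfl
  | succ i ih =>
    have e : lev (64 * (K * 3) ^ 2) (i + 1) = 2 ^ (2 ^ lev (64 * (K * 3) ^ 2) i) := rfl
    rw [e]
    refine le_trans ?_ (cb_four_mul_le _)
    have h1 : (K * (i + 1 + 3)) ^ 2 ≤ 4 * (K * (i + 3)) ^ 2 := by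
      have h2 : K * (i + 1 + 3) ≤ 2 * (K * (i + 3)) := by
        have h3 : K * (i + 1 + 3) ≤ K * (2 * (i + 3)) := Nat.mul_le_mul_left _ (by omega)
        calc K * (i + 1 + 3) ≤ K * (2 * (i + 3)) := h3
          _ = 2 * (K * (i + 3)) := by ring
      calc (K * (i + 1 + 3)) ^ 2 ≤ (2 * (K * (i + 3))) ^ 2 := Nat.pow_le_pow_left h2 2
        _ = 4 * (K * (i + 3)) ^ 2 := by ring
    omega

private lemma cb_exp {D i l z : ℕ} (hl : l ≤ i) (hz : 200 * (D + 1) ^ 2 * (i + 3) ≤ z) :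
    4 * (2 * (((8 * z + 2) * (l + 2) + D) * D) + 20 + l + 15) ≤ z ^ 2 := by
  have hD1 : 1 ≤ (D + 1) ^ 2 := Nat.one_le_pow _ _ (by omega)
  have h1 : 200 * (i + 3) ≤ z := by
    calc 200 * (i + 3) = 200 * 1 * (i + 3) := by ring
      _ ≤ 200 * (D + 1) ^ 2 * (i + 3) :=
        Nat.mul_le_mul_right _ (Nat.mul_le_mul_left _ hD1)
      _ ≤ z := hz
  have hz1 : 1 ≤ z := by omega
  have h2 : (8 * z + 2) * (l + 2) + D ≤ 11 * z * (i + 2) * (D + 1) := by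
    have h3 : (8 * z + 2) * (l + 2) ≤ 10 * z * (i + 2) :=
      Nat.mul_le_mul (by omega) (by omega)
    have h4 : 1 ≤ z * (i + 2) := Nat.mul_pos hz1 (by omega)
    have h5 : D ≤ z * (i + 2) * D := Nat.le_mul_of_pos_left D h4
    have e1 : 11 * z * (i + 2) * (D + 1) = 11 * (z * (i + 2) * D) + 11 * (z * (i + 2)) := by ring
    have e2 : 10 * z * (i + 2) = 10 * (z * (i + 2)) := by ring
    rw [e1]
    rw [e2] at h3
    omega
  have h6 : ((8 * z + 2) * (l + 2) + D) * D ≤ 11 * z * (i + 2) * (D + 1) ^ 2 := by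
    calc ((8 * z + 2) * (l + 2) + D) * D ≤ 11 * z * (i + 2) * (D + 1) * (D + 1) :=
          Nat.mul_le_mul h2 (by omega)
      _ = 11 * z * (i + 2) * (D + 1) ^ 2 := by ring
  have h7 : 200 * (z * (D + 1) ^ 2 * (i + 3)) ≤ z ^ 2 := by
    calc 200 * (z * (D + 1) ^ 2 * (i + 3)) = 200 * (D + 1) ^ 2 * (i + 3) * z := by ring
      _ ≤ z * z := Nat.mul_le_mul_right _ hz
      _ = z ^ 2 := by ring
  have h8 : 11 * z * (i + 2) * (D + 1) ^ 2 ≤ 11 * (z * (D + 1) ^ 2 * (i + 3)) := by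
    have e3 : 11 * (z * (D + 1) ^ 2 * (i + 3)) =
        11 * z * (i + 2) * (D + 1) ^ 2 + 11 * z * (D + 1) ^ 2 := by ring
    rw [e3]
    exact Nat.le_add_right _ _
  have h9 : z ≤ z * (D + 1) ^ 2 * (i + 3) := by
    calc z = z * 1 * 1 := by ring
      _ ≤ z * (D + 1) ^ 2 * (i + 3) := Nat.mul_le_mul (Nat.mul_le_mul_left _ hD1) (by omega)
  omega

private lemma cb_hbd {D s i l z : ℕ} (hl : l ≤ i) (hz : 200 * (D + 1) ^ 2 * (i + 3) ≤ z)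
    (hA : al s = 2 ^ (8 * z)) :
    4000 * (hbd D s l + 9) ^ 2 ≤ 2 ^ (2 * (((8 * z + 2) * (l + 2) + D) * D) + 20) := by
  have hD1 : 1 ≤ (D + 1) ^ 2 := Nat.one_le_pow _ _ (by omega)
  have h1 : 200 * (i + 3) ≤ z := by
    calc 200 * (i + 3) = 200 * 1 * (i + 3) := by ring
      _ ≤ 200 * (D + 1) ^ 2 * (i + 3) :=
        Nat.mul_le_mul_right _ (Nat.mul_le_mul_left _ hD1)
      _ ≤ z := hz
  have h2 : l + 9 ≤ 2 ^ (8 * z) := by
    have h3 : l + 9 < 2 ^ (l + 9) := Nat.lt_two_pow_self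
    have h4 : 2 ^ (l + 9) ≤ 2 ^ (8 * z) := Nat.pow_le_pow_right (by norm_num) (by omega)
    omega
  have h5 : 2 * al s + l + 9 ≤ 2 ^ (8 * z + 2) := by
    rw [hA, pow_add]
    omega
  obtain ⟨E, hE⟩ : ∃ E, E = ((8 * z + 2) * (l + 2) + D) * D := ⟨_, rfl⟩
  have h6 : hbd D s l ≤ 2 ^ E := by
    unfold hbd
    calc ((2 * al s + l + 9) ^ (l + 2) + D) ^ D
        ≤ ((2 ^ (8 * z + 2)) ^ (l + 2) + D) ^ D :=
          Nat.pow_le_pow_left (Nat.add_le_add_right (Nat.pow_le_pow_left h5 _) _) _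
      _ = (2 ^ ((8 * z + 2) * (l + 2)) + D) ^ D := by rw [← pow_mul]
      _ ≤ (2 ^ ((8 * z + 2) * (l + 2) + D)) ^ D := Nat.pow_le_pow_left (cb_pow_add_le _ _) _
      _ = 2 ^ E := by rw [← pow_mul, hE]
  have h7 : hbd D s l + 9 ≤ 2 ^ (E + 4) := by
    have : 1 ≤ 2 ^ E := Nat.one_le_two_pow
    rw [pow_add]
    omega
  rw [← hE]
  calc 4000 * (hbd D s l + 9) ^ 2 ≤ 2 ^ 12 * (2 ^ (E + 4)) ^ 2 :=
        Nat.mul_le_mul (by norm_num) (Nat.pow_le_pow_left h7 2)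
    _ = 2 ^ (2 * E + 20) := by rw [← pow_mul, ← pow_add]; congr 1; ring

theorem exists_lev (D : ℕ) : ∃ S, ∀ i l, l ≤ i → 5 ≤ cc (lev S i) ∧
    4000 * (hbd D (lev S i) l + 9) ^ 2 ≤ 2 ^ gg (lev S i) l := by
  obtain ⟨K, hK⟩ : ∃ K, K = 200 * (D + 1) ^ 2 := ⟨_, rfl⟩
  refine ⟨64 * (K * 3) ^ 2, fun i l hl => ?_⟩
  have h1 := cb_lev K i
  obtain ⟨s, hs⟩ : ∃ s, s = lev (64 * (K * 3) ^ 2) i := ⟨_, rfl⟩
  rw [← hs] at h1 ⊢
  have h2 := lt_cc s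
  obtain ⟨z, hz⟩ : ∃ z, z = 2 ^ cc s := ⟨_, rfl⟩
  have h4 : 4 ^ cc s = z ^ 2 := by
    rw [hz, ← pow_mul, mul_comm, pow_mul]
    norm_num
  rw [h4] at h2
  have h5 : (K * (i + 3)) ^ 2 < z ^ 2 := by omega
  have h6 : K * (i + 3) < z := lt_of_pow_lt_pow_left₀ 2 (Nat.zero_le _) h5
  have hD1 : 1 ≤ (D + 1) ^ 2 := Nat.one_le_pow _ _ (by omega)
  have hK200 : 200 ≤ K := by omega
  have h7 : 600 ≤ z := by
    have : 200 * 3 ≤ K * (i + 3) := Nat.mul_le_mul hK200 (by omega)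
    omega
  have hc : 5 ≤ cc s := by
    by_contra hlt
    have h8 : 2 ^ cc s ≤ 2 ^ 4 := Nat.pow_le_pow_right (by norm_num) (by omega)
    have h9 : (2 : ℕ) ^ 4 = 16 := by norm_num
    omega
  refine ⟨hc, ?_⟩
  have hA : al s = 2 ^ (8 * z) := by
    unfold al
    rw [hz, pow_add, mul_comm]
    norm_num
  have hzz : 200 * (D + 1) ^ 2 * (i + 3) ≤ z := by
    rw [← hK]
    omega
  refine (cb_hbd hl hzz hA).trans (Nat.pow_le_pow_right (by norm_num) ?_)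
  have h10 := cb_exp hl hzz
  have h11 := gg_lower hc l
  rw [h4] at h11
  omega

theorem exists_big (V : Vp) : ∃ S, Big V S := by
  obtain ⟨D, hD⟩ := exists_hb V
  obtain ⟨S, hS⟩ := exists_lev D
  exact ⟨S, fun i l hli => ⟨(hS i l hli).1, hbd D (lev S i) l, hD _ _ (hS i l hli).1,
    (hS i l hli).2⟩⟩

end Pool.Agent.RC
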