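import Mathlib
import Pool.Agent.RO.CFpC
import Pool.Agent.RO.CWx
import Pool.Agent.RO.CLev
import Pool.Agent.ROP.CFpA
import Pool.Agent.RC.Par

set_option autoImplicit false

/-!
# RC, block C: definitions for the polynomial time machines

As in `Pool/Agent/ROP/CDefs.lean`: bounded versions of all notions; `r` is a bound in unary, `T` a list of the words which are in
the oracle, `s`, `l` numbers in unary (only the lengths matter).
-/

namespace Pool.Agent.RC

open N68a2faeb N793a5b8e N487b59b3 Pool.Agent.Helper22
open Pool.Agent.Helper20.Cons (join Po cRun)
open Pool.Agent.RO (Vp pads lev wx uns nodupB accB nxtU nz)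
open Pool.Agent.ROP (markB)

/-! ## The gadget -/

/-- the length of the words of the instance `z`, in unary -/
def nc (z : List Bool) : List Bool := nz (cs z)

/-- `u` is an instance -/
def instB (s l u : List Bool) : Bool :=
  ((weq (cd (cf u) (lc (ld (cs u)))) u && leneq (cf u) (un (gg s.length l.length))) &&
    leneq (un (ld (cs u)).length) (un (jj s.length))) &&
    (nodupB (ld (cs u)) && (ld (cs u)).all fun x => leneq x s)

/-- all words of some translate of `u` are marks -/
def satB (r : List Bool) (T : List (List Bool)) (s u : List Bool) : Bool :=
  (strs r).any fun y => leneq y s &&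
    (ld (cs u)).all fun x => markB T (un (kap s.length)) (cf u ++ wx y x)

/-! ## Advices and failures -/

/-- the advice strings -/
def advB (r s : List Bool) : List (List Bool) :=
  (strs r).filter fun v => decide (v.length ≤ (un (min (al s.length) (r.length + 1))).length)

/-- the reduction number `|l|` with the advice `v` is not correct for some instance -/
def wrongB (V : Vp) (r : List Bool) (T : List (List Bool)) (s l v : List Bool) : Bool :=
  (strs r).any fun u => instB s l u && (!(accB V true r T l (cd u v) == satB r T s u) ||
    (accB V false r T l (cd u v) == satB r T s u))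

/-- the verifiers are not complementary on the image of some instance with the advice `v` -/
def invB (V : Vp) (r : List Bool) (T : List (List Bool)) (s l v : List Bool) : Bool :=
  (strs r).any fun u => instB s l u && (accB V true r T l (cd u v) == accB V false r T l (cd u v))

/-- failure of the reduction number `|l|` for the words of length `|s|` -/
def failB (V : Vp) (r : List Bool) (T : List (List Bool)) (s l : List Bool) : Bool :=
  ((advB r s).any fun v => invB V r T s l v) || (advB r s).all fun v => wrongB V r T s l v

/-! ## Looking back -/

/-- one step: from the level and its number to the next level and its number -/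
def lstep (V : Vp) (r : List Bool) (T : List (List Bool)) (p : List Bool × List Bool) :
    List Bool × List Bool :=
  if decide ((nxtU p.1 r).length ≤ r.length) then
    (nxtU p.1 r, if failB V r T p.1 p.2 then true :: p.2 else p.2)
  else p

/-- the largest level which is at most `|r|`, and its number -/
def look (V : Vp) (S : ℕ) (r : List Bool) (T : List (List Bool)) : List Bool × List Bool :=
  (lstep V r T)^[r.length] (un S, [])

/-- `z` is an instance of a level `≥ i₀`, if `T` holds the positive answers for `strs (nc z)` -/
def levB (V : Vp) (S i₀ : ℕ) (z : List Bool) (T : List (List Bool)) : Bool :=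
  (leneq (look V S (nc z) T).1 (nc z) && decide ((un (lev S i₀)).length ≤ (nc z).length)) &&
    instB (look V S (nc z) T).1 (look V S (nc z) T).2 z

/-! ## The two verifiers of the new language -/

/-- the queries of the first verifier -/
def qY (a : List Bool × List Bool) : List (List Bool) :=
  strs (nc a.1) ++ (ld (cs a.1)).flatMap fun x => (uns (nc a.1)).map fun t =>
    true :: ((cf a.1 ++ wx a.2 x) ++ t)

/-- the output of the first verifier, from the list of the queries which are in the oracle -/
def dY (V : Vp) (S i₀ : ℕ) (c : (List Bool × List Bool) × List (List Bool)) : Bool :=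
  levB V S i₀ c.1.1 c.2 && (leneq c.1.2 (nc c.1.1) && (ld (cs c.1.1)).all fun x =>
    markB c.2 (un (kap (nc c.1.1).length)) (cf c.1.1 ++ wx c.1.2 x))

/-- the queries of the second verifier; the witness codes two lists of words -/
def qN (a : List Bool × List Bool) : List (List Bool) :=
  strs (nc a.1) ++ (ld (cf a.2) ++ ld (cs a.2)).flatMap fun e =>
    (uns (nc a.1)).map fun t => true :: ((cf a.1 ++ e) ++ t)

/-- the certificate of the second verifier, `s` in unary -/
def crtB (T : List (List Bool)) (s u : List Bool) (E F : List (List Bool)) : Bool :=
  ((nodupB E && leneq (un E.length ++ un (dd s.length)) (un (mu s.length))) &&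
    ((E.all fun e => leneq e s && markB T (un (kap s.length)) (cf u ++ e)) &&
      (F.all fun f => !markB T (un (kap s.length)) (cf u ++ f)))) &&
    (E.all fun e => (ld (cs u)).all fun x => (ld (cs u)).any fun x' => wmem F (wx (wx e x) x'))

/-- the output of the second verifier -/
def dN (V : Vp) (S i₀ : ℕ) (c : (List Bool × List Bool) × List (List Bool)) : Bool :=
  !levB V S i₀ c.1.1 c.2 || crtB c.2 (nc c.1.1) c.1.1 (ld (cf c.1.2)) (ld (cs c.1.2))

/-! ## Certificates -/

/-- the lists `E` (marks) and `F` (no marks) show that the instance `u` has no translate of
marks of its window -/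
def Crt (R : Oracle) (s : ℕ) (u : List Bool) (E F : List (List Bool)) : Prop :=
  (E.Nodup ∧ E.length + dd s = mu s) ∧
    (∀ e ∈ E, e.length = s ∧ RO.Mark R (kap s) (cf u ++ e)) ∧
    (∀ f ∈ F, ¬ RO.Mark R (kap s) (cf u ++ f)) ∧
    ∀ e ∈ E, ∀ x ∈ ld (cs u), ∃ x' ∈ ld (cs u), wx (wx e x) x' ∈ F

end Pool.Agent.RC
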