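import Mathlib
import Pool.Agent.ROP.CIns
import Pool.Agent.RC.CDefs

set_option autoImplicit false

/-!
# RC-CIns (job): the bounded versions are correct, part 1

ADAPT `Pool/Agent/ROP/CIns.lean` (`ROP.markB_iff` is for the same `markB`, use it), `Pool/Agent/RO/CIns.lean`, `Pool/Agent/RO/CMk.lean`, `Pool/Agent/RO/CAcc.lean`.
`instB_iff`: `weq_iff`, `leneq_iff`, `un_length`, `RO.nodupB_iff`, `List.all_eq_true`.
`satB_iff`: every `y` with `|y| = |s|` is in `strs r` (`Hrd.mem_strs_of_length`); the words `cf u ++ wx y x ++ un a`, `a < kap |s| ≤ |s|`, with `true` in front, have length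
at most `1 + gg + s + (kap - 1) ≤ 2 (gg + s) ≤ h`; and `join A R (true :: w) = R w`.
`accB_iff`: as in `ROP`, with the `Dom`, `HB` of this project.
-/

namespace Pool.Agent.RC

open N68a2faeb N793a5b8e N487b59b3 Pool.Agent.Helper22
open Pool.Agent.Helper20.Cons (join Po cRun)
open Pool.Agent.RO (Vp pads lev wx accB)

theorem instB_iff (s l u : List Bool) :
    instB s l u = true ↔ IsInst s.length l.length u := by
  rw [instB, Bool.and_eq_true, Bool.and_eq_true, Bool.and_eq_true, Bool.and_eq_true, weq_iff,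
    leneq_iff, leneq_iff, RO.nodupB_iff, List.all_eq_true, IsInst, un_length, un_length,
    un_length]
  constructor
  · rintro ⟨⟨⟨h1, h2⟩, h3⟩, h4, h5⟩
    exact ⟨h1, h2, h3, h4, fun x hx => (leneq_iff _ _).1 (h5 x hx)⟩
  · rintro ⟨h1, h2, h3, h4, h5⟩
    exact ⟨⟨⟨h1, h2⟩, h3⟩, h4, fun x hx => (leneq_iff _ _).2 (h5 x hx)⟩

theorem satB_iff {r : List Bool} {T : List (List Bool)} {A R : Oracle} {s u : List Bool}
    {l h : ℕ} (h2 : 2 * (gg s.length l + s.length) ≤ h) (hr : 2 ^ (h + 1) ≤ r.length)
    (hT : ∀ w : List Bool, w.length ≤ h → wmem T w = join A R w)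
    (hu : IsInst s.length l u) :
    satB r T s u = true ↔ Sat R s.length u := by
  obtain ⟨-, hg, -, -, hl⟩ := hu
  have key : ∀ y : List Bool, y.length = s.length → ∀ x ∈ ld (cs u),
      (ROP.markB T (un (kap s.length)) (cf u ++ wx y x) = true ↔
        RO.Mark R (kap s.length) (cf u ++ wx y x)) := by
    intro y hy x hx
    have h3 : (wx y x).length = s.length := by
      rw [wx, List.length_zipWith, hy, hl x hx, min_self]
    have h4 : (un (kap s.length)).length = kap s.length := un_length _
    have h5 : ROP.markB T (un (kap s.length)) (cf u ++ wx y x) = true ↔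
        RO.Mark R (un (kap s.length)).length (cf u ++ wx y x) := by
      refine ROP.markB_iff fun a ha => hT (true :: ((cf u ++ wx y x) ++ un a)) ?_
      rw [h4, kap] at ha
      rw [List.length_cons, List.length_append, List.length_append, un_length, h3, hg]
      omega
    rw [h4] at h5
    exact h5
  rw [satB, List.any_eq_true, Sat]
  constructor
  · rintro ⟨y, -, hy⟩
    rw [Bool.and_eq_true, leneq_iff, List.all_eq_true] at hy
    exact ⟨y, hy.1, fun x hx => (key y hy.1 x hx).1 (hy.2 x hx)⟩
  · rintro ⟨y, hy1, hy2⟩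
    refine ⟨y, Hrd.mem_strs_of_length (le_trans ?_ hr), ?_⟩
    · exact Nat.pow_le_pow_right (by norm_num) (by omega)
    · rw [Bool.and_eq_true, leneq_iff, List.all_eq_true]
      exact ⟨hy1, fun x hx => (key y hy1 x hx).2 (hy2 x hx)⟩

theorem accB_iff {V : Vp} {b : Bool} {r : List Bool} {T : List (List Bool)} {A R : Oracle}
    {s h : ℕ} {l x : List Bool} (hb : HB V s l.length h) (hr : 2 ^ (h + 1) ≤ r.length)
    (hT : ∀ w : List Bool, w.length ≤ h → wmem T w = join A R w) (hx : Dom s l.length x) :
    accB V b r T l x = true ↔ ROA.acc V b A R l.length x := by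
  have h0 : h < 2 ^ (h + 1) := lt_trans (Nat.lt_succ_self h) Nat.lt_two_pow_self
  have h1 : RO.padB l x r = RO.pads l.length x := RO.padB_eq (by
    have := hb.pad x hx
    omega)
  have key : ∀ w : List Bool, w.length ≤ (V b).2.eval (RO.pads l.length x).length →
      (V b).1.run (wmem T) (RO.pads l.length x, w) =
        (V b).1.run (join A R) (RO.pads l.length x, w) := by
    intro w hw
    exact RO.run_congr _ fun q hq => hT q (hb.len x hx b (wmem T) w hw q hq)
  rw [accB, h1, List.any_eq_true, ROA.acc, Accepts]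
  constructor
  · rintro ⟨w, -, hw⟩
    rw [Bool.and_eq_true, decide_eq_true_eq, un_length] at hw
    exact ⟨w, hw.1, by rw [← key w hw.1]; exact hw.2⟩
  · rintro ⟨w, hw1, hw2⟩
    refine ⟨w, Hrd.mem_strs_of_length (le_trans ?_ hr), ?_⟩
    · have := hb.wit x hx b
      exact Nat.pow_le_pow_right (by norm_num) (by omega)
    · rw [Bool.and_eq_true, decide_eq_true_eq, un_length]
      exact ⟨hw1, by rw [key w hw1]; exact hw2⟩

end Pool.Agent.RC
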