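import Mathlib
import Pool.Agent.ROP.CFact
import Pool.Agent.RC.CIns

set_option autoImplicit false

/-!
# RC-CFact (job): certificates for negative instances

ADAPT `Pool/Agent/ROP/CFact.lean` (and `Pool/Agent/RO/CCrt.lean`, `CFactA.lean`, `CFactB.lean`).  All is about the window `cf u` of the instance `u`.
PLAN. `exists_crt`: the window has at least `mu s - dd s` marks (`Win`): `E` a list of that many different ones.  For `e ∈ E` and a word `x` of the instance the translate by
`wx e x` is not contained in the marks (`¬ Sat`): some `x'` with `wx (wx e x) x'` no mark of the window; `F` is the list of these.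
`crt_sound`: if `y` is a translate with only marks then `E` and the words `wx y x` are at most `card < mu s + dd s` marks, `E` has `mu s - dd s` elements and there are
`jj s = 2 dd s` words `wx y x`, so `e = wx y x` for some `e ∈ E`, `x`; then `wx e x = y` and `wx (wx e x) x'` is a mark for all `x'`, a contradiction.
`crtB_iff`: `RO.nodupB_iff`, `leneq_iff`, `ROP.markB_iff`, `wmem_iff`.
`crt_length`: `|E| ≤ mu s = 64^c ≤ jj s * s ≤ |u|` (`cc_le`: `4^c ≤ s`; if `cc s = 0` it is `1`), `|u| ≥ jj s * (2 s + 1)` (`inst_length`).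
-/

namespace Pool.Agent.RC

open N68a2faeb N793a5b8e N487b59b3 Pool.Agent.Helper22

open Pool.Agent.RO (wx Mark wl_length wl_inj wl_cancel nodupB_iff)
open Pool.Agent.ROP (markB markB_iff)

private theorem cf_wmk {R : Oracle} {s : ℕ} {i : List Bool} {w : List.Vector Bool s} :
    w ∈ wmk R s i ↔ Mark R (kap s) (i ++ w.1) := by
  classical
  unfold wmk
  simp

theorem exists_crt {R : Oracle} {s l : ℕ} {u : List Bool} (hu : IsInst s l u) (hw : Win R s l)
    (hS : ¬ Sat R s u) : ∃ E F : List (List Bool), Crt R s u E F ∧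
      F.length = E.length * (ld (cs u)).length ∧ ∀ f ∈ F, f.length = s := by
  classical
  obtain ⟨hu1, hu0, hu2, hu3, hu4⟩ := hu
  obtain ⟨E0, hE0, hc⟩ := Finset.exists_subset_card_eq (hw (cf u) hu0).1
  have hdm : dd s ≤ mu s := by
    unfold dd mu
    exact Nat.pow_le_pow_left (by norm_num) _
  have hEm : ∀ e ∈ E0.toList.map (fun w : List.Vector Bool s => w.1),
      e.length = s ∧ Mark R (kap s) (cf u ++ e) := by
    intro e he
    obtain ⟨w, hw', rfl⟩ := List.mem_map.1 he
    exact ⟨w.2, cf_wmk.1 (hE0 (Finset.mem_toList.1 hw'))⟩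
  have hch : ∀ e x : List Bool, ∃ x' : List Bool,
      e ∈ E0.toList.map (fun w : List.Vector Bool s => w.1) → x ∈ ld (cs u) →
        x' ∈ ld (cs u) ∧ ¬ Mark R (kap s) (cf u ++ wx (wx e x) x') := by
    intro e x
    by_cases h : e ∈ E0.toList.map (fun w : List.Vector Bool s => w.1) ∧ x ∈ ld (cs u)
    · have hl : (wx e x).length = s := by
        rw [wl_length ((hEm e h.1).1.trans (hu4 x h.2).symm), (hEm e h.1).1]
      have h2 : ¬ ∀ x' ∈ ld (cs u), Mark R (kap s) (cf u ++ wx (wx e x) x') :=
        fun h3 => hS ⟨_, hl, h3⟩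
      push Not at h2
      obtain ⟨x', hx', h4⟩ := h2
      exact ⟨x', fun _ _ => ⟨hx', h4⟩⟩
    · exact ⟨[], fun h1 h2 => absurd ⟨h1, h2⟩ h⟩
  choose g hg using hch
  refine ⟨E0.toList.map (fun w : List.Vector Bool s => w.1),
    (E0.toList.map (fun w : List.Vector Bool s => w.1)).flatMap
      (fun e => (ld (cs u)).map (fun x => wx (wx e x) (g e x))), ⟨⟨?_, ?_⟩, hEm, ?_, ?_⟩, ?_, ?_⟩
  · exact (Finset.nodup_toList E0).map Subtype.val_injective
  · rw [List.length_map, Finset.length_toList, hc]
    omega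
  · intro f hf
    obtain ⟨e, he, hf⟩ := List.mem_flatMap.1 hf
    obtain ⟨x, hx, rfl⟩ := List.mem_map.1 hf
    exact (hg e x he hx).2
  · intro e he x hx
    exact ⟨g e x, (hg e x he hx).1,
      List.mem_flatMap.2 ⟨e, he, List.mem_map.2 ⟨x, hx, rfl⟩⟩⟩
  · rw [List.length_flatMap]
    simp
  · intro f hf
    obtain ⟨e, he, hf⟩ := List.mem_flatMap.1 hf
    obtain ⟨x, hx, rfl⟩ := List.mem_map.1 hf
    have h1 : (wx e x).length = s := by
      rw [wl_length ((hEm e he).1.trans (hu4 x hx).symm), (hEm e he).1]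
    rw [wl_length (h1.trans (hu4 _ (hg e x he hx).1).symm), h1]

theorem crt_sound {R : Oracle} {s l : ℕ} {u : List Bool} (hu : IsInst s l u) (hw : Win R s l)
    {E F : List (List Bool)} (hc : Crt R s u E F) : ¬ Sat R s u := by
  classical
  rintro ⟨y, hy, hm⟩
  obtain ⟨⟨hnd, hlen⟩, hE, hF, hx⟩ := hc
  obtain ⟨hu1, hu0, hu2, hu3, hu4⟩ := hu
  obtain ⟨M, hM⟩ : ∃ M : Finset (List Bool), M = (wmk R s (cf u)).image Subtype.val := ⟨_, rfl⟩
  have hMc : M.card < mu s + dd s := by
    rw [hM]
    exact lt_of_le_of_lt (Finset.card_image_le) (hw (cf u) hu0).2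
  have hmem : ∀ w : List Bool, w.length = s → Mark R (kap s) (cf u ++ w) → w ∈ M := by
    intro w h1 h2
    rw [hM]
    exact Finset.mem_image.2 ⟨⟨w, h1⟩, cf_wmk.2 h2, rfl⟩
  have hXnd : ((ld (cs u)).map (wx y)).Nodup := by
    refine List.Nodup.map_on ?_ hu3
    intro a ha b hb hab
    exact wl_inj (hy.trans (hu4 a ha).symm) (hy.trans (hu4 b hb).symm) hab
  have hXM : ((ld (cs u)).map (wx y)).toFinset ⊆ M := by
    intro w h1
    rw [List.mem_toFinset] at h1
    obtain ⟨x, hx', rfl⟩ := List.mem_map.1 h1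
    exact hmem _ (by rw [wl_length (hy.trans (hu4 x hx').symm), hy]) (hm x hx')
  have hEM : E.toFinset ⊆ M := by
    intro w h1
    rw [List.mem_toFinset] at h1
    exact hmem w (hE w h1).1 (hE w h1).2
  have hXc : ((ld (cs u)).map (wx y)).toFinset.card = jj s := by
    rw [List.toFinset_card_of_nodup hXnd, List.length_map, hu2]
  have hjd : jj s = 2 * dd s := rfl
  have hEc : E.toFinset.card = E.length := List.toFinset_card_of_nodup hnd
  have hnd2 : ¬ Disjoint E.toFinset ((ld (cs u)).map (wx y)).toFinset := by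
    intro hd
    have h1 := Finset.card_union_of_disjoint hd
    have h2 := Finset.card_le_card (Finset.union_subset hEM hXM)
    omega
  obtain ⟨e, he1, he2⟩ := Finset.not_disjoint_iff.1 hnd2
  rw [List.mem_toFinset] at he1 he2
  obtain ⟨x, hxu, rfl⟩ := List.mem_map.1 he2
  obtain ⟨x', hx', hxF⟩ := hx _ he1 x hxu
  rw [wl_cancel (hy.trans (hu4 x hxu).symm)] at hxF
  exact hF _ hxF (hm x' hx')

theorem crtB_iff {T : List (List Bool)} {R : Oracle} {s u : List Bool} {l : ℕ}
    {E F : List (List Bool)} (hu : IsInst s.length l u)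
    (hT : ∀ e ∈ E ++ F, ∀ a < s.length,
      wmem T (true :: ((cf u ++ e) ++ un a)) = R ((cf u ++ e) ++ un a)) :
    crtB T s u E F = true ↔ Crt R s.length u E F := by
  have hkap : kap s.length ≤ s.length := Nat.sub_le _ _
  have hmk : ∀ e ∈ E ++ F, (markB T (un (kap s.length)) (cf u ++ e) = true ↔
      Mark R (kap s.length) (cf u ++ e)) := by
    intro e he
    have h1 := markB_iff (T := T) (R := R) (k := un (kap s.length)) (w := cf u ++ e)
      (fun a ha => hT e he a (by rw [un_length] at ha; omega))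
    rwa [un_length] at h1
  have hlen : leneq (un E.length ++ un (dd s.length)) (un (mu s.length)) = true ↔
      E.length + dd s.length = mu s.length := by
    rw [leneq_iff, List.length_append, un_length, un_length, un_length]
  rw [crtB, Bool.and_eq_true, Bool.and_eq_true, Bool.and_eq_true, Bool.and_eq_true, nodupB_iff,
    hlen, List.all_eq_true, List.all_eq_true, List.all_eq_true, Crt]
  have e1 : (∀ x ∈ E, (leneq x s && markB T (un (kap s.length)) (cf u ++ x)) = true) ↔
      ∀ e ∈ E, e.length = s.length ∧ Mark R (kap s.length) (cf u ++ e) := by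
    refine forall₂_congr fun e he => ?_
    rw [Bool.and_eq_true, leneq_iff, hmk e (List.mem_append_left _ he)]
  have e2 : (∀ x ∈ F, (!markB T (un (kap s.length)) (cf u ++ x)) = true) ↔
      ∀ f ∈ F, ¬ Mark R (kap s.length) (cf u ++ f) := by
    refine forall₂_congr fun f hf => ?_
    rw [← hmk f (List.mem_append_right _ hf)]
    simp
  have e3 : (∀ x ∈ E, ((ld (cs u)).all fun y =>
      (ld (cs u)).any fun x' => wmem F (wx (wx x y) x')) = true) ↔
      ∀ e ∈ E, ∀ x ∈ ld (cs u), ∃ x' ∈ ld (cs u), wx (wx e x) x' ∈ F := by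
    refine forall₂_congr fun e he => ?_
    rw [List.all_eq_true]
    refine forall₂_congr fun x hx => ?_
    rw [List.any_eq_true]
    simp only [wmem_iff]
  rw [e1, e2, e3]
  tauto

private theorem lc_len (l : List (List Bool)) (s : ℕ) (h : ∀ w ∈ l, w.length = s) :
    (lc l).length = l.length * (2 * s + 1) := by
  induction l with
  | nil => simp [lc]
  | cons a l ih =>
    rw [lc, cd_length, h a List.mem_cons_self, ih fun w hw => h w (List.mem_cons_of_mem _ hw),
      List.length_cons]
    ring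

theorem crt_length {R : Oracle} {s l : ℕ} {u : List Bool} (hu : IsInst s l u)
    {E F : List (List Bool)} (hc : Crt R s u E F) (h1 : F.length = E.length * (ld (cs u)).length)
    (h2 : ∀ f ∈ F, f.length = s) : (cd (lc E) (lc F)).length ≤ 3 * u.length ^ 3 + 1 := by
  have hE := lc_len E s fun e he => (hc.2.1 e he).1
  have hF := lc_len F s h2
  have hU0 := inst_length hu
  have hJ : (ld (cs u)).length = jj s := hu.2.2.1
  have hU : (ld (cs u)).length * (2 * s + 1) ≤ u.length := by
    rw [hU0, hJ]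
    omega
  rw [cd_length, hE, hF, h1]
  have hJ1 : 1 ≤ (ld (cs u)).length := by
    rw [hJ]
    exact jj_pos s
  have hEJ : E.length ≤ (ld (cs u)).length ^ 2 := by
    have h3 := hc.1.2
    have h4 : mu s ≤ (jj s) ^ 2 := by
      unfold mu jj
      rw [mul_pow, ← pow_mul, mul_comm (cc s) 2, pow_mul]
      calc 64 ^ cc s ≤ (16 ^ 2) ^ cc s := Nat.pow_le_pow_left (by norm_num) _
        _ ≤ 2 ^ 2 * (16 ^ 2) ^ cc s := Nat.le_mul_of_pos_left _ (by norm_num)
    rw [hJ]
    omega
  have hU3 : ((ld (cs u)).length * (2 * s + 1)) ^ 3 ≤ u.length ^ 3 := Nat.pow_le_pow_left hU 3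
  generalize (ld (cs u)).length = J at *
  generalize E.length = m at *
  have hw : 1 ≤ 2 * s + 1 := by omega
  generalize 2 * s + 1 = w at *
  have g1 : m * w ≤ (J * w) ^ 3 := by
    calc m * w ≤ J ^ 2 * w := Nat.mul_le_mul_right _ hEJ
      _ ≤ J ^ 3 * w ^ 3 := by
        apply Nat.mul_le_mul
        · exact Nat.pow_le_pow_right hJ1 (by norm_num)
        · exact Nat.le_self_pow (by norm_num) w
      _ = (J * w) ^ 3 := (mul_pow _ _ _).symm
  have g2 : m * J * w ≤ (J * w) ^ 3 := by
    calc m * J * w ≤ J ^ 2 * J * w := by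
          apply Nat.mul_le_mul_right
          exact Nat.mul_le_mul_right _ hEJ
      _ = J ^ 3 * w := by ring
      _ ≤ J ^ 3 * w ^ 3 := Nat.mul_le_mul_left _ (Nat.le_self_pow (by norm_num) w)
      _ = (J * w) ^ 3 := (mul_pow _ _ _).symm
  omega

end Pool.Agent.RC
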