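import Mathlib
import Pool.Agent.RC.CIns

set_option autoImplicit false

/-!
# RC-CFail: the bounded version of failure is correct
-/

namespace Pool.Agent.RC

open N68a2faeb N793a5b8e N487b59b3 Pool.Agent.Helper22
open Pool.Agent.Helper20.Cons (join Po cRun)
open Pool.Agent.RO (Vp pads lev wx accB)

private theorem rcf_strs {r w : List Bool} {h : ℕ} (hr : 2 ^ (h + 1) ≤ r.length)
    (hw : w.length ≤ h) : w ∈ strs r :=
  Hrd.mem_strs_of_length (le_trans (Nat.pow_le_pow_right (by norm_num) (by omega)) hr)

theorem advB_iff {V : Vp} {r s l : List Bool} {h : ℕ} (hb : HB V s.length l.length h)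
    (hr : 2 ^ (h + 1) ≤ r.length) (v : List Bool) :
    v ∈ advB r s ↔ v.length ≤ al s.length := by
  have h0 : h < 2 ^ (h + 1) := lt_trans (Nat.lt_succ_self h) Nat.lt_two_pow_self
  have h1 := hb.adv
  have h2 : min (al s.length) (r.length + 1) = al s.length := min_eq_left (by omega)
  rw [advB, List.mem_filter, decide_eq_true_iff, un_length, h2]
  constructor
  · exact fun h3 => h3.2
  · exact fun h3 => ⟨rcf_strs hr (h3.trans h1), h3⟩

private theorem rcf_dom {s l : ℕ} {u v : List Bool} (hu : IsInst s l u) (hv : v.length ≤ al s) :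
    Dom s l (cd u v) := ⟨u, v, hu, hv, rfl⟩

private theorem rcf_wrong {V : Vp} {r : List Bool} {T : List (List Bool)} {A R : Oracle}
    {h : ℕ} {s l v : List Bool} (hb : HB V s.length l.length h)
    (hr : 2 ^ (h + 1) ≤ r.length)
    (hT : ∀ w : List Bool, w.length ≤ h → wmem T w = join A R w)
    (hv : v.length ≤ al s.length) :
    wrongB V r T s l v = true ↔ Wrong V A R s.length l.length v := by
  have key : ∀ u, IsInst s.length l.length u →
      ((!(accB V true r T l (cd u v) == satB r T s u) ||
        (accB V false r T l (cd u v) == satB r T s u)) = true ↔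
      (¬ (ROA.acc V true A R l.length (cd u v) ↔ Sat R s.length u) ∨
        ¬ (ROA.acc V false A R l.length (cd u v) ↔ ¬ Sat R s.length u))) := by
    intro u hu
    have hd := rcf_dom hu hv
    rw [← satB_iff hb.two hr hT hu, ← accB_iff hb hr hT hd, ← accB_iff hb hr hT hd]
    cases satB r T s u <;> cases accB V true r T l (cd u v) <;>
      cases accB V false r T l (cd u v) <;> simp
  rw [wrongB, List.any_eq_true, Wrong]
  constructor
  · rintro ⟨u, -, hu⟩
    rw [Bool.and_eq_true, instB_iff] at hu
    exact ⟨u, hu.1, (key u hu.1).1 hu.2⟩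
  · rintro ⟨u, hu1, hu2⟩
    refine ⟨u, rcf_strs hr (hb.inst u hu1), ?_⟩
    rw [Bool.and_eq_true, instB_iff]
    exact ⟨hu1, (key u hu1).2 hu2⟩

private theorem rcf_inv {V : Vp} {r : List Bool} {T : List (List Bool)} {A R : Oracle}
    {h : ℕ} {s l v : List Bool} (hb : HB V s.length l.length h)
    (hr : 2 ^ (h + 1) ≤ r.length)
    (hT : ∀ w : List Bool, w.length ≤ h → wmem T w = join A R w)
    (hv : v.length ≤ al s.length) :
    invB V r T s l v = true ↔ ∃ u, IsInst s.length l.length u ∧
      (ROA.acc V true A R l.length (cd u v) ↔ ROA.acc V false A R l.length (cd u v)) := by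
  have key : ∀ u, IsInst s.length l.length u →
      ((accB V true r T l (cd u v) == accB V false r T l (cd u v)) = true ↔
      (ROA.acc V true A R l.length (cd u v) ↔ ROA.acc V false A R l.length (cd u v))) := by
    intro u hu
    have hd := rcf_dom hu hv
    rw [← accB_iff hb hr hT hd, ← accB_iff hb hr hT hd]
    cases accB V true r T l (cd u v) <;> cases accB V false r T l (cd u v) <;> simp
  rw [invB, List.any_eq_true]
  constructor
  · rintro ⟨u, -, hu⟩
    rw [Bool.and_eq_true, instB_iff] at hu
    exact ⟨u, hu.1, (key u hu.1).1 hu.2⟩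
  · rintro ⟨u, hu1, hu2⟩
    refine ⟨u, rcf_strs hr (hb.inst u hu1), ?_⟩
    rw [Bool.and_eq_true, instB_iff]
    exact ⟨hu1, (key u hu1).2 hu2⟩

theorem failB_iff {V : Vp} {r : List Bool} {T : List (List Bool)} {A R : Oracle}
    {h : ℕ} {s l : List Bool} (hb : HB V s.length l.length h)
    (hr : 2 ^ (h + 1) ≤ r.length)
    (hT : ∀ w : List Bool, w.length ≤ h → wmem T w = join A R w) :
    failB V r T s l = true ↔ Fail V A R s.length l.length := by
  rw [failB, Bool.or_eq_true, List.any_eq_true, List.all_eq_true, Fail, Inv]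
  refine or_congr ?_ ?_
  · constructor
    · rintro ⟨v, hv, h1⟩
      rw [advB_iff hb hr] at hv
      exact ⟨v, hv, (rcf_inv hb hr hT hv).1 h1⟩
    · rintro ⟨v, hv, h1⟩
      exact ⟨v, (advB_iff hb hr v).2 hv, (rcf_inv hb hr hT hv).2 h1⟩
  · constructor
    · intro h1 v hv
      exact (rcf_wrong hb hr hT hv).1 (h1 v ((advB_iff hb hr v).2 hv))
    · intro h1 v hv
      rw [advB_iff hb hr] at hv
      exact (rcf_wrong hb hr hT hv).2 (h1 v hv)

end Pool.Agent.RC
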