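import Mathlib
import Pool.Agent.RC.CDefs

set_option autoImplicit false

/-!
# RC-FpP (job): the parameters in polynomial time

PLAN. `nc_FP`: `RO.nz_FP` and `FP.cs`.
`cc_FP`: `cc n` is the number of the `k < n` with `2^(2 k + 6) ≤ n` (`n = |s|`; `2 k + 6 ≤ Nat.log 2 n` iff `k < Nat.log 2 n / 2 - 2`; `Nat.pow_le_iff_le_log`),
so `un (cc s.length) = un ((uns s).filter fun k => decide ((pw [true, true] (k ++ (k ++ un 6)) s).length ≤ s.length)).length` (`pw_eq`: `pw b l t = un (min (|b|^|l|) (|t|+1))`;
`RO.FP.filter_ctx`, `FP.un_length`, `FP.pw`, `FP.length_le`).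
`jj_FP`, `mu_FP`, `dd_FP`: `16^(cc n) ≤ n²+1` and `64^(cc n) ≤ n³+1` (`cc_le`, or `cc n = 0`), so `un (16^(cc n)) = pw (un 16) (un (cc n)) (un (n * n))` and
`un (64^(cc n)) = pw (un 64) (un (cc n)) (un (n * n * n))` (`FP.unMul`, `FP.un_length`).
`kap_FP`: `kap n = n - 6 cc n` (`FP.drop`).
`al_FP`: `min (2^(2^(c+3))) (r+1)` is `pw [true, true] (pw [true, true] (un c ++ un 3) r) r` (if `2^(c+3) > r + 1` both are `r + 1`).
-/

namespace Pool.Agent.RC

open N68a2faeb N793a5b8e N487b59b3 Pool.Agent.Helper22

theorem nc_FP : FP fun z : List Bool => nc z := by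
  unfold nc
  exact RO.nz_FP.comp FP.cs'

private lemma fpp_range (n m : ℕ) :
    ((List.range n).filter fun k => decide (k < m)).length = min n m := by
  induction n with
  | zero => simp
  | succ n ih =>
    rw [List.range_succ, List.filter_append, List.length_append, ih]
    by_cases h : n < m
    · rw [List.filter_cons_of_pos (by simpa using h)]
      simp only [List.filter_nil, List.length_cons, List.length_nil]
      omega
    · rw [List.filter_cons_of_neg (by simpa using h)]
      simp only [List.filter_nil, List.length_nil]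
      omega

private lemma fpp_cc_le (n : ℕ) : cc n ≤ n := by
  unfold cc
  have h := Nat.log_le_self 2 n
  omega

private lemma fpp_cond (n k : ℕ) : 2 ^ (k + (k + 6)) ≤ n ↔ k < cc n := by
  unfold cc
  rcases Nat.eq_zero_or_pos n with rfl | hn
  · simp
  · rw [← Nat.le_log_iff_pow_le (by norm_num) (by omega)]
    omega

private def fppP (p : List Bool × List Bool) : Bool :=
  decide ((pw [true, true] (p.2 ++ (p.2 ++ un 6)) p.1).length ≤ p.1.length)

private lemma fppP_FP : FP fun p : List Bool × List Bool => fppP p := by
  unfold fppP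
  fun_prop

private lemma fppP_un (s : List Bool) (k : ℕ) : fppP (s, un k) = decide (k < cc s.length) := by
  unfold fppP
  rw [decide_eq_decide, pw_eq, un_length, List.length_append, List.length_append, un_length,
    un_length, ← fpp_cond]
  have h2 : ([true, true] : List Bool).length = 2 := rfl
  rw [h2]
  constructor
  · intro h
    change min (2 ^ (k + (k + 6))) (s.length + 1) ≤ s.length at h
    by_contra hlt
    omega
  · intro h
    exact le_trans (Nat.min_le_left _ _) h

private lemma fpp_cc (s : List Bool) :
    ((RO.uns s).filter fun k => fppP (s, k)).length = cc s.length := by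
  unfold RO.uns
  rw [List.filter_map, List.length_map]
  have h1 : (fun k => fppP (s, k)) ∘ un = fun k => decide (k < cc s.length) := by
    funext k
    exact fppP_un s k
  rw [h1, fpp_range]
  exact min_eq_right (fpp_cc_le _)

theorem cc_FP : FP fun s : List Bool => un (cc s.length) := by
  have h1 := (RO.FP.filter_ctx fppP_FP).comp (f := fun s : List Bool => (s, RO.uns s))
    (FP.pair (by fun_prop) (RO.FP.uns (by fun_prop)))
  refine (congrArg FP (funext fun s => ?_)).mp (FP.un_length h1)
  simp only
  rw [fpp_cc]

private lemma fpp_16 (n : ℕ) : 16 ^ cc n ≤ n * n + 1 := by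
  rcases Nat.eq_zero_or_pos (cc n) with h | h
  · rw [h]
    omega
  · have h1 := cc_le h
    have h2 : 4 ^ cc n ≤ n := by omega
    calc 16 ^ cc n = 4 ^ cc n * 4 ^ cc n := by rw [← mul_pow]; norm_num
      _ ≤ n * n := Nat.mul_le_mul h2 h2
      _ ≤ n * n + 1 := Nat.le_succ _

private lemma fpp_64 (n : ℕ) : 64 ^ cc n ≤ n * n * n + 1 := by
  rcases Nat.eq_zero_or_pos (cc n) with h | h
  · rw [h]
    omega
  · have h1 := cc_le h
    have h2 : 4 ^ cc n ≤ n := by omega
    calc 64 ^ cc n = 4 ^ cc n * 4 ^ cc n * 4 ^ cc n := by
          rw [← mul_pow, ← mul_pow]; norm_num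
      _ ≤ n * n * n := Nat.mul_le_mul (Nat.mul_le_mul h2 h2) h2
      _ ≤ n * n * n + 1 := Nat.le_succ _

theorem dd_FP : FP fun s : List Bool => un (dd s.length) := by
  have h0 : FP fun s : List Bool => un (s.length * s.length) :=
    FP.unMul (by fun_prop) (by fun_prop)
  have h1 : FP fun s : List Bool => pw (un 16) (un (cc s.length)) (un (s.length * s.length)) :=
    FP.pw (FP.const _) cc_FP h0
  refine (congrArg FP (funext fun s => ?_)).mp h1
  rw [pw_eq, un_length, un_length, un_length, min_eq_left (fpp_16 _)]
  rfl

theorem jj_FP : FP fun s : List Bool => un (jj s.length) := by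
  refine (congrArg FP (funext fun s => ?_)).mp (FP.append dd_FP dd_FP)
  rw [← un_add]
  unfold dd jj
  rw [two_mul]

theorem mu_FP : FP fun s : List Bool => un (mu s.length) := by
  have h0 : FP fun s : List Bool => un (s.length * s.length) :=
    FP.unMul (by fun_prop) (by fun_prop)
  have h2 : FP fun s : List Bool => un (s.length * s.length * s.length) := by
    have h3 : FP fun s : List Bool => un ((un (s.length * s.length)).length * s.length) :=
      FP.unMul h0 (by fun_prop)
    refine (congrArg FP (funext fun s => ?_)).mp h3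
    rw [un_length]
  have h1 : FP fun s : List Bool =>
      pw (un 64) (un (cc s.length)) (un (s.length * s.length * s.length)) :=
    FP.pw (FP.const _) cc_FP h2
  refine (congrArg FP (funext fun s => ?_)).mp h1
  rw [pw_eq, un_length, un_length, un_length, min_eq_left (fpp_64 _)]
  rfl

theorem kap_FP : FP fun s : List Bool => un (kap s.length) := by
  have h0 : FP fun s : List Bool => un ((un 6).length * (un (cc s.length)).length) :=
    FP.unMul (FP.const _) cc_FP
  have h1 : FP fun s : List Bool =>
      (un s.length).drop (un ((un 6).length * (un (cc s.length)).length)).length :=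
    FP.drop (by fun_prop) h0
  refine (congrArg FP (funext fun s => ?_)).mp h1
  rw [un_length, un_length, un_length]
  unfold kap un
  rw [List.drop_replicate]

theorem al_FP : FP fun p : List Bool × List Bool => un (min (al p.2.length) (p.1.length + 1)) := by
  have h0 : FP fun p : List Bool × List Bool => un (cc p.2.length) := cc_FP.comp FP.snd
  have h1 : FP fun p : List Bool × List Bool => pw [true, true] (un (cc p.2.length) ++ un 3) p.1 :=
    FP.pw (FP.const _) (FP.append h0 (FP.const _)) FP.fst
  have h2 : FP fun p : List Bool × List Bool =>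
      pw [true, true] (pw [true, true] (un (cc p.2.length) ++ un 3) p.1) p.1 :=
    FP.pw (FP.const _) h1 FP.fst
  refine (congrArg FP (funext fun p => ?_)).mp h2
  rw [pw_eq, pw_eq, un_length, List.length_append, un_length, un_length]
  simp only [List.length_cons, List.length_nil]
  congr 1
  unfold al
  generalize p.1.length + 1 = r
  have h3 : r < 2 ^ r := Nat.lt_two_pow_self
  rcases Nat.le_total (2 ^ (cc p.2.length + 3)) r with h | h
  · norm_num
    rw [min_eq_left h]
  · have h4 : 2 ^ r ≤ 2 ^ (2 ^ (cc p.2.length + 3)) := Nat.pow_le_pow_right (by norm_num) h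
    norm_num
    rw [min_eq_right h, min_eq_right h3.le, min_eq_right (h3.le.trans h4)]

end Pool.Agent.RC
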