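import Mathlib
import Pool.Agent.RO.CTlA
import Pool.Agent.RO.CTlB

set_option autoImplicit false

/-!
# RC-FpD (job): division in unary in polynomial time
-/

namespace Pool.Agent.RC

open N68a2faeb N793a5b8e N487b59b3 Pool.Agent.Helper22

private theorem filter_lt (a m : ℕ) :
    ((List.range a).filter fun k => decide (k < m)).length = min a m := by
  induction a with
  | zero => simp
  | succ a ih =>
    rw [List.range_succ, List.filter_append, List.length_append, ih, List.filter_cons,
      List.filter_nil]
    by_cases h : a < m
    · rw [if_pos (decide_eq_true h), List.length_singleton]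
      omega
    · rw [if_neg (by simpa using h), List.length_nil]
      omega

private theorem filter_div {a b : ℕ} (hb : 0 < b) :
    ((List.range a).filter fun k => decide ((k + 1) * b ≤ a)).length = a / b := by
  have h : (fun k => decide ((k + 1) * b ≤ a)) = fun k => decide (k < a / b) := by
    funext k
    have : (k + 1) * b ≤ a ↔ k < a / b := by
      rw [← Nat.le_div_iff_mul_le hb]
      exact Nat.succ_le_iff
    exact decide_eq_decide.2 this
  rw [h, filter_lt, min_eq_right (Nat.div_le_self a b)]

/-- the test -/
private def tst (q : (List Bool × List Bool) × List Bool) : Bool :=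
  decide ((un ((q.2 ++ un 1).length * q.1.2.length)).length ≤ q.1.1.length)

private theorem tst_FP : FP tst := by
  have h1 : FP fun q : (List Bool × List Bool) × List Bool => q.2 ++ un 1 :=
    FP.snd.append (FP.const _)
  have h2 : FP fun q : (List Bool × List Bool) × List Bool => q.1.2 := FP.fst.snd'
  have h3 : FP fun q : (List Bool × List Bool) × List Bool => q.1.1 := FP.fst.fst'
  exact FP.length_le (FP.unMul h1 h2) h3

private theorem filter_tst (p : List Bool × List Bool) (h : p.2 ≠ []) :
    ((Pool.Agent.RO.uns p.1).filter fun k => tst (p, k)).length = p.1.length / p.2.length := by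
  have hb : 0 < p.2.length := List.length_pos_iff.2 h
  rw [← filter_div hb]
  unfold Pool.Agent.RO.uns
  rw [List.filter_map, List.length_map]
  have e : ((fun k => tst (p, k)) ∘ un) = fun k => decide ((k + 1) * p.2.length ≤ p.1.length) := by
    funext k
    show tst (p, un k) = _
    unfold tst
    rw [un_length, List.length_append, un_length, un_length]
  rw [e]

theorem div_FP : FP fun p : List Bool × List Bool => un (p.1.length / p.2.length) := by
  have h1 := Pool.Agent.RO.FP.filter_ctx tst_FP
  have h2 : FP fun p : List Bool × List Bool =>
      (Pool.Agent.RO.uns p.1).filter fun k => tst (p, k) :=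
    h1.comp (f := fun p : List Bool × List Bool => (p, Pool.Agent.RO.uns p.1))
      (FP.id.pair (Pool.Agent.RO.FP.uns FP.fst))
  have h3 : FP fun p : List Bool × List Bool => if p.2.isEmpty then ([] : List Bool) else
      un ((Pool.Agent.RO.uns p.1).filter fun k => tst (p, k)).length :=
    FP.ite (FP.isEmpty FP.snd) (FP.const []) (FP.un_length h2)
  refine (congrArg FP (funext fun p => ?_)).mp h3
  by_cases h : p.2 = []
  · rw [if_pos (by rw [h]; rfl), h, List.length_nil, Nat.div_zero]
    rfl
  · rw [if_neg (by simpa using h), filter_tst p h]

end Pool.Agent.RC
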