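import Mathlib
import Pool.Agent.RC.FpP
import Pool.Agent.RC.FpD

set_option autoImplicit false

/-!
# RC-FpQ (job): `lq` and `gg` in polynomial time

PLAN. The state of the computation of `run c k`, `c = cc |s|`, is `(k, (x, e))` in unary with the context `(m, b)`, `m = un (64^c)`,
`b = un (16 * 16^c)` (`mu_FP`, `dd_FP`): the step is `(k, (x, e)) ↦ (k + 1, stp c (k + 1) (x, e))`, with `p.1 * (k+1) / 64^c` by `FP.unMul` and
`div_FP`, the comparison by `FP.length_le`, the halving by `div_FP` with `un 2`; the words are truncated at the length of `b`, which changes nothing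
by `run_bound`.  `FP.iterate`, iterated `16^c` times from `(0, (8 * 16^c, 0))`.
`gg_FP`: `gg s l = cc s + lq (cc s) - (l + 13)` (`FP.append`, `FP.drop`).
-/

namespace Pool.Agent.RC

open N68a2faeb N793a5b8e N487b59b3 Pool.Agent.Helper22

/-- `x + x k / m` in unary -/
private def fy (m k x : List Bool) : List Bool :=
  x ++ un ((un (x.length * (true :: k).length)).length / m.length)

/-- the step in unary -/
private def fs (m b : List Bool) (p : List Bool × (List Bool × List Bool)) :
    List Bool × (List Bool × List Bool) :=
  if decide (b.length ≤ (fy m p.1 p.2.1).length) then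
    (true :: p.1, ((un ((fy m p.1 p.2.1).length / (un 2).length)).take b.length, true :: p.2.2))
  else (true :: p.1, ((fy m p.1 p.2.1).take b.length, p.2.2))

private theorem unl (n : ℕ) : (un n).length = n := List.length_replicate

private theorem una (a b : ℕ) : un a ++ un b = un (a + b) := by
  unfold un
  rw [List.replicate_add]

private theorem unt {a b : ℕ} (h : a ≤ b) : (un a).take b = un a :=
  List.take_of_length_le (by rw [unl]; exact h)

private theorem fy_un (c k x : ℕ) :
    fy (un (64 ^ c)) (un k) (un x) = un (x + x * (k + 1) / 64 ^ c) := by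
  unfold fy
  rw [unl, unl, List.length_cons, unl, unl, una]

private theorem fs_run (c k : ℕ) (hk : k ≤ 16 ^ c) :
    (fs (un (64 ^ c)) (un (16 * 16 ^ c)))^[k] (([] : List Bool), (un (8 * 16 ^ c), [])) =
      (un k, (un (run c k).1, un (run c k).2)) := by
  induction k with
  | zero => rfl
  | succ k ih =>
    rw [Function.iterate_succ_apply', ih (by omega)]
    have hb := (run_bound c (k + 1) hk).1
    have hr : run c (k + 1) = stp c (k + 1) (run c k) := rfl
    rw [hr] at hb ⊢
    unfold fs stp
    unfold stp at hb
    rw [fy_un, unl, unl, unl]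
    by_cases h : 16 * 16 ^ c ≤ (run c k).1 + (run c k).1 * (k + 1) / 64 ^ c
    · rw [if_pos h] at hb
      rw [if_pos h, if_pos (decide_eq_true h), unt hb.le]
      rfl
    · rw [if_neg h] at hb
      rw [if_neg h, if_neg (fun h' => h (of_decide_eq_true h')), unt hb.le]
      rfl

/-- the step with its context -/
private def fc (p : List Bool × (List Bool × (List Bool × (List Bool × List Bool)))) :
    List Bool × (List Bool × (List Bool × (List Bool × List Bool))) :=
  (p.1, (p.2.1, fs p.1 p.2.1 p.2.2))

private theorem fc_iter (m b : List Bool) (q : List Bool × (List Bool × List Bool)) (i : ℕ) :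
    fc^[i] (m, (b, q)) = (m, (b, (fs m b)^[i] q)) := by
  induction i with
  | zero => rfl
  | succ i ih => rw [Function.iterate_succ_apply', ih, Function.iterate_succ_apply']; rfl

private theorem fp_fy {α : Type} [N487b59b3 α] {f g h : α → List Bool} (hf : FP f) (hg : FP g)
    (hh : FP h) : FP fun a => fy (f a) (g a) (h a) := by
  unfold fy
  exact hh.append (div_FP.comp ((FP.unMul hh ((FP.const true).cons hg)).pair hf))

private theorem fc_FP : FP fc := by
  have e1 : FP fun p : List Bool × (List Bool × (List Bool × (List Bool × List Bool))) => p.1 :=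
    FP.fst
  have e2 : FP fun p : List Bool × (List Bool × (List Bool × (List Bool × List Bool))) => p.2.1 :=
    FP.snd.fst'
  have e3 : FP fun p : List Bool × (List Bool × (List Bool × (List Bool × List Bool))) => p.2.2.1 :=
    FP.snd.snd'.fst'
  have e4 : FP fun p : List Bool × (List Bool × (List Bool × (List Bool × List Bool))) => p.2.2.2.1 :=
    FP.snd.snd'.snd'.fst'
  have e5 : FP fun p : List Bool × (List Bool × (List Bool × (List Bool × List Bool))) => p.2.2.2.2 :=
    FP.snd.snd'.snd'.snd'
  have e6 : FP fun p : List Bool × (List Bool × (List Bool × (List Bool × List Bool))) =>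
      fy p.1 p.2.2.1 p.2.2.2.1 := fp_fy e1 e3 e4
  have e7 : FP fun p : List Bool × (List Bool × (List Bool × (List Bool × List Bool))) =>
      fs p.1 p.2.1 p.2.2 := by
    unfold fs
    refine FP.ite (FP.length_le e2 e6) (((FP.const true).cons e3).pair
      ((FP.take ?_ e2).pair ((FP.const true).cons e5)))
      (((FP.const true).cons e3).pair ((FP.take e6 e2).pair e5))
    exact div_FP.comp (e6.pair (FP.const (un 2)))
  exact e1.pair (e2.pair e7)

private theorem fs_len (m b : List Bool) (q : List Bool × (List Bool × List Bool)) (i : ℕ) :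
    ((fs m b)^[i] q).1.length ≤ q.1.length + i ∧
      ((fs m b)^[i] q).2.1.length ≤ q.2.1.length + b.length ∧
      ((fs m b)^[i] q).2.2.length ≤ q.2.2.length + i := by
  induction i with
  | zero =>
    refine ⟨?_, ?_, ?_⟩ <;> simp
  | succ i ih =>
    rw [Function.iterate_succ_apply']
    obtain ⟨h1, h2, h3⟩ := ih
    generalize (fs m b)^[i] q = p at h1 h2 h3
    rw [fs]
    split_ifs
    · refine ⟨?_, ?_, ?_⟩
      · show p.1.length + 1 ≤ _
        omega
      · show (List.take b.length _).length ≤ _
        rw [List.length_take]
        exact (min_le_left _ _).trans (Nat.le_add_left _ _)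
      · show p.2.2.length + 1 ≤ _
        omega
    · refine ⟨?_, ?_, ?_⟩
      · show p.1.length + 1 ≤ _
        omega
      · show (List.take b.length _).length ≤ _
        rw [List.length_take]
        exact (min_le_left _ _).trans (Nat.le_add_left _ _)
      · show p.2.2.length ≤ _
        omega

private theorem it_FP : FP fun p : List Bool ×
    (List Bool × (List Bool × (List Bool × (List Bool × List Bool)))) => fc^[p.1.length] p.2 := by
  refine FP.iterate (f := fc) fc_FP (B := fun n => 20 * n) (by fun_prop) ?_
  rintro l ⟨m, b, q⟩ i hi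
  rw [fc_iter]
  obtain ⟨h2, h3, h5⟩ := fs_len m b q i
  have h4 := length_le_sz l
  rcases hq : (fs m b)^[i] q with ⟨u, v, w⟩
  rw [hq] at h2 h3 h5
  obtain ⟨q1, q2, q3⟩ := q
  simp only [sz_pair, sz_bits] at *
  omega

theorem lq_FP : FP fun s : List Bool => un (lq (cc s.length)) := by
  have a1 : FP fun s : List Bool => un (dd s.length) := dd_FP
  have a2 : FP fun s : List Bool => un (mu s.length) := mu_FP
  have a3 : FP fun s : List Bool => un ((un 16).length * (un (dd s.length)).length) :=
    FP.unMul (FP.const _) a1
  have a4 : FP fun s : List Bool => un ((un 8).length * (un (dd s.length)).length) :=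
    FP.unMul (FP.const _) a1
  have a5 : FP fun s : List Bool => (un (dd s.length), (un (mu s.length),
      (un ((un 16).length * (un (dd s.length)).length), (([] : List Bool),
        (un ((un 8).length * (un (dd s.length)).length), ([] : List Bool)))))) :=
    a1.pair (a2.pair (a3.pair ((FP.const _).pair (a4.pair (FP.const _)))))
  have h2 := it_FP.comp a5
  refine (congrArg FP (funext fun s => ?_)).mp h2.snd'.snd'.snd'.snd'
  rw [fc_iter, unl, unl, unl]
  show ((fs (un (64 ^ cc s.length)) (un (16 * 16 ^ cc s.length)))^[16 ^ cc s.length]
    (([] : List Bool), (un (8 * 16 ^ cc s.length), []))).2.2 = _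
  rw [fs_run _ _ le_rfl]
  rfl

theorem gg_FP : FP fun p : List Bool × List Bool => un (gg p.1.length p.2.length) := by
  have a1 : FP fun p : List Bool × List Bool => un (cc p.1.length) := cc_FP.comp FP.fst
  have a2 : FP fun p : List Bool × List Bool => un (lq (cc p.1.length)) := lq_FP.comp FP.fst
  have a3 : FP fun p : List Bool × List Bool => p.2 ++ un 13 := FP.snd.append (FP.const _)
  have a4 := (a1.append a2).drop a3
  refine (congrArg FP (funext fun p => ?_)).mp a4
  rw [una, List.length_append, unl]
  unfold gg un
  rw [List.drop_replicate]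

end Pool.Agent.RC
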