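import Mathlib
import Pool.Agent.RO.CFpB
import Pool.Agent.RC.FpP
import Pool.Agent.RC.FpQ

set_option autoImplicit false

/-!
# RC-CFpA: the bounded versions are computable in polynomial time, part 1
-/

namespace Pool.Agent.RC

open N68a2faeb N793a5b8e N487b59b3 Pool.Agent.Helper22
open Pool.Agent.RO (Vp)

theorem instB_FP : FP fun p : List Bool × (List Bool × List Bool) =>
    instB p.1 p.2.1 p.2.2 := by
  have e0 : FP fun p : List Bool × (List Bool × List Bool) => ld (cs p.2.2) := by fun_prop
  have e9 : FP fun p : List Bool × (List Bool × List Bool) => cf p.2.2 := by fun_prop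
  have e1 : FP fun p : List Bool × (List Bool × List Bool) =>
      weq (cd (cf p.2.2) (lc (ld (cs p.2.2)))) p.2.2 :=
    FP.weq (FP.cd e9 (Pool.Agent.Helper20.Cons.FP.lc'.comp e0)) (by fun_prop)
  have e2 : FP fun p : List Bool × (List Bool × List Bool) =>
      leneq (cf p.2.2) (un (gg p.1.length p.2.1.length)) :=
    FP.leneq e9 (gg_FP.comp (f := fun p : List Bool × (List Bool × List Bool) => (p.1, p.2.1))
      (by fun_prop))
  have e3 : FP fun p : List Bool × (List Bool × List Bool) =>
      leneq (un (ld (cs p.2.2)).length) (un (jj p.1.length)) :=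
    FP.leneq (FP.un_length e0) (jj_FP.comp (f := fun p : List Bool × (List Bool × List Bool) => p.1)
      (by fun_prop))
  have e4 : FP fun p : List Bool × (List Bool × List Bool) => RO.nodupB (ld (cs p.2.2)) :=
    RO.FP.nodupB e0
  have e5 : FP fun p : List Bool × (List Bool × List Bool) =>
      (ld (cs p.2.2)).all fun x => leneq x p.1 := by
    have h1 : FP fun p : List Bool × List Bool => leneq p.2 p.1 := by fun_prop
    exact (RO.FP.all_ctx h1).comp (f := fun p : List Bool × (List Bool × List Bool) =>
      (p.1, ld (cs p.2.2))) (by fun_prop)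
  unfold instB
  exact ((e1.and e2).and e3).and (e4.and e5)

theorem satB_FP : FP fun p : List Bool × (List (List Bool) × (List Bool × List Bool)) =>
    satB p.1 p.2.1 p.2.2.1 p.2.2.2 := by
  -- context: `((T, (s, u)), y)` and the element `x`
  have h1 : FP fun p : ((List (List Bool) × (List Bool × List Bool)) × List Bool) × List Bool =>
      ROP.markB p.1.1.1 (un (kap p.1.1.2.1.length)) (cf p.1.1.2.2 ++ RO.wx p.1.2 p.2) := by
    have e1 : FP fun p : ((List (List Bool) × (List Bool × List Bool)) × List Bool) × List Bool =>
        un (kap p.1.1.2.1.length) := kap_FP.comp (f := fun p : ((List (List Bool) ×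
          (List Bool × List Bool)) × List Bool) × List Bool => p.1.1.2.1)
        (by fun_prop)
    exact ROP.markB_FP.comp (f := fun p : ((List (List Bool) × (List Bool × List Bool)) ×
      List Bool) × List Bool => (p.1.1.1, (un (kap p.1.1.2.1.length),
        cf p.1.1.2.2 ++ RO.wx p.1.2 p.2)))
      (FP.pair (by fun_prop) (FP.pair e1 (by fun_prop)))
  have h2 := RO.FP.all_ctx h1
  -- context `(T, (s, u))` and the element `y`
  have h3 : FP fun p : (List (List Bool) × (List Bool × List Bool)) × List Bool =>
      leneq p.2 p.1.2.1 && (ld (cs p.1.2.2)).all fun x =>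
        ROP.markB p.1.1 (un (kap p.1.2.1.length)) (cf p.1.2.2 ++ RO.wx p.2 x) := by
    refine FP.and (by fun_prop) ?_
    exact h2.comp (f := fun p : (List (List Bool) × (List Bool × List Bool)) ×
      List Bool => (p, ld (cs p.1.2.2))) (by fun_prop)
  have h4 := FP.any_ctx h3
  unfold satB
  exact h4.comp (f := fun p : List Bool × (List (List Bool) × (List Bool × List Bool)) =>
    (p.2, strs p.1)) (by fun_prop)

theorem advB_FP : FP fun p : List Bool × List Bool => advB p.1 p.2 := by
  have h1 : FP fun q : (List Bool × List Bool) × List Bool =>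
      decide (q.2.length ≤ (un (min (al q.1.2.length) (q.1.1.length + 1))).length) :=
    FP.length_le FP.snd (al_FP.comp (f := fun q : (List Bool × List Bool) × List Bool => q.1)
      FP.fst)
  have h2 := RO.FP.filter_ctx h1
  unfold advB
  exact h2.comp (f := fun p : List Bool × List Bool => (p, strs p.1))
    (FP.id.pair (FP.strs FP.fst))

private theorem inst5_FP :
    FP fun p : (List Bool × (List (List Bool) × (List Bool × (List Bool × List Bool)))) ×
      List Bool => instB p.1.2.2.1 p.1.2.2.2.1 p.2 :=
  instB_FP.comp (f := fun p : (List Bool × (List (List Bool) × (List Bool ×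
    (List Bool × List Bool)))) × List Bool => (p.1.2.2.1, (p.1.2.2.2.1, p.2))) (by fun_prop)

private theorem acc5_FP (V : Vp) (b : Bool) :
    FP fun p : (List Bool × (List (List Bool) × (List Bool × (List Bool × List Bool)))) ×
      List Bool => RO.accB V b p.1.1 p.1.2.1 p.1.2.2.2.1 (cd p.2 p.1.2.2.2.2) :=
  (RO.accB_FP V b).comp (f := fun p : (List Bool × (List (List Bool) × (List Bool ×
    (List Bool × List Bool)))) × List Bool =>
      (p.1.1, (p.1.2.1, (p.1.2.2.2.1, cd p.2 p.1.2.2.2.2)))) (by fun_prop)

private theorem sat5_FP :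
    FP fun p : (List Bool × (List (List Bool) × (List Bool × (List Bool × List Bool)))) ×
      List Bool => satB p.1.1 p.1.2.1 p.1.2.2.1 p.2 :=
  satB_FP.comp (f := fun p : (List Bool × (List (List Bool) × (List Bool ×
    (List Bool × List Bool)))) × List Bool => (p.1.1, (p.1.2.1, (p.1.2.2.1, p.2))))
    (by fun_prop)

theorem wrongB_FP (V : Vp) : FP fun p : List Bool × (List (List Bool) × (List Bool ×
    (List Bool × List Bool))) => wrongB V p.1 p.2.1 p.2.2.1 p.2.2.2.1 p.2.2.2.2 := by
  have h1 := FP.any_ctx (inst5_FP.and ((((acc5_FP V true).beq sat5_FP).not).or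
    ((acc5_FP V false).beq sat5_FP)))
  unfold wrongB
  exact h1.comp (f := fun p : List Bool × (List (List Bool) × (List Bool ×
    (List Bool × List Bool))) => (p, strs p.1)) (FP.id.pair (FP.strs FP.fst))

theorem invB_FP (V : Vp) : FP fun p : List Bool × (List (List Bool) × (List Bool ×
    (List Bool × List Bool))) => invB V p.1 p.2.1 p.2.2.1 p.2.2.2.1 p.2.2.2.2 := by
  have h1 := FP.any_ctx (inst5_FP.and ((acc5_FP V true).beq (acc5_FP V false)))
  unfold invB
  exact h1.comp (f := fun p : List Bool × (List (List Bool) × (List Bool ×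
    (List Bool × List Bool))) => (p, strs p.1)) (FP.id.pair (FP.strs FP.fst))

end Pool.Agent.RC
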