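import Mathlib
import Pool.Agent.RC.CFpA

set_option autoImplicit false

/-!
# RC-CFpB (job): the bounded versions are computable in polynomial time, part 2
-/

namespace Pool.Agent.RC

open N68a2faeb N793a5b8e N487b59b3 Pool.Agent.Helper22
open Pool.Agent.RO (Vp nxtU lev)

theorem failB_FP (V : Vp) : FP fun p : List Bool × (List (List Bool) ×
    (List Bool × List Bool)) => failB V p.1 p.2.1 p.2.2.1 p.2.2.2 := by
  -- context `(r, (T, (s, l)))`, element `v`
  have e1 : FP fun p : (List Bool × (List (List Bool) × (List Bool × List Bool))) × List Bool =>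
      invB V p.1.1 p.1.2.1 p.1.2.2.1 p.1.2.2.2 p.2 :=
    (invB_FP V).comp (f := fun p : (List Bool × (List (List Bool) × (List Bool × List Bool))) ×
      List Bool => (p.1.1, (p.1.2.1, (p.1.2.2.1, (p.1.2.2.2, p.2))))) (by fun_prop)
  have e2 : FP fun p : (List Bool × (List (List Bool) × (List Bool × List Bool))) × List Bool =>
      wrongB V p.1.1 p.1.2.1 p.1.2.2.1 p.1.2.2.2 p.2 :=
    (wrongB_FP V).comp (f := fun p : (List Bool × (List (List Bool) × (List Bool × List Bool))) ×
      List Bool => (p.1.1, (p.1.2.1, (p.1.2.2.1, (p.1.2.2.2, p.2))))) (by fun_prop)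
  have e3 : FP fun p : List Bool × (List (List Bool) × (List Bool × List Bool)) =>
      advB p.1 p.2.2.1 :=
    advB_FP.comp (f := fun p : List Bool × (List (List Bool) × (List Bool × List Bool)) =>
      (p.1, p.2.2.1)) (by fun_prop)
  have e4 : FP fun p : List Bool × (List (List Bool) × (List Bool × List Bool)) =>
      (p, advB p.1 p.2.2.1) := FP.id.pair e3
  have h1 := (FP.any_ctx e1).comp e4
  have h2 := (Pool.Agent.RO.FP.all_ctx e2).comp e4
  unfold failB
  exact h1.or h2

private theorem lstep_FP (V : Vp) : FP fun p : List Bool × (List (List Bool) ×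
    (List Bool × List Bool)) => lstep V p.1 p.2.1 p.2.2 := by
  have e1 : FP fun p : List Bool × (List (List Bool) × (List Bool × List Bool)) =>
      nxtU p.2.2.1 p.1 := by
    unfold nxtU
    have h1 : FP fun p : List Bool × (List (List Bool) × (List Bool × List Bool)) =>
        ([true, true] : List Bool) := FP.const _
    fun_prop
  have e2 := failB_FP V
  have e3 : FP fun p : List Bool × (List (List Bool) × (List Bool × List Bool)) =>
      if failB V p.1 p.2.1 p.2.2.1 p.2.2.2 then true :: p.2.2.2 else p.2.2.2 :=
    FP.ite e2 ((FP.const true).cons (by fun_prop)) (by fun_prop)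
  unfold lstep
  exact FP.ite (FP.length_le e1 FP.fst) (e1.pair e3) (by fun_prop)

/-- the step with its context -/
private def cstep (V : Vp) (p : List Bool × (List (List Bool) × (List Bool × List Bool))) :
    List Bool × (List (List Bool) × (List Bool × List Bool)) :=
  (p.1, (p.2.1, lstep V p.1 p.2.1 p.2.2))

private theorem cstep_iter (V : Vp) (r : List Bool) (T : List (List Bool))
    (q : List Bool × List Bool) (i : ℕ) :
    (cstep V)^[i] (r, (T, q)) = (r, (T, (lstep V r T)^[i] q)) := by
  induction i with
  | zero => rfl
  | succ i ih => rw [Function.iterate_succ_apply', ih, Function.iterate_succ_apply']; rfl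

private theorem lstep_len (V : Vp) (r : List Bool) (T : List (List Bool))
    (q : List Bool × List Bool) (i : ℕ) :
    ((lstep V r T)^[i] q).1.length ≤ q.1.length + r.length ∧
      ((lstep V r T)^[i] q).2.length ≤ q.2.length + i := by
  induction i with
  | zero => simp
  | succ i ih =>
    rw [Function.iterate_succ_apply']
    obtain ⟨h1, h2⟩ := ih
    generalize (lstep V r T)^[i] q = p at h1 h2
    rw [lstep]
    split_ifs with h3 h4
    · rw [decide_eq_true_eq] at h3
      exact ⟨by simp only; omega, by simp only [List.length_cons]; omega⟩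
    · rw [decide_eq_true_eq] at h3
      exact ⟨by simp only; omega, by simp only; omega⟩
    · exact ⟨h1, by omega⟩

theorem look_FP (V : Vp) (S : ℕ) : FP fun p : List Bool × List (List Bool) =>
    look V S p.1 p.2 := by
  have h1 : FP fun p : List Bool × (List Bool × (List (List Bool) × (List Bool × List Bool))) =>
      (cstep V)^[p.1.length] p.2 := by
    refine FP.iterate (f := cstep V) ?_ (B := fun n => 20 * n) (by fun_prop) ?_
    · unfold cstep
      exact FP.fst.pair (FP.pair (by fun_prop) (lstep_FP V))
    · rintro l ⟨r, T, q⟩ i hi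
      rw [cstep_iter]
      obtain ⟨h2, h3⟩ := lstep_len V r T q i
      have h4 := length_le_sz l
      rcases hq : (lstep V r T)^[i] q with ⟨a, b⟩
      rw [hq] at h2 h3
      obtain ⟨q1, q2⟩ := q
      simp only [sz_pair, sz_bits] at *
      omega
  have h2 := h1.comp (f := fun p : List Bool × List (List Bool) =>
    (p.1, (p.1, (p.2, (un S, ([] : List Bool)))))) (FP.pair (by fun_prop) (FP.pair (by fun_prop)
      (FP.pair (by fun_prop) (FP.const _))))
  refine (congrArg FP (funext fun p => ?_)).mp h2.snd'.snd'
  rw [cstep_iter]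
  rfl

private theorem ncp_FP : FP fun p : List Bool × List (List Bool) => nc p.1 :=
  nc_FP.comp FP.fst

private theorem lookz_FP (V : Vp) (S : ℕ) : FP fun p : List Bool × List (List Bool) =>
    look V S (nc p.1) p.2 := by
  have e1 : FP fun p : List Bool × List (List Bool) => (nc p.1, p.2) := ncp_FP.pair FP.snd
  have e2 := FP.comp (look_FP V S) e1
  exact e2

private theorem len_FP (n : ℕ) : FP fun p : List Bool × List (List Bool) =>
      decide ((un n).length ≤ (nc p.1).length) :=
  FP.length_le (FP.const _) ncp_FP

private theorem leq_FP (V : Vp) (S : ℕ) : FP fun p : List Bool × List (List Bool) =>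
      leneq (look V S (nc p.1) p.2).1 (nc p.1) :=
  FP.leneq (lookz_FP V S).fst' ncp_FP

private theorem insz_FP (V : Vp) (S : ℕ) : FP fun p : List Bool × List (List Bool) =>
      instB (look V S (nc p.1) p.2).1 (look V S (nc p.1) p.2).2 p.1 := by
  have e1 := lookz_FP V S
  exact instB_FP.comp (f := fun p : List Bool × List (List Bool) =>
    ((look V S (nc p.1) p.2).1, ((look V S (nc p.1) p.2).2, p.1)))
    (e1.fst'.pair (e1.snd'.pair FP.fst))

theorem levB_FP (V : Vp) (S i₀ : ℕ) : FP fun p : List Bool × List (List Bool) =>
    levB V S i₀ p.1 p.2 := by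
  exact ((leq_FP V S).and (len_FP (lev S i₀))).and (insz_FP V S)

end Pool.Agent.RC
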