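import Mathlib
import Pool.Agent.RC.CFail

set_option autoImplicit false

/-!
# RC-CLook (job): looking back is correct

As in `Pool/Agent/ROP/CLook.lean`.
-/

namespace Pool.Agent.RC

open N68a2faeb N793a5b8e N487b59b3 Pool.Agent.Helper22
open Pool.Agent.Helper20.Cons (join Po cRun)
open Pool.Agent.RO (Vp pads lev wx accB nxtU nz lvl_mono)

theorem cnt_le_i (V : Vp) (S : ℕ) (A R : Oracle) (i : ℕ) : cnt V S A R i ≤ i := by
  induction i with
  | zero => exact le_rfl
  | succ i ih =>
    rw [cnt]
    split_ifs <;> omega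

private theorem nxtU_eq (s r : List Bool) :
    nxtU s r = un (min (2 ^ (min (2 ^ s.length) (r.length + 1))) (r.length + 1)) := by
  rw [nxtU, pw_eq, pw_eq, un_length]
  rfl

private theorem nxtU_small {s r : List Bool} (h : 2 ^ 2 ^ s.length ≤ r.length) :
    nxtU s r = un (2 ^ 2 ^ s.length) := by
  have h1 : 2 ^ s.length < 2 ^ 2 ^ s.length := Nat.lt_two_pow_self
  rw [nxtU_eq, min_eq_left (show 2 ^ s.length ≤ r.length + 1 by omega),
    min_eq_left (show 2 ^ 2 ^ s.length ≤ r.length + 1 by omega)]

private theorem nxtU_large {s r : List Bool} (h : r.length < 2 ^ 2 ^ s.length) :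
    r.length < (nxtU s r).length := by
  have h1 : r.length + 1 < 2 ^ (r.length + 1) := Nat.lt_two_pow_self
  rw [nxtU_eq, un_length]
  rcases le_total (2 ^ s.length) (r.length + 1) with h2 | h2
  · rw [min_eq_left h2]
    exact lt_min h (Nat.lt_succ_self _)
  · rw [min_eq_right h2]
    exact lt_min (by omega) (Nat.lt_succ_self _)

private theorem lstep_fix {V : Vp} {r : List Bool} {T : List (List Bool)}
    {p : List Bool × List Bool} (h : r.length < 2 ^ 2 ^ p.1.length) : lstep V r T p = p := by
  have h1 := nxtU_large h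
  rw [lstep, if_neg]
  rw [decide_eq_true_eq]
  omega

private theorem look_iter {V : Vp} {S : ℕ} (hV : Big V S) {A R : Oracle} {r : List Bool}
    {T : List (List Bool)} (hT : ∀ w ∈ strs r, wmem T w = join A R w) (m : ℕ)
    (h1 : lev S m ≤ r.length) :
    (lstep V r T)^[m] (un S, []) = (un (lev S m), un (cnt V S A R m)) := by
  induction m with
  | zero => rfl
  | succ m ih =>
    have h2 : lev S m < lev S (m + 1) := lvl_mono S (Nat.lt_succ_self m)
    rw [Function.iterate_succ_apply', ih (by omega)]
    obtain ⟨hc, h, hb, hh⟩ := hV m (cnt V S A R m) (cnt_le_i V S A R m)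
    have h3 : h + 1 ≤ 2 ^ lev S m := by
      have e1 : h + 1 ≤ 4000 * (h + 9) ^ 2 := by nlinarith
      have e2 := par_s hc (cnt V S A R m)
      have e3 : gg (lev S m) (cnt V S A R m) ≤ lev S m := by
        rw [Nat.add_assoc] at e2
        exact (Nat.le_add_right _ _).trans e2
      exact e1.trans (hh.trans (Nat.pow_le_pow_right (by norm_num) e3))
    have h4 : 2 ^ (h + 1) ≤ r.length :=
      le_trans (Nat.pow_le_pow_right (by norm_num) h3) h1
    have h5 : ∀ w : List Bool, w.length ≤ h → wmem T w = join A R w := by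
      intro w hw
      refine hT w (Hrd.mem_strs_of_length (le_trans ?_ h4))
      exact Nat.pow_le_pow_right (by norm_num) (by omega)
    have h6 : nxtU (un (lev S m)) r = un (lev S (m + 1)) := by
      rw [nxtU_small (by rw [un_length]; exact h1), un_length]
      rfl
    have h7 : failB V r T (un (lev S m)) (un (cnt V S A R m)) = true ↔
        Fail V A R (lev S m) (cnt V S A R m) := by
      have := failB_iff (V := V) (r := r) (T := T) (A := A) (R := R) (h := h) (s := un (lev S m))
        (l := un (cnt V S A R m)) (by rw [un_length, un_length]; exact hb) h4 h5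
      rwa [un_length, un_length] at this
    rw [lstep, if_pos (by
      rw [decide_eq_true_eq]
      show (nxtU (un (lev S m)) r).length ≤ r.length
      rw [h6, un_length]; exact h1)]
    show (nxtU (un (lev S m)) r, _) = _
    rw [h6, Prod.mk.injEq]
    refine ⟨rfl, ?_⟩
    rw [cnt]
    by_cases hf : Fail V A R (lev S m) (cnt V S A R m)
    · rw [if_pos (h7.2 hf), if_pos hf]
      rfl
    · rw [if_neg (fun h => hf (h7.1 h)), if_neg hf]
      rfl

theorem look_eq {V : Vp} {S : ℕ} (hV : Big V S) {A R : Oracle} {r : List Bool}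
    {T : List (List Bool)} (hT : ∀ w ∈ strs r, wmem T w = join A R w) {i : ℕ}
    (h1 : lev S i ≤ r.length) (h2 : r.length < lev S (i + 1)) :
    look V S r T = (un (lev S i), un (cnt V S A R i)) := by
  have h3 : i ≤ lev S i := (lvl_mono S).le_apply
  obtain ⟨k, hk⟩ : ∃ k, r.length = k + i := ⟨r.length - i, by omega⟩
  rw [look, hk, Function.iterate_add_apply, look_iter hV hT i h1]
  exact Function.iterate_fixed (lstep_fix (by
    show r.length < 2 ^ 2 ^ (un (lev S i)).length
    rw [un_length]; exact h2)) k

theorem nc_eq {s l : ℕ} {z : List Bool} (h : IsInst s l z) : nc z = un s := by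
  obtain ⟨-, -, h2, -, h4⟩ := h
  have h5 : 0 < jj s := jj_pos s
  rw [nc, nz]
  cases h6 : ld (cs z) with
  | nil => rw [h6, List.length_nil] at h2; omega
  | cons x l' => rw [List.headD_cons, h4 x (by rw [h6]; exact List.mem_cons_self)]

private theorem look_lt {V : Vp} {S : ℕ} {r : List Bool} {T : List (List Bool)} (h : r.length < S) :
    look V S r T = (un S, []) := by
  rw [look]
  refine Function.iterate_fixed (lstep_fix ?_) _
  show r.length < 2 ^ 2 ^ (un S).length
  rw [un_length]
  exact h.trans (lt_of_lt_of_le Nat.lt_two_pow_self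
    (Nat.pow_le_pow_right (by norm_num) (Nat.lt_two_pow_self (n := S)).le))

theorem look_of_inst {V : Vp} {S : ℕ} (hV : Big V S) {A R : Oracle} {z : List Bool}
    {T : List (List Bool)} (hT : ∀ w ∈ strs (nc z), wmem T w = join A R w) {i : ℕ}
    (hz : IsInst (lev S i) (cnt V S A R i) z) :
    look V S (nc z) T = (un (lev S i), un (cnt V S A R i)) := by
  refine look_eq hV hT ?_ ?_
  · rw [nc_eq hz, un_length]
  · rw [nc_eq hz, un_length]
    exact lvl_mono S (Nat.lt_succ_self i)

private theorem exists_lvl {S n : ℕ} (h : S ≤ n) : ∃ i, lev S i ≤ n ∧ n < lev S (i + 1) := by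
  classical
  have h1 : ∃ i, n < lev S (i + 1) :=
    ⟨n, lt_of_lt_of_le (Nat.lt_succ_self n) ((lvl_mono S).le_apply (x := n + 1))⟩
  refine ⟨Nat.find h1, ?_, Nat.find_spec h1⟩
  rcases h2 : Nat.find h1 with _ | k
  · exact h
  · have h3 := Nat.find_min h1 (m := k) (by omega)
    omega

theorem levB_iff {V : Vp} {S : ℕ} (hV : Big V S) (i₀ : ℕ) {A R : Oracle} {z : List Bool}
    {T : List (List Bool)} (hT : ∀ w ∈ strs (nc z), wmem T w = join A R w) :
    levB V S i₀ z T = true ↔ ∃ i, i₀ ≤ i ∧ IsInst (lev S i) (cnt V S A R i) z := by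
  constructor
  · intro h
    rw [levB, Bool.and_eq_true, Bool.and_eq_true, leneq_iff, decide_eq_true_eq, un_length] at h
    obtain ⟨⟨h1, h2⟩, h3⟩ := h
    by_cases hS : S ≤ (nc z).length
    · obtain ⟨i, hi1, hi2⟩ := exists_lvl hS
      rw [look_eq hV hT hi1 hi2] at h1 h3
      have h4 := (instB_iff _ _ z).1 h3
      rw [un_length, un_length] at h4
      replace h1 : (un (lev S i)).length = (nc z).length := h1
      rw [un_length] at h1
      refine ⟨i, ?_, h4⟩
      rw [← h1] at h2
      exact (lvl_mono S).le_iff_le.1 h2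
    · rw [look_lt (by omega), un_length] at h1
      omega
  · rintro ⟨i, hi, hz⟩
    have h1 := look_of_inst hV hT hz
    rw [levB, h1, Bool.and_eq_true, Bool.and_eq_true, leneq_iff, decide_eq_true_eq, un_length,
      nc_eq hz, un_length]
    refine ⟨⟨rfl, by rw [un_length]; exact (lvl_mono S).monotone hi⟩, ?_⟩
    refine (instB_iff _ _ z).2 ?_
    rw [un_length, un_length]
    exact hz

/-- the level of an instance is unique -/
theorem level_unique {V : Vp} {S : ℕ} {A R : Oracle} {z : List Bool} {i i' : ℕ}
    (h : IsInst (lev S i) (cnt V S A R i) z) (h' : IsInst (lev S i') (cnt V S A R i') z) :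
    i = i' := by
  have h1 := (nc_eq h).symm.trans (nc_eq h')
  have h2 := congrArg List.length h1
  rw [un_length, un_length] at h2
  exact (lvl_mono S).injective h2

end Pool.Agent.RC
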