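import Mathlib
import Pool.Agent.RO.CTask
import Pool.Agent.RC.CFpB
import Pool.Agent.RC.CLook
import Pool.Agent.RC.CFact

set_option autoImplicit false

/-!
# RC-CNo (job): the new language is in coNP relative to the oracle
-/

namespace Pool.Agent.RC

open N68a2faeb N793a5b8e N487b59b3 Pool.Agent.Helper22
open Pool.Agent.Helper20.Cons (join Po cRun)
open Pool.Agent.RO (Vp lev)

section auxNo

open Pool.Agent.RO (wx uns mem_uns wmem_filter ask Mark nodupB)
open Pool.Agent.ROP (markB markB_FP)

private theorem no_qN : FP qN := by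
  have h0 : FP fun p : List Bool × List Bool => true :: (p.1 ++ p.2) :=
    (FP.const true).cons (by fun_prop)
  have h1 : FP fun p : List Bool × List (List Bool) => p.2.map fun t => true :: (p.1 ++ t) :=
    FP.map_ctx h0
  -- context `(n, c)`, word `e`
  have h2 : FP fun p : (List Bool × List Bool) × List Bool =>
      (uns p.1.1).map fun t => true :: ((p.1.2 ++ p.2) ++ t) :=
    h1.comp (f := fun p : (List Bool × List Bool) × List Bool => (p.1.2 ++ p.2, uns p.1.1))
      (FP.pair (by fun_prop) (RO.FP.uns (FP.fst.comp FP.fst)))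
  have h3 : FP fun p : (List Bool × List Bool) × List (List Bool) =>
      p.2.flatMap fun e => (uns p.1.1).map fun t => true :: ((p.1.2 ++ e) ++ t) :=
    RO.FP.flatMap_ctx h2
  have h4 : FP fun a : List Bool × List Bool => nc a.1 := nc_FP.comp FP.fst
  have h5 : FP fun a : List Bool × List Bool => ld (cf a.2) ++ ld (cs a.2) := by fun_prop
  have h5' : FP fun a : List Bool × List Bool => cf a.1 := by fun_prop
  have h6 : FP fun a : List Bool × List Bool =>
      (ld (cf a.2) ++ ld (cs a.2)).flatMap fun e => (uns (nc a.1)).map fun t =>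
        true :: ((cf a.1 ++ e) ++ t) :=
    h3.comp (f := fun a : List Bool × List Bool => ((nc a.1, cf a.1), ld (cf a.2) ++ ld (cs a.2)))
      ((h4.pair h5').pair h5)
  have h7 : FP fun a : List Bool × List Bool => strs (nc a.1) := FP.strs h4
  exact FP.append h7 h6

private theorem no_crtB {α : Type} [N487b59b3 α] {T E F : α → List (List Bool)}
    {s u : α → List Bool} (hT : FP T) (hs : FP s) (hu : FP u) (hE : FP E)
    (hF : FP F) : FP fun a => crtB (T a) (s a) (u a) (E a) (F a) := by
  have h1 : FP fun a => nodupB (E a) := RO.FP.nodupB hE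
  have hd : FP fun a => un (dd (s a).length) := dd_FP.comp hs
  have hm : FP fun a => un (mu (s a).length) := mu_FP.comp hs
  have h5 : FP fun a => leneq (un (E a).length ++ un (dd (s a).length)) (un (mu (s a).length)) :=
    FP.leneq (FP.append (FP.un_length hE) hd) hm
  have hk : FP fun a => un (kap (s a).length) := kap_FP.comp hs
  have hc : FP fun a => cf (u a) := FP.cf hu
  have h6 : FP fun p : (List (List Bool) × (List Bool × (List Bool × List Bool))) × List Bool =>
      markB p.1.1 p.1.2.1 (p.1.2.2.2 ++ p.2) :=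
    markB_FP.comp (f := fun p : (List (List Bool) × (List Bool × (List Bool × List Bool))) ×
      List Bool => (p.1.1, (p.1.2.1, p.1.2.2.2 ++ p.2))) (by fun_prop)
  have h7 : FP fun p : (List (List Bool) × (List Bool × (List Bool × List Bool))) × List Bool =>
      leneq p.2 p.1.2.2.1 && markB p.1.1 p.1.2.1 (p.1.2.2.2 ++ p.2) :=
    (FP.leneq FP.snd (by fun_prop)).and h6
  have hctx : FP fun a => (T a, (un (kap (s a).length), (s a, cf (u a)))) :=
    hT.pair (hk.pair (hs.pair hc))
  have h8 : FP fun a => (E a).all fun e => leneq e (s a) &&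
      markB (T a) (un (kap (s a).length)) (cf (u a) ++ e) :=
    (RO.FP.all_ctx h7).comp (f := fun a => ((T a, (un (kap (s a).length), (s a, cf (u a)))), E a))
      (hctx.pair hE)
  have h9 : FP fun a => (F a).all fun f =>
      !markB (T a) (un (kap (s a).length)) (cf (u a) ++ f) :=
    (RO.FP.all_ctx h6.not).comp
      (f := fun a => ((T a, (un (kap (s a).length), (s a, cf (u a)))), F a)) (hctx.pair hF)
  have g1 : FP fun p : ((List (List Bool) × List Bool) × List Bool) × List Bool =>
      wmem p.1.1.1 (wx (wx p.1.1.2 p.1.2) p.2) :=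
    FP.wmem (FP.fst.comp (FP.fst.comp FP.fst))
      (RO.FP.wx (RO.FP.wx (FP.snd.comp (FP.fst.comp FP.fst)) (FP.snd.comp FP.fst)) FP.snd)
  have g2 : FP fun p : ((List (List Bool) × List Bool) × List Bool) × List (List Bool) =>
      p.2.any fun x' => wmem p.1.1.1 (wx (wx p.1.1.2 p.1.2) x') := FP.any_ctx g1
  have g3 : FP fun p : ((List (List Bool) × List (List Bool)) × List Bool) × List Bool =>
      p.1.1.2.any fun x' => wmem p.1.1.1 (wx (wx p.1.2 p.2) x') :=
    g2.comp ((((FP.fst.comp (FP.fst.comp FP.fst)).pair (FP.snd.comp FP.fst)).pair FP.snd).pair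
      (FP.snd.comp (FP.fst.comp FP.fst)))
  have g4 : FP fun p : ((List (List Bool) × List (List Bool)) × List Bool) × List (List Bool) =>
      p.2.all fun x => p.1.1.2.any fun x' => wmem p.1.1.1 (wx (wx p.1.2 x) x') := RO.FP.all_ctx g3
  have g5 : FP fun p : (List (List Bool) × List (List Bool)) × List Bool =>
      p.1.2.all fun x => p.1.2.any fun x' => wmem p.1.1 (wx (wx p.2 x) x') :=
    g4.comp (FP.id.pair (FP.snd.comp FP.fst))
  have g6 : FP fun p : (List (List Bool) × List (List Bool)) × List (List Bool) =>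
      p.2.all fun e => p.1.2.all fun x => p.1.2.any fun x' => wmem p.1.1 (wx (wx e x) x') :=
    RO.FP.all_ctx g5
  have g7 : FP fun a => (E a).all fun e => (ld (cs (u a))).all fun x =>
      (ld (cs (u a))).any fun x' => wmem (F a) (wx (wx e x) x') :=
    g6.comp (f := fun a => ((F a, ld (cs (u a))), E a)) ((hF.pair (FP.ld (FP.cs hu))).pair hE)
  exact ((h1.and h5).and (h8.and h9)).and g7

private theorem no_dN (V : Vp) (S i₀ : ℕ) : FP (dN V S i₀) := by
  have hz : FP fun c : (List Bool × List Bool) × List (List Bool) => c.1.1 :=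
    FP.fst.comp FP.fst
  have hw : FP fun c : (List Bool × List Bool) × List (List Bool) => c.1.2 :=
    FP.snd.comp FP.fst
  have hT : FP fun c : (List Bool × List Bool) × List (List Bool) => c.2 := FP.snd
  have hn : FP fun c : (List Bool × List Bool) × List (List Bool) => nc c.1.1 := nc_FP.comp hz
  have hf' : FP fun c : (List Bool × List Bool) × List (List Bool) => (c.1.1, c.2) :=
    hz.pair hT
  have h1 := (levB_FP V S i₀).comp hf'
  dsimp only at h1
  have h2 : FP fun c : (List Bool × List Bool) × List (List Bool) =>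
      crtB c.2 (nc c.1.1) c.1.1 (ld (cf c.1.2)) (ld (cs c.1.2)) :=
    no_crtB hT hn hz (FP.ld (FP.cf hw)) (FP.ld (FP.cs hw))
  have h3 : dN V S i₀ = fun c : (List Bool × List Bool) × List (List Bool) =>
      !levB V S i₀ c.1.1 c.2 ||
        crtB c.2 (nc c.1.1) c.1.1 (ld (cf c.1.2)) (ld (cs c.1.2)) := by
    funext c
    rw [dN]
  rw [h3]
  exact FP.or (FP.not h1) h2

end auxNo

open Pool.Agent.RO (uns mem_uns wmem_filter ask) in
open Classical in
theorem conp_side {V : Vp} {S : ℕ} (hV : Big V S) (i₀ : ℕ) (A R : Oracle)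
    (hw : ∀ i, i₀ ≤ i → Win R (lev S i) (cnt V S A R i)) :
    (fun z => decide (Lng V S i₀ A R z)) ∈ coNPo (join A R) := by
  obtain ⟨M, hM⟩ := ask qN (dN V S i₀) no_qN (no_dN V S i₀)
  refine ⟨3 * Polynomial.X ^ 3 + 1, M, fun z => ?_⟩
  rw [compl_true, decide_eq_true_eq]
  have hT : ∀ w : List Bool, ∀ v ∈ strs (nc z),
      wmem ((qN (z, w)).filter fun q => join A R q) v = join A R v := fun w v hv =>
    wmem_filter (List.mem_append_left _ hv)
  have hT' : ∀ w : List Bool, ∀ e ∈ ld (cf w) ++ ld (cs w), ∀ a < (nc z).length,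
      wmem ((qN (z, w)).filter fun q => join A R q) (true :: ((cf z ++ e) ++ un a)) =
        R ((cf z ++ e) ++ un a) :=
    fun w e he a ha => wmem_filter (R := join A R) (q := true :: ((cf z ++ e) ++ un a))
      (List.mem_append_right _ (List.mem_flatMap.2
      ⟨e, he, List.mem_map.2 ⟨un a, mem_uns.2 ⟨a, ha, rfl⟩, rfl⟩⟩))
  have heval : ∀ n : ℕ, (3 * Polynomial.X ^ 3 + 1 : Polynomial ℕ).eval n = 3 * n ^ 3 + 1 := by
    intro n
    simp
  by_cases hz : ∃ i, i₀ ≤ i ∧ IsInst (lev S i) (cnt V S A R i) z
  · obtain ⟨i, hi, hinst⟩ := hz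
    have hnz : nc z = un (lev S i) := nc_eq hinst
    have hd : ∀ w : List Bool, (M.run (join A R) (z, w) = true ↔
        Crt R (lev S i) z (ld (cf w)) (ld (cs w))) := by
      intro w
      have h1 : levB V S i₀ z ((qN (z, w)).filter fun q => join A R q) = true :=
        (levB_iff hV i₀ (hT w)).2 ⟨i, hi, hinst⟩
      have h3 := crtB_iff (T := (qN (z, w)).filter fun q => join A R q) (R := R)
        (s := un (lev S i)) (l := cnt V S A R i) (u := z) (E := ld (cf w)) (F := ld (cs w))
        (by rw [un_length]; exact hinst)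
        (by rw [← hnz]; exact hT' w)
      rw [un_length] at h3
      rw [hM, ← h3]
      show (!levB V S i₀ z ((qN (z, w)).filter fun q => join A R q) ||
        crtB ((qN (z, w)).filter fun q => join A R q) (nc z) z (ld (cf w)) (ld (cs w))) = true
          ↔ _
      rw [h1, hnz]
      simp
    constructor
    · intro hL
      have hS : ¬ Sat R (lev S i) z := fun h => hL ⟨i, hi, hinst, h⟩
      obtain ⟨E, F, hc, hF, hFl⟩ := exists_crt hinst (hw i hi) hS
      refine ⟨cd (lc E) (lc F), ?_, ?_⟩
      · rw [heval]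
        exact crt_length hinst hc hF hFl
      · rw [hd, cf_cd, cs_cd, ld_lc, ld_lc]
        exact hc
    · rintro ⟨w, -, hr⟩ ⟨i', hi', hinst', hsat⟩
      have hii : i' = i := level_unique hinst' hinst
      subst hii
      exact crt_sound hinst (hw i' hi) ((hd w).1 hr) hsat
  · have h1 : ¬ Lng V S i₀ A R z := fun ⟨i, hi, h, _⟩ => hz ⟨i, hi, h⟩
    refine iff_of_true h1 ⟨[], by simp, ?_⟩
    rw [hM]
    have h2 : levB V S i₀ z ((qN (z, ([] : List Bool))).filter fun q => join A R q) = false := by
      by_contra h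
      rw [Bool.not_eq_false] at h
      exact hz ((levB_iff hV i₀ (hT [])).1 h)
    show (!levB V S i₀ z ((qN (z, [])).filter fun q => join A R q) || _) = true
    rw [h2]
    rfl

end Pool.Agent.RC
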