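import Mathlib
import Pool.Agent.RO.CWx
import Pool.Agent.RO.LinkA
import Pool.Agent.RC.Par

set_option autoImplicit false

/-!
# RC-Uniq (job): the translate of an instance all of whose words are marks is unique

ADAPT `Pool/Agent/ROP/Uniq.lean`.  Here `jj s ≥ 3` is all that is needed about `jj s` (no parity): let `y ≠ y'`, `d = y + y'`, `Y` the set of the marks `y + x`, `x` a word of the
instance; then `d + g` is a mark for all `g ∈ Y` too.  Take `g ∈ Y` and `k ∈ Y` different from `g` and from `d + g` (`Y` has `jj s ≥ 3` elements); then `g, d + g, k, d + k` are four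
different marks of the window `cf u` with sum zero.
-/

namespace Pool.Agent.RC

open N68a2faeb N793a5b8e N487b59b3 Pool.Agent.Helper22

private theorem uq_assoc {s : ℕ} (a b c : List.Vector Bool s) :
    RO.vx a (RO.vx b c) = RO.vx (RO.vx a b) c := by
  apply Subtype.ext
  change RO.wx a.1 (RO.wx b.1 c.1) = RO.wx (RO.wx a.1 b.1) c.1
  apply List.ext_getElem
  · simp [RO.wx, a.2, b.2, c.2]
  · intro i h1 h2
    simp [RO.wx]

private theorem uq_self {s : ℕ} (a b : List.Vector Bool s) : RO.vx a a = RO.vx b b := by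
  apply Subtype.ext
  change RO.wx a.1 a.1 = RO.wx b.1 b.1
  apply List.ext_getElem
  · simp [RO.wx, a.2, b.2]
  · intro i h1 h2
    simp [RO.wx]

private theorem uq_marks {R : Oracle} {s : ℕ} {i : List Bool} {v : List.Vector Bool s} :
    v ∈ wmk R s i ↔ RO.Mark R (kap s) (i ++ v.1) := by
  classical
  simp [wmk]

/-- the set of the words of an instance -/
private theorem uq_set {s l : ℕ} {u : List Bool} (hu : IsInst s l u) :
    ∃ X : Finset (List.Vector Bool s), (∀ x, x ∈ X ↔ x.1 ∈ ld (cs u)) ∧ X.card = jj s := by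
  classical
  obtain ⟨-, -, h2, h3, h4⟩ := hu
  obtain ⟨f, hf⟩ : ∃ f : Fin (ld (cs u)).length → List.Vector Bool s,
      ∀ i, (f i).1 = (ld (cs u))[(i : ℕ)] :=
        ⟨fun i => ⟨(ld (cs u))[(i : ℕ)], h4 _ (List.getElem_mem i.2)⟩, fun i => rfl⟩
  have hinj : Function.Injective f := by
    intro i j hij
    have h5 := congrArg Subtype.val hij
    rw [hf i, hf j] at h5
    exact Fin.ext ((List.Nodup.getElem_inj_iff h3).1 h5)
  refine ⟨Finset.univ.image f, ?_, ?_⟩
  · intro x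
    rw [Finset.mem_image]
    constructor
    · rintro ⟨i, -, rfl⟩
      rw [hf i]
      exact List.getElem_mem i.2
    · intro hx
      obtain ⟨i, hi, he⟩ := List.getElem_of_mem hx
      exact ⟨⟨i, hi⟩, Finset.mem_univ _, Subtype.ext ((hf ⟨i, hi⟩).trans he)⟩
  · rw [Finset.card_image_of_injective _ hinj, Finset.card_univ, Fintype.card_fin, h2]

theorem uniq {R : Oracle} {s l : ℕ} {u : List Bool} (hc : 1 ≤ cc s) (hu : IsInst s l u)
    (hq : ¬ Quad R s l) {y y' : List Bool} (hy : y.length = s) (hy' : y'.length = s)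
    (h : ∀ x ∈ ld (cs u), RO.Mark R (kap s) (cf u ++ RO.wx y x))
    (h' : ∀ x ∈ ld (cs u), RO.Mark R (kap s) (cf u ++ RO.wx y' x)) : y = y' := by
  obtain ⟨v, hv⟩ : ∃ v : List.Vector Bool s, v.1 = y := ⟨⟨y, hy⟩, rfl⟩
  obtain ⟨v', hv'⟩ : ∃ v : List.Vector Bool s, v.1 = y' := ⟨⟨y', hy'⟩, rfl⟩
  obtain ⟨X, hX, hXc⟩ := uq_set hu
  by_contra hne
  have hvv : v ≠ v' := fun e => hne (by rw [← hv, ← hv', e])
  have hm : ∀ x ∈ X, RO.vx v x ∈ wmk R s (cf u) := by
    intro x hx
    rw [uq_marks]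
    have h1 := h x.1 ((hX x).1 hx)
    rw [← hv] at h1
    exact h1
  have hm' : ∀ x ∈ X, RO.vx v' x ∈ wmk R s (cf u) := by
    intro x hx
    rw [uq_marks]
    have h1 := h' x.1 ((hX x).1 hx)
    rw [← hv'] at h1
    exact h1
  obtain ⟨d, hd⟩ : ∃ d, d = RO.vx v v' := ⟨_, rfl⟩
  have hdv : ∀ x, RO.vx d (RO.vx v x) = RO.vx v' x := by
    intro x
    rw [hd, RO.vx_comm v v', ← uq_assoc, RO.vx_vx]
  have hd0 : ∀ g, RO.vx d g ≠ g := by
    intro g hg
    apply hvv
    have h1 : RO.vx v (RO.vx v v') = RO.vx v (RO.vx v v) := by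
      rw [← hd]
      have h2 : d = RO.vx g g := by
        have h3 := RO.vx_vx g d
        rw [RO.vx_comm g d, hg] at h3
        exact h3.symm
      have h4 : RO.vx v v = RO.vx g g := uq_self v g
      rw [h2, h4]
    rw [RO.vx_vx, RO.vx_vx] at h1
    exact h1.symm
  have hdd : ∀ g, RO.vx d (RO.vx d g) = g := fun g => RO.vx_vx d g
  obtain ⟨Y, hY⟩ : ∃ Y : Finset (List.Vector Bool s), Y = X.image (RO.vx v) := ⟨_, rfl⟩
  have hYc : Y.card = jj s := by
    rw [hY, Finset.card_image_of_injective, hXc]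
    intro p q hpq
    have h1 := congrArg (RO.vx v) hpq
    rwa [RO.vx_vx, RO.vx_vx] at h1
  have hYm : ∀ g ∈ Y, g ∈ wmk R s (cf u) := by
    intro g hg
    rw [hY, Finset.mem_image] at hg
    obtain ⟨x, hx, rfl⟩ := hg
    exact hm x hx
  have hYm' : ∀ g ∈ Y, RO.vx d g ∈ wmk R s (cf u) := by
    intro g hg
    rw [hY, Finset.mem_image] at hg
    obtain ⟨x, hx, rfl⟩ := hg
    rw [hdv]
    exact hm' x hx
  have hjj : 3 ≤ jj s := by
    unfold jj
    have h1 : 16 ^ 1 ≤ 16 ^ cc s := Nat.pow_le_pow_right (by norm_num) hc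
    omega
  obtain ⟨g, hg⟩ : Y.Nonempty := Finset.card_pos.1 (by omega)
  obtain ⟨k, hk, hkn⟩ : ∃ k ∈ Y, k ∉ ({g, RO.vx d g} : Finset (List.Vector Bool s)) := by
    apply Finset.exists_mem_notMem_of_card_lt_card
    refine lt_of_le_of_lt Finset.card_le_two ?_
    omega
  rw [Finset.mem_insert, Finset.mem_singleton, not_or] at hkn
  have hkg : k ≠ g := hkn.1
  have hkd : k ≠ RO.vx d g := hkn.2
  apply hq
  refine ⟨cf u, hu.2.1, g, RO.vx d g, k, RO.vx d k, ⟨⟨(hd0 g).symm, hkg.symm, ?_⟩, hkd.symm, ?_,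
    (hd0 k).symm⟩, ⟨hYm g hg, hYm' g hg, hYm k hk, hYm' k hk⟩, ?_⟩
  · intro e
    apply hkd
    rw [e, hdd]
  · intro e
    apply hkg
    have h1 := congrArg (RO.vx d) e
    rw [hdd, hdd] at h1
    exact h1.symm
  · rw [RO.vx_comm g, RO.vx_comm k, ← uq_assoc, ← uq_assoc, uq_self g k]

end Pool.Agent.RC
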