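import Mathlib
import Pool.Agent.RO.CTask
import Pool.Agent.RC.CFpB
import Pool.Agent.RC.CLook
import Pool.Agent.RC.Uniq

set_option autoImplicit false

/-!
# RC-CYes (job): the new language is in UP relative to the oracle

ADAPT `Pool/Agent/ROP/CYes.lean` (check its imports for `RO.ask`).
-/

namespace Pool.Agent.RC

open N68a2faeb N793a5b8e N487b59b3 Pool.Agent.Helper22
open Pool.Agent.Helper20.Cons (join Po cRun)
open Pool.Agent.RO (Vp lev)
open Pool.Agent.ROP (UPo)

section aux

open Pool.Agent.RO (wx uns mem_uns wmem_filter ask Mark)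
open Pool.Agent.ROP (markB markB_FP markB_iff)

private theorem cy_nc {α : Type} [N487b59b3 α] {f : α → List Bool} (hf : FP f) :
    FP fun a => nc (f a) := nc_FP.comp hf

private theorem yes_qY : FP qY := by
  have h1 : FP fun p : ((List Bool × List Bool) × List Bool) × List Bool =>
      true :: ((cf p.1.1.1 ++ wx p.1.1.2 p.1.2) ++ p.2) := by
    have e1 : FP fun p : ((List Bool × List Bool) × List Bool) × List Bool =>
        (cf p.1.1.1 ++ wx p.1.1.2 p.1.2) ++ p.2 := by fun_prop
    exact (FP.const true).cons e1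
  have h2 := FP.map_ctx h1
  have h3 : FP fun p : (List Bool × List Bool) × List Bool =>
      (uns (nc p.1.1)).map fun t => true :: ((cf p.1.1 ++ wx p.1.2 p.2) ++ t) := by
    have e1 : FP fun p : (List Bool × List Bool) × List Bool => nc p.1.1 :=
      cy_nc (f := fun p : (List Bool × List Bool) × List Bool => p.1.1) (by fun_prop)
    exact h2.comp (FP.id.pair (RO.FP.uns e1))
  have h4 := RO.FP.flatMap_ctx h3
  have h5 : FP fun a : List Bool × List Bool => (ld (cs a.1)).flatMap fun x =>
      (uns (nc a.1)).map fun t => true :: ((cf a.1 ++ wx a.2 x) ++ t) := by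
    have e2 : FP fun a : List Bool × List Bool => ld (cs a.1) := by fun_prop
    exact h4.comp (FP.id.pair e2)
  have h6 : FP fun a : List Bool × List Bool => nc a.1 := cy_nc FP.fst
  exact FP.append (FP.strs h6) h5

private theorem d0 : FP fun c : (List Bool × List Bool) × List (List Bool) => nc c.1.1 :=
  cy_nc (f := fun c : (List Bool × List Bool) × List (List Bool) => c.1.1) (by fun_prop)

private theorem d1 (V : Vp) (S i₀ : ℕ) :
    FP fun c : (List Bool × List Bool) × List (List Bool) => levB V S i₀ c.1.1 c.2 :=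
  (levB_FP V S i₀).comp (f := fun c : (List Bool × List Bool) × List (List Bool) =>
    (c.1.1, c.2)) (by fun_prop)

private theorem d4 :
    FP fun c : (List Bool × List Bool) × List (List Bool) => un (kap (nc c.1.1).length) :=
  kap_FP.comp d0

private theorem d5 :
    FP fun p : ((List Bool × List Bool) × List (List Bool)) × List Bool =>
      markB p.1.2 (un (kap (nc p.1.1.1).length)) (cf p.1.1.1 ++ wx p.1.1.2 p.2) := by
  have e1 : FP fun p : ((List Bool × List Bool) × List (List Bool)) × List Bool =>
      un (kap (nc p.1.1.1).length) :=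
    d4.comp (f := fun p : ((List Bool × List Bool) × List (List Bool)) × List Bool =>
      p.1) FP.fst
  have e2 : FP fun p : ((List Bool × List Bool) × List (List Bool)) × List Bool =>
      p.1.2 := by fun_prop
  have e3 : FP fun p : ((List Bool × List Bool) × List (List Bool)) × List Bool =>
      cf p.1.1.1 ++ wx p.1.1.2 p.2 := by fun_prop
  exact markB_FP.comp (f := fun p : ((List Bool × List Bool) × List (List Bool)) × List Bool =>
    (p.1.2, (un (kap (nc p.1.1.1).length), cf p.1.1.1 ++ wx p.1.1.2 p.2)))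
    (e2.pair (e1.pair e3))

private theorem d7 :
    FP fun c : (List Bool × List Bool) × List (List Bool) =>
      (ld (cs c.1.1)).all fun x =>
        markB c.2 (un (kap (nc c.1.1).length)) (cf c.1.1 ++ wx c.1.2 x) := by
  have e1 : FP fun c : (List Bool × List Bool) × List (List Bool) => ld (cs c.1.1) := by fun_prop
  exact (RO.FP.all_ctx d5).comp (f := fun c : (List Bool × List Bool) × List (List Bool) =>
    (c, ld (cs c.1.1))) (FP.id.pair e1)

private theorem d2 : FP fun c : (List Bool × List Bool) × List (List Bool) =>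
    leneq c.1.2 (nc c.1.1) := FP.leneq (by fun_prop) d0

private theorem yes_dY (V : Vp) (S i₀ : ℕ) : FP (dY V S i₀) := by
  have h := (d1 V S i₀).and (d2.and d7)
  exact h

private theorem dY_iff {V : Vp} {S : ℕ} (hV : Big V S) (i₀ : ℕ) (A R : Oracle)
    (z y : List Bool) :
    dY V S i₀ ((z, y), (qY (z, y)).filter fun q => join A R q) = true ↔
      ∃ i, i₀ ≤ i ∧ IsInst (lev S i) (cnt V S A R i) z ∧ y.length = lev S i ∧
        ∀ x ∈ ld (cs z), Mark R (kap (lev S i)) (cf z ++ wx y x) := by
  set T := (qY (z, y)).filter fun q => join A R q with hT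
  have hT1 : ∀ w ∈ strs (nc z), wmem T w = join A R w := by
    intro w hw
    exact wmem_filter (List.mem_append_left _ hw)
  have hT2 : ∀ x ∈ ld (cs z), ∀ a < (nc z).length,
      wmem T (true :: ((cf z ++ wx y x) ++ un a)) = R ((cf z ++ wx y x) ++ un a) := by
    intro x hx a ha
    refine wmem_filter (R := join A R) (q := true :: ((cf z ++ wx y x) ++ un a))
      (List.mem_append_right _ ?_)
    rw [List.mem_flatMap]
    refine ⟨x, hx, ?_⟩
    rw [List.mem_map]
    exact ⟨un a, mem_uns.2 ⟨a, ha, rfl⟩, rfl⟩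
  have hmark : ∀ i, IsInst (lev S i) (cnt V S A R i) z → ∀ x ∈ ld (cs z),
      (markB T (un (kap (nc z).length)) (cf z ++ wx y x) = true ↔
        Mark R (kap (lev S i)) (cf z ++ wx y x)) := by
    intro i hi x hx
    have e2 : (nc z).length = lev S i := by rw [nc_eq hi, un_length]
    rw [markB_iff (R := R), un_length, e2]
    intro a ha
    refine hT2 x hx a ?_
    rw [un_length, e2] at ha
    rw [e2]
    unfold kap at ha
    omega
  show (levB V S i₀ z T && (leneq y (nc z) && (ld (cs z)).all fun x =>
    markB T (un (kap (nc z).length)) (cf z ++ wx y x))) = true ↔ _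
  rw [Bool.and_eq_true, Bool.and_eq_true, levB_iff hV i₀ hT1, leneq_iff, List.all_eq_true]
  constructor
  · rintro ⟨⟨i, hi, hinst⟩, hlen, hall⟩
    refine ⟨i, hi, hinst, ?_, fun x hx => (hmark i hinst x hx).1 (hall x hx)⟩
    rw [hlen, nc_eq hinst, un_length]
  · rintro ⟨i, hi, hinst, hlen, hall⟩
    refine ⟨⟨i, hi, hinst⟩, ?_, fun x hx => (hmark i hinst x hx).2 (hall x hx)⟩
    rw [hlen, nc_eq hinst, un_length]

end aux

open Classical in
theorem up_side {V : Vp} {S : ℕ} (hV : Big V S) (i₀ : ℕ) (A R : Oracle)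
    (hq : ∀ i, i₀ ≤ i → ¬ Quad R (lev S i) (cnt V S A R i)) :
    (fun z => decide (Lng V S i₀ A R z)) ∈ UPo (join A R) := by
  obtain ⟨M, hM⟩ := RO.ask qY (dY V S i₀) yes_qY (yes_dY V S i₀)
  refine ⟨Polynomial.X, M, fun z => ?_, fun z y y' _ _ h h' => ?_⟩
  · rw [decide_eq_true_iff]
    unfold Accepts
    constructor
    · rintro ⟨i, hi, hinst, y, hy, hall⟩
      refine ⟨y, ?_, ?_⟩
      · rw [Polynomial.eval_X, hy]
        exact le_inst hinst
      · rw [hM, dY_iff hV]
        exact ⟨i, hi, hinst, hy, hall⟩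
    · rintro ⟨y, -, h⟩
      rw [hM, dY_iff hV] at h
      obtain ⟨i, hi, hinst, hy, hall⟩ := h
      exact ⟨i, hi, hinst, y, hy, hall⟩
  · rw [hM, dY_iff hV] at h h'
    obtain ⟨i, hi, hinst, hy, hall⟩ := h
    obtain ⟨i', hi', hinst', hy', hall'⟩ := h'
    have hii := level_unique hinst hinst'
    subst hii
    have hc := (hV i i le_rfl).1
    exact uniq (by omega) hinst (hq i hi) hy hy' hall hall'

end Pool.Agent.RC
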