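import Mathlib
import Pool.Agent.RO.CTk
import Pool.Agent.RC.Defs

set_option autoImplicit false

/-!
# RC-Cod: procedures with advice and the universal language; P/poly
-/

namespace Pool.Agent.RC

open Pool.Agent.Helper22 N487b59b3 N68a2faeb N793a5b8e
open Pool.Agent.Helper20.Cons (join Po cRun)
open Pool.Agent.RO (KK pad)

theorem cod_pair (M : OracleProc (List Bool × List Bool) Bool) :
    ∃ (j : List Bool) (e : ℕ), ∀ (X : Oracle) (C : DecisionProblem) (u w : List Bool),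
      KK X C (pad j e (cd u w)) = M.run (join X C) (u, w) := by
  obtain ⟨j, P, hP, hPm, hj⟩ := Pool.Agent.Helper20.Cons.exists_codeG M
    (fun y : List Bool => ((cf y, cs y) : List Bool × List Bool)) (by fun_prop)
    (fun b : Bool => [b]) (by fun_prop)
  obtain ⟨q, hq⟩ := exists_poly hP
  obtain ⟨e, he⟩ := poly_le_pow q
  refine ⟨j, e, fun X C u w => ?_⟩
  have h1 := (hj (join X C) (cd u w) (un ((cd u w).length ^ e + e)) (by
    rw [un_length]
    exact (hq _).trans (he _))).2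
  rw [KK, pad, cf_cd, cs_cd, cs_cd, cf_cd, h1, cf_cd, cs_cd]
  rfl

private theorem cd_pow_add (a D : ℕ) : 2 ^ a + D ≤ 2 ^ (a + D) := by
  have h1 : 1 ≤ 2 ^ a := Nat.one_le_two_pow
  have h2 : D + 1 ≤ 2 ^ D := Nat.lt_two_pow_self
  rw [pow_add]
  nlinarith

private theorem cd_growth (e : ℕ) : ∃ L₀, ∀ L, L₀ ≤ L → ((L + 2) * e) ^ 6 ≤ 2 ^ L := by
  have h := tendsto_pow_const_div_const_pow_of_one_lt 6 (one_lt_two : (1 : ℝ) < 2)
  have hpos : (0 : ℝ) < 1 / (4 * ((e : ℝ) ^ 6 + 1)) := by positivity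
  have h2 := h.eventually (gt_mem_nhds hpos)
  obtain ⟨N, hN⟩ := Filter.eventually_atTop.1 h2
  refine ⟨N, fun L hL => ?_⟩
  have h3 := hN (L + 2) (by omega)
  rw [div_lt_div_iff₀ (by positivity) (by positivity)] at h3
  have h4 : (((L + 2 : ℕ) : ℝ) * e) ^ 6 ≤ 2 ^ L := by
    have h5 : (0 : ℝ) ≤ ((L + 2 : ℕ) : ℝ) ^ 6 := by positivity
    have h6 : (2 : ℝ) ^ (L + 2) = 4 * 2 ^ L := by
      rw [pow_add]
      ring
    rw [h6] at h3
    rw [mul_pow]
    nlinarith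
  exact_mod_cast h4

theorem subExp_of_pPoly {X : Oracle} {L : DecisionProblem} (h : PPoly X L) : SubExp X L := by
  obtain ⟨M, p, v, hv, hM⟩ := h
  obtain ⟨e, he⟩ := poly_le_pow p
  obtain ⟨L₀, hL₀⟩ := cd_growth e
  refine ⟨M, v, 2 ^ L₀, fun n hn => ?_, fun x _ => hM x⟩
  obtain ⟨l, hl⟩ : ∃ l, l = Nat.log 2 n := ⟨_, rfl⟩
  have hn0 : n ≠ 0 := by
    have : 1 ≤ 2 ^ L₀ := Nat.one_le_two_pow
    omega
  have h1 : 2 ^ l ≤ n := by
    rw [hl]
    exact Nat.pow_log_le_self 2 hn0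
  have h2 : n < 2 ^ (l + 1) := by
    rw [hl]
    exact Nat.lt_pow_succ_log_self (by norm_num) n
  have h3 : L₀ ≤ l := by
    rw [hl]
    exact (Nat.le_log_iff_pow_le (by norm_num) hn0).2 hn
  have h4 : (v n).length ≤ 2 ^ ((l + 2) * e) := by
    calc (v n).length ≤ n ^ e + e := (hv n).trans (he n)
      _ ≤ (2 ^ (l + 1)) ^ e + e := by
        have := Nat.pow_le_pow_left h2.le e
        omega
      _ = 2 ^ ((l + 1) * e) + e := by rw [← pow_mul]
      _ ≤ 2 ^ ((l + 1) * e + e) := cd_pow_add _ _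
      _ = 2 ^ ((l + 2) * e) := by
        congr 1
        ring
  have h5 : Nat.log 2 (v n).length ≤ (l + 2) * e := by
    refine (Nat.log_mono_right h4).trans ?_
    rw [Nat.log_pow (by norm_num)]
  calc Nat.log 2 (v n).length ^ 6 ≤ ((l + 2) * e) ^ 6 := Nat.pow_le_pow_left h5 6
    _ ≤ 2 ^ l := hL₀ l h3
    _ ≤ n := h1

end Pool.Agent.RC
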