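import Mathlib
import Pool.Agent.RC.AE
import Pool.Agent.RC.C1b
import Pool.Agent.RC.CYes
import Pool.Agent.RC.CNo
import Pool.Agent.RC.Cod

set_option autoImplicit false

/-!
# NP ∩ coNP, circuits and a random oracle: assembly
-/

namespace Pool.Agent.RC

open MeasureTheory Pool.Agent.Helper22 N487b59b3 N68a2faeb N793a5b8e
open Pool.Agent.Helper20.Cons (join Po cRun)
open Pool.Agent.RO (Vp pads pad pj pe lev coin exists_number)
open Pool.Agent.ROP (UPo)

theorem lng_iff {V : Vp} {S i₀ i : ℕ} {A R : Oracle} {u : List Bool} (hi : i₀ ≤ i)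
    (h : IsInst (lev S i) (cnt V S A R i) u) :
    Lng V S i₀ A R u ↔ Sat R (lev S i) u := by
  constructor
  · rintro ⟨i', _, h1, h2⟩
    have h3 : i' = i := level_unique h1 h
    subst h3
    exact h2
  · exact fun h1 => ⟨i, hi, h, h1⟩

theorem no_hard {S : Vp → ℕ} (hS : ∀ V, Big V (S V)) {A R : Oracle}
    (hR : ∀ V : Vp, (∀ l, ∃ i, cnt V (S V) A R i = l ∧ Fail V A R (lev (S V) i) l) ∧
      ((∀ i, ¬ Inv V A R (lev (S V) i) (cnt V (S V) A R i)) →
        ∃ i₀, ∀ i, i₀ ≤ i → Win R (lev (S V) i) (cnt V (S V) A R i) ∧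
          ¬ Quad R (lev (S V) i) (cnt V (S V) A R i)))
    {B : DecisionProblem} (hB : B ∈ NPo (join A R) ∩ coNPo (join A R)) :
    ∃ L ∈ UPo (join A R) ∩ coNPo (join A R), ¬ SubExp (join (join A R) B) L := by
  classical
  obtain ⟨⟨p₁, M₁, h₁⟩, ⟨p₂, M₂, h₂⟩⟩ := RO.KK_mem hB
  have h₂' : ∀ x, (RO.KK (join A R) B x = false) ↔ Accepts M₂ p₂ (join A R) x := by
    intro x
    rw [← h₂ x]
    simp
  let V : Vp := fun b => if b then (M₁, p₁) else (M₂, p₂)
  have hV1 : ∀ l x, ROA.acc V true A R l x ↔ RO.KK (join A R) B (pads l x) = true :=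
    fun l x => (h₁ _).symm
  have hV2 : ∀ l x, ROA.acc V false A R l x ↔ RO.KK (join A R) B (pads l x) = false :=
    fun l x => (h₂' _).symm
  have hinv : ∀ s l, ¬ Inv V A R s l := by
    rintro s l ⟨v, _, u, _, h⟩
    rw [hV1, hV2] at h
    cases h' : RO.KK (join A R) B (pads l (cd u v)) <;> simp [h'] at h
  obtain ⟨hfail, hwin⟩ := hR V
  obtain ⟨i₀, hi₀⟩ := hwin fun i => hinv _ _
  refine ⟨fun z => decide (Lng V (S V) i₀ A R z),
    ⟨up_side (hS V) i₀ A R fun i hi => (hi₀ i hi).2,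
      conp_side (hS V) i₀ A R fun i hi => (hi₀ i hi).1⟩, ?_⟩
  rintro ⟨M, v, n₀, hv, hM⟩
  obtain ⟨j, e, hje⟩ := cod_pair M
  obtain ⟨l, hl, hj, he⟩ := exists_number j e (i₀ + n₀)
  obtain ⟨i, hi, hf⟩ := hfail l
  have hli : l ≤ i := by
    rw [← hi]
    exact cnt_le V (S V) A R i
  have hc := (hS V i l hli).1
  obtain ⟨s, hs⟩ : ∃ s, s = lev (S V) i := ⟨_, rfl⟩
  rw [← hs] at hf hc
  have hsi : i ≤ s := by
    rw [hs]
    exact RO.le_lev (S V) i
  rcases hf with hf | hf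
  · exact hinv _ _ hf
  obtain ⟨u₀, hu₀, -⟩ := hf [] (by simp)
  have hn₀ : n₀ ≤ u₀.length := by
    have := le_inst hu₀
    omega
  obtain ⟨u, hu, hw⟩ := hf (v u₀.length) (adv_bound hc hu₀ (hv _ hn₀))
  have hlen : u.length = u₀.length := by rw [inst_length hu, inst_length hu₀]
  have hL := hM u (by omega)
  have hu' : IsInst (lev (S V) i) (cnt V (S V) A R i) u := by
    rw [← hs, hi]
    exact hu
  have h7 := lng_iff (V := V) (i₀ := i₀) (by omega) hu'
  rw [← hs] at h7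
  have h8 : RO.KK (join A R) B (pads l (cd u (v u₀.length))) =
      decide (Lng V (S V) i₀ A R u) := by
    rw [RO.pads, hj, he, hje, ← hlen, hL]
  rw [hV1, hV2, h8, ← h7] at hw
  simp at hw

/-- For every oracle `A` and almost every oracle `R`, relative to `X = join A R` no language `B` of
NP ∩ coNP is hard for UP ∩ coNP under Turing reductions with advice of length `2 ^ (n ^ (1 / 6))`. -/
theorem random_circuits (A : Oracle) : ∀ᵐ R ∂coin,
    ∀ B ∈ NPo (join A R) ∩ coNPo (join A R),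
      ∃ L ∈ UPo (join A R) ∩ coNPo (join A R), ¬ SubExp (join (join A R) B) L := by
  choose S hS using exists_big
  have h : ∀ᵐ R ∂coin, ∀ V : Vp,
      (∀ l, ∃ i, cnt V (S V) A R i = l ∧ Fail V A R (lev (S V) i) l) ∧
      ((∀ i, ¬ Inv V A R (lev (S V) i) (cnt V (S V) A R i)) →
        ∃ i₀, ∀ i, i₀ ≤ i → Win R (lev (S V) i) (cnt V (S V) A R i) ∧
          ¬ Quad R (lev (S V) i) (cnt V (S V) A R i)) :=
    ae_all_iff.2 fun V => ae_main (hS V) A
  filter_upwards [h] with R hR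
  exact fun B hB => no_hard hS hR hB

end Pool.Agent.RC
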